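import Pool.Agent.Lib.MP_fad775_nt.Defs

/-!
# MP_fad775_nt: logarithmic derivative of the Euler product and Jacobi's identity
-/

namespace Pool.Agent.Lib.MP_fad775_nt

open PowerSeries Finset

noncomputable section

/-- finite Euler product `∏_{k ≤ n} (1 - X ^ k)` -/
def eP (n : ℕ) : ℚ⟦X⟧ := ∏ i ∈ range n, (1 - X ^ (i + 1))

theorem eP_succ (n : ℕ) : eP (n + 1) = eP n * (1 - X ^ (n + 1)) := prod_range_succ ..

theorem eP_zero : eP 0 = 1 := by simp [eP]

theorem eP_stable {N k : ℕ} (h : N ≤ k) : (X : ℚ⟦X⟧) ^ (N + 1) ∣ eP k - eP N := by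
  induction k, h using Nat.le_induction with
  | base => simp
  | succ k hk ih =>
    rw [eP_succ]
    have h2 : eP k * (1 - X ^ (k + 1)) - eP N
        = (eP k - eP N) - X ^ (N + 1) * (X ^ (k - N) * eP k) := by
      have : (X : ℚ⟦X⟧) ^ (k + 1) = X ^ (N + 1) * X ^ (k - N) := by
        rw [← pow_add]; congr 1; omega
      rw [this]; ring
    rw [h2]; exact dvd_sub ih (dvd_mul_right _ _)

theorem eP_Eu (N : ℕ) : (X : ℚ⟦X⟧) ^ (N + 1) ∣ Eu - eP N := by
  rw [X_pow_dvd_iff]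
  intro m hm
  have h := coeff_prod_one_sub_X_pow_eventually_eq ℚ m
  obtain ⟨s0, hs0⟩ := Filter.eventually_atTop.1 h
  set k := max N (s0.sup id + 1) with hk
  have hsub : s0 ≤ range k := by
    intro x hx
    have : x ≤ s0.sup id := le_sup (f := id) hx
    simp only [mem_range, hk]; omega
  have h1 := hs0 _ hsub
  have h2 := (X_pow_dvd_iff.1 (eP_stable (N := N) (k := k) (le_max_left _ _))) m hm
  have h3 : coeff m (eP k) = coeff m Eu := h1
  rw [map_sub] at h2 ⊢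
  rw [← h3]; exact h2

/-! ### Logarithmic derivative -/

theorem Dq_mul (f g : ℚ⟦X⟧) : Dq (f * g) = Dq f * g + f * Dq g := by
  ext n
  simp only [Dq, coeff_mk, map_add, coeff_mul, mul_sum, ← sum_add_distrib]
  refine sum_congr rfl fun p hp => ?_
  have : (p.1 : ℚ) + p.2 = n := by exact_mod_cast mem_antidiagonal.1 hp
  rw [← this]; ring

/-- `∑_{j ≥ 1} X ^ (k j)` -/
def uS (k : ℕ) : ℚ⟦X⟧ := mk fun n => if 0 < n ∧ k ∣ n then 1 else 0

theorem uS_mul (k : ℕ) (hk : 0 < k) : (1 - X ^ k) * uS k = X ^ k := by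
  ext n
  rw [sub_mul, one_mul, map_sub, coeff_X_pow_mul', coeff_X_pow]
  simp only [uS, coeff_mk]
  by_cases hn : k ≤ n
  · rw [if_pos hn]
    obtain ⟨c, rfl⟩ := Nat.exists_eq_add_of_le hn
    simp only [add_tsub_cancel_left]
    have h1 : (k ∣ k + c) ↔ k ∣ c := by simp
    by_cases hc : c = 0
    · subst hc; simp [hk]
    · have hc' : 0 < c := Nat.pos_of_ne_zero hc
      have h2 : ¬ (k + c = k) := by omega
      simp only [h2, if_false]
      by_cases hd : k ∣ c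
      · rw [if_pos ⟨by omega, h1.2 hd⟩, if_pos ⟨hc', hd⟩]; simp
      · rw [if_neg (fun h => hd (h1.1 h.2)), if_neg (fun h => hd h.2)]; simp
  · have h2 : ¬ (n = k) := by omega
    rw [if_neg hn, if_neg h2, if_neg]; · simp
    rintro ⟨h3, h4⟩; exact hn (Nat.le_of_dvd h3 h4)

theorem Dq_one_sub (k : ℕ) : Dq (1 - X ^ k) = - ((k : ℚ⟦X⟧) * X ^ k) := by
  ext n
  have : (k : ℚ⟦X⟧) = C (k : ℚ) := by simp
  rw [this, map_neg, coeff_C_mul]
  simp only [Dq, coeff_mk, map_sub, coeff_one, coeff_X_pow]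
  by_cases h0 : n = 0
  · subst h0; by_cases h1 : (0:ℕ) = k
    · subst h1; simp
    · simp [h1]
  · by_cases h1 : n = k
    · subst h1; simp [h0]
    · simp [h0, h1]

theorem Dq_eP (n : ℕ) : Dq (eP n) = - (eP n * ∑ k ∈ range n, ((k + 1 : ℕ) : ℚ⟦X⟧) * uS (k + 1)) := by
  induction n with
  | zero => 
    rw [eP_zero]; ext n; simp [Dq, coeff_one]
  | succ n ih =>
    rw [eP_succ, Dq_mul, ih, Dq_one_sub, sum_range_succ]
    linear_combination (-(eP n) * ((n + 1 : ℕ) : ℚ⟦X⟧)) * (uS_mul (n + 1) (Nat.succ_pos n)).symm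

theorem Dq_Eu : 24 * Dq Eu = (E2 - 1) * Eu := by
  ext N
  have hE := X_pow_dvd_iff.1 (eP_Eu N)
  have hE' : ∀ m ≤ N, coeff m Eu = coeff m (eP N) := fun m hm => by
    have := hE m (by omega); rw [map_sub] at this; linarith
  have h24 : (24 : ℚ⟦X⟧) = C (24 : ℚ) := (map_ofNat C 24).symm
  have h1 : coeff N (24 * Dq Eu) = coeff N (24 * Dq (eP N)) := by
    rw [h24, coeff_C_mul, coeff_C_mul]; simp only [Dq, coeff_mk]; rw [hE' N le_rfl]
  rw [h1, Dq_eP]
  have hsum : ∀ j ≤ N, coeff j (∑ k ∈ range N, ((k + 1 : ℕ) : ℚ⟦X⟧) * uS (k + 1)) =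
      if j = 0 then 0 else (ArithmeticFunction.sigma 1 j : ℚ) := by
    intro j hj
    rw [map_sum]
    have : ∀ k : ℕ, ((k + 1 : ℕ) : ℚ⟦X⟧) = C ((k + 1 : ℕ) : ℚ) := fun k => (map_natCast C (k + 1)).symm
    simp only [this, coeff_C_mul, uS, coeff_mk]
    by_cases h0 : j = 0
    · subst h0; simp
    · rw [if_neg h0, ArithmeticFunction.sigma_one_apply]
      push_cast
      have hj0 : 0 < j := Nat.pos_of_ne_zero h0
      have : j.divisors = (image (fun k => k + 1) ((range N).filter (fun k => k + 1 ∣ j))) := by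
        ext d
        simp only [Nat.mem_divisors, mem_image, mem_filter, mem_range]
        constructor
        · rintro ⟨h1, h2⟩
          have := Nat.le_of_dvd hj0 h1
          have hd : 0 < d := Nat.pos_of_dvd_of_pos h1 hj0
          exact ⟨d - 1, ⟨by omega, by rwa [Nat.sub_add_cancel hd]⟩, Nat.sub_add_cancel hd⟩
        · rintro ⟨k, ⟨_, h2⟩, rfl⟩; exact ⟨h2, h0⟩
      rw [this, sum_image (fun a _ b _ h => by simpa using h), sum_filter]
      refine sum_congr rfl fun k _ => ?_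
      by_cases hd : k + 1 ∣ j
      · simp [hd, hj0]
      · simp [hd]
  have h3 : (24 : ℚ⟦X⟧) * -(eP N * ∑ k ∈ range N, ((k + 1 : ℕ) : ℚ⟦X⟧) * uS (k + 1))
     = C (-24 : ℚ) * ((∑ k ∈ range N, ((k + 1 : ℕ) : ℚ⟦X⟧) * uS (k + 1)) * eP N) := by
    rw [show (C (-24 : ℚ) : ℚ⟦X⟧) = -24 by rw [map_neg, ← h24]]; ring
  rw [h3, coeff_C_mul, coeff_mul, coeff_mul, mul_sum]
  refine sum_congr rfl fun p hp => ?_
  have hp' := mem_antidiagonal.1 hp
  rw [hsum p.1 (by omega), ← hE' p.2 (by omega), ← mul_assoc]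
  congr 1
  simp only [E2, map_sub, coeff_mk, coeff_one]
  by_cases h0 : p.1 = 0 <;> simp [h0]

/-! ### Jacobi's identity -/

/-- `R k = 1 / (q)_k` for `k ≥ 0` and `0` for `k < 0` -/
def rR (k : ℤ) : ℚ⟦X⟧ := if k < 0 then 0 else (eP k.toNat)⁻¹

theorem constCoeff_eP (n : ℕ) : constantCoeff (eP n) = 1 := by
  induction n with
  | zero => simp [eP_zero]
  | succ n ih => rw [eP_succ, map_mul, ih]; simp

theorem eP_mul_inv (n : ℕ) : eP n * (eP n)⁻¹ = 1 :=
  PowerSeries.mul_inv_cancel _ (by rw [constCoeff_eP]; exact one_ne_zero)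

theorem eP_mul_rR (n : ℕ) : eP n * rR n = 1 := by
  simp [rR, eP_mul_inv]

/-- `R (s - 1) = (1 - q ^ s) R s` -/
theorem rR_pred (s : ℕ) : rR ((s : ℤ) - 1) = (1 - X ^ s) * rR s := by
  rcases s with _ | s
  · simp [rR]
  · have h1 : ((s + 1 : ℕ) : ℤ) - 1 = (s : ℤ) := by push_cast; ring
    rw [h1]
    have h2 := eP_mul_rR s
    have h3 := eP_mul_rR (s + 1)
    rw [eP_succ] at h3
    calc rR (s : ℤ) = rR (s : ℤ) * (eP s * (1 - X ^ (s + 1)) * rR ((s + 1 : ℕ) : ℤ)) := by rw [h3, mul_one]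
      _ = (eP s * rR (s : ℤ)) * ((1 - X ^ (s + 1)) * rR ((s + 1 : ℕ) : ℤ)) := by ring
      _ = _ := by rw [h2, one_mul]

theorem rR_neg {k : ℤ} (h : k < 0) : rR k = 0 := by simp [rR, h]

/-- triangular exponents -/
def tri (m : ℤ) : ℕ := (m * (m + 1) / 2).toNat

theorem tri_spec (m : ℤ) : 2 * (tri m : ℤ) = m * (m + 1) := by
  have h1 : 2 ∣ m * (m + 1) := even_iff_two_dvd.1 (Int.even_mul_succ_self m)
  have h2 : 0 ≤ m * (m + 1) := by
    rcases le_or_gt 0 m with h | h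
    · positivity
    · nlinarith
  have h3 : 0 ≤ m * (m + 1) / 2 := Int.ediv_nonneg h2 (by norm_num)
  rw [tri, Int.toNat_of_nonneg h3]
  exact Int.mul_ediv_cancel' h1

/-- the sign `(-1) ^ |m|` -/
def sg (m : ℤ) : ℚ⟦X⟧ := (-1) ^ m.natAbs

theorem sg_add_one (m : ℤ) : sg (m + 1) = - sg m := by
  unfold sg
  rcases Int.even_or_odd m with h | h
  · have h1 : Odd (m + 1) := h.add_one
    rw [Odd.neg_one_pow (Int.natAbs_odd.2 h1), Even.neg_one_pow (Int.natAbs_even.2 h)]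
  · have h1 : Even (m + 1) := h.add_one
    rw [Even.neg_one_pow (Int.natAbs_even.2 h1), Odd.neg_one_pow (Int.natAbs_odd.2 h)]; ring

theorem sg_sub_one (m : ℤ) : sg (m - 1) = - sg m := by
  have := sg_add_one (m - 1)
  rw [sub_add_cancel] at this; rw [this]; ring

/-- coefficients of the finite triple product -/
def aT (n : ℕ) (m : ℤ) : ℚ⟦X⟧ := sg m * X ^ tri m * eP (2 * n) * rR (n + m) * rR (n - m)

theorem aT_zero (m : ℤ) : aT 0 m = if m = 0 then 1 else 0 := by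
  unfold aT
  by_cases h : m = 0
  · subst h; simp [sg, tri, rR, eP_zero]
  · rw [if_neg h]
    rcases lt_or_gt_of_ne h with h1 | h1
    · rw [rR_neg (k := ((0 : ℕ) : ℤ) + m) (by simpa using h1)]; ring
    · rw [rR_neg (k := ((0 : ℕ) : ℤ) - m) (by simpa using h1)]; ring

theorem aT_of_lt {n : ℕ} {m : ℤ} (h : (n : ℤ) < |m|) : aT n m = 0 := by
  unfold aT
  rcases lt_abs.1 h with h1 | h1
  · rw [rR_neg (k := (n : ℤ) - m) (by linarith)]; ring
  · rw [rR_neg (k := (n : ℤ) + m) (by linarith)]; ring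

theorem aT_succ (n : ℕ) (m : ℤ) : aT (n + 1) m =
    (1 + X ^ (2 * n + 1)) * aT n m - X ^ (n + 1) * aT n (m - 1) - X ^ n * aT n (m + 1) := by
  rcases lt_or_ge ((n : ℤ) + 1) |m| with h | h
  · have e1 : aT (n + 1) m = 0 := aT_of_lt (by push_cast; exact h)
    have e2 : aT n m = 0 := aT_of_lt (by linarith)
    have e3 : aT n (m - 1) = 0 := aT_of_lt (by
      have := abs_sub_abs_le_abs_sub m 1; rw [abs_one] at this; linarith)
    have e4 : aT n (m + 1) = 0 := aT_of_lt (by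
      have := abs_sub_abs_le_abs_sub m (-1); rw [abs_neg, abs_one, sub_neg_eq_add] at this; linarith)
    rw [e1, e2, e3, e4]; ring
  · rw [abs_le] at h
    obtain ⟨s, hs⟩ := Int.eq_ofNat_of_zero_le (show 0 ≤ (n : ℤ) + 1 + m by linarith)
    obtain ⟨t, ht⟩ := Int.eq_ofNat_of_zero_le (show 0 ≤ (n : ℤ) + 1 - m by linarith)
    have hst : s + t = 2 * n + 2 := by
      have : (s : ℤ) + t = 2 * n + 2 := by rw [← hs, ← ht]; ring
      exact_mod_cast this
    -- exponents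
    have x1 : (X : ℚ⟦X⟧) ^ (n + 1) * X ^ tri (m - 1) = X ^ t * X ^ tri m := by
      rw [← pow_add, ← pow_add]; congr 1
      have h1 := tri_spec m
      have h2 := tri_spec (m - 1)
      have : (2 : ℤ) * ((n + 1 + tri (m - 1) : ℕ) : ℤ) = 2 * ((t + tri m : ℕ) : ℤ) := by
        push_cast
        rw [mul_add, mul_add, mul_add, h1, h2, ← ht]; ring
      omega
    have x2 : (X : ℚ⟦X⟧) ^ n * X ^ tri (m + 1) = X ^ s * X ^ tri m := by
      rw [← pow_add, ← pow_add]; congr 1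
      have h1 := tri_spec m
      have h2 := tri_spec (m + 1)
      have : (2 : ℤ) * ((n + tri (m + 1) : ℕ) : ℤ) = 2 * ((s + tri m : ℕ) : ℤ) := by
        push_cast
        rw [mul_add, mul_add, h1, h2, ← hs]; ring
      omega
    have r1 : rR ((n : ℤ) + m) = (1 - X ^ s) * rR s := by
      rw [← rR_pred, ← hs]; congr 1; ring
    have r2 : rR ((n : ℤ) - m) = (1 - X ^ t) * rR t := by
      rw [← rR_pred, ← ht]; congr 1; ring
    have r3 : rR ((n : ℤ) + (m - 1)) = (1 - X ^ (s - 1)) * (1 - X ^ s) * rR s := by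
      rcases s with _ | s
      · rw [rR_neg (by push_cast at hs; linarith)]; simp
      · have e : (n : ℤ) + (m - 1) = (s : ℤ) - 1 := by push_cast at hs; linarith
        have e' : (s : ℤ) = ((s + 1 : ℕ) : ℤ) - 1 := by push_cast; ring
        rw [e, rR_pred]
        rw [show rR (s : ℤ) = (1 - X ^ (s + 1)) * rR ((s + 1 : ℕ) : ℤ) by rw [← rR_pred, ← e']]
        simp only [add_tsub_cancel_right]; ring
    have r4 : rR ((n : ℤ) - (m + 1)) = (1 - X ^ (t - 1)) * (1 - X ^ t) * rR t := by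
      rcases t with _ | t
      · rw [rR_neg (by push_cast at ht; linarith)]; simp
      · have e : (n : ℤ) - (m + 1) = (t : ℤ) - 1 := by push_cast at ht; linarith
        have e' : (t : ℤ) = ((t + 1 : ℕ) : ℤ) - 1 := by push_cast; ring
        rw [e, rR_pred]
        rw [show rR (t : ℤ) = (1 - X ^ (t + 1)) * rR ((t + 1 : ℕ) : ℤ) by rw [← rR_pred, ← e']]
        simp only [add_tsub_cancel_right]; ring
    have r5 : rR ((n : ℤ) - (m - 1)) = rR t := by rw [← ht]; congr 1; ring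
    have r6 : rR ((n : ℤ) + (m + 1)) = rR s := by rw [← hs]; congr 1; ring
    have r7 : rR (((n + 1 : ℕ) : ℤ) + m) = rR s := by rw [← hs]; congr 1
    have r8 : rR (((n + 1 : ℕ) : ℤ) - m) = rR t := by rw [← ht]; congr 1
    have p1 : eP (2 * (n + 1)) = eP (2 * n) * (1 - X ^ (2 * n + 1)) * (1 - X ^ (2 * n + 2)) := by
      rw [show 2 * (n + 1) = 2 * n + 1 + 1 by ring, eP_succ, eP_succ]
    unfold aT
    rw [sg_sub_one, sg_add_one, r1, r2, r3, r4, r5, r6, r7, r8, p1]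
    have key : (1 - X ^ (2 * n + 1)) * (1 - X ^ (2 * n + 2)) =
        (1 + X ^ (2 * n + 1)) * (1 - X ^ s) * (1 - X ^ t)
        + X ^ t * ((1 - X ^ (s - 1)) * (1 - X ^ s)) + X ^ s * ((1 - X ^ (t - 1)) * (1 - (X:ℚ⟦X⟧) ^ t)) := by
      rcases s with _ | s
      · have : t = 2 * n + 2 := by omega
        subst this
        simp only [pow_zero, show 2 * n + 2 - 1 = 2 * n + 1 by omega]; ring
      · rcases t with _ | t
        · have : s = 2 * n + 1 := by omega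
          subst this
          simp only [pow_zero, show 2 * n + 1 + 1 - 1 = 2 * n + 1 by omega]; ring
        · have e1 : (X : ℚ⟦X⟧) ^ (2 * n + 1) = X ^ s * X ^ t * X := by
            rw [← pow_add, ← pow_succ]; congr 1; omega
          have e2 : (X : ℚ⟦X⟧) ^ (2 * n + 2) = X ^ s * X ^ t * X * X := by
            rw [← pow_add, ← pow_succ, ← pow_succ]; congr 1; omega
          simp only [add_tsub_cancel_right]
          rw [e1, e2, pow_succ, pow_succ]; ring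
    linear_combination (sg m * X ^ tri m * eP (2 * n) * rR s * rR t) * key
      + (- sg m * eP (2 * n) * ((1 - X ^ (s - 1)) * (1 - X ^ s) * rR s) * rR t) * x1
      + (- sg m * eP (2 * n) * ((1 - X ^ (t - 1)) * (1 - X ^ t) * rR t) * rR s) * x2

theorem supp_fin (n : ℕ) (c : ℤ) (g : ℤ → ℚ⟦X⟧) :
    (Function.support fun m => g m * aT n (m + c)).Finite := by
  refine (Set.finite_Icc (-(n : ℤ) - c) (n - c)).subset fun m hm => ?_
  by_contra h
  apply hm
  show g m * aT n (m + c) = 0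
  rw [aT_of_lt, mul_zero]
  rw [lt_abs]
  by_contra h'
  push Not at h'
  exact h ⟨by linarith, by linarith⟩

/-- the value at `z = 1` -/
def S0 (n : ℕ) : ℚ⟦X⟧ := ∑ᶠ m : ℤ, aT n m

/-- the derivative at `z = 1` -/
def S1 (n : ℕ) : ℚ⟦X⟧ := ∑ᶠ m : ℤ, (m : ℚ⟦X⟧) * aT n m

theorem finsum_shift (f : ℤ → ℚ⟦X⟧) (c : ℤ) : ∑ᶠ m : ℤ, f (m + c) = ∑ᶠ m : ℤ, f m :=
  finsum_comp_equiv (Equiv.addRight c) (f := f)

theorem S1_succ (n : ℕ) : S1 (n + 1) =
    (1 - X ^ (n + 1)) * (1 - X ^ n) * S1 n + (X ^ n - X ^ (n + 1)) * S0 n := by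
  have e0 : ∀ m : ℤ, (m : ℚ⟦X⟧) * aT (n + 1) m =
      ((1 + X ^ (2 * n + 1)) * (m : ℚ⟦X⟧)) * aT n (m + 0) - (X ^ (n + 1) * (m : ℚ⟦X⟧)) * aT n (m + (-1))
        - (X ^ n * (m : ℚ⟦X⟧)) * aT n (m + 1) := by
    intro m; rw [aT_succ, add_zero, ← sub_eq_add_neg]; ring
  have h0 := supp_fin n 0 (fun m => (1 + X ^ (2 * n + 1)) * (m : ℚ⟦X⟧))
  have h1 := supp_fin n (-1) (fun m => X ^ (n + 1) * (m : ℚ⟦X⟧))
  have h2 := supp_fin n 1 (fun m => X ^ n * (m : ℚ⟦X⟧))
  have h0' : Function.HasFiniteSupport fun m : ℤ => (m : ℚ⟦X⟧) * aT n m := by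
    have := supp_fin n 0 (fun m => (m : ℚ⟦X⟧)); simp only [add_zero] at this; exact this
  have h0'' : Function.HasFiniteSupport fun m : ℤ => aT n m := by
    have := supp_fin n 0 (fun _ => 1); simp only [add_zero, one_mul] at this; exact this
  have hs : S1 (n + 1) = ∑ᶠ m : ℤ, (((1 + X ^ (2 * n + 1)) * (m : ℚ⟦X⟧)) * aT n (m + 0)
      - (X ^ (n + 1) * (m : ℚ⟦X⟧)) * aT n (m + (-1)) - (X ^ n * (m : ℚ⟦X⟧)) * aT n (m + 1)) :=
    finsum_congr e0
  rw [hs, finsum_sub_distrib (f := fun m : ℤ => ((1 + X ^ (2 * n + 1)) * (m : ℚ⟦X⟧)) * aT n (m + 0)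
      - (X ^ (n + 1) * (m : ℚ⟦X⟧)) * aT n (m + (-1))) ((h0.union h1).subset (Function.support_sub _ _)) h2,
    finsum_sub_distrib h0 h1]
  have k0 : ∑ᶠ m : ℤ, ((1 + X ^ (2 * n + 1)) * (m : ℚ⟦X⟧)) * aT n (m + 0)
      = (1 + X ^ (2 * n + 1)) * S1 n := by
    rw [S1, mul_finsum]
    exact finsum_congr fun m => by rw [add_zero]; ring
  have k1 : ∑ᶠ m : ℤ, (X ^ (n + 1) * (m : ℚ⟦X⟧)) * aT n (m + (-1))
      = X ^ (n + 1) * (S1 n + S0 n) := by
    have := finsum_shift (fun m : ℤ => (X ^ (n + 1) * ((m + 1 : ℤ) : ℚ⟦X⟧)) * aT n m) (-1)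
    have e : ∑ᶠ m : ℤ, (X ^ (n + 1) * (m : ℚ⟦X⟧)) * aT n (m + (-1)) =
        ∑ᶠ m : ℤ, (fun m : ℤ => (X ^ (n + 1) * ((m + 1 : ℤ) : ℚ⟦X⟧)) * aT n m) (m + (-1)) := by
      refine finsum_congr fun m => ?_
      show _ = (X ^ (n + 1) * ((m + (-1) + 1 : ℤ) : ℚ⟦X⟧)) * aT n (m + (-1))
      rw [show m + (-1) + 1 = m by ring]
    rw [e, this, S1, S0, ← finsum_add_distrib h0' h0'', mul_finsum]
    refine finsum_congr fun m => ?_
    push_cast; ring
  have k2 : ∑ᶠ m : ℤ, (X ^ n * (m : ℚ⟦X⟧)) * aT n (m + 1)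
      = X ^ n * (S1 n - S0 n) := by
    have := finsum_shift (fun m : ℤ => (X ^ n * ((m - 1 : ℤ) : ℚ⟦X⟧)) * aT n m) 1
    have e : ∑ᶠ m : ℤ, (X ^ n * (m : ℚ⟦X⟧)) * aT n (m + 1) =
        ∑ᶠ m : ℤ, (fun m : ℤ => (X ^ n * ((m - 1 : ℤ) : ℚ⟦X⟧)) * aT n m) (m + 1) := by
      refine finsum_congr fun m => ?_
      show _ = (X ^ n * ((m + 1 - 1 : ℤ) : ℚ⟦X⟧)) * aT n (m + 1)
      rw [show m + 1 - 1 = m by ring]
    rw [e, this, S1, S0, ← finsum_sub_distrib h0' h0'', mul_finsum]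
    refine finsum_congr fun m => ?_
    push_cast; ring
  rw [k0, k1, k2]; ring

theorem S0_succ (n : ℕ) : S0 (n + 1) = (1 - X ^ (n + 1)) * (1 - X ^ n) * S0 n := by
  have e0 : ∀ m : ℤ, aT (n + 1) m =
      (1 + X ^ (2 * n + 1)) * aT n (m + 0) - X ^ (n + 1) * aT n (m + (-1)) - X ^ n * aT n (m + 1) := by
    intro m; rw [aT_succ, add_zero, ← sub_eq_add_neg]
  have h0 := supp_fin n 0 (fun _ => (1 + X ^ (2 * n + 1)))
  have h1 := supp_fin n (-1) (fun _ => X ^ (n + 1))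
  have h2 := supp_fin n 1 (fun _ => X ^ n)
  rw [S0, finsum_congr e0, finsum_sub_distrib (f := fun m : ℤ => (1 + X ^ (2 * n + 1)) * aT n (m + 0)
      - X ^ (n + 1) * aT n (m + (-1))) ((h0.union h1).subset (Function.support_sub _ _)) h2,
    finsum_sub_distrib h0 h1, ← mul_finsum, ← mul_finsum, ← mul_finsum,
    finsum_shift, finsum_shift, finsum_shift, S0]
  ring

theorem S0_zero : S0 0 = 1 := by
  rw [S0, finsum_eq_single _ (0 : ℤ)]
  · simp [aT_zero]
  · intro m hm; simp [aT_zero, hm]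

theorem S1_zero : S1 0 = 0 := by
  rw [S1, finsum_eq_single _ (0 : ℤ)]
  · simp
  · intro m hm; simp [aT_zero, hm]

theorem S0_eq (n : ℕ) : S0 (n + 1) = 0 := by
  induction n with
  | zero => rw [S0_succ]; simp
  | succ n ih => rw [S0_succ, ih, mul_zero]

theorem S1_eq (n : ℕ) : S1 (n + 1) = eP (n + 1) * eP n := by
  induction n with
  | zero => rw [S1_succ, S1_zero, S0_zero, eP_succ, eP_zero]; simp
  | succ n ih => rw [S1_succ, ih, S0_eq, eP_succ (n + 1), eP_succ n]; ring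

theorem S1_sum (n : ℕ) : S1 n = ∑ m ∈ Icc (-(n : ℤ)) n, (m : ℚ⟦X⟧) * aT n m := by
  rw [S1]
  refine finsum_eq_sum_of_support_subset _ fun m hm => ?_
  simp only [coe_Icc, Set.mem_Icc]
  by_contra h
  apply hm
  show (m : ℚ⟦X⟧) * aT n m = 0
  rw [aT_of_lt, mul_zero]
  rw [lt_abs]
  by_contra h'
  push Not at h'
  exact h ⟨by linarith, by linarith⟩

theorem jacobi_cube : 2 * Eu ^ 3 = mk fun n =>
    ∑ m ∈ (Finset.Icc (-(n:ℤ) - 1) (n:ℤ)).filter (fun m : ℤ => m * (m + 1) = 2 * (n : ℤ)),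
      ((-1 : ℚ) ^ m.natAbs * (2 * (m : ℚ) + 1)) := by
  ext N
  rw [coeff_mk]
  set n : ℕ := 2 * N + 2 with hn
  -- work modulo `X ^ (N + 1)`
  let I : Ideal ℚ⟦X⟧ := Ideal.span {X ^ (N + 1)}
  let φ : ℚ⟦X⟧ →+* ℚ⟦X⟧ ⧸ I := Ideal.Quotient.mk I
  have hφ : ∀ f g : ℚ⟦X⟧, X ^ (N + 1) ∣ f - g → φ f = φ g := fun f g h => by
    rw [Ideal.Quotient.eq]; exact Ideal.mem_span_singleton.2 h
  have hφ' : ∀ f g : ℚ⟦X⟧, φ f = φ g → coeff N f = coeff N g := fun f g h => by
    rw [Ideal.Quotient.eq] at h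
    have := X_pow_dvd_iff.1 (Ideal.mem_span_singleton.1 h) N (Nat.lt_succ_self N)
    rw [map_sub] at this; linarith
  have hP : ∀ k, N ≤ k → φ (eP k) = φ (eP N) := fun k hk => hφ _ _ (eP_stable hk)
  have hE : φ Eu = φ (eP N) := hφ _ _ (eP_Eu N)
  -- each term
  have hterm : ∀ m ∈ Icc (-(n : ℤ)) n, φ (eP n * ((m : ℚ⟦X⟧) * aT n m)) =
      φ ((m : ℚ⟦X⟧) * (sg m * X ^ tri m)) := by
    intro m hm
    rw [mem_Icc] at hm
    rcases lt_or_ge N (tri m) with h | h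
    · have h0 : φ (X ^ tri m) = 0 := by
        rw [Ideal.Quotient.eq_zero_iff_mem]
        exact Ideal.mem_span_singleton.2 (pow_dvd_pow _ h)
      unfold aT
      simp only [map_mul, h0]; ring
    · have h1 := tri_spec m
      have hb : -(N : ℤ) - 1 ≤ m ∧ m ≤ N := by
        have : (tri m : ℤ) ≤ N := by exact_mod_cast h
        constructor
        · by_contra hc; push Not at hc; nlinarith
        · by_contra hc; push Not at hc; nlinarith
      obtain ⟨s, hs⟩ := Int.eq_ofNat_of_zero_le (show 0 ≤ (n : ℤ) + m by linarith)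
      obtain ⟨t, ht⟩ := Int.eq_ofNat_of_zero_le (show 0 ≤ (n : ℤ) - m by linarith)
      have hsN : N ≤ s := by
        have : (N : ℤ) ≤ s := by rw [← hs, hn]; push_cast; linarith
        exact_mod_cast this
      have htN : N ≤ t := by
        have : (N : ℤ) ≤ t := by rw [← ht, hn]; push_cast; linarith
        exact_mod_cast this
      unfold aT
      rw [hs, ht]
      have q1 : φ (eP N) * φ (rR s) = 1 := by
        rw [← hP s hsN, ← map_mul, eP_mul_rR, map_one]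
      have q2 : φ (eP N) * φ (rR t) = 1 := by
        rw [← hP t htN, ← map_mul, eP_mul_rR, map_one]
      simp only [map_mul]
      rw [hP n (by omega), hP (2 * n) (by omega)]
      linear_combination (φ m * (φ (sg m) * φ (X ^ tri m)) * (φ (eP N) * φ (rR t))) * q1
        + (φ m * (φ (sg m) * φ (X ^ tri m))) * q2
  have hmain : φ (2 * Eu ^ 3) = φ (2 * ∑ m ∈ Icc (-(n : ℤ)) n, (m : ℚ⟦X⟧) * (sg m * X ^ tri m)) := by
    have h1 : φ (2 * Eu ^ 3) = φ (2 * (eP n * S1 n)) := by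
      have : S1 n = eP n * eP (n - 1) := by
        have := S1_eq (n - 1)
        rwa [show n - 1 + 1 = n by omega] at this
      rw [this]
      simp only [map_mul, map_pow]
      rw [hE, hP n (by omega), hP (n - 1) (by omega)]; ring
    rw [h1, S1_sum, mul_sum, map_mul, map_mul, map_sum, map_sum, sum_congr rfl hterm]
  rw [hφ' _ _ hmain]
  have h2 : (2 : ℚ⟦X⟧) = C (2 : ℚ) := (map_ofNat C 2).symm
  rw [h2, coeff_C_mul, map_sum]
  have h3 : ∀ m : ℤ, coeff N ((m : ℚ⟦X⟧) * (sg m * X ^ tri m)) =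
      if m * (m + 1) = 2 * (N : ℤ) then (-1 : ℚ) ^ m.natAbs * m else 0 := by
    intro m
    have e1 : (m : ℚ⟦X⟧) * (sg m * X ^ tri m) = C ((-1 : ℚ) ^ m.natAbs * m) * X ^ tri m := by
      have : sg m = C ((-1 : ℚ) ^ m.natAbs) := by
        unfold sg; rw [map_pow, map_neg, map_one]
      rw [this, map_mul, map_intCast]; ring
    rw [e1, coeff_C_mul, coeff_X_pow]
    have h1 := tri_spec m
    by_cases h : N = tri m
    · rw [if_pos h, if_pos (by rw [← h1, h]), mul_one]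
    · rw [if_neg h, if_neg (fun hc => h (by rw [← h1] at hc; omega)), mul_zero]
  rw [sum_congr rfl fun m _ => h3 m, ← sum_filter]
  set S := (Finset.Icc (-(N:ℤ) - 1) (N:ℤ)).filter (fun m : ℤ => m * (m + 1) = 2 * (N : ℤ)) with hS
  have hSS : (Icc (-(n : ℤ)) n).filter (fun m : ℤ => m * (m + 1) = 2 * (N : ℤ)) = S := by
    ext m
    simp only [hS, mem_filter, mem_Icc]
    constructor
    · rintro ⟨_, h⟩
      refine ⟨⟨?_, ?_⟩, h⟩
      · by_contra hc; push Not at hc; nlinarith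
      · by_contra hc; push Not at hc; nlinarith
    · rintro ⟨⟨h1, h2⟩, h⟩
      refine ⟨⟨?_, ?_⟩, h⟩
      · rw [hn]; push_cast; linarith
      · rw [hn]; push_cast; linarith
  rw [hSS]
  have hz : ∑ m ∈ S, (-1 : ℚ) ^ m.natAbs = 0 := by
    have h1 : ∑ m ∈ S, (-1 : ℚ) ^ m.natAbs = ∑ m ∈ S, -(-1 : ℚ) ^ m.natAbs := by
      refine sum_bij' (fun m _ => -1 - m) (fun m _ => -1 - m) ?_ ?_ ?_ ?_ ?_
      · intro m hm
        simp only [hS, mem_filter, mem_Icc] at hm ⊢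
        refine ⟨⟨by linarith [hm.1.2], by linarith [hm.1.1]⟩, ?_⟩
        linear_combination hm.2
      · intro m hm
        simp only [hS, mem_filter, mem_Icc] at hm ⊢
        refine ⟨⟨by linarith [hm.1.2], by linarith [hm.1.1]⟩, ?_⟩
        linear_combination hm.2
      · intro m _; ring
      · intro m _; ring
      · intro m _
        rcases Int.even_or_odd m with h | h
        · have h1 : Odd (-1 - m) := by
            have := h.neg.add_one.neg
            obtain ⟨r, hr⟩ := h; exact ⟨-r - 1, by omega⟩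
          rw [Odd.neg_one_pow (Int.natAbs_odd.2 h1), Even.neg_one_pow (Int.natAbs_even.2 h)]; ring
        · have h1 : Even (-1 - m) := by
            obtain ⟨r, hr⟩ := h; exact ⟨-r - 1, by omega⟩
          rw [Even.neg_one_pow (Int.natAbs_even.2 h1), Odd.neg_one_pow (Int.natAbs_odd.2 h)]
    rw [sum_neg_distrib] at h1; linarith
  have : ∑ m ∈ S, ((-1 : ℚ) ^ m.natAbs * (2 * (m : ℚ) + 1)) =
      2 * (∑ m ∈ S, (-1 : ℚ) ^ m.natAbs * m) + ∑ m ∈ S, (-1 : ℚ) ^ m.natAbs := by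
    rw [mul_sum, ← sum_add_distrib]
    exact sum_congr rfl fun m _ => by ring
  rw [this, hz, add_zero]

end

end Pool.Agent.Lib.MP_fad775_nt
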