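import Mathlib

/-!
# MP_fad775_nt: the algebraic identity behind Ramanujan's differential equations
-/

namespace Pool.Agent.Lib.MP_fad775_nt

open Finset

section alg

variable {R : Type*} [CommRing R]

/-- Reindex `b ↦ a + b`, the function vanishing beyond `M`. -/
lemma alg_shift {M : ℕ} (G : ℕ → R) (hG : ∀ N, M < N → G N = 0) (a : ℕ) :
    ∑ b ∈ Ico 1 (M + 1), G (a + b) = ∑ N ∈ Ico (a + 1) (M + 1), G N := by
  rw [Finset.sum_Ico_add G 1 (M + 1) a, Nat.add_comm 1 a]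
  symm
  apply Finset.sum_subset
  · intro x hx
    simp only [mem_Ico] at hx ⊢
    omega
  · intro x hx hx'
    simp only [mem_Ico, not_and, not_lt] at hx hx'
    exact hG x (hx' hx.1)

/-- Triangular double sums. -/
lemma alg_tri {M : ℕ} (G : ℕ → ℕ → R) (hG : ∀ a N, M < N → G a N = 0) :
    ∑ a ∈ Ico 1 (M + 1), ∑ b ∈ Ico 1 (M + 1), G a (a + b) =
      ∑ N ∈ Ico 1 (M + 1), ∑ a ∈ Ico 1 N, G a N := by
  have h1 : ∀ a ∈ Ico 1 (M + 1), ∑ b ∈ Ico 1 (M + 1), G a (a + b) =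
      ∑ N ∈ Ico (a + 1) (M + 1), G a N := fun a _ => alg_shift (G a) (hG a) a
  rw [Finset.sum_congr rfl h1]
  apply Finset.sum_comm'
  intro x y
  simp only [mem_Ico]
  omega

variable {M : ℕ} {v : ℕ → R}

/-- The first half. -/
lemma alg_one (hv : ∀ a b, 1 ≤ a → 1 ≤ b → v a * v b = v (a + b) * (1 + v a + v b))
    (h0 : ∀ a, M < a → v a = 0) (F : ℕ → R) :
    ∑ a ∈ Ico 1 (M + 1), ∑ b ∈ Ico 1 (M + 1), F (a + b) * (v a * v b) =
      ∑ N ∈ Ico 1 (M + 1), F N * v N * (((N : R) - 1) + 2 * ∑ a ∈ Ico 1 N, v a) := by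
  have h1 : ∑ a ∈ Ico 1 (M + 1), ∑ b ∈ Ico 1 (M + 1), F (a + b) * (v a * v b) =
      ∑ a ∈ Ico 1 (M + 1), ∑ b ∈ Ico 1 (M + 1), F (a + b) * v (a + b) * (1 + v a) +
      ∑ a ∈ Ico 1 (M + 1), ∑ b ∈ Ico 1 (M + 1), F (a + b) * v (a + b) * v b := by
    rw [← Finset.sum_add_distrib]
    apply Finset.sum_congr rfl
    intro a ha
    rw [← Finset.sum_add_distrib]
    apply Finset.sum_congr rfl
    intro b hb
    rw [mem_Ico] at ha hb
    rw [hv a b ha.1 hb.1]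
    ring
  have h2 : ∑ a ∈ Ico 1 (M + 1), ∑ b ∈ Ico 1 (M + 1), F (a + b) * v (a + b) * v b =
      ∑ a ∈ Ico 1 (M + 1), ∑ b ∈ Ico 1 (M + 1), F (a + b) * v (a + b) * v a := by
    rw [Finset.sum_comm]
    apply Finset.sum_congr rfl
    intro a _
    apply Finset.sum_congr rfl
    intro b _
    rw [add_comm b a]
  have h3 := alg_tri (M := M) (fun a N => F N * v N * (1 + v a)) (by
    intro a N hN; simp [h0 N hN])
  have h4 := alg_tri (M := M) (fun a N => F N * v N * v a) (by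
    intro a N hN; simp [h0 N hN])
  rw [h1, h2, h3, h4, ← Finset.sum_add_distrib]
  apply Finset.sum_congr rfl
  intro N hN
  rw [mem_Ico] at hN
  rw [← Finset.mul_sum, ← Finset.mul_sum, Finset.sum_add_distrib]
  simp only [sum_const, Nat.card_Ico, nsmul_eq_mul, mul_one]
  rw [Nat.cast_sub hN.1]
  push_cast
  ring

/-- The off-diagonal part of the second half. -/
lemma alg_two (hv : ∀ a b, 1 ≤ a → 1 ≤ b → v a * v b = v (a + b) * (1 + v a + v b))
    (h0 : ∀ a, M < a → v a = 0) (F : ℕ → R) :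
    ∑ N ∈ Ico 1 (M + 1), ∑ b ∈ Ico 1 (M + 1), F N * (v (N + b) * v b) =
      ∑ N ∈ Ico 1 (M + 1), F N * v N * ∑ a ∈ Ico 1 (N + 1), v a -
      ∑ m ∈ Ico 1 (M + 1), v m * ∑ N ∈ Ico 1 m, F N := by
  have h1 : ∀ N ∈ Ico 1 (M + 1), ∑ b ∈ Ico 1 (M + 1), F N * (v (N + b) * v b) =
      F N * v N * ∑ a ∈ Ico 1 (N + 1), v a - ∑ b ∈ Ico 1 (M + 1), F N * v (N + b) := by
    intro N hN
    rw [mem_Ico] at hN
    have e1 : ∀ b ∈ Ico 1 (M + 1), F N * (v (N + b) * v b) =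
        F N * v N * v b - F N * v N * v (N + b) - F N * v (N + b) := by
      intro b hb
      rw [mem_Ico] at hb
      linear_combination (- F N) * hv N b hN.1 hb.1
    rw [Finset.sum_congr rfl e1, Finset.sum_sub_distrib, Finset.sum_sub_distrib,
      ← Finset.mul_sum, ← Finset.mul_sum]
    congr 1
    rw [← mul_sub]
    congr 1
    rw [alg_shift v h0 N, sub_eq_iff_eq_add, Finset.sum_Ico_consecutive _ (by omega) (by omega)]
  rw [Finset.sum_congr rfl h1, Finset.sum_sub_distrib]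
  congr 1
  have h2 := alg_tri (M := M) (fun a N => F a * v N) (by
    intro a N hN; simp [h0 N hN])
  rw [h2]
  apply Finset.sum_congr rfl
  intro m _
  rw [Finset.mul_sum]
  apply Finset.sum_congr rfl
  intro N _
  ring

/-- Split a symmetric double sum into diagonal and off-diagonal parts. -/
lemma alg_split (h0 : ∀ a, M < a → v a = 0) (F : ℤ → R) (hF : ∀ x, F (-x) = F x) :
    ∑ a ∈ Ico 1 (M + 1), ∑ b ∈ Ico 1 (M + 1), F ((a : ℤ) - b) * (v a * v b) =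
      F 0 * ∑ a ∈ Ico 1 (M + 1), v a ^ 2 +
      2 * ∑ N ∈ Ico 1 (M + 1), ∑ b ∈ Ico 1 (M + 1), F N * (v (N + b) * v b) := by
  have hlt : ∑ b ∈ Ico 1 (M + 1), ∑ a ∈ Ico (b + 1) (M + 1), F ((a : ℤ) - b) * (v a * v b) =
      ∑ N ∈ Ico 1 (M + 1), ∑ b ∈ Ico 1 (M + 1), F N * (v (N + b) * v b) := by
    rw [Finset.sum_comm (s := Ico 1 (M + 1)) (t := Ico 1 (M + 1))
      (f := fun N b => F (N : ℤ) * (v (N + b) * v b))]
    apply Finset.sum_congr rfl
    intro b _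
    have := alg_shift (M := M) (fun a => F ((a : ℤ) - b) * (v a * v b)) (by
      intro N hN; simp [h0 N hN]) b
    rw [← this]
    apply Finset.sum_congr rfl
    intro N _
    push_cast
    rw [add_sub_cancel_left, add_comm b N]
  have hrow : ∀ a ∈ Ico 1 (M + 1), ∑ b ∈ Ico 1 (M + 1), F ((a : ℤ) - b) * (v a * v b) =
      ∑ b ∈ Ico 1 a, F ((a : ℤ) - b) * (v a * v b) + F 0 * v a ^ 2 +
      ∑ b ∈ Ico (a + 1) (M + 1), F ((b : ℤ) - a) * (v b * v a) := by
    intro a ha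
    rw [mem_Ico] at ha
    rw [← Finset.sum_Ico_consecutive _ (show 1 ≤ a + 1 by omega) (show a + 1 ≤ M + 1 by omega),
      Finset.sum_Ico_succ_top ha.1]
    congr 1
    · rw [sub_self]
      ring
    · apply Finset.sum_congr rfl
      intro b _
      rw [← hF, neg_sub, mul_comm (v a)]
  rw [Finset.sum_congr rfl hrow, Finset.sum_add_distrib, Finset.sum_add_distrib, hlt,
    ← Finset.mul_sum]
  have hsw : ∑ a ∈ Ico 1 (M + 1), ∑ b ∈ Ico 1 a, F ((a : ℤ) - b) * (v a * v b) =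
      ∑ b ∈ Ico 1 (M + 1), ∑ a ∈ Ico (b + 1) (M + 1), F ((a : ℤ) - b) * (v a * v b) := by
    apply Finset.sum_comm'
    intro x y
    simp only [mem_Ico]
    omega
  rw [hsw, hlt]
  ring

/-- The basic identity. -/
lemma alg_main (hv : ∀ a b, 1 ≤ a → 1 ≤ b → v a * v b = v (a + b) * (1 + v a + v b))
    (h0 : ∀ a, M < a → v a = 0) (F : ℤ → R) (hF : ∀ x, F (-x) = F x) (hF0 : F 0 = 0) :
    ∑ a ∈ Ico 1 (M + 1), ∑ b ∈ Ico 1 (M + 1),
        (F ((a : ℤ) + b) - F ((a : ℤ) - b)) * (v a * v b) =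
      ∑ N ∈ Ico 1 (M + 1), ((N : R) - 1) * F N * v N -
      2 * ∑ N ∈ Ico 1 (M + 1), F N * v N ^ 2 +
      2 * ∑ m ∈ Ico 1 (M + 1), v m * ∑ N ∈ Ico 1 m, F (N : ℤ) := by
  have h1 := alg_one hv h0 (fun N => F (N : ℤ))
  have h2 := alg_two hv h0 (fun N => F (N : ℤ))
  have h3 := alg_split h0 F hF
  have e1 : ∑ a ∈ Ico 1 (M + 1), ∑ b ∈ Ico 1 (M + 1),
        (F ((a : ℤ) + b) - F ((a : ℤ) - b)) * (v a * v b) =
      ∑ a ∈ Ico 1 (M + 1), ∑ b ∈ Ico 1 (M + 1), F (((a + b : ℕ) : ℤ)) * (v a * v b) -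
      ∑ a ∈ Ico 1 (M + 1), ∑ b ∈ Ico 1 (M + 1), F ((a : ℤ) - b) * (v a * v b) := by
    rw [← Finset.sum_sub_distrib]
    apply Finset.sum_congr rfl
    intro a _
    rw [← Finset.sum_sub_distrib]
    apply Finset.sum_congr rfl
    intro b _
    push_cast
    ring
  rw [e1, h1, h3, h2, hF0]
  have e2 : ∀ N ∈ Ico 1 (M + 1), F (N : ℤ) * v N * ∑ a ∈ Ico 1 (N + 1), v a =
      F (N : ℤ) * v N * ∑ a ∈ Ico 1 N, v a + F (N : ℤ) * v N ^ 2 := by
    intro N hN
    rw [mem_Ico] at hN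
    rw [Finset.sum_Ico_succ_top hN.1]
    ring
  rw [Finset.sum_congr rfl e2, Finset.sum_add_distrib]
  have e3 : ∑ N ∈ Ico 1 (M + 1), F (N : ℤ) * v N * (((N : R) - 1) + 2 * ∑ a ∈ Ico 1 N, v a) =
      ∑ N ∈ Ico 1 (M + 1), ((N : R) - 1) * F (N : ℤ) * v N +
      2 * ∑ N ∈ Ico 1 (M + 1), F (N : ℤ) * v N * ∑ a ∈ Ico 1 N, v a := by
    rw [Finset.mul_sum, ← Finset.sum_add_distrib]
    apply Finset.sum_congr rfl
    intro N _
    ring
  rw [e3]
  ring

lemma psum2 (m : ℕ) : (3 : R) * (2 * ∑ N ∈ Ico 1 m, (N : R) ^ 2) =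
    2 * (m : R) ^ 3 - 3 * (m : R) ^ 2 + m := by
  induction m with
  | zero => simp
  | succ m ih =>
    rcases Nat.eq_zero_or_pos m with rfl | hm
    · simp; norm_num
    · rw [Finset.sum_Ico_succ_top hm]
      push_cast
      linear_combination ih

lemma psum4 (m : ℕ) : (15 : R) * (2 * ∑ N ∈ Ico 1 m, (N : R) ^ 4) =
    6 * (m : R) ^ 5 - 15 * (m : R) ^ 4 + 10 * (m : R) ^ 3 - m := by
  induction m with
  | zero => simp
  | succ m ih =>
    rcases Nat.eq_zero_or_pos m with rfl | hm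
    · simp; norm_num
    · rw [Finset.sum_Ico_succ_top hm]
      push_cast
      linear_combination ih

lemma psum6 (m : ℕ) : (21 : R) * (2 * ∑ N ∈ Ico 1 m, (N : R) ^ 6) =
    6 * (m : R) ^ 7 - 21 * (m : R) ^ 6 + 21 * (m : R) ^ 5 - 7 * (m : R) ^ 3 + m := by
  induction m with
  | zero => simp
  | succ m ih =>
    rcases Nat.eq_zero_or_pos m with rfl | hm
    · simp; norm_num
    · rw [Finset.sum_Ico_succ_top hm]
      push_cast
      linear_combination ih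

/-- `s k = ∑ N^k v_N`. -/
def sN (M : ℕ) (v : ℕ → R) (k : ℕ) : R := ∑ N ∈ Ico 1 (M + 1), (N : R) ^ k * v N

lemma sN_mul (j k : ℕ) : sN M v j * sN M v k =
    ∑ a ∈ Ico 1 (M + 1), ∑ b ∈ Ico 1 (M + 1), (a : R) ^ j * (b : R) ^ k * (v a * v b) := by
  unfold sN
  rw [Finset.sum_mul_sum]
  apply Finset.sum_congr rfl
  intro a _
  apply Finset.sum_congr rfl
  intro b _
  ring

variable {d : ℕ → R}

/-- `∑ N^(k+1) v_N² = ∑ N^k d_N - ∑ N^(k+1) v_N`, `d_N = N (v_N + v_N²)`. -/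
lemma sq_sum (hd : ∀ N, d N = N * (v N + v N ^ 2)) (k : ℕ) :
    ∑ N ∈ Ico 1 (M + 1), (N : R) ^ (k + 1) * v N ^ 2 = sN M d k - sN M v (k + 1) := by
  unfold sN
  rw [← Finset.sum_sub_distrib]
  apply Finset.sum_congr rfl
  intro N _
  rw [hd]
  ring

lemma ram2_alg (hv : ∀ a b, 1 ≤ a → 1 ≤ b → v a * v b = v (a + b) * (1 + v a + v b))
    (h0 : ∀ a, M < a → v a = 0) (hd : ∀ N, d N = N * (v N + v N ^ 2)) :
    12 * sN M v 1 ^ 2 = 5 * sN M v 3 - 6 * sN M d 1 + sN M v 1 := by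
  have h := alg_main hv h0 (fun x : ℤ => (x : R) ^ 2) (by intro x; push_cast; ring) (by simp)
  have hl : ∑ a ∈ Ico 1 (M + 1), ∑ b ∈ Ico 1 (M + 1),
        ((((a : ℤ) + b : ℤ) : R) ^ 2 - (((a : ℤ) - b : ℤ) : R) ^ 2) * (v a * v b) =
      4 * (sN M v 1 * sN M v 1) := by
    rw [sN_mul, Finset.mul_sum]
    apply Finset.sum_congr rfl
    intro a _
    rw [Finset.mul_sum]
    apply Finset.sum_congr rfl
    intro b _
    push_cast
    ring
  have hq := sq_sum (M := M) hd 1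
  have hp : (3 : R) * (2 * ∑ m ∈ Ico 1 (M + 1), v m * ∑ N ∈ Ico 1 m, (N : R) ^ 2) =
      2 * sN M v 3 - 3 * sN M v 2 + sN M v 1 := by
    unfold sN
    rw [Finset.mul_sum, Finset.mul_sum, Finset.mul_sum, Finset.mul_sum,
      ← Finset.sum_sub_distrib, ← Finset.sum_add_distrib]
    apply Finset.sum_congr rfl
    intro m _
    linear_combination v m * psum2 (R := R) m
  have hm : ∑ N ∈ Ico 1 (M + 1), ((N : R) - 1) * (N : R) ^ 2 * v N = sN M v 3 - sN M v 2 := by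
    unfold sN
    rw [← Finset.sum_sub_distrib]
    apply Finset.sum_congr rfl
    intro m _
    ring
  simp only [Int.cast_natCast] at h
  rw [hl, hm, hq] at h
  linear_combination 3 * h + hp

lemma ram4_alg (hv : ∀ a b, 1 ≤ a → 1 ≤ b → v a * v b = v (a + b) * (1 + v a + v b))
    (h0 : ∀ a, M < a → v a = 0) (hd : ∀ N, d N = N * (v N + v N ^ 2)) :
    240 * (sN M v 1 * sN M v 3) =
      21 * sN M v 5 + 10 * sN M v 3 - sN M v 1 - 30 * sN M d 3 := by
  have h := alg_main hv h0 (fun x : ℤ => (x : R) ^ 4) (by intro x; push_cast; ring) (by simp)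
  have hl : ∑ a ∈ Ico 1 (M + 1), ∑ b ∈ Ico 1 (M + 1),
        ((((a : ℤ) + b : ℤ) : R) ^ 4 - (((a : ℤ) - b : ℤ) : R) ^ 4) * (v a * v b) =
      8 * (sN M v 1 * sN M v 3) + 8 * (sN M v 3 * sN M v 1) := by
    rw [sN_mul, sN_mul, Finset.mul_sum, Finset.mul_sum, ← Finset.sum_add_distrib]
    apply Finset.sum_congr rfl
    intro a _
    rw [Finset.mul_sum, Finset.mul_sum, ← Finset.sum_add_distrib]
    apply Finset.sum_congr rfl
    intro b _
    push_cast
    ring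
  have hq := sq_sum (M := M) hd 3
  have hp : (15 : R) * (2 * ∑ m ∈ Ico 1 (M + 1), v m * ∑ N ∈ Ico 1 m, (N : R) ^ 4) =
      6 * sN M v 5 - 15 * sN M v 4 + 10 * sN M v 3 - sN M v 1 := by
    unfold sN
    rw [Finset.mul_sum, Finset.mul_sum, Finset.mul_sum, Finset.mul_sum, Finset.mul_sum,
      ← Finset.sum_sub_distrib, ← Finset.sum_add_distrib, ← Finset.sum_sub_distrib]
    apply Finset.sum_congr rfl
    intro m _
    linear_combination v m * psum4 (R := R) m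
  have hm : ∑ N ∈ Ico 1 (M + 1), ((N : R) - 1) * (N : R) ^ 4 * v N = sN M v 5 - sN M v 4 := by
    unfold sN
    rw [← Finset.sum_sub_distrib]
    apply Finset.sum_congr rfl
    intro m _
    ring
  simp only [Int.cast_natCast] at h
  rw [hl, hm, hq] at h
  linear_combination 15 * h + hp

lemma ram6_alg (hv : ∀ a b, 1 ≤ a → 1 ≤ b → v a * v b = v (a + b) * (1 + v a + v b))
    (h0 : ∀ a, M < a → v a = 0) (hd : ∀ N, d N = N * (v N + v N ^ 2)) :
    21 * (24 * (sN M v 1 * sN M v 5) + 40 * sN M v 3 ^ 2) =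
      27 * sN M v 7 + 21 * sN M v 5 - 7 * sN M v 3 + sN M v 1 - 42 * sN M d 5 := by
  have h := alg_main hv h0 (fun x : ℤ => (x : R) ^ 6) (by intro x; push_cast; ring) (by simp)
  have hl : ∑ a ∈ Ico 1 (M + 1), ∑ b ∈ Ico 1 (M + 1),
        ((((a : ℤ) + b : ℤ) : R) ^ 6 - (((a : ℤ) - b : ℤ) : R) ^ 6) * (v a * v b) =
      12 * (sN M v 1 * sN M v 5) + 12 * (sN M v 5 * sN M v 1) + 40 * (sN M v 3 * sN M v 3) := by
    rw [sN_mul, sN_mul, sN_mul, Finset.mul_sum, Finset.mul_sum, Finset.mul_sum,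
      ← Finset.sum_add_distrib, ← Finset.sum_add_distrib]
    apply Finset.sum_congr rfl
    intro a _
    rw [Finset.mul_sum, Finset.mul_sum, Finset.mul_sum,
      ← Finset.sum_add_distrib, ← Finset.sum_add_distrib]
    apply Finset.sum_congr rfl
    intro b _
    push_cast
    ring
  have hq := sq_sum (M := M) hd 5
  have hp : (21 : R) * (2 * ∑ m ∈ Ico 1 (M + 1), v m * ∑ N ∈ Ico 1 m, (N : R) ^ 6) =
      6 * sN M v 7 - 21 * sN M v 6 + 21 * sN M v 5 - 7 * sN M v 3 + sN M v 1 := by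
    unfold sN
    rw [Finset.mul_sum, Finset.mul_sum, Finset.mul_sum, Finset.mul_sum, Finset.mul_sum,
      Finset.mul_sum, ← Finset.sum_sub_distrib, ← Finset.sum_add_distrib,
      ← Finset.sum_sub_distrib, ← Finset.sum_add_distrib]
    apply Finset.sum_congr rfl
    intro m _
    linear_combination v m * psum6 (R := R) m
  have hm : ∑ N ∈ Ico 1 (M + 1), ((N : R) - 1) * (N : R) ^ 6 * v N = sN M v 7 - sN M v 6 := by
    unfold sN
    rw [← Finset.sum_sub_distrib]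
    apply Finset.sum_congr rfl
    intro m _
    ring
  simp only [Int.cast_natCast] at h
  rw [hl, hm, hq] at h
  linear_combination 21 * h + hp

end alg

end Pool.Agent.Lib.MP_fad775_nt
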