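import Pool.Agent.Lib.MP_fad775_nt.Defs
import Pool.Agent.Lib.MP_fad775_nt.RamAlg

/-!
# MP_fad775_nt: Ramanujan's differential equations for `E₂, E₄, E₆` as power series
-/

namespace Pool.Agent.Lib.MP_fad775_nt

open PowerSeries Finset

section dq

lemma coeff_Dq (f : ℚ⟦X⟧) (n : ℕ) : coeff n (Dq f) = n * coeff n f := by
  simp [Dq, coeff_mk]

lemma Dq_eq (f : ℚ⟦X⟧) : Dq f = X * derivative ℚ f := by
  ext n
  rw [coeff_Dq]
  cases n with
  | zero => simp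
  | succ n => rw [coeff_succ_X_mul, coeff_derivative]; push_cast; ring

lemma Dq_mul' (f g : ℚ⟦X⟧) : Dq (f * g) = Dq f * g + f * Dq g := by
  rw [Dq_eq, Dq_eq, Dq_eq, Derivation.leibniz]
  simp only [smul_eq_mul]
  ring

lemma Dq_sub' (f g : ℚ⟦X⟧) : Dq (f - g) = Dq f - Dq g := by
  ext n; simp only [coeff_Dq, map_sub]; ring

lemma Dq_add' (f g : ℚ⟦X⟧) : Dq (f + g) = Dq f + Dq g := by
  ext n; simp only [coeff_Dq, map_add]; ring

lemma Dq_X_pow (a : ℕ) : Dq ((X : ℚ⟦X⟧) ^ a) = (a : ℚ⟦X⟧) * X ^ a := by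
  ext n
  have : ((a : ℕ) : ℚ⟦X⟧) = C (a : ℚ) := by simp
  rw [coeff_Dq, coeff_X_pow, this, coeff_C_mul, coeff_X_pow]
  split_ifs with h
  · simp [h]
  · simp

lemma Dq_one : Dq (1 : ℚ⟦X⟧) = 0 := by
  have := Dq_X_pow 0
  simpa using this

end dq

/-- `u_a = ∑_{k ≥ 1} X^{ak}`. -/
noncomputable def uu (a : ℕ) : ℚ⟦X⟧ := mk fun n => if a ∣ n ∧ n ≠ 0 then 1 else 0

lemma coeff_uu (a n : ℕ) : coeff n (uu a) = if a ∣ n ∧ n ≠ 0 then (1 : ℚ) else 0 := by
  simp [uu, coeff_mk]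

lemma uu_spec {a : ℕ} (ha : 1 ≤ a) : (1 - X ^ a) * uu a = X ^ a := by
  ext n
  rw [sub_mul, one_mul, map_sub, coeff_X_pow_mul', coeff_uu, coeff_X_pow]
  by_cases h1 : a ≤ n
  · rw [if_pos h1, coeff_uu]
    by_cases h2 : n = a
    · have h0 : a ≠ 0 := by omega
      rw [if_pos h2, h2, Nat.sub_self, if_pos ⟨dvd_refl a, h0⟩, if_neg (by simp), sub_zero]
    · rw [if_neg h2]
      have h3 : n ≠ 0 := by omega
      have h4 : n - a ≠ 0 := by omega
      have h5 : a ∣ n ↔ a ∣ n - a := by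
        constructor
        · intro h; exact Nat.dvd_sub h (dvd_refl a)
        · intro h
          have := (Nat.dvd_add_right (dvd_refl a)).mpr h
          rwa [Nat.add_sub_cancel' h1] at this
      simp only [ne_eq, h3, h4, not_false_eq_true, and_true]
      rw [if_congr h5 rfl rfl, sub_self]
  · rw [if_neg h1]
    have h2 : n ≠ a := by omega
    rw [if_neg h2]
    by_cases h3 : n = 0
    · simp [h3]
    · have : ¬ a ∣ n := fun h => h1 (Nat.le_of_dvd (by omega) h)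
      simp [this]

lemma one_sub_X_pow_ne {a : ℕ} (ha : 1 ≤ a) : (1 - X ^ a : ℚ⟦X⟧) ≠ 0 := by
  intro h
  have := congrArg (coeff 0) h
  rw [map_sub, coeff_X_pow, if_neg (by omega)] at this
  simp at this

lemma uu_mul {a b : ℕ} (ha : 1 ≤ a) (hb : 1 ≤ b) :
    uu a * uu b = uu (a + b) * (1 + uu a + uu b) := by
  have h1 := uu_spec ha
  have h2 := uu_spec hb
  have h3 := uu_spec (show 1 ≤ a + b by omega)
  have hn : (1 - X ^ a : ℚ⟦X⟧) * (1 - X ^ b) * (1 - X ^ (a + b)) ≠ 0 :=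
    mul_ne_zero (mul_ne_zero (one_sub_X_pow_ne ha) (one_sub_X_pow_ne hb))
      (one_sub_X_pow_ne (by omega))
  apply mul_left_cancel₀ hn
  rw [pow_add] at h3 ⊢
  generalize uu a = p at *
  generalize uu b = q at *
  generalize uu (a + b) = r at *
  generalize (X ^ a : ℚ⟦X⟧) = A at *
  generalize (X ^ b : ℚ⟦X⟧) = B at *
  have e1 : (1 - A) * (1 - B) * (1 - A * B) * (p * q) = A * B * (1 - A * B) := by
    linear_combination (1 - B) * (1 - A * B) * q * h1 + A * (1 - A * B) * h2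
  have e2 : (1 - A) * (1 - B) * (1 - A * B) * (r * (1 + p + q)) = A * B * (1 - A * B) := by
    linear_combination ((1 - A) * (1 - B) * (1 + p + q)) * h3 + A * B * (1 - B) * h1 +
      A * B * (1 - A) * h2
  rw [e1, e2]

lemma Dq_uu {a : ℕ} (ha : 1 ≤ a) : Dq (uu a) = (a : ℚ⟦X⟧) * (uu a + uu a ^ 2) := by
  have h1 := uu_spec ha
  have h2 := congrArg Dq h1
  rw [Dq_mul', Dq_sub', Dq_one, Dq_X_pow] at h2
  apply mul_left_cancel₀ (one_sub_X_pow_ne ha)
  linear_combination h2 - (a : ℚ⟦X⟧) * (1 + uu a) * h1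

/-- `S_k = ∑ σ_k(n) q^n`. -/
noncomputable def SS (k : ℕ) : ℚ⟦X⟧ := mk fun n => (ArithmeticFunction.sigma k n : ℚ)

lemma coeff_sum_uu (M k n : ℕ) (hn : n ≤ M) :
    coeff n (∑ N ∈ Ico 1 (M + 1), (N : ℚ⟦X⟧) ^ k * uu N) =
      (ArithmeticFunction.sigma k n : ℚ) := by
  rw [map_sum]
  have h1 : ∀ N ∈ Ico 1 (M + 1), coeff n ((N : ℚ⟦X⟧) ^ k * uu N) =
      if N ∣ n ∧ n ≠ 0 then (N : ℚ) ^ k else 0 := by
    intro N _
    have : ((N : ℚ⟦X⟧) ^ k) = C ((N : ℚ) ^ k) := by simp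
    rw [this, coeff_C_mul, coeff_uu]
    simp
  rw [Finset.sum_congr rfl h1]
  rcases Nat.eq_zero_or_pos n with rfl | hpos
  · simp
  · rw [ArithmeticFunction.sigma_apply, ← Finset.sum_filter]
    push_cast
    apply Finset.sum_congr _ (fun _ _ => rfl)
    ext N
    simp only [mem_filter, mem_Ico, Nat.mem_divisors]
    constructor
    · rintro ⟨_, h⟩; exact h
    · intro h
      refine ⟨⟨Nat.pos_of_ne_zero ?_, ?_⟩, h⟩
      · rintro rfl
        exact h.2 (Nat.eq_zero_of_zero_dvd h.1)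
      · have := Nat.le_of_dvd hpos h.1
        omega

/-- The quotient `ℚ⟦X⟧ / X^(M+1)`. -/
noncomputable abbrev qt (M : ℕ) : ℚ⟦X⟧ →+* ℚ⟦X⟧ ⧸ (Ideal.span {(X : ℚ⟦X⟧) ^ (M + 1)}) :=
  Ideal.Quotient.mk _

lemma qt_eq {M : ℕ} {f g : ℚ⟦X⟧} (h : ∀ n ≤ M, coeff n f = coeff n g) : qt M f = qt M g := by
  rw [Ideal.Quotient.eq, Ideal.mem_span_singleton, X_pow_dvd_iff]
  intro m hm
  rw [map_sub, h m (by omega), sub_self]

lemma eq_of_qt {f g : ℚ⟦X⟧} (h : ∀ M, qt M f = qt M g) : f = g := by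
  ext n
  have := h n
  rw [Ideal.Quotient.eq, Ideal.mem_span_singleton, X_pow_dvd_iff] at this
  have h2 := this n (by omega)
  rwa [map_sub, sub_eq_zero] at h2

lemma qt_SS (M k : ℕ) : sN M (fun N => qt M (uu N)) k = qt M (SS k) := by
  have : sN M (fun N => qt M (uu N)) k =
      qt M (∑ N ∈ Ico 1 (M + 1), (N : ℚ⟦X⟧) ^ k * uu N) := by
    simp [sN]
  rw [this]
  apply qt_eq
  intro n hn
  rw [coeff_sum_uu M k n hn]
  simp [SS, coeff_mk]

lemma qt_DSS (M k : ℕ) : sN M (fun N => qt M (Dq (uu N))) k = qt M (Dq (SS k)) := by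
  have : sN M (fun N => qt M (Dq (uu N))) k =
      qt M (∑ N ∈ Ico 1 (M + 1), (N : ℚ⟦X⟧) ^ k * Dq (uu N)) := by
    simp [sN]
  rw [this]
  apply qt_eq
  intro n hn
  rw [coeff_Dq]
  have h1 : coeff n (∑ N ∈ Ico 1 (M + 1), (N : ℚ⟦X⟧) ^ k * Dq (uu N)) =
      n * coeff n (∑ N ∈ Ico 1 (M + 1), (N : ℚ⟦X⟧) ^ k * uu N) := by
    rw [map_sum, map_sum, Finset.mul_sum]
    apply Finset.sum_congr rfl
    intro N _
    have : ((N : ℚ⟦X⟧) ^ k) = C ((N : ℚ) ^ k) := by simp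
    rw [this, coeff_C_mul, coeff_C_mul, coeff_Dq]
    ring
  rw [h1, coeff_sum_uu M k n hn]
  simp [SS, coeff_mk]

section

variable (M : ℕ)

lemma qt_hv : ∀ a b, 1 ≤ a → 1 ≤ b → qt M (uu a) * qt M (uu b) =
    qt M (uu (a + b)) * (1 + qt M (uu a) + qt M (uu b)) := by
  intro a b ha hb
  rw [← map_mul, uu_mul ha hb]
  simp

lemma qt_h0 : ∀ a, M < a → qt M (uu a) = 0 := by
  intro a ha
  rw [← map_zero (qt M)]
  apply qt_eq
  intro n hn
  rw [coeff_uu, map_zero, if_neg]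
  rintro ⟨h1, h2⟩
  have := Nat.le_of_dvd (Nat.pos_of_ne_zero h2) h1
  omega

/-- Replace the value at `0`. -/
noncomputable def u1 (a : ℕ) : ℚ⟦X⟧ := if a = 0 then 0 else uu a

end

lemma sN_congr {R : Type*} [CommRing R] {M : ℕ} {v w : ℕ → R} (h : ∀ N, 1 ≤ N → v N = w N)
    (k : ℕ) : sN M v k = sN M w k := by
  unfold sN
  apply Finset.sum_congr rfl
  intro N hN
  rw [mem_Ico] at hN
  rw [h N hN.1]

lemma qt_u1 (M k : ℕ) : sN M (fun N => qt M (u1 N)) k = qt M (SS k) := by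
  rw [← qt_SS]
  apply sN_congr
  intro N hN
  simp [u1, show N ≠ 0 by omega]

lemma qt_Du1 (M k : ℕ) : sN M (fun N => qt M (Dq (u1 N))) k = qt M (Dq (SS k)) := by
  rw [← qt_DSS]
  apply sN_congr
  intro N hN
  simp [u1, show N ≠ 0 by omega]

lemma u1_hv (M : ℕ) : ∀ a b, 1 ≤ a → 1 ≤ b → qt M (u1 a) * qt M (u1 b) =
    qt M (u1 (a + b)) * (1 + qt M (u1 a) + qt M (u1 b)) := by
  intro a b ha hb
  simp only [u1, show a ≠ 0 by omega, show b ≠ 0 by omega, show a + b ≠ 0 by omega, if_false]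
  exact qt_hv M a b ha hb

lemma u1_h0 (M : ℕ) : ∀ a, M < a → qt M (u1 a) = 0 := by
  intro a ha
  simp only [u1, show a ≠ 0 by omega, if_false]
  exact qt_h0 M a ha

lemma u1_hd (M : ℕ) : ∀ N, qt M (Dq (u1 N)) = N * (qt M (u1 N) + qt M (u1 N) ^ 2) := by
  intro N
  by_cases h : N = 0
  · subst h
    have : Dq (0 : ℚ⟦X⟧) = 0 := by ext n; simp [coeff_Dq]
    simp [u1, this]
  · simp only [u1, h, if_false]
    rw [Dq_uu (by omega)]
    simp

lemma S_rel2 : 12 * SS 1 ^ 2 = 5 * SS 3 - 6 * Dq (SS 1) + SS 1 := by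
  apply eq_of_qt
  intro M
  have := ram2_alg (u1_hv M) (u1_h0 M) (u1_hd M)
  rw [qt_u1, qt_u1, qt_Du1] at this
  simpa only [map_mul, map_add, map_sub, map_pow, map_ofNat] using this

lemma S_rel4 : 240 * (SS 1 * SS 3) = 21 * SS 5 + 10 * SS 3 - SS 1 - 30 * Dq (SS 3) := by
  apply eq_of_qt
  intro M
  have := ram4_alg (u1_hv M) (u1_h0 M) (u1_hd M)
  rw [qt_u1, qt_u1, qt_u1, qt_Du1] at this
  simpa only [map_mul, map_add, map_sub, map_pow, map_ofNat] using this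

lemma S_rel6 : 21 * (24 * (SS 1 * SS 5) + 40 * SS 3 ^ 2) =
    27 * SS 7 + 21 * SS 5 - 7 * SS 3 + SS 1 - 42 * Dq (SS 5) := by
  apply eq_of_qt
  intro M
  have := ram6_alg (u1_hv M) (u1_h0 M) (u1_hd M)
  rw [qt_u1, qt_u1, qt_u1, qt_u1, qt_Du1] at this
  simpa only [map_mul, map_add, map_sub, map_pow, map_ofNat] using this

lemma E2_eq : E2 = 1 - 24 * SS 1 := by
  ext n
  have h24 : (24 : ℚ⟦X⟧) = C 24 := (map_ofNat C 24).symm
  rw [map_sub, h24, coeff_C_mul, coeff_one]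
  simp only [E2, SS, coeff_mk]
  split_ifs with h
  · simp [h]
  · ring

lemma E4_eq : E4 = 1 + 240 * SS 3 := by
  ext n
  have h24 : (240 : ℚ⟦X⟧) = C 240 := (map_ofNat C 240).symm
  rw [map_add, h24, coeff_C_mul, coeff_one]
  simp only [E4, SS, coeff_mk]
  split_ifs with h
  · simp [h]
  · ring

lemma E6_eq : E6 = 1 - 504 * SS 5 := by
  ext n
  have h24 : (504 : ℚ⟦X⟧) = C 504 := (map_ofNat C 504).symm
  rw [map_sub, h24, coeff_C_mul, coeff_one]
  simp only [E6, SS, coeff_mk]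
  split_ifs with h
  · simp [h]
  · ring

lemma Dq_C_mul (c : ℚ) (f : ℚ⟦X⟧) : Dq (C c * f) = C c * Dq f := by
  ext n; simp only [coeff_Dq, coeff_C_mul]; ring

theorem ram2 : 12 * Dq E2 = E2 ^ 2 - E4 := by
  have h24 : (24 : ℚ⟦X⟧) = C 24 := (map_ofNat C 24).symm
  have hD : Dq E2 = - (24 * Dq (SS 1)) := by
    rw [E2_eq, Dq_sub', Dq_one, h24, Dq_C_mul]; ring
  rw [hD, E2_eq, E4_eq]
  linear_combination (-48) * S_rel2

theorem ram4 : 3 * Dq E4 = E2 * E4 - E6 := by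
  have h24 : (240 : ℚ⟦X⟧) = C 240 := (map_ofNat C 240).symm
  have hD : Dq E4 = 240 * Dq (SS 3) := by
    rw [E4_eq, Dq_add', Dq_one, h24, Dq_C_mul]; ring
  rw [hD, E2_eq, E4_eq, E6_eq]
  linear_combination 24 * S_rel4


section E8

open ModularForm ModularFormClass MatrixGroups EisensteinSeries UpperHalfPlane

lemma E4_sq_eq_E8 :
    qExpansion 1 (E (show 3 ≤ 4 by norm_num)) ^ 2 = qExpansion 1 (E (show 3 ≤ 8 by norm_num)) := by
  set f4 : ModularForm 𝒮ℒ 4 := E (show 3 ≤ 4 by norm_num)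
  set f8 : ModularForm 𝒮ℒ 8 := E (show 3 ≤ 8 by norm_num)
  let g : ModularForm 𝒮ℒ 8 := ModularForm.mcast (by decide) (f4.pow 2) - f8
  have hg : qExpansion 1 g = qExpansion 1 f4 ^ 2 - qExpansion 1 f8 := by
    simp only [g, FunLike.coe_sub, coe_mcast,
      ModularForm.qExpansion_sub one_pos one_mem_strictPeriods_SL,
      ModularForm.qExpansion_pow one_pos one_mem_strictPeriods_SL]
  have h0 : (qExpansion 1 g).coeff 0 = 0 := by
    have h4 : (qExpansion 1 f4).coeff 0 = 1 := E_qExpansion_coeff_zero _ ⟨2, rfl⟩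
    have h8 : (qExpansion 1 f8).coeff 0 = 1 := E_qExpansion_coeff_zero _ ⟨4, rfl⟩
    rw [hg, map_sub, sq, PowerSeries.coeff_mul, h8, Finset.Nat.antidiagonal_zero,
      Finset.sum_singleton]
    simp only [h4]
    norm_num
  have hz : g = 0 := by
    apply sturm_bound_levelOne_nat (k := 8)
    rw [show ((8 / 12 : ℕ) : ℕ∞) = 0 by norm_num]
    rw [pos_iff_ne_zero]
    intro h
    have := PowerSeries.order_eq_nat.mp (show (qExpansion 1 g).order = (0 : ℕ) from h)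
    exact this.1 h0
  rw [hz] at hg
  have : qExpansion 1 (⇑(0 : ModularForm 𝒮ℒ 8)) = 0 := by
    simp [qExpansion_zero]
  rw [this] at hg
  exact (sub_eq_zero.mp hg.symm)

lemma qE4 : qExpansion 1 (E (show 3 ≤ 4 by norm_num)) =
    PowerSeries.map (algebraMap ℚ ℂ) (1 + 240 * SS 3) := by
  ext n
  have h24 : (240 : ℚ⟦X⟧) = C 240 := (map_ofNat C 240).symm
  rw [E_qExpansion_coeff _ ⟨2, rfl⟩, coeff_map, map_add, h24, coeff_C_mul, coeff_one]
  simp only [SS, coeff_mk]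
  by_cases hn : n = 0
  · simp [hn]
  · rw [if_neg hn, if_neg hn, show bernoulli 4 = -1 / 30 by decide +kernel]
    simp
    norm_num

lemma qE8 : qExpansion 1 (E (show 3 ≤ 8 by norm_num)) =
    PowerSeries.map (algebraMap ℚ ℂ) (1 + 480 * SS 7) := by
  ext n
  have h24 : (480 : ℚ⟦X⟧) = C 480 := (map_ofNat C 480).symm
  rw [E_qExpansion_coeff _ ⟨4, rfl⟩, coeff_map, map_add, h24, coeff_C_mul, coeff_one]
  simp only [SS, coeff_mk]
  by_cases hn : n = 0
  · simp [hn]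
  · rw [if_neg hn, if_neg hn, show bernoulli 8 = -1 / 30 by decide +kernel]
    simp
    norm_num

lemma S7_eq : SS 7 = SS 3 + 120 * SS 3 ^ 2 := by
  have h := E4_sq_eq_E8
  rw [qE4, qE8, ← map_pow] at h
  have hinj : Function.Injective (PowerSeries.map (algebraMap ℚ ℂ)) := by
    intro f g hfg
    ext n
    have := congrArg (coeff n) hfg
    rw [coeff_map, coeff_map] at this
    exact (algebraMap ℚ ℂ).injective this
  have h2 := hinj h
  have h3 : (480 : ℚ⟦X⟧) * SS 7 = 480 * (SS 3 + 120 * SS 3 ^ 2) := by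
    linear_combination -h2
  have h480 : (480 : ℚ⟦X⟧) ≠ 0 := by
    intro h0
    have := congrArg (coeff 0) h0
    rw [← map_ofNat C 480, coeff_zero_C] at this
    norm_num at this
  exact mul_left_cancel₀ h480 h3

end E8

theorem ram6 : 2 * Dq E6 = E2 * E6 - E4 ^ 2 := by
  have h24 : (504 : ℚ⟦X⟧) = C 504 := (map_ofNat C 504).symm
  have hD : Dq E6 = - (504 * Dq (SS 5)) := by
    rw [E6_eq, Dq_sub', Dq_one, h24, Dq_C_mul]; ring
  rw [hD, E2_eq, E4_eq, E6_eq]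
  linear_combination (-24) * S_rel6 - 648 * S7_eq

end Pool.Agent.Lib.MP_fad775_nt
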