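import Mathlib

/-!
# MP_fad775_nt: basic power series

Power series in `q` (variable `X`) over `ℚ`.
-/

namespace Pool.Agent.Lib.MP_fad775_nt

open PowerSeries

noncomputable section

/-- The derivation `q d/dq` of power series: it multiplies the `n`-th coefficient by `n`. -/
def Dq (f : ℚ⟦X⟧) : ℚ⟦X⟧ := mk fun n => (n : ℚ) * coeff n f

/-- `P = E₂ = 1 - 24 ∑ σ₁(n) qⁿ`. -/
def E2 : ℚ⟦X⟧ := mk fun n => if n = 0 then 1 else -24 * (ArithmeticFunction.sigma 1 n : ℚ)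

/-- `E₄ = 1 + 240 ∑ σ₃(n) qⁿ`. -/
def E4 : ℚ⟦X⟧ := mk fun n => if n = 0 then 1 else 240 * (ArithmeticFunction.sigma 3 n : ℚ)

/-- `E₆ = 1 - 504 ∑ σ₅(n) qⁿ`. -/
def E6 : ℚ⟦X⟧ := mk fun n => if n = 0 then 1 else -504 * (ArithmeticFunction.sigma 5 n : ℚ)

/-- Euler's product `∏ (1 - qⁿ)`, given by Mathlib's pentagonal series
(see `PowerSeries.coeff_prod_one_sub_X_pow_eventually_eq`). -/
def Eu : ℚ⟦X⟧ := pentagonalSeries ℚ

end

end Pool.Agent.Lib.MP_fad775_nt
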