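import Mathlib
import Pool.Agent.Lib.MP_fad775_nt.Defs

/-!
# MP_fad775_nt: Laurent series in `w`, `q = w ^ 24`

The field `K` of Laurent series over `ℚ`, with the substitution `V : w ↦ w ^ 7`, its left inverse `U`
and the derivation `θ = q d/dq`.
-/

namespace Pool.Agent.Lib.MP_fad775_nt

open HahnSeries

noncomputable section

/-- Laurent series over `ℚ` in the variable `w`, `q = w ^ 24`. -/
abbrev K := LaurentSeries ℚ

instance instCharZeroK : CharZero K := algebraRat.charZero K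

/-- `w ^ k`. -/
def wp (k : ℤ) : K := single k (1 : ℚ)

lemma exists_low (f : K) : ∃ a : ℤ, ∀ n < a, f.coeff n = 0 :=
  ⟨f.order, fun _ hn => coeff_eq_zero_of_lt_order hn⟩

lemma coeff_mul_Icc {f g : K} {a b : ℤ} (hf : ∀ n < a, f.coeff n = 0)
    (hg : ∀ n < b, g.coeff n = 0) (n : ℤ) :
    (f * g).coeff n = ∑ i ∈ Finset.Icc a (n - b), f.coeff i * g.coeff (n - i) := by
  rw [HahnSeries.coeff_mul]
  symm
  rw [← Finset.sum_subset (s₁ := (Finset.Icc a (n - b)).filter
    (fun i => f.coeff i ≠ 0 ∧ g.coeff (n - i) ≠ 0)) (Finset.filter_subset _ _)]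
  · refine Finset.sum_bij' (fun i _ => (i, n - i)) (fun p _ => p.1) ?_ ?_ ?_ ?_ ?_
    · intro i hi
      simp only [Finset.mem_filter, Finset.mem_Icc] at hi
      simp [hi.2.1, hi.2.2]
    · rintro ⟨i, j⟩ hp
      simp only [Finset.mem_antidiagonal, mem_support] at hp
      obtain ⟨h1, h2, h3⟩ := hp
      simp only [Finset.mem_filter, Finset.mem_Icc]
      have hj : n - i = j := by omega
      rw [hj]
      refine ⟨⟨?_, ?_⟩, h1, h2⟩
      · by_contra h
        exact h1 (hf i (by omega))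
      · by_contra h
        exact h2 (hg j (by omega))
    · intro i hi
      rfl
    · rintro ⟨i, j⟩ hp
      simp only [Finset.mem_antidiagonal, mem_support] at hp
      obtain ⟨h1, h2, h3⟩ := hp
      ext
      · rfl
      · simp; omega
    · intro i hi
      rfl
  · intro i hi hi'
    simp only [Finset.mem_filter, not_and, not_not] at hi'
    by_cases h : f.coeff i = 0
    · simp [h]
    · rw [hi' hi h, mul_zero]

/-- `V : w ↦ w ^ m` as a ring homomorphism. -/
def Vm (m : ℕ) (hm : 0 < m) : K →+* K :=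
  embDomainRingHom (AddMonoidHom.mulLeft (m : ℤ)) (by
    intro a b h
    simp only [AddMonoidHom.coe_mulLeft] at h
    exact mul_left_cancel₀ (by omega) h) (by
    intro a b
    simp only [AddMonoidHom.coe_mulLeft]
    constructor
    · intro h; exact le_of_mul_le_mul_left h (by omega)
    · intro h; exact mul_le_mul_of_nonneg_left h (by omega))

lemma Vm_coeff_mul (m : ℕ) (hm : 0 < m) (f : K) (n : ℤ) :
    (Vm m hm f).coeff (m * n) = f.coeff n := by
  unfold Vm embDomainRingHom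
  exact embDomain_coeff

lemma Vm_coeff_of_not_dvd (m : ℕ) (hm : 0 < m) (f : K) (n : ℤ) (h : ¬ (m : ℤ) ∣ n) :
    (Vm m hm f).coeff n = 0 := by
  unfold Vm embDomainRingHom
  refine embDomain_of_notMem_range ?_
  rintro ⟨x, hx⟩
  exact h ⟨x, hx.symm⟩

lemma Vm_injective (m : ℕ) (hm : 0 < m) : Function.Injective (Vm m hm) := by
  intro f g h
  ext n
  rw [← Vm_coeff_mul m hm f n, ← Vm_coeff_mul m hm g n, h]

/-- `V : w ↦ w ^ 7`. -/
def V : K →+* K := Vm 7 (by norm_num)

/-- `ι : ℚ[[q]] → K`, `q ↦ w ^ 24`. -/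
def ι : PowerSeries ℚ →+* K := (Vm 24 (by norm_num)).comp (ofPowerSeries ℤ ℚ)

lemma V_coeff_mul (f : K) (n : ℤ) : (V f).coeff (7 * n) = f.coeff n := by
  have := Vm_coeff_mul 7 (by norm_num) f n
  simpa [V] using this

lemma V_coeff_of_not_dvd (f : K) (n : ℤ) (h : ¬ (7 : ℤ) ∣ n) : (V f).coeff n = 0 :=
  Vm_coeff_of_not_dvd 7 (by norm_num) f n (by simpa using h)

lemma ι_coeff_mul (f : PowerSeries ℚ) (n : ℕ) : (ι f).coeff (24 * n) = PowerSeries.coeff n f := by
  have := Vm_coeff_mul 24 (by norm_num) (ofPowerSeries ℤ ℚ f) n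
  simp only [ι, RingHom.comp_apply]
  rw [← ofPowerSeries_apply_coeff (Γ := ℤ) f n]
  simpa using this

lemma ofPowerSeries_coeff_neg (f : PowerSeries ℚ) (n : ℤ) (hn : n < 0) :
    (ofPowerSeries ℤ ℚ f).coeff n = 0 := by
  rw [ofPowerSeries_apply]
  refine embDomain_of_notMem_range ?_
  rintro ⟨x, hx⟩
  simp at hx
  omega

lemma ι_coeff_of_not_dvd (f : PowerSeries ℚ) (n : ℤ) (h : ¬ (24 : ℤ) ∣ n) : (ι f).coeff n = 0 :=
  Vm_coeff_of_not_dvd 24 (by norm_num) _ n (by simpa using h)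

lemma ι_coeff_neg (f : PowerSeries ℚ) (n : ℤ) (hn : n < 0) : (ι f).coeff n = 0 := by
  by_cases h : (24 : ℤ) ∣ n
  · obtain ⟨k, rfl⟩ := h
    have := Vm_coeff_mul 24 (by norm_num) (ofPowerSeries ℤ ℚ f) k
    simp only [ι, RingHom.comp_apply]
    push_cast at this
    rw [this]
    exact ofPowerSeries_coeff_neg f k (by omega)
  · exact ι_coeff_of_not_dvd f n h

lemma ι_injective : Function.Injective ι := by
  intro f g h
  ext n
  rw [← ι_coeff_mul, ← ι_coeff_mul, h]

/-- `U`: the `n`-th coefficient of `U f` is the `7n`-th coefficient of `f`. -/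
def U : K →+ K where
  toFun f := ofSuppBddBelow (fun n => f.coeff (7 * n)) (by
    obtain ⟨a, ha⟩ := exists_low f
    refine ⟨-|a|, fun n hn => ?_⟩
    by_contra h
    apply hn
    refine ha _ ?_
    rcases abs_cases a with h1 | h1 <;> omega)
  map_zero' := by ext n; simp
  map_add' f g := by ext n; simp

@[simp] lemma U_coeff (f : K) (n : ℤ) : (U f).coeff n = f.coeff (7 * n) := rfl

lemma U_V (f : K) : U (V f) = f := by
  ext n
  simp [V_coeff_mul]

lemma U_V_mul (f g : K) : U (V f * g) = f * U g := by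
  obtain ⟨a, ha⟩ := exists_low f
  obtain ⟨b, hb⟩ := exists_low g
  have hVa : ∀ n < 7 * a, (V f).coeff n = 0 := by
    intro n hn
    by_cases h : (7 : ℤ) ∣ n
    · obtain ⟨k, rfl⟩ := h
      rw [V_coeff_mul]
      exact ha k (by omega)
    · exact V_coeff_of_not_dvd f n h
  have hb' : ∀ n < -|b|, (U g).coeff n = 0 := by
    intro n hn
    rw [U_coeff]
    exact hb _ (by rcases abs_cases b with h1 | h1 <;> omega)
  have hb2 : ∀ n < -7 * |b|, g.coeff n = 0 := by
    intro n hn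
    exact hb _ (by rcases abs_cases b with h1 | h1 <;> omega)
  ext n
  rw [U_coeff, coeff_mul_Icc hVa hb2, coeff_mul_Icc ha hb']
  symm
  have himg : (Finset.Icc a (n - -|b|)).image (fun i => 7 * i) ⊆
      Finset.Icc (7 * a) (7 * n - -7 * |b|) := by
    intro i hi
    simp only [Finset.mem_image, Finset.mem_Icc] at hi ⊢
    obtain ⟨j, hj, rfl⟩ := hi
    omega
  rw [← Finset.sum_subset himg]
  · rw [Finset.sum_image (by intro i _ j _ h; simpa using h)]
    refine Finset.sum_congr rfl fun i _ => ?_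
    rw [V_coeff_mul, U_coeff, show 7 * n - 7 * i = 7 * (n - i) by ring]
  · intro i hi hi'
    by_cases h : (7 : ℤ) ∣ i
    · obtain ⟨k, rfl⟩ := h
      exfalso
      apply hi'
      simp only [Finset.mem_image, Finset.mem_Icc] at hi ⊢
      exact ⟨k, by omega, rfl⟩
    · rw [V_coeff_of_not_dvd f i h, zero_mul]

lemma U_mul_V (f g : K) : U (g * V f) = U g * f := by
  rw [mul_comm, U_V_mul, mul_comm]

/-- `θ = q d/dq`. -/
def θ : K →+ K where
  toFun f := ofSuppBddBelow (fun n => (n / 24 : ℚ) * f.coeff n) (by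
    obtain ⟨a, ha⟩ := exists_low f
    refine ⟨a, fun n hn => ?_⟩
    by_contra h
    apply hn
    simp only
    rw [ha n (by omega), mul_zero])
  map_zero' := by ext n; simp
  map_add' f g := by ext n; simp; ring

@[simp] lemma θ_coeff (f : K) (n : ℤ) : (θ f).coeff n = (n / 24 : ℚ) * f.coeff n := rfl

lemma θ_mul (f g : K) : θ (f * g) = θ f * g + f * θ g := by
  obtain ⟨a, ha⟩ := exists_low f
  obtain ⟨b, hb⟩ := exists_low g
  ext n
  rw [θ_coeff, coeff_add]
  rw [coeff_mul_Icc ha hb, coeff_mul_Icc (a := a) (b := b) ha (by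
    intro n hn; simp [hb n hn]), coeff_mul_Icc (a := a) (b := b) (by
    intro n hn; simp [ha n hn]) hb, Finset.mul_sum, ← Finset.sum_add_distrib]
  refine Finset.sum_congr rfl fun i _ => ?_
  rw [θ_coeff, θ_coeff]
  push_cast
  ring

lemma θ_one : θ 1 = 0 := by
  have := θ_mul 1 1
  simpa using this

lemma θ_pow (f : K) (n : ℕ) : θ (f ^ n) = n * f ^ (n - 1) * θ f := by
  induction n with
  | zero => simp [θ_one]
  | succ n ih =>
    rcases Nat.eq_zero_or_pos n with h | h
    · subst h; simp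
    · rw [pow_succ, θ_mul, ih]
      obtain ⟨m, rfl⟩ : ∃ m, n = m + 1 := ⟨n - 1, by omega⟩
      simp only [Nat.add_sub_cancel]
      push_cast
      ring

lemma θ_inv (f : K) : θ f⁻¹ = - θ f / f ^ 2 := by
  by_cases hf : f = 0
  · simp [hf]
  · have h := θ_mul f f⁻¹
    rw [mul_inv_cancel₀ hf, θ_one] at h
    field_simp
    field_simp at h
    linear_combination -h

lemma θ_div (f g : K) : θ (f / g) = (θ f * g - f * θ g) / g ^ 2 := by
  by_cases hg : g = 0
  · simp [hg]
  · rw [div_eq_mul_inv, θ_mul, θ_inv]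
    field_simp
    ring

lemma θ_natCast (n : ℕ) : θ (n : K) = 0 := by
  induction n with
  | zero => simp
  | succ n ih => push_cast; rw [map_add, ih, θ_one, add_zero]

@[simp] lemma θ_ofNat (n : ℕ) [n.AtLeastTwo] : θ (ofNat(n) : K) = 0 := θ_natCast n

lemma θ_intCast (n : ℤ) : θ (n : K) = 0 := by
  cases n with
  | ofNat n => simpa using θ_natCast n
  | negSucc n =>
    have := θ_natCast (n + 1)
    simp only [Int.cast_negSucc, map_neg, this, neg_zero]

lemma θ_ratCast (c : ℚ) : θ (c : K) = 0 := by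
  rw [Rat.cast_def, θ_div, θ_intCast, θ_natCast]
  simp

lemma θ_zpow (f : K) (n : ℤ) : θ (f ^ n) = n * f ^ (n - 1) * θ f := by
  by_cases hf : f = 0
  · subst hf
    by_cases hn : n = 0
    · subst hn; simp [θ_one]
    · simp [zero_zpow n hn]
  · cases n with
    | ofNat n =>
      rcases Nat.eq_zero_or_pos n with h | h
      · subst h; simp [θ_one]
      · simp only [Int.ofNat_eq_natCast, zpow_natCast, θ_pow]
        obtain ⟨m, rfl⟩ : ∃ m, n = m + 1 := ⟨n - 1, by omega⟩
        simp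
    | negSucc n =>
      rw [zpow_negSucc, θ_inv, θ_pow, show Int.negSucc n - 1 = -((n : ℤ) + 2) by omega, zpow_neg,
        show (n : ℤ) + 2 = ((n + 2 : ℕ) : ℤ) by push_cast; ring, zpow_natCast]
      simp only [Nat.add_sub_cancel]
      push_cast
      field_simp
      ring

lemma θ_V (f : K) : θ (V f) = 7 * V (θ f) := by
  ext n
  have h7 : ((7 : K) * V (θ f)).coeff n = 7 * (V (θ f)).coeff n := by
    rw [show (7 : K) = C (7 : ℚ) by simp [map_ofNat], C_mul_eq_smul, coeff_smul, smul_eq_mul]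
  rw [h7, θ_coeff]
  by_cases h : (7 : ℤ) ∣ n
  · obtain ⟨k, rfl⟩ := h
    rw [V_coeff_mul, V_coeff_mul, θ_coeff]
    push_cast
    ring
  · rw [V_coeff_of_not_dvd _ _ h, V_coeff_of_not_dvd _ _ h]
    ring

lemma U_θ (f : K) : U (θ f) = 7 * θ (U f) := by
  ext n
  have h7 : ((7 : K) * θ (U f)).coeff n = 7 * (θ (U f)).coeff n := by
    rw [show (7 : K) = C (7 : ℚ) by simp [map_ofNat], C_mul_eq_smul, coeff_smul, smul_eq_mul]
  rw [h7, θ_coeff, U_coeff, θ_coeff, U_coeff]
  push_cast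
  ring

lemma θ_ι (f : PowerSeries ℚ) : θ (ι f) = ι (Dq f) := by
  ext n
  rw [θ_coeff]
  by_cases h : (24 : ℤ) ∣ n
  · obtain ⟨k, rfl⟩ := h
    rcases lt_or_ge k 0 with hk | hk
    · rw [ι_coeff_neg _ _ (by omega), ι_coeff_neg _ _ (by omega), mul_zero]
    · obtain ⟨m, rfl⟩ := Int.eq_ofNat_of_zero_le hk
      rw [ι_coeff_mul, ι_coeff_mul, Dq, PowerSeries.coeff_mk]
      push_cast
      ring
  · rw [ι_coeff_of_not_dvd _ _ h, ι_coeff_of_not_dvd _ _ h]
    ring

lemma wp_zero : wp 0 = 1 := rfl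

lemma wp_ne_zero (k : ℤ) : wp k ≠ 0 := by
  unfold wp
  rw [Ne, single_eq_zero_iff]
  norm_num

lemma wp_add (a b : ℤ) : wp (a + b) = wp a * wp b := by
  unfold wp
  rw [single_mul_single, mul_one]

lemma wp_pow (a : ℤ) (n : ℕ) : wp a ^ n = wp (n * a) := by
  induction n with
  | zero => simp [wp_zero]
  | succ n ih => rw [pow_succ, ih, ← wp_add]; congr 1; push_cast; ring

lemma wp_neg (a : ℤ) : wp (-a) = (wp a)⁻¹ := by
  have h : wp (-a) * wp a = 1 := by rw [← wp_add]; simp [wp_zero]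
  exact eq_inv_of_mul_eq_one_left h

lemma wp_zpow (a : ℤ) (n : ℤ) : wp a ^ n = wp (n * a) := by
  cases n with
  | ofNat n => simp [wp_pow]
  | negSucc n =>
    rw [zpow_negSucc, wp_pow, ← wp_neg]
    congr 1
    rw [Int.negSucc_eq]; push_cast; ring

@[simp] lemma wp_coeff (k n : ℤ) : (wp k).coeff n = if n = k then 1 else 0 := by
  unfold wp
  rw [coeff_single]
  split_ifs <;> rfl

lemma ratCast_eq_C (c : ℚ) : (c : K) = C c := by
  rw [← map_ratCast (C : ℚ →+* K) c, Rat.cast_id]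

lemma coeff_ratCast_mul (c : ℚ) (f : K) (n : ℤ) : ((c : K) * f).coeff n = c * f.coeff n := by
  rw [ratCast_eq_C, C_mul_eq_smul, coeff_smul, smul_eq_mul]

lemma wp_mul_coeff (k n : ℤ) (f : K) : (wp k * f).coeff n = f.coeff (n - k) := by
  unfold wp
  have := coeff_single_mul_add (r := (1 : ℚ)) (x := f) (a := n - k) (b := k)
  rw [sub_add_cancel, one_mul] at this
  exact this

lemma θ_wp (k : ℤ) : θ (wp k) = ((k : ℚ) / 24 : ℚ) * wp k := by
  ext n
  rw [θ_coeff, wp_coeff]
  rw [coeff_ratCast_mul, wp_coeff]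
  split_ifs with h
  · rw [h]
  · simp

lemma V_wp (k : ℤ) : V (wp k) = wp (7 * k) := by
  ext n
  rw [wp_coeff]
  by_cases h : (7 : ℤ) ∣ n
  · obtain ⟨m, rfl⟩ := h
    rw [V_coeff_mul, wp_coeff]
    by_cases hm : m = k
    · simp [hm]
    · rw [if_neg hm, if_neg (by omega)]
  · rw [V_coeff_of_not_dvd _ _ h, if_neg]
    rintro rfl
    exact h ⟨k, rfl⟩

lemma wp_ι_coeff (a : ℤ) (f : PowerSeries ℚ) (n : ℕ) :
    (wp a * ι f).coeff (a + 24 * n) = PowerSeries.coeff n f := by
  rw [wp_mul_coeff, add_sub_cancel_left, ι_coeff_mul]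

lemma wp_ι_coeff_low (a : ℤ) (f : PowerSeries ℚ) (n : ℤ) (hn : n < a) :
    (wp a * ι f).coeff n = 0 := by
  rw [wp_mul_coeff, ι_coeff_neg _ _ (by omega)]

end

end Pool.Agent.Lib.MP_fad775_nt
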