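import Mathlib
import Pool.Agent.Lib.MP_fad775_nt.LS

/-!
# MP_fad775_nt: regular Laurent series and uniqueness for linear systems `θ f = M f`
-/

namespace Pool.Agent.Lib.MP_fad775_nt

open HahnSeries

noncomputable section

/-- A Laurent series without terms of negative exponent. -/
def Reg (f : K) : Prop := ∀ n < 0, f.coeff n = 0

/-- the constant term -/
def ct (f : K) : ℚ := f.coeff 0

lemma Reg.add {f g : K} (hf : Reg f) (hg : Reg g) : Reg (f + g) := by
  intro n hn
  rw [coeff_add, hf n hn, hg n hn, add_zero]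

lemma Reg.neg {f : K} (hf : Reg f) : Reg (-f) := by
  intro n hn
  rw [coeff_neg, hf n hn, neg_zero]

lemma Reg.sub {f g : K} (hf : Reg f) (hg : Reg g) : Reg (f - g) := by
  rw [sub_eq_add_neg]; exact hf.add hg.neg

lemma Reg.mul {f g : K} (hf : Reg f) (hg : Reg g) : Reg (f * g) := by
  intro n hn
  rw [coeff_mul_Icc hf hg, Finset.Icc_eq_empty (by omega), Finset.sum_empty]

lemma reg_one : Reg 1 := by
  intro n hn
  rw [coeff_one, if_neg (by omega)]

lemma reg_zero : Reg 0 := by intro n hn; simp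

lemma reg_ratCast (c : ℚ) : Reg (c : K) := by
  intro n hn
  have := coeff_ratCast_mul c 1 n
  rw [mul_one] at this
  rw [this, coeff_one, if_neg (by omega), mul_zero]

lemma reg_natCast (c : ℕ) : Reg (c : K) := by
  have := reg_ratCast (c : ℚ); simpa using this

lemma reg_ofNat (n : ℕ) [n.AtLeastTwo] : Reg (ofNat(n) : K) := reg_natCast n

lemma Reg.pow {f : K} (hf : Reg f) (n : ℕ) : Reg (f ^ n) := by
  induction n with
  | zero => simpa using reg_one
  | succ n ih => rw [pow_succ]; exact ih.mul hf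

lemma ct_mul {f g : K} (hf : Reg f) (hg : Reg g) : ct (f * g) = ct f * ct g := by
  unfold ct
  rw [coeff_mul_Icc hf hg]
  simp

lemma ct_add (f g : K) : ct (f + g) = ct f + ct g := by simp [ct]
lemma ct_sub (f g : K) : ct (f - g) = ct f - ct g := by simp [ct]
lemma ct_neg (f : K) : ct (-f) = -ct f := by simp [ct]
lemma ct_one : ct 1 = 1 := by simp [ct]
lemma ct_zero : ct 0 = 0 := by simp [ct]

lemma ct_ratCast (c : ℚ) : ct (c : K) = c := by
  have := coeff_ratCast_mul c 1 0
  rw [mul_one] at this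
  rw [ct, this]; simp

lemma ct_natCast (c : ℕ) : ct (c : K) = c := by
  have := ct_ratCast (c : ℚ); simpa using this

lemma ct_ofNat (n : ℕ) [n.AtLeastTwo] : ct (ofNat(n) : K) = ofNat(n) := ct_natCast n

lemma ct_pow {f : K} (hf : Reg f) (n : ℕ) : ct (f ^ n) = ct f ^ n := by
  induction n with
  | zero => simp [ct_one]
  | succ n ih => rw [pow_succ, ct_mul (hf.pow n) hf, ih, pow_succ]

lemma reg_ofPowerSeries (f : PowerSeries ℚ) : Reg (ofPowerSeries ℤ ℚ f) :=
  fun n hn => ofPowerSeries_coeff_neg f n hn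

lemma Reg.exists_ps {f : K} (hf : Reg f) : ∃ F : PowerSeries ℚ, ofPowerSeries ℤ ℚ F = f := by
  refine ⟨PowerSeries.mk fun n => f.coeff n, ?_⟩
  ext n
  rcases lt_or_ge n 0 with h | h
  · rw [ofPowerSeries_coeff_neg _ _ h, hf n h]
  · obtain ⟨m, rfl⟩ := Int.eq_ofNat_of_zero_le h
    rw [ofPowerSeries_apply_coeff, PowerSeries.coeff_mk]

lemma reg_inv {f : K} (hf : Reg f) (h0 : ct f ≠ 0) : Reg f⁻¹ ∧ ct f⁻¹ = (ct f)⁻¹ := by
  obtain ⟨F, rfl⟩ := hf.exists_ps
  have hc : ct (ofPowerSeries ℤ ℚ F) = PowerSeries.constantCoeff F := by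
    rw [ct]
    have := ofPowerSeries_apply_coeff (Γ := ℤ) F 0
    simpa using this
  rw [hc] at h0 ⊢
  have hmul : F * F⁻¹ = 1 := PowerSeries.mul_inv_cancel F h0
  have hinv : (ofPowerSeries ℤ ℚ F)⁻¹ = ofPowerSeries ℤ ℚ F⁻¹ := by
    symm
    apply eq_inv_of_mul_eq_one_right
    rw [← map_mul, hmul, map_one]
  rw [hinv]
  refine ⟨reg_ofPowerSeries _, ?_⟩
  have := ofPowerSeries_apply_coeff (Γ := ℤ) F⁻¹ 0
  rw [ct]
  simpa using this

lemma reg_ι (f : PowerSeries ℚ) : Reg (ι f) := fun n hn => ι_coeff_neg f n hn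

lemma ct_ι (f : PowerSeries ℚ) : ct (ι f) = PowerSeries.constantCoeff f := by
  have := ι_coeff_mul f 0
  rw [ct]
  simpa using this

lemma Reg.V {f : K} (hf : Reg f) : Reg (V f) := by
  intro n hn
  by_cases h : (7 : ℤ) ∣ n
  · obtain ⟨k, rfl⟩ := h
    rw [V_coeff_mul]; exact hf k (by omega)
  · exact V_coeff_of_not_dvd f n h

lemma ct_V (f : K) : ct (V f) = ct f := by
  have := V_coeff_mul f 0
  simpa [ct] using this

/-- the lowest term of `M * f` when `M` is regular -/
lemma coeff_mul_low {M f : K} (hM : Reg M) {e : ℤ} (hf : ∀ m < e, f.coeff m = 0) :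
    (M * f).coeff e = ct M * f.coeff e := by
  rw [coeff_mul_Icc hM hf]
  simp [ct]

/-- Uniqueness for linear differential systems with regular coefficients. -/
theorem ode_unique {ι' : Type*} [Fintype ι'] (f : ι' → K) (M : ι' → ι' → K)
    (hM : ∀ k j, Reg (M k j)) (hf : ∀ k, θ (f k) = ∑ j, M k j * f j)
    (hres : ∀ e : ℤ, (∀ k, ∀ m < e, (f k).coeff m = 0) →
      (∀ k, (e / 24 : ℚ) * (f k).coeff e = ∑ j, ct (M k j) * (f j).coeff e) →
      ∀ k, (f k).coeff e = 0) : ∀ k, f k = 0 := by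
  have hlow : ∃ a : ℤ, ∀ k, ∀ n < a, (f k).coeff n = 0 := by
    choose a ha using fun k => exists_low (f k)
    rcases isEmpty_or_nonempty ι' with h | h
    · exact ⟨0, fun k => (IsEmpty.false k).elim⟩
    · refine ⟨Finset.univ.inf' Finset.univ_nonempty a, fun k n hn => ha k n ?_⟩
      exact lt_of_lt_of_le hn (Finset.inf'_le a (Finset.mem_univ k))
  obtain ⟨a, ha⟩ := hlow
  have key : ∀ N : ℕ, ∀ k, ∀ m < a + N, (f k).coeff m = 0 := by
    intro N
    induction N with
    | zero => intro k m hm; exact ha k m (by simpa using hm)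
    | succ N ih =>
      have h1 := hres (a + N) ih (by
        intro k
        have h2 := congrArg (fun g : K => g.coeff (a + N)) (hf k)
        simp only [θ_coeff] at h2
        rw [h2, HahnSeries.coeff_sum]
        refine Finset.sum_congr rfl fun j _ => ?_
        exact coeff_mul_low (hM k j) (ih j))
      intro k m hm
      push_cast at hm
      rcases lt_or_eq_of_le (show m ≤ a + N by omega) with h | h
      · exact ih k m h
      · rw [h]; exact h1 k
  intro k
  ext n
  rw [coeff_zero]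
  exact key (n - a + 1).toNat k n (by omega)

end

end Pool.Agent.Lib.MP_fad775_nt
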