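import Mathlib
import Pool.Agent.Lib.MP_fad775_nt.Reg
import Pool.Agent.Lib.MP_fad775_nt.Ram
import Pool.Agent.Lib.MP_fad775_nt.Jacobi

/-!
# MP_fad775_nt: the scalar functions `p, e4, e6, η, x, t, z`
-/

namespace Pool.Agent.Lib.MP_fad775_nt

open HahnSeries

noncomputable section

/-- `E₂` -/
def p : K := ι E2
/-- `E₄` -/
def e4 : K := ι E4
/-- `E₆` -/
def e6 : K := ι E6
/-- Euler's product -/
def eu : K := ι Eu
/-- Dedekind's eta function `w ∏ (1 - w^(24 n))`. -/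
def η : K := wp 1 * eu

lemma θp : θ p = (p ^ 2 - e4) / 12 := by
  have h := congrArg ι ram2
  simp only [map_mul, map_sub, map_pow, map_ofNat] at h
  rw [p, e4, θ_ι, ← h]
  field_simp

lemma θe4 : θ e4 = (p * e4 - e6) / 3 := by
  have h := congrArg ι ram4
  simp only [map_mul, map_sub, map_ofNat] at h
  rw [p, e4, e6, θ_ι, ← h]
  field_simp

lemma θe6 : θ e6 = (p * e6 - e4 ^ 2) / 2 := by
  have h := congrArg ι ram6
  simp only [map_mul, map_sub, map_pow, map_ofNat] at h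
  rw [p, e4, e6, θ_ι, ← h]
  field_simp

lemma θeu : θ eu = (p - 1) / 24 * eu := by
  have h := congrArg ι Dq_Eu
  simp only [map_mul, map_sub, map_one, map_ofNat] at h
  rw [p, eu, θ_ι, div_mul_eq_mul_div, ← h]
  field_simp

lemma Eu_ct : PowerSeries.constantCoeff Eu = 1 := by
  have := PowerSeries.coeff_pentagonalSeries_pentagonal ℚ 0
  rw [pentagonal_def] at this
  simpa [Eu] using this

lemma reg_p : Reg p := reg_ι _
lemma reg_e4 : Reg e4 := reg_ι _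
lemma reg_e6 : Reg e6 := reg_ι _
lemma reg_eu : Reg eu := reg_ι _
lemma ct_p : ct p = 1 := by rw [p, ct_ι]; simp [E2]
lemma ct_e4 : ct e4 = 1 := by rw [e4, ct_ι]; simp [E4]
lemma ct_e6 : ct e6 = 1 := by rw [e6, ct_ι]; simp [E6]
lemma ct_eu : ct eu = 1 := by rw [eu, ct_ι, Eu_ct]

lemma eu_ne : eu ≠ 0 := by
  intro h
  have := ct_eu
  rw [h, ct_zero] at this
  norm_num at this

lemma η_ne : η ≠ 0 := mul_ne_zero (wp_ne_zero 1) eu_ne

lemma Vη_ne : V η ≠ 0 := by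
  intro h
  exact η_ne (Vm_injective 7 (by norm_num) (by rw [map_zero]; exact h))

lemma θη : θ η = p / 24 * η := by
  rw [η, θ_mul, θ_wp, θeu]
  push_cast
  field_simp
  ring

/-- `x = η(7τ)/η(τ)` -/
def x : K := V η / η
/-- `t = x ^ 4` -/
def t : K := x ^ 4
/-- `z = θt/t` -/
def z : K := (7 * V p - p) / 6

lemma x_ne : x ≠ 0 := div_ne_zero Vη_ne η_ne
lemma t_ne : t ≠ 0 := pow_ne_zero 4 x_ne

lemma θVη : θ (V η) = 7 * V p / 24 * V η := by
  rw [θ_V, θη, map_mul, map_div₀, map_ofNat]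
  ring

lemma Vp_eq : V p = (p + 6 * z) / 7 := by
  unfold z; field_simp; ring

lemma θx : θ x = z / 4 * x := by
  rw [x, θ_div, θVη, θη]
  unfold z
  field_simp [η_ne, Vη_ne]
  ring

lemma θt : θ t = z * t := by
  rw [t, θ_pow, θx]
  push_cast
  ring

lemma θVp : θ (V p) = 7 * ((V p) ^ 2 - V e4) / 12 := by
  rw [θ_V, θp]; simp only [map_div₀, map_sub, map_pow, map_ofNat]; ring

lemma θVe4 : θ (V e4) = 7 * (V p * V e4 - V e6) / 3 := by
  rw [θ_V, θe4]; simp only [map_div₀, map_sub, map_mul, map_ofNat]; ring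

lemma θVe6 : θ (V e6) = 7 * (V p * V e6 - (V e4) ^ 2) / 2 := by
  rw [θ_V, θe6]; simp only [map_div₀, map_sub, map_mul, map_pow, map_ofNat]; ring

lemma θz' : θ z = (12 * p * z + 36 * z ^ 2 - 49 * V e4 + e4) / 72 := by
  rw [z, θ_div, map_sub, θ_mul, θVp, θp, θ_ofNat, θ_ofNat]
  field_simp
  ring

lemma reg_Vp : Reg (V p) := reg_p.V
lemma ct_Vp : ct (V p) = 1 := by rw [ct_V, ct_p]

lemma z_eq : z = ((1 / 6 : ℚ) : K) * (7 * V p - p) := by
  rw [z]; push_cast; ring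

lemma reg_z : Reg z := by
  rw [z_eq]
  exact (reg_ratCast _).mul (((reg_ofNat 7).mul reg_Vp).sub reg_p)

lemma ct_z : ct z = 1 := by
  rw [z_eq, ct_mul (reg_ratCast _) (((reg_ofNat 7).mul reg_Vp).sub reg_p), ct_ratCast, ct_sub,
    ct_mul (reg_ofNat 7) reg_Vp, ct_ofNat, ct_Vp, ct_p]
  norm_num

lemma Veu_eu : Reg (V eu / eu) ∧ ct (V eu / eu) = 1 := by
  have h := reg_inv reg_eu (by rw [ct_eu]; norm_num)
  rw [div_eq_mul_inv]
  refine ⟨reg_eu.V.mul h.1, ?_⟩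
  rw [ct_mul reg_eu.V h.1, h.2, ct_V, ct_eu]
  norm_num

lemma x_eq : x = wp 6 * (V eu / eu) := by
  have h1 : wp 7 = wp 6 * wp 1 := by rw [← wp_add]; norm_num
  rw [x, η, map_mul, V_wp, show (7 * 1 : ℤ) = 7 by norm_num, h1]
  field_simp [wp_ne_zero 1, eu_ne]

lemma t_eq : t = wp 24 * (V eu / eu) ^ 4 := by
  rw [t, x_eq, mul_pow, wp_pow]
  norm_num

lemma reg_wp {k : ℤ} (hk : 0 ≤ k) : Reg (wp k) := by
  intro n hn
  rw [wp_coeff, if_neg (by omega)]

lemma reg_t : Reg t := by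
  rw [t_eq]; exact (reg_wp (by norm_num)).mul (Veu_eu.1.pow 4)

lemma ct_t : ct t = 0 := by
  rw [t_eq, ct_mul (reg_wp (by norm_num)) (Veu_eu.1.pow 4)]
  simp [ct]

end

end Pool.Agent.Lib.MP_fad775_nt
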