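import Mathlib
import Pool.Agent.Lib.MP_fad775_nt.Reg

/-!
# MP_fad775_nt: truncated computations with power series in `q`
-/

namespace Pool.Agent.Lib.MP_fad775_nt

open HahnSeries

/-- truncated product of coefficient lists -/
def mulL (L M : List ℚ) : List ℚ :=
  (List.range L.length).map fun n => ((List.range (n + 1)).map fun i =>
    L.getD i 0 * M.getD (n - i) 0).sum

/-- truncated sum -/
def addL (L M : List ℚ) : List ℚ :=
  (List.range L.length).map fun n => L.getD n 0 + M.getD n 0

/-- scalar multiple -/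
def smulL (c : ℚ) (L : List ℚ) : List ℚ :=
  (List.range L.length).map fun n => c * L.getD n 0

lemma mulL_length (L M : List ℚ) : (mulL L M).length = L.length := by simp [mulL]
lemma addL_length (L M : List ℚ) : (addL L M).length = L.length := by simp [addL]
lemma smulL_length (c : ℚ) (L : List ℚ) : (smulL c L).length = L.length := by simp [smulL]

noncomputable section

/-- `f` is a power series in `q` with the initial coefficients `L`. -/
def Tr (f : K) (L : List ℚ) : Prop :=
  ∃ F : PowerSeries ℚ, f = ι F ∧ ∀ n < L.length, PowerSeries.coeff n F = L.getD n 0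

lemma list_sum_eq (g : ℕ → ℚ) (n : ℕ) :
    ((List.range n).map g).sum = ∑ i ∈ Finset.range n, g i := by
  rfl

lemma Tr.mul {f g : K} {L M : List ℚ} (hf : Tr f L) (hg : Tr g M) (h : M.length = L.length) :
    Tr (f * g) (mulL L M) := by
  obtain ⟨F, rfl, hF⟩ := hf
  obtain ⟨G, rfl, hG⟩ := hg
  refine ⟨F * G, (map_mul _ _ _).symm, fun n hn => ?_⟩
  have hn' : n < L.length := by simpa [mulL] using hn
  rw [PowerSeries.coeff_mul, mulL, List.getD_eq_getElem _ _ (by simpa using hn')]
  simp only [List.getElem_map, List.getElem_range]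
  rw [Finset.Nat.sum_antidiagonal_eq_sum_range_succ_mk, list_sum_eq]
  refine Finset.sum_congr rfl fun i hi => ?_
  rw [Finset.mem_range] at hi
  simp only
  rw [hF i (by omega), hG (n - i) (by omega)]

lemma Tr.add {f g : K} {L M : List ℚ} (hf : Tr f L) (hg : Tr g M) (h : M.length = L.length) :
    Tr (f + g) (addL L M) := by
  obtain ⟨F, rfl, hF⟩ := hf
  obtain ⟨G, rfl, hG⟩ := hg
  refine ⟨F + G, (map_add _ _ _).symm, fun n hn => ?_⟩
  have hn' : n < L.length := by simpa [addL] using hn
  rw [map_add, addL, List.getD_eq_getElem _ _ (by simpa using hn'), hF n hn', hG n (by omega)]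
  simp

lemma Tr.smul {f : K} {L : List ℚ} (c : ℚ) (hf : Tr f L) :
    Tr ((c : K) * f) (smulL c L) := by
  obtain ⟨F, rfl, hF⟩ := hf
  refine ⟨PowerSeries.C c * F, ?_, fun n hn => ?_⟩
  · rw [map_mul]
    congr 1
    ext n
    have h1 := coeff_ratCast_mul c 1 n
    rw [mul_one] at h1
    rw [h1]
    by_cases h : (24 : ℤ) ∣ n
    · obtain ⟨k, rfl⟩ := h
      rcases lt_or_ge k 0 with hk | hk
      · rw [ι_coeff_neg _ _ (by omega), coeff_one, if_neg (by omega), mul_zero]
      · obtain ⟨m, rfl⟩ := Int.eq_ofNat_of_zero_le hk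
        rw [ι_coeff_mul, coeff_one, PowerSeries.coeff_C]
        by_cases hm : m = 0
        · simp [hm]
        · rw [if_neg (by omega), if_neg hm, mul_zero]
    · rw [ι_coeff_of_not_dvd _ _ h, coeff_one, if_neg (by omega), mul_zero]
  · have hn' : n < L.length := by simpa [smulL] using hn
    rw [PowerSeries.coeff_C_mul, smulL, List.getD_eq_getElem _ _ (by simpa using hn'), hF n hn']
    simp

lemma Tr.coeff {f : K} {L : List ℚ} (hf : Tr f L) (n : ℕ) (hn : n < L.length) :
    f.coeff (24 * n) = L.getD n 0 := by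
  obtain ⟨F, rfl, hF⟩ := hf
  rw [ι_coeff_mul, hF n hn]

lemma Tr.congr {f : K} {L M : List ℚ} (hf : Tr f L) (h : L = M) : Tr f M := h ▸ hf

end

end Pool.Agent.Lib.MP_fad775_nt
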