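import Mathlib
import Pool.Agent.Lib.MP_fad775_nt.Scal
import Pool.Agent.Lib.MP_fad775_nt.Trunc

/-!
# MP_fad775_nt: level 7 relations
-/

namespace Pool.Agent.Lib.MP_fad775_nt

open HahnSeries

noncomputable section

/-- `Q = 1 + 13 t + 49 t²` -/
def Qp : K := 1 + 13 * t + 49 * t ^ 2
def ap : K := 1 + 245 * t + 2401 * t ^ 2
def bp : K := 1 + 5 * t + t ^ 2
def cp : K := 1 - 490 * t - 21609 * t ^ 2 - 235298 * t ^ 3 - 823543 * t ^ 4
def dp : K := 1 + 14 * t + 63 * t ^ 2 + 70 * t ^ 3 - 7 * t ^ 4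

lemma reg_Qp : Reg Qp :=
  (reg_one.add ((reg_ofNat 13).mul reg_t)).add ((reg_ofNat 49).mul (reg_t.pow 2))
lemma reg_ap : Reg ap :=
  (reg_one.add ((reg_ofNat 245).mul reg_t)).add ((reg_ofNat 2401).mul (reg_t.pow 2))
lemma reg_bp : Reg bp :=
  (reg_one.add ((reg_ofNat 5).mul reg_t)).add (reg_t.pow 2)
lemma reg_cp : Reg cp :=
  (((reg_one.sub ((reg_ofNat 490).mul reg_t)).sub ((reg_ofNat 21609).mul (reg_t.pow 2))).sub
    ((reg_ofNat 235298).mul (reg_t.pow 3))).sub ((reg_ofNat 823543).mul (reg_t.pow 4))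
lemma reg_dp : Reg dp :=
  (((reg_one.add ((reg_ofNat 14).mul reg_t)).add ((reg_ofNat 63).mul (reg_t.pow 2))).add
    ((reg_ofNat 70).mul (reg_t.pow 3))).sub ((reg_ofNat 7).mul (reg_t.pow 4))

lemma ct_Qp : ct Qp = 1 := by
  simp only [Qp, ct_add, ct_one, ct_mul (reg_ofNat 13) reg_t, ct_mul (reg_ofNat 49) (reg_t.pow 2),
    ct_pow reg_t, ct_t]
  norm_num
lemma ct_ap : ct ap = 1 := by
  simp only [ap, ct_add, ct_one, ct_mul (reg_ofNat 245) reg_t,
    ct_mul (reg_ofNat 2401) (reg_t.pow 2), ct_pow reg_t, ct_t]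
  norm_num
lemma ct_bp : ct bp = 1 := by
  simp only [bp, ct_add, ct_one, ct_mul (reg_ofNat 5) reg_t, ct_pow reg_t, ct_t]
  norm_num
lemma ct_cp : ct cp = 1 := by
  simp only [cp, ct_sub, ct_one, ct_mul (reg_ofNat 490) reg_t,
    ct_mul (reg_ofNat 21609) (reg_t.pow 2), ct_mul (reg_ofNat 235298) (reg_t.pow 3),
    ct_mul (reg_ofNat 823543) (reg_t.pow 4), ct_pow reg_t, ct_t]
  norm_num
lemma ct_dp : ct dp = 1 := by
  simp only [dp, ct_add, ct_sub, ct_one, ct_mul (reg_ofNat 14) reg_t,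
    ct_mul (reg_ofNat 63) (reg_t.pow 2), ct_mul (reg_ofNat 70) (reg_t.pow 3),
    ct_mul (reg_ofNat 7) (reg_t.pow 4), ct_pow reg_t, ct_t]
  norm_num

lemma Qp_ne : Qp ≠ 0 := by
  intro h
  have := ct_Qp
  rw [h, ct_zero] at this
  norm_num at this

/-- the four defects -/
def I1 : K := Qp * e4 - ap * z ^ 2
def I2 : K := Qp ^ 2 * e6 - cp * z ^ 3
def I3 : K := Qp * (49 * V e4) - 49 * bp * z ^ 2
def I4 : K := Qp ^ 2 * (343 * V e6) - 343 * dp * z ^ 3

lemma θQp : θ Qp = z * (13 * t + 98 * t ^ 2) := by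
  rw [Qp]
  simp only [map_add, θ_mul, θ_pow, θ_one, θ_ofNat, θt]
  push_cast; ring
lemma θap : θ ap = z * (245 * t + 4802 * t ^ 2) := by
  rw [ap]
  simp only [map_add, θ_mul, θ_pow, θ_one, θ_ofNat, θt]
  push_cast; ring
lemma θbp : θ bp = z * (5 * t + 2 * t ^ 2) := by
  rw [bp]
  simp only [map_add, θ_mul, θ_pow, θ_one, θ_ofNat, θt]
  push_cast; ring
lemma θcp : θ cp = z * (-490 * t - 43218 * t ^ 2 - 705894 * t ^ 3 - 3294172 * t ^ 4) := by
  rw [cp]
  simp only [map_sub, θ_mul, θ_pow, θ_one, θ_ofNat, θt]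
  push_cast; ring
lemma θdp : θ dp = z * (14 * t + 126 * t ^ 2 + 210 * t ^ 3 - 28 * t ^ 4) := by
  rw [dp]
  simp only [map_add, map_sub, θ_mul, θ_pow, θ_one, θ_ofNat, θt]
  push_cast; ring

/-- the matrix of the linear system satisfied by the defects -/
def M11 : K := z * (13 * t + 98 * t ^ 2) * Qp⁻¹ + ((1 / 3 : ℚ) : K) * p
      - ((1 / 36 : ℚ) : K) * ap * z * Qp⁻¹
def M12 : K := ((-1 / 3 : ℚ) : K) * Qp⁻¹
def M13 : K := ((1 / 36 : ℚ) : K) * ap * z * Qp⁻¹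
def M21 : K := ((-1 / 2 : ℚ) : K) * (Qp * e4 + ap * z ^ 2) - ((1 / 24 : ℚ) : K) * cp * z ^ 2 * Qp⁻¹
def M22 : K := 2 * z * (13 * t + 98 * t ^ 2) * Qp⁻¹ + ((1 / 2 : ℚ) : K) * p
def M23 : K := ((1 / 24 : ℚ) : K) * cp * z ^ 2 * Qp⁻¹
def M31 : K := ((-49 / 36 : ℚ) : K) * bp * z * Qp⁻¹
def M33 : K := z * (13 * t + 98 * t ^ 2) * Qp⁻¹ + ((1 / 3 : ℚ) : K) * (p + 6 * z) +
  ((49 / 36 : ℚ) : K) * bp * z * Qp⁻¹
def M34 : K := ((-1 / 3 : ℚ) : K) * Qp⁻¹
def M41 : K := ((-343 / 24 : ℚ) : K) * dp * z ^ 2 * Qp⁻¹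
def M43 : K := ((-1 / 2 : ℚ) : K) * (Qp * (49 * V e4) + 49 * bp * z ^ 2) +
  ((343 / 24 : ℚ) : K) * dp * z ^ 2 * Qp⁻¹
def M44 : K := 2 * z * (13 * t + 98 * t ^ 2) * Qp⁻¹ + ((1 / 2 : ℚ) : K) * (p + 6 * z)

lemma θI1 : θ I1 = M11 * I1 + M12 * I2 + M13 * I3 := by
  have hQ := Qp_ne
  rw [I1, I2, I3, M11, M12, M13]
  simp only [map_sub, θ_mul, θ_pow, θQp, θap, θz', θe4]
  push_cast
  field_simp
  rw [Qp, ap, bp, cp]
  ring

lemma θI2 : θ I2 = M21 * I1 + M22 * I2 + M23 * I3 := by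
  have hQ := Qp_ne
  rw [I1, I2, I3, M21, M22, M23]
  simp only [map_sub, θ_mul, θ_pow, θQp, θcp, θz', θe6]
  push_cast
  field_simp
  rw [Qp, ap, bp, cp]
  ring

lemma θI3 : θ I3 = M31 * I1 + M33 * I3 + M34 * I4 := by
  have hQ := Qp_ne
  rw [I1, I3, I4, M31, M33, M34]
  simp only [map_sub, θ_mul, θ_pow, θQp, θbp, θz', θVe4, Vp_eq, θ_ofNat]
  push_cast
  field_simp
  rw [Qp, ap, bp, dp]
  ring

lemma θI4 : θ I4 = M41 * I1 + M43 * I3 + M44 * I4 := by
  have hQ := Qp_ne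
  rw [I1, I3, I4, M41, M43, M44]
  simp only [map_sub, θ_mul, θ_pow, θQp, θdp, θz', θVe6, Vp_eq, θ_ofNat]
  push_cast
  field_simp
  rw [Qp, ap, bp, dp]
  ring

lemma reg_Qi : Reg Qp⁻¹ := (reg_inv reg_Qp (by rw [ct_Qp]; norm_num)).1
lemma ct_Qi : ct Qp⁻¹ = 1 := by
  rw [(reg_inv reg_Qp (by rw [ct_Qp]; norm_num)).2, ct_Qp]; norm_num

/-- bundled: regular with given constant term -/
def RC (f : K) (c : ℚ) : Prop := Reg f ∧ ct f = c

lemma RC.mul {f g : K} {a b : ℚ} (hf : RC f a) (hg : RC g b) : RC (f * g) (a * b) :=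
  ⟨hf.1.mul hg.1, by rw [ct_mul hf.1 hg.1, hf.2, hg.2]⟩
lemma RC.add {f g : K} {a b : ℚ} (hf : RC f a) (hg : RC g b) : RC (f + g) (a + b) :=
  ⟨hf.1.add hg.1, by rw [ct_add, hf.2, hg.2]⟩
lemma RC.sub {f g : K} {a b : ℚ} (hf : RC f a) (hg : RC g b) : RC (f - g) (a - b) :=
  ⟨hf.1.sub hg.1, by rw [ct_sub, hf.2, hg.2]⟩
lemma RC.pow {f : K} {a : ℚ} (hf : RC f a) (n : ℕ) : RC (f ^ n) (a ^ n) :=
  ⟨hf.1.pow n, by rw [ct_pow hf.1, hf.2]⟩
lemma rc_rat (c : ℚ) : RC (c : K) c := ⟨reg_ratCast c, ct_ratCast c⟩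
lemma rc_ofNat (n : ℕ) [n.AtLeastTwo] : RC (ofNat(n) : K) (ofNat(n)) := ⟨reg_ofNat n, ct_ofNat n⟩
lemma rc_t : RC t 0 := ⟨reg_t, ct_t⟩
lemma rc_z : RC z 1 := ⟨reg_z, ct_z⟩
lemma rc_p : RC p 1 := ⟨reg_p, ct_p⟩
lemma rc_e4 : RC e4 1 := ⟨reg_e4, ct_e4⟩
lemma rc_e6 : RC e6 1 := ⟨reg_e6, ct_e6⟩
lemma rc_Ve4 : RC (V e4) 1 := ⟨reg_e4.V, by rw [ct_V, ct_e4]⟩
lemma rc_Ve6 : RC (V e6) 1 := ⟨reg_e6.V, by rw [ct_V, ct_e6]⟩
lemma rc_Q : RC Qp 1 := ⟨reg_Qp, ct_Qp⟩
lemma rc_Qi : RC Qp⁻¹ 1 := ⟨reg_Qi, ct_Qi⟩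
lemma rc_a : RC ap 1 := ⟨reg_ap, ct_ap⟩
lemma rc_b : RC bp 1 := ⟨reg_bp, ct_bp⟩
lemma rc_c : RC cp 1 := ⟨reg_cp, ct_cp⟩
lemma rc_d : RC dp 1 := ⟨reg_dp, ct_dp⟩
lemma RC.to {f : K} {a b : ℚ} (hf : RC f a) (h : a = b) : RC f b := h ▸ hf

lemma rc_tt : RC (13 * t + 98 * t ^ 2) 0 :=
  (((rc_ofNat 13).mul rc_t).add ((rc_ofNat 98).mul (rc_t.pow 2))).to (by norm_num)

lemma rc_M11 : RC M11 (11 / 36) :=
  ((((rc_z.mul rc_tt).mul rc_Qi).add ((rc_rat _).mul rc_p)).sub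
    ((((rc_rat _).mul rc_a).mul rc_z).mul rc_Qi)).to (by norm_num)
lemma rc_M12 : RC M12 (-1 / 3) := ((rc_rat _).mul rc_Qi).to (by norm_num)
lemma rc_M13 : RC M13 (1 / 36) :=
  ((((rc_rat _).mul rc_a).mul rc_z).mul rc_Qi).to (by norm_num)
lemma rc_M21 : RC M21 (-25 / 24) :=
  (((rc_rat _).mul ((rc_Q.mul rc_e4).add (rc_a.mul (rc_z.pow 2)))).sub
    ((((rc_rat _).mul rc_c).mul (rc_z.pow 2)).mul rc_Qi)).to (by norm_num)
lemma rc_M22 : RC M22 (1 / 2) :=
  (((((rc_ofNat 2).mul rc_z).mul rc_tt).mul rc_Qi).add ((rc_rat _).mul rc_p)).to (by norm_num)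
lemma rc_M23 : RC M23 (1 / 24) :=
  ((((rc_rat _).mul rc_c).mul (rc_z.pow 2)).mul rc_Qi).to (by norm_num)
lemma rc_M31 : RC M31 (-49 / 36) :=
  ((((rc_rat _).mul rc_b).mul rc_z).mul rc_Qi).to (by norm_num)
lemma rc_M33 : RC M33 (133 / 36) :=
  ((((rc_z.mul rc_tt).mul rc_Qi).add ((rc_rat _).mul (rc_p.add ((rc_ofNat 6).mul rc_z)))).add
    ((((rc_rat _).mul rc_b).mul rc_z).mul rc_Qi)).to (by norm_num)
lemma rc_M34 : RC M34 (-1 / 3) := ((rc_rat _).mul rc_Qi).to (by norm_num)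
lemma rc_M41 : RC M41 (-343 / 24) :=
  ((((rc_rat _).mul rc_d).mul (rc_z.pow 2)).mul rc_Qi).to (by norm_num)
lemma rc_M43 : RC M43 (-833 / 24) :=
  (((rc_rat _).mul ((rc_Q.mul ((rc_ofNat 49).mul rc_Ve4)).add
    (((rc_ofNat 49).mul rc_b).mul (rc_z.pow 2)))).add
    ((((rc_rat _).mul rc_d).mul (rc_z.pow 2)).mul rc_Qi)).to (by norm_num)
lemma rc_M44 : RC M44 (7 / 2) :=
  (((((rc_ofNat 2).mul rc_z).mul rc_tt).mul rc_Qi).add
    ((rc_rat _).mul (rc_p.add ((rc_ofNat 6).mul rc_z)))).to (by norm_num)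

/-- the matrix -/
def MM : Fin 4 → Fin 4 → K :=
  ![![M11, M12, M13, 0], ![M21, M22, M23, 0], ![M31, 0, M33, M34], ![M41, 0, M43, M44]]

/-- resonance analysis -/
lemma res_aux (n c1 c2 c3 c4 : ℚ)
    (h1 : n * c1 = 11 / 36 * c1 + (-1 / 3) * c2 + 1 / 36 * c3)
    (h2 : n * c2 = -25 / 24 * c1 + 1 / 2 * c2 + 1 / 24 * c3)
    (h3 : n * c3 = -49 / 36 * c1 + 133 / 36 * c3 + (-1 / 3) * c4)
    (h4 : n * c4 = -343 / 24 * c1 + (-833 / 24) * c3 + 7 / 2 * c4) :
    c2 = (11 / 12 - 3 * n) * c1 + 1 / 12 * c3 ∧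
    c4 = -49 / 12 * c1 + (133 / 12 - 3 * n) * c3 ∧
    (n - 1) * (c3 - (36 * n + 7) * c1) = 0 ∧ (n - 7) * (49 * c1 + (36 * n - 7) * c3) = 0 := by
  have e2 : c2 = (11 / 12 - 3 * n) * c1 + 1 / 12 * c3 := by linear_combination 3 * h1
  have e4 : c4 = -49 / 12 * c1 + (133 / 12 - 3 * n) * c3 := by linear_combination 3 * h3
  refine ⟨e2, e4, ?_, ?_⟩
  · rw [e2] at h2
    linear_combination 12 * h2
  · rw [e4] at h4
    linear_combination (-12) * h4

lemma V_ι (F : PowerSeries ℚ) : V (ι F) = ι (PowerSeries.expand 7 (by norm_num) F) := by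
  ext n
  by_cases h : (24 : ℤ) ∣ n
  · obtain ⟨k, rfl⟩ := h
    rcases lt_or_ge k 0 with hk | hk
    · rw [(reg_ι F).V _ (by omega), ι_coeff_neg _ _ (by omega)]
    · obtain ⟨m, rfl⟩ := Int.eq_ofNat_of_zero_le hk
      rw [ι_coeff_mul, PowerSeries.coeff_expand]
      by_cases h7 : 7 ∣ m
      · obtain ⟨j, rfl⟩ := h7
        rw [show (24 * ((7 * j : ℕ) : ℤ)) = 7 * (24 * (j : ℤ)) by push_cast; ring, V_coeff_mul,
          if_pos ⟨j, rfl⟩, Nat.mul_div_cancel_left _ (by norm_num), ι_coeff_mul]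
      · rw [if_neg h7, V_coeff_of_not_dvd _ _ (by omega)]
  · rw [ι_coeff_of_not_dvd _ _ h]
    by_cases h7 : (7 : ℤ) ∣ n
    · obtain ⟨j, rfl⟩ := h7
      rw [V_coeff_mul, ι_coeff_of_not_dvd _ _ (fun h' => h (h'.mul_left 7))]
    · exact V_coeff_of_not_dvd _ _ h7

lemma sig_vals (k : ℕ) : ArithmeticFunction.sigma k 1 = 1 ∧
    ArithmeticFunction.sigma k 2 = 1 + 2 ^ k ∧
    ArithmeticFunction.sigma k 3 = 1 + 3 ^ k ∧ ArithmeticFunction.sigma k 4 = 1 + 2 ^ k + 4 ^ k ∧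
    ArithmeticFunction.sigma k 5 = 1 + 5 ^ k ∧
    ArithmeticFunction.sigma k 6 = 1 + 2 ^ k + 3 ^ k + 6 ^ k ∧
    ArithmeticFunction.sigma k 7 = 1 + 7 ^ k := by
  refine ⟨?_, ?_, ?_, ?_, ?_, ?_, ?_⟩ <;> rw [ArithmeticFunction.sigma_apply]
  · simp
  · rw [show Nat.divisors 2 = {1, 2} by decide +kernel]; simp
  · rw [show Nat.divisors 3 = {1, 3} by decide +kernel]; simp
  · rw [show Nat.divisors 4 = {1, 2, 4} by decide +kernel]; simp [add_assoc]
  · rw [show Nat.divisors 5 = {1, 5} by decide +kernel]; simp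
  · rw [show Nat.divisors 6 = {1, 2, 3, 6} by decide +kernel]; simp [add_assoc]
  · rw [show Nat.divisors 7 = {1, 7} by decide +kernel]; simp

lemma tr_e4 : Tr e4 [1, 240, 2160, 6720, 17520, 30240, 60480, 82560] := by
  refine ⟨E4, rfl, fun n hn => ?_⟩
  obtain ⟨h1, h2, h3, h4, h5, h6, h7⟩ := sig_vals 3
  simp only [List.length_cons, List.length_nil] at hn
  interval_cases n <;> simp [E4, h2, h3, h4, h5, h6, h7] <;> try norm_num

lemma tr_p : Tr p [1, -24, -72, -96, -168, -144, -288, -192] := by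
  refine ⟨E2, rfl, fun n hn => ?_⟩
  obtain ⟨h1, h2, h3, h4, h5, h6, h7⟩ := sig_vals 1
  simp only [List.length_cons, List.length_nil] at hn
  interval_cases n <;> simp [E2, h2, h3, h4, h5, h6, h7] <;> try norm_num

lemma tr_Vp : Tr (V p) [1, 0, 0, 0, 0, 0, 0, -24] := by
  refine ⟨PowerSeries.expand 7 (by norm_num) E2, V_ι _, fun n hn => ?_⟩
  simp only [List.length_cons, List.length_nil] at hn
  rw [PowerSeries.coeff_expand]
  interval_cases n <;> simp [E2]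

lemma tr_z : Tr z [1, 4, 12, 16, 28, 24, 48, 4] := by
  have h := ((tr_Vp.smul (7 / 6)).add (tr_p.smul (-1 / 6)) (by simp [smulL_length]))
  have h2 : z = ((7 / 6 : ℚ) : K) * V p + ((-1 / 6 : ℚ) : K) * p := by
    rw [z]; push_cast; ring
  rw [h2]
  exact h.congr (by decide +kernel)

lemma tr_t : Tr t [0, 1, 4, 14, 40, 105, 252, 574] := by
  obtain ⟨Z, hZ, hZc⟩ := tr_z
  have hX : wp 24 = ι PowerSeries.X := by
    ext n
    rw [wp_coeff]
    by_cases h : (24 : ℤ) ∣ n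
    · obtain ⟨k, rfl⟩ := h
      rcases lt_or_ge k 0 with hk | hk
      · rw [ι_coeff_neg _ _ (by omega), if_neg (by omega)]
      · obtain ⟨m, rfl⟩ := Int.eq_ofNat_of_zero_le hk
        rw [ι_coeff_mul, PowerSeries.coeff_X]
        by_cases hm : m = 1
        · simp [hm]
        · rw [if_neg (by omega), if_neg hm]
    · rw [ι_coeff_of_not_dvd _ _ h, if_neg (by rintro rfl; exact h ⟨1, rfl⟩)]
  have hinv : eu⁻¹ = ι Eu⁻¹ := by
    symm
    apply eq_inv_of_mul_eq_one_right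
    rw [eu, ← map_mul, PowerSeries.mul_inv_cancel _ (by rw [Eu_ct]; norm_num), map_one]
  have ht : t = ι (PowerSeries.X * (PowerSeries.expand 7 (by norm_num) Eu * Eu⁻¹) ^ 4) := by
    rw [t_eq, div_eq_mul_inv, hinv, eu, V_ι, hX, ← map_mul, ← map_pow, ← map_mul]
  obtain ⟨T, hT⟩ : ∃ T, T = PowerSeries.X * (PowerSeries.expand 7 (by norm_num) Eu * Eu⁻¹) ^ 4 :=
    ⟨_, rfl⟩
  rw [← hT] at ht
  have h0 : PowerSeries.coeff 0 T = 0 := by simp [hT]
  have h1 : PowerSeries.coeff 1 T = 1 := by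
    rw [hT, show (1 : ℕ) = 0 + 1 by norm_num, PowerSeries.coeff_succ_X_mul]
    simp [Eu_ct]
  have hD : Dq T = Z * T := by
    apply ι_injective
    have h := θt
    rw [hZ, ht] at h
    rw [← θ_ι, h, map_mul]
  have hZ' : ∀ n < 8, PowerSeries.coeff n Z =
    ([1, 4, 12, 16, 28, 24, 48, 4] : List ℚ).getD n 0 := hZc
  have z0 := hZ' 0 (by norm_num)
  have z1 := hZ' 1 (by norm_num)
  have z2 := hZ' 2 (by norm_num)
  have z3 := hZ' 3 (by norm_num)
  have z4 := hZ' 4 (by norm_num)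
  have z5 := hZ' 5 (by norm_num)
  have z6 := hZ' 6 (by norm_num)
  simp only [List.getD_cons_zero, List.getD_cons_succ] at z0 z1 z2 z3 z4 z5 z6
  have key : ∀ n : ℕ, (n : ℚ) * PowerSeries.coeff n T =
      ∑ i ∈ Finset.range (n + 1), PowerSeries.coeff i Z * PowerSeries.coeff (n - i) T := by
    intro n
    have := congrArg (PowerSeries.coeff n) hD
    rw [Dq, PowerSeries.coeff_mk, PowerSeries.coeff_mul,
      Finset.Nat.sum_antidiagonal_eq_sum_range_succ_mk] at this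
    exact this
  have t2 : PowerSeries.coeff 2 T = 4 := by
    have := key 2
    simp [Finset.sum_range_succ, -PowerSeries.coeff_zero_eq_constantCoeff, h0, h1, z0, z1] at this
    linarith
  have t3 : PowerSeries.coeff 3 T = 14 := by
    have := key 3
    simp [Finset.sum_range_succ, -PowerSeries.coeff_zero_eq_constantCoeff, h0, h1, t2, z0, z1, z2] at this
    linarith
  have t4 : PowerSeries.coeff 4 T = 40 := by
    have := key 4
    simp [Finset.sum_range_succ, -PowerSeries.coeff_zero_eq_constantCoeff, h0, h1, t2, t3, z0, z1, z2, z3] at this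
    linarith
  have t5 : PowerSeries.coeff 5 T = 105 := by
    have := key 5
    simp [Finset.sum_range_succ, -PowerSeries.coeff_zero_eq_constantCoeff, h0, h1, t2, t3, t4, z0, z1, z2, z3, z4] at this
    linarith
  have t6 : PowerSeries.coeff 6 T = 252 := by
    have := key 6
    simp [Finset.sum_range_succ, -PowerSeries.coeff_zero_eq_constantCoeff, h0, h1, t2, t3, t4, t5, z0, z1, z2, z3, z4, z5] at this
    linarith
  have t7 : PowerSeries.coeff 7 T = 574 := by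
    have := key 7
    simp [Finset.sum_range_succ, -PowerSeries.coeff_zero_eq_constantCoeff, h0, h1, t2, t3, t4, t5, t6, z0, z1, z2, z3, z4, z5, z6] at this
    linarith
  refine ⟨T, ht, fun n hn => ?_⟩
  simp only [List.length_cons, List.length_nil] at hn
  interval_cases n
  · exact h0
  · exact h1
  · exact t2
  · exact t3
  · exact t4
  · exact t5
  · exact t6
  · exact t7

lemma one_tr : Tr 1 [1, 0, 0, 0, 0, 0, 0, 0] := by
  refine ⟨1, (map_one _).symm, fun n hn => ?_⟩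
  simp only [List.length_cons, List.length_nil] at hn
  interval_cases n <;> simp [PowerSeries.coeff_one]

lemma tr_I1 : Tr I1 [0, 0, 0, 0, 0, 0, 0, 0] := by
  have ht2 := tr_t.mul tr_t rfl
  have hz2 := tr_z.mul tr_z rfl
  have hQ := (one_tr.add (tr_t.smul 13) rfl).add (ht2.smul 49) rfl
  have hA := (one_tr.add (tr_t.smul 245) rfl).add (ht2.smul 2401) rfl
  have h := (hQ.mul tr_e4 rfl).add ((hA.mul hz2 rfl).smul (-1)) rfl
  have h2 : I1 = (1 + ((13 : ℚ) : K) * t + ((49 : ℚ) : K) * (t * t)) * e4 +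
      ((-1 : ℚ) : K) * ((1 + ((245 : ℚ) : K) * t + ((2401 : ℚ) : K) * (t * t)) * (z * z)) := by
    rw [I1, Qp, ap]; push_cast; ring
  rw [h2]
  exact h.congr (by decide +kernel)

lemma ct_I1 : ct I1 = 0 := by
  have h := ((rc_Q.mul rc_e4).sub (rc_a.mul (rc_z.pow 2))).2
  rw [I1, h]; norm_num
lemma ct_I2 : ct I2 = 0 := by
  have h := (((rc_Q.pow 2).mul rc_e6).sub (rc_c.mul (rc_z.pow 3))).2
  rw [I2, h]; norm_num
lemma ct_I3 : ct I3 = 0 := by
  have h := ((rc_Q.mul ((rc_ofNat 49).mul rc_Ve4)).sub (((rc_ofNat 49).mul rc_b).mul (rc_z.pow 2))).2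
  rw [I3, h]; norm_num
lemma ct_I4 : ct I4 = 0 := by
  have h := (((rc_Q.pow 2).mul ((rc_ofNat 343).mul rc_Ve6)).sub
    (((rc_ofNat 343).mul rc_d).mul (rc_z.pow 3))).2
  rw [I4, h]; norm_num

lemma I_all : ∀ k : Fin 4, (![I1, I2, I3, I4] : Fin 4 → K) k = 0 := by
  refine ode_unique _ MM ?_ ?_ ?_
  · intro k j
    fin_cases k <;> fin_cases j <;> simp [MM, rc_M11.1, rc_M12.1, rc_M13.1, rc_M21.1, rc_M22.1,
      rc_M23.1, rc_M31.1, rc_M33.1, rc_M34.1, rc_M41.1, rc_M43.1, rc_M44.1, reg_zero]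
  · intro k
    fin_cases k
    · simp [MM, Fin.sum_univ_four]; exact θI1
    · simp [MM, Fin.sum_univ_four]; exact θI2
    · simp [MM, Fin.sum_univ_four]; rw [← θI3]
    · simp [MM, Fin.sum_univ_four]; rw [← θI4]
  · intro e _ hrel
    have h1 := hrel 0
    have h2 := hrel 1
    have h3 := hrel 2
    have h4 := hrel 3
    simp [MM, Fin.sum_univ_four, rc_M11.2, rc_M12.2, rc_M13.2, rc_M21.2, rc_M22.2,
      rc_M23.2, rc_M31.2, rc_M33.2, rc_M34.2, rc_M41.2, rc_M43.2, rc_M44.2, ct_zero] at h1 h2 h3 h4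
    obtain ⟨e2, e4', hA, hB⟩ := res_aux (e / 24) (I1.coeff e) (I2.coeff e) (I3.coeff e) (I4.coeff e)
      (by linear_combination h1) (by linear_combination h2) (by linear_combination h3)
      (by linear_combination h4)
    have hfin : I1.coeff e = 0 → I3.coeff e = 0 → ∀ k : Fin 4,
        ((![I1, I2, I3, I4] : Fin 4 → K) k).coeff e = 0 := by
      intro a c k
      rw [a, c] at e2 e4'
      fin_cases k
      · exact a
      · simpa using e2
      · exact c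
      · simpa using e4'
    rcases eq_or_ne e 0 with rfl | he0
    · exact hfin ct_I1 ct_I3
    · have hn0 : (e : ℚ) / 24 ≠ 0 := by
        have : (e : ℚ) ≠ 0 := by exact_mod_cast he0
        positivity
      rcases eq_or_ne e 24 with rfl | he1
      · have a : I1.coeff 24 = 0 := by
          have := tr_I1.coeff 1 (by norm_num)
          simpa using this
        refine hfin a ?_
        rw [a] at hB
        push_cast at hB
        norm_num at hB
        exact hB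
      · rcases eq_or_ne e 168 with rfl | he7
        · have a : I1.coeff 168 = 0 := by
            have := tr_I1.coeff 7 (by norm_num)
            simpa using this
          refine hfin a ?_
          rw [a] at hA
          push_cast at hA
          norm_num at hA
          exact hA
        · have h1' : (e : ℚ) / 24 - 1 ≠ 0 := by
            intro h
            have : (e : ℚ) = 24 := by linarith
            exact he1 (by exact_mod_cast this)
          have h7' : (e : ℚ) / 24 - 7 ≠ 0 := by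
            intro h
            have : (e : ℚ) = 168 := by linarith
            exact he7 (by exact_mod_cast this)
          have hA' := (mul_eq_zero.mp hA).resolve_left h1'
          have hB' := (mul_eq_zero.mp hB).resolve_left h7'
          have a : I1.coeff e = 0 := by
            have : (36 * ((e : ℚ) / 24)) ^ 2 * I1.coeff e = 0 := by
              linear_combination hB' - (36 * ((e : ℚ) / 24) - 7) * hA'
            rcases mul_eq_zero.mp this with h | h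
            · exfalso
              have := pow_eq_zero_iff (two_ne_zero) |>.mp h
              apply hn0
              linarith
            · exact h
          refine hfin a ?_
          rw [a] at hA'
          linear_combination hA'

lemma rel_e4 : e4 = ap * z ^ 2 / Qp := by
  have h := I_all 0
  have hQ := Qp_ne
  simp [I1] at h
  field_simp
  linear_combination h

lemma rel_e6 : e6 = cp * z ^ 3 / Qp ^ 2 := by
  have h := I_all 1
  have hQ := Qp_ne
  simp [I2] at h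
  field_simp
  linear_combination h

lemma rel_Ve4 : V e4 = bp * z ^ 2 / Qp := by
  have h := I_all 2
  have hQ := Qp_ne
  simp [I3] at h
  field_simp
  linear_combination h / 49

lemma rel_Ve6 : V e6 = dp * z ^ 3 / Qp ^ 2 := by
  have h := I_all 3
  have hQ := Qp_ne
  simp [I4] at h
  field_simp
  linear_combination h / 343

lemma θz : θ z = p * z / 6 - z ^ 2 / 6 + 2 / 3 * (13 * t + 98 * t ^ 2) * z ^ 2 / Qp := by
  have hQ := Qp_ne
  rw [θz', rel_Ve4, rel_e4]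
  field_simp
  rw [Qp, ap, bp]
  ring

end

end Pool.Agent.Lib.MP_fad775_nt
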