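import Mathlib
import Pool.Agent.Lib.MP_fad775_nt.Lev7

/-!
# MP_fad775_nt: the modular equation of degree 7
-/

namespace Pool.Agent.Lib.MP_fad775_nt

open HahnSeries

noncomputable section

lemma wp24_eq : wp 24 = ι PowerSeries.X := by
  ext n
  rw [wp_coeff]
  by_cases h : (24 : ℤ) ∣ n
  · obtain ⟨k, rfl⟩ := h
    rcases lt_or_ge k 0 with hk | hk
    · rw [ι_coeff_neg _ _ (by omega), if_neg (by omega)]
    · obtain ⟨m, rfl⟩ := Int.eq_ofNat_of_zero_le hk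
      rw [ι_coeff_mul, PowerSeries.coeff_X]
      by_cases hm : m = 1
      · simp [hm]
      · rw [if_neg (by omega), if_neg hm]
  · rw [ι_coeff_of_not_dvd _ _ h, if_neg (by rintro rfl; exact h ⟨1, rfl⟩)]

lemma tr2_e4 : Tr e4 [1, 240] := by
  refine ⟨E4, rfl, fun n hn => ?_⟩
  simp only [List.length_cons, List.length_nil] at hn
  interval_cases n <;> simp [E4]

lemma tr2_e6 : Tr e6 [1, -504] := by
  refine ⟨E6, rfl, fun n hn => ?_⟩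
  simp only [List.length_cons, List.length_nil] at hn
  interval_cases n <;> simp [E6]

lemma η24_eq : η ^ 24 = wp 24 * eu ^ 24 := by
  rw [η, mul_pow, wp_pow]; norm_num

/-- `E₄³ - E₆² = 1728 η²⁴` -/
lemma disc_eq : e4 ^ 3 - e6 ^ 2 = 1728 * η ^ 24 := by
  have hθ : θ (e4 ^ 3 - e6 ^ 2 - 1728 * η ^ 24) = p * (e4 ^ 3 - e6 ^ 2 - 1728 * η ^ 24) := by
    simp only [map_sub, θ_pow, θ_mul, θe4, θe6, θη, θ_ofNat]
    push_cast
    ring
  have h24 : (e4 ^ 3 - e6 ^ 2 - 1728 * η ^ 24).coeff 24 = 0 := by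
    have h1 := ((tr2_e4.mul (tr2_e4.mul tr2_e4 rfl) rfl).add ((tr2_e6.mul tr2_e6 rfl).smul (-1)) rfl)
    have h2 : e4 ^ 3 - e6 ^ 2 - 1728 * η ^ 24 =
      (e4 * (e4 * e4) + ((-1 : ℚ) : K) * (e6 * e6)) - ((1728 : ℚ) : K) * η ^ 24 := by
      push_cast; ring
    have h3 := h1.coeff 1 (by norm_num [addL_length, mulL_length])
    rw [h2, coeff_sub, coeff_ratCast_mul, η24_eq, wp_mul_coeff]
    have h4 : (eu ^ 24).coeff (24 - 24) = 1 := by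
      have := ct_pow reg_eu 24
      rw [ct_eu] at this
      simpa [ct] using this
    have h5 : (e4 * (e4 * e4) + ((-1 : ℚ) : K) * (e6 * e6)).coeff 24 = 1728 := by
      rw [show (24 : ℤ) = 24 * ((1 : ℕ) : ℤ) by norm_num, h3]
      decide +kernel
    rw [h4, h5]
    norm_num
  have := ode_unique (ι' := Unit) (fun _ => e4 ^ 3 - e6 ^ 2 - 1728 * η ^ 24) (fun _ _ => p)
    (fun _ _ => reg_p) (fun _ => by simpa using hθ) (by
      intro e _ h k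
      have h := h ()
      simp only [Finset.univ_unique, Finset.sum_const, Finset.card_singleton, one_smul, ct_p,
        one_mul] at h
      by_cases he : e = 24
      · rw [he]; exact h24
      · have : ((e : ℚ) / 24 - 1) * (e4 ^ 3 - e6 ^ 2 - 1728 * η ^ 24).coeff e = 0 := by
          linear_combination h
        rcases mul_eq_zero.mp this with h' | h'
        · exfalso
          apply he
          have : (e : ℚ) = 24 := by linarith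
          exact_mod_cast this
        · exact h')
  exact sub_eq_zero.mp (this ())

lemma t_mul : t * η ^ 4 = (V η) ^ 4 := by
  rw [t, x]; field_simp [η_ne]

lemma rel_z6 : z ^ 6 * t = η ^ 24 * Qp ^ 4 := by
  have h := disc_eq
  have hQ := Qp_ne
  rw [rel_e4, rel_e6] at h
  have h2 : ap ^ 3 * Qp - cp ^ 2 = 1728 * t := by
    rw [ap, Qp, cp]; ring
  have h3 : (ap * z ^ 2 / Qp) ^ 3 - (cp * z ^ 3 / Qp ^ 2) ^ 2 =
    z ^ 6 * (ap ^ 3 * Qp - cp ^ 2) / Qp ^ 4 := by field_simp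
  rw [h3, h2] at h
  field_simp at h
  linear_combination h

/-- `A² = η¹⁴/η(7τ)²` -/
def A2 : K := η ^ 14 / (V η) ^ 2

lemma A2_eq : A2 = eu ^ 14 / (V eu) ^ 2 := by
  have h1 : (wp 1) ^ 14 = wp 14 := by rw [wp_pow]; norm_num
  have h2 : (wp 7) ^ 2 = wp 14 := by rw [wp_pow]; norm_num
  rw [A2, η, map_mul, V_wp, show (7 * 1 : ℤ) = 7 by norm_num, mul_pow, mul_pow, h1, h2,
    mul_div_mul_left _ _ (wp_ne_zero 14)]

lemma rc_eu : RC eu 1 := ⟨reg_eu, ct_eu⟩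
lemma rc_Veu : RC (V eu) 1 := ⟨reg_eu.V, by rw [ct_V, ct_eu]⟩
lemma RC.inv {f : K} {a : ℚ} (hf : RC f a) (ha : a ≠ 0) : RC f⁻¹ a⁻¹ := by
  have := reg_inv hf.1 (by rw [hf.2]; exact ha)
  exact ⟨this.1, by rw [this.2, hf.2]⟩
lemma rc_one : RC 1 1 := ⟨reg_one, ct_one⟩

lemma rc_A2 : RC A2 1 := by
  rw [A2_eq, div_eq_mul_inv]
  exact ((rc_eu.pow 14).mul ((rc_Veu.pow 2).inv (by norm_num))).to (by norm_num)

/-- `z³ = A² Q²` -/
lemma rel_z3 : z ^ 3 = A2 * Qp ^ 2 := by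
  have h : (z ^ 3 - A2 * Qp ^ 2) * (z ^ 3 + A2 * Qp ^ 2) = 0 := by
    have h1 : A2 ^ 2 * t = η ^ 24 := by
      rw [A2, t, x]; field_simp [η_ne, Vη_ne]
    have h2 := rel_z6
    rw [← h1] at h2
    have h3 : (z ^ 6 - A2 ^ 2 * Qp ^ 4) * t = 0 := by linear_combination h2
    have := (mul_eq_zero.mp h3).resolve_right t_ne
    linear_combination this
  rcases mul_eq_zero.mp h with h | h
  · linear_combination h
  · exfalso
    have := ((rc_z.pow 3).add (rc_A2.mul (rc_Q.pow 2))).2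
    rw [h, ct_zero] at this
    norm_num at this

/-- `s = t(7τ)` -/
def s : K := V t
/-- `φ = η(49τ)/η(τ)` -/
def φ : K := x * V x

lemma φ4 : φ ^ 4 = t * s := by
  rw [φ, s, t, map_pow]; ring

lemma rel_j : bp ^ 3 * Qp * s = (1 + 245 * s + 2401 * s ^ 2) ^ 3 * (1 + 13 * s + 49 * s ^ 2) * t ^ 7 := by
  have hQ := Qp_ne
  have ht := t_ne
  have hη := η_ne
  have hVη := Vη_ne
  have h1 : e4 ^ 3 * t = ap ^ 3 * Qp * η ^ 24 := by
    rw [rel_e4]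
    have := rel_z6
    field_simp
    linear_combination ap ^ 3 * this
  have h2 : (V e4) ^ 3 * t ^ 7 = bp ^ 3 * Qp * (V η) ^ 24 := by
    rw [rel_Ve4]
    have h3 := rel_z6
    have h4 : (V η) ^ 24 = t ^ 6 * η ^ 24 := by rw [t, x]; field_simp
    rw [h4]
    field_simp
    linear_combination bp ^ 3 * h3
  have h5 := congrArg V h1
  simp only [map_mul, map_pow] at h5
  have h6 : V ap = 1 + 245 * s + 2401 * s ^ 2 := by
    rw [ap, s]; simp only [map_add, map_mul, map_pow, map_one, map_ofNat]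
  have h7 : V Qp = 1 + 13 * s + 49 * s ^ 2 := by
    rw [Qp, s]; simp only [map_add, map_mul, map_pow, map_one, map_ofNat]
  rw [h6, h7] at h5
  have h8 : (V η) ^ 24 ≠ 0 := pow_ne_zero _ hVη
  apply mul_right_cancel₀ h8
  change (V e4) ^ 3 * s = _ at h5
  linear_combination (-s) * h2 + t ^ 7 * h5

lemma rc_wp {k : ℤ} (hk : 0 < k) : RC (wp k) 0 :=
  ⟨reg_wp hk.le, by rw [ct, wp_coeff, if_neg (by omega)]⟩

/-- The modular equation of degree 7. -/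
theorem modeq : φ ^ 7 = s ^ 2 * (1 + 7 * φ + 21 * φ ^ 2 + 49 * φ ^ 3 + 147 * φ ^ 4 + 343 * φ ^ 5 +
    343 * φ ^ 6) + 7 * s * φ ^ 4 * (1 + 5 * φ + 7 * φ ^ 2) := by
  -- write `φ = q² u`, `s = q⁷ v`
  have hu0 : RC (V eu / eu) 1 := ⟨Veu_eu.1, Veu_eu.2⟩
  have hu : RC (V eu / eu * V (V eu / eu)) 1 :=
    (hu0.mul ⟨hu0.1.V, by rw [ct_V, hu0.2]⟩).to (by norm_num)
  have hv : RC (V (V eu / eu) ^ 4) 1 :=
    (RC.pow ⟨hu0.1.V, by rw [ct_V, hu0.2]⟩ 4).to (by norm_num)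
  have hφ : φ = wp 24 ^ 2 * (V eu / eu * V (V eu / eu)) := by
    rw [φ, x_eq, map_mul, V_wp, wp_pow, show ((2 : ℕ) : ℤ) * 24 = 6 + 7 * 6 by norm_num, wp_add]
    ring
  have hs : s = wp 24 ^ 7 * V (V eu / eu) ^ 4 := by
    rw [s, t_eq, map_mul, map_pow, V_wp, wp_pow]
    norm_num
  generalize V eu / eu * V (V eu / eu) = u at hu hφ
  generalize V (V eu / eu) ^ 4 = v at hv hs
  have hq : RC (wp 24) 0 := rc_wp (by norm_num)
  have hq0 := wp_ne_zero 24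
  generalize wp 24 = q at hq hφ hs hq0
  have hrel := rel_j
  have h4 := φ4
  -- the full relation in terms of φ and s
  have hsne : s ≠ 0 := by
    rw [s]; intro h; exact t_ne (Vm_injective 7 (by norm_num) (by rw [map_zero]; exact h))
  have hfull : (1 - 49 * φ ^ 4) *
      ((φ ^ 7 - s ^ 2 * (1 + 7 * φ + 21 * φ ^ 2 + 49 * φ ^ 3 + 147 * φ ^ 4 + 343 * φ ^ 5 +
        343 * φ ^ 6) - 7 * s * φ ^ 4 * (1 + 5 * φ + 7 * φ ^ 2)) *
      (-φ ^ 7 - s ^ 2 * (1 - 7 * φ + 21 * φ ^ 2 - 49 * φ ^ 3 + 147 * φ ^ 4 - 343 * φ ^ 5 +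
        343 * φ ^ 6) - 7 * s * φ ^ 4 * (1 - 5 * φ + 7 * φ ^ 2))) *
      (s ^ 4 + 7 * φ ^ 2 * s ^ 4 + 14 * φ ^ 4 * s ^ 3 + 49 * φ ^ 4 * s ^ 4 + 98 * φ ^ 6 * s ^ 3 +
        343 * φ ^ 6 * s ^ 4 + 63 * φ ^ 8 * s ^ 2 + 686 * φ ^ 8 * s ^ 3 + 2401 * φ ^ 8 * s ^ 4 +
        441 * φ ^ 10 * s ^ 2 + 4802 * φ ^ 10 * s ^ 3 + 16807 * φ ^ 10 * s ^ 4 + 70 * φ ^ 12 * s +
        3087 * φ ^ 12 * s ^ 2 + 33614 * φ ^ 12 * s ^ 3 + 117649 * φ ^ 12 * s ^ 4 + φ ^ 14) = 0 := by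
    have ht : t = φ ^ 4 / s := by rw [h4]; field_simp
    have h5 : s ^ 7 * (bp ^ 3 * Qp * s) = s ^ 7 * ((1 + 245 * s + 2401 * s ^ 2) ^ 3 *
      (1 + 13 * s + 49 * s ^ 2) * t ^ 7) := by rw [hrel]
    rw [bp, Qp, ht] at h5
    field_simp at h5
    linear_combination h5
  have n1 : 1 - 49 * φ ^ 4 ≠ 0 := by
    intro h
    have hh : RC (1 - 49 * φ ^ 4) 1 := by
      rw [hφ]
      exact (rc_one.sub ((rc_ofNat 49).mul (((hq.pow 2).mul hu).pow 4))).to (by norm_num)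
    have := hh.2
    rw [h, ct_zero] at this
    norm_num at this
  have n2 : -φ ^ 7 - s ^ 2 * (1 - 7 * φ + 21 * φ ^ 2 - 49 * φ ^ 3 + 147 * φ ^ 4 - 343 * φ ^ 5 +
        343 * φ ^ 6) - 7 * s * φ ^ 4 * (1 - 5 * φ + 7 * φ ^ 2) ≠ 0 := by
    intro h
    have e : -φ ^ 7 - s ^ 2 * (1 - 7 * φ + 21 * φ ^ 2 - 49 * φ ^ 3 + 147 * φ ^ 4 - 343 * φ ^ 5 +
        343 * φ ^ 6) - 7 * s * φ ^ 4 * (1 - 5 * φ + 7 * φ ^ 2) =
        -(q ^ 14 * (u ^ 7 + v ^ 2 + q * (v ^ 2 * (- 7 * q * u + 21 * q ^ 3 * u ^ 2 -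
          49 * q ^ 5 * u ^ 3 + 147 * q ^ 7 * u ^ 4 - 343 * q ^ 9 * u ^ 5 + 343 * q ^ 11 * u ^ 6) +
          7 * v * u ^ 4 * (1 - 5 * q ^ 2 * u + 7 * q ^ 4 * u ^ 2)))) := by
      rw [hφ, hs]; ring
    rw [e, neg_eq_zero] at h
    have h' := (mul_eq_zero.mp h).resolve_left (pow_ne_zero 14 hq0)
    have hR : Reg (v ^ 2 * (- 7 * q * u + 21 * q ^ 3 * u ^ 2 -
          49 * q ^ 5 * u ^ 3 + 147 * q ^ 7 * u ^ 4 - 343 * q ^ 9 * u ^ 5 + 343 * q ^ 11 * u ^ 6) +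
          7 * v * u ^ 4 * (1 - 5 * q ^ 2 * u + 7 * q ^ 4 * u ^ 2)) := by
      have a := hq.1
      have b := hu.1
      have c := hv.1
      repeat' first
        | with_reducible assumption
        | with_reducible apply Reg.add
        | with_reducible apply Reg.sub
        | with_reducible apply Reg.mul
        | with_reducible apply Reg.pow
        | with_reducible apply Reg.neg
        | with_reducible exact reg_one
        | with_reducible apply reg_ofNat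
    have := (((hu.pow 7).add (hv.pow 2)).add (hq.mul ⟨hR, rfl⟩)).2
    rw [h', ct_zero] at this
    norm_num at this
  have n3 : (s ^ 4 + 7 * φ ^ 2 * s ^ 4 + 14 * φ ^ 4 * s ^ 3 + 49 * φ ^ 4 * s ^ 4 + 98 * φ ^ 6 * s ^ 3 +
        343 * φ ^ 6 * s ^ 4 + 63 * φ ^ 8 * s ^ 2 + 686 * φ ^ 8 * s ^ 3 + 2401 * φ ^ 8 * s ^ 4 +
        441 * φ ^ 10 * s ^ 2 + 4802 * φ ^ 10 * s ^ 3 + 16807 * φ ^ 10 * s ^ 4 + 70 * φ ^ 12 * s +
        3087 * φ ^ 12 * s ^ 2 + 33614 * φ ^ 12 * s ^ 3 + 117649 * φ ^ 12 * s ^ 4 + φ ^ 14) ≠ 0 := by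
    intro h
    have e : (s ^ 4 + 7 * φ ^ 2 * s ^ 4 + 14 * φ ^ 4 * s ^ 3 + 49 * φ ^ 4 * s ^ 4 +
        98 * φ ^ 6 * s ^ 3 +
        343 * φ ^ 6 * s ^ 4 + 63 * φ ^ 8 * s ^ 2 + 686 * φ ^ 8 * s ^ 3 + 2401 * φ ^ 8 * s ^ 4 +
        441 * φ ^ 10 * s ^ 2 + 4802 * φ ^ 10 * s ^ 3 + 16807 * φ ^ 10 * s ^ 4 + 70 * φ ^ 12 * s +
        3087 * φ ^ 12 * s ^ 2 + 33614 * φ ^ 12 * s ^ 3 + 117649 * φ ^ 12 * s ^ 4 + φ ^ 14) =
        q ^ 28 * (v ^ 4 + u ^ 14 + q * (7 * q ^ 3 * u ^ 2 * v ^ 4 + 14 * u ^ 4 * v ^ 3 +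
          49 * q ^ 7 * u ^ 4 * v ^ 4 + 98 * q ^ 4 * u ^ 6 * v ^ 3 + 343 * q ^ 11 * u ^ 6 * v ^ 4 +
          63 * q * u ^ 8 * v ^ 2 + 686 * q ^ 8 * u ^ 8 * v ^ 3 + 2401 * q ^ 15 * u ^ 8 * v ^ 4 +
          441 * q ^ 5 * u ^ 10 * v ^ 2 + 4802 * q ^ 12 * u ^ 10 * v ^ 3 +
          16807 * q ^ 19 * u ^ 10 * v ^ 4 + 70 * q ^ 2 * u ^ 12 * v + 3087 * q ^ 9 * u ^ 12 * v ^ 2 +
          33614 * q ^ 16 * u ^ 12 * v ^ 3 + 117649 * q ^ 23 * u ^ 12 * v ^ 4)) := by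
      rw [hφ, hs]; ring
    rw [e] at h
    have h' := (mul_eq_zero.mp h).resolve_left (pow_ne_zero 28 hq0)
    have hR : Reg (7 * q ^ 3 * u ^ 2 * v ^ 4 + 14 * u ^ 4 * v ^ 3 +
          49 * q ^ 7 * u ^ 4 * v ^ 4 + 98 * q ^ 4 * u ^ 6 * v ^ 3 + 343 * q ^ 11 * u ^ 6 * v ^ 4 +
          63 * q * u ^ 8 * v ^ 2 + 686 * q ^ 8 * u ^ 8 * v ^ 3 + 2401 * q ^ 15 * u ^ 8 * v ^ 4 +
          441 * q ^ 5 * u ^ 10 * v ^ 2 + 4802 * q ^ 12 * u ^ 10 * v ^ 3 +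
          16807 * q ^ 19 * u ^ 10 * v ^ 4 + 70 * q ^ 2 * u ^ 12 * v + 3087 * q ^ 9 * u ^ 12 * v ^ 2 +
          33614 * q ^ 16 * u ^ 12 * v ^ 3 + 117649 * q ^ 23 * u ^ 12 * v ^ 4) := by
      have a := hq.1
      have b := hu.1
      have c := hv.1
      repeat' first
        | with_reducible assumption
        | with_reducible apply Reg.add
        | with_reducible apply Reg.sub
        | with_reducible apply Reg.mul
        | with_reducible apply Reg.pow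
        | with_reducible apply Reg.neg
        | with_reducible exact reg_one
        | with_reducible apply reg_ofNat
    have := (((hv.pow 4).add (hu.pow 14)).add (hq.mul ⟨hR, rfl⟩)).2
    rw [h', ct_zero] at this
    norm_num at this
  have h6 := (mul_eq_zero.mp hfull).resolve_right n3
  have h7 := (mul_eq_zero.mp h6).resolve_left n1
  have h8 := (mul_eq_zero.mp h7).resolve_right n2
  linear_combination h8

end

end Pool.Agent.Lib.MP_fad775_nt
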