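import Mathlib

/-!
# MP_fad775_nt: Newton's identities for the roots of a monic polynomial of degree 7
-/

namespace Pool.Agent.Lib.MP_fad775_nt

open Polynomial Finset

theorem newton_gen {R : Type*} [CommRing R] [IsDomain R] (y : Fin 7 → R)
    (hy : Function.Injective y) (a : ℕ → R) (h7 : a 7 = 1)
    (hroot : ∀ j, ∑ i ∈ range 8, a i * y j ^ i = 0) (k : ℕ) (hk : k ≤ 7) (hk1 : 1 ≤ k) :
    ∑ i ∈ range k, a (7 - i) * (∑ j, y j ^ (k - i)) + k * a (7 - k) = 0 := by
  classical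
  set P : R[X] := ∑ i ∈ range 8, C (a i) * X ^ i with hP
  set Q : R[X] := ∏ j : Fin 7, (X - C (y j)) with hQ
  have hPc : ∀ n, n < 8 → P.coeff n = a n := by
    intro n hn
    rw [hP, finset_sum_coeff]
    simp only [coeff_C_mul, coeff_X_pow, mul_ite, mul_one, mul_zero]
    rw [Finset.sum_ite_eq (range 8) n]
    simp [hn]
  have hQm : Q.Monic := monic_prod_of_monic _ _ fun j _ => monic_X_sub_C (y j)
  have hQd : Q.natDegree = 7 := by
    rw [hQ, natDegree_prod_of_monic _ _ fun j _ => monic_X_sub_C (y j)]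
    simp
  have hPQ : P = Q := by
    have hdeg : (P - Q).degree < 7 := by
      change (P - Q).degree < ((7 : ℕ) : WithBot ℕ)
      rw [Polynomial.degree_lt_iff_coeff_zero]
      intro m hm
      rcases Nat.lt_or_ge m 8 with h | h
      · have hm7 : m = 7 := by omega
        subst hm7
        rw [coeff_sub, hPc 7 (by norm_num), h7]
        have := hQm.coeff_natDegree
        rw [hQd] at this
        rw [this, sub_self]
      · rw [coeff_sub, Polynomial.coeff_eq_zero_of_natDegree_lt (p := Q) (by omega), sub_zero]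
        rw [hP, finset_sum_coeff]
        refine Finset.sum_eq_zero fun i hi => ?_
        rw [Finset.mem_range] at hi
        rw [coeff_C_mul, coeff_X_pow, if_neg (by omega), mul_zero]
    refine Polynomial.eq_of_degree_sub_lt_of_eval_finset_eq (Finset.univ.image y) ?_ ?_
    · rw [Finset.card_image_of_injective _ hy]
      simpa using hdeg
    · intro r hr
      simp only [Finset.mem_image, Finset.mem_univ, true_and] at hr
      obtain ⟨j, rfl⟩ := hr
      have h1 : P.eval (y j) = 0 := by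
        rw [hP, eval_finset_sum]
        simpa using hroot j
      have h2 : Q.eval (y j) = 0 := by
        rw [hQ, eval_prod]
        exact Finset.prod_eq_zero (Finset.mem_univ j) (by simp)
      rw [h1, h2]
  have hE : ∀ m ≤ 7, MvPolynomial.aeval y (MvPolynomial.esymm (Fin 7) R m) =
      (-1) ^ m * a (7 - m) := by
    intro m hm
    have h1 : Q.coeff (7 - m) = (-1) ^ m * (Finset.univ.val.map y).esymm m := by
      have := Multiset.prod_X_sub_C_coeff (Finset.univ.val.map y) (k := 7 - m) (by simp)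
      rw [Multiset.map_map] at this
      have h2 : Multiset.card (Multiset.map y (Finset.univ (α := Fin 7)).val) - (7 - m) = m := by
        simp; omega
      rw [h2] at this
      rw [hQ, Finset.prod]
      exact this
    rw [MvPolynomial.aeval_esymm_eq_multiset_esymm]
    rw [← hPQ, hPc _ (by omega)] at h1
    rw [h1, ← mul_assoc, ← pow_add, ← two_mul, pow_mul]
    simp
  have hN := congrArg (MvPolynomial.aeval y) (MvPolynomial.mul_esymm_eq_sum (Fin 7) R k)
  simp only [map_mul, map_natCast, map_sum, map_pow, map_neg, map_one] at hN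
  rw [hE k hk] at hN
  have hS : ∀ m, MvPolynomial.aeval y (MvPolynomial.psum (Fin 7) R m) = ∑ j, y j ^ m := by
    intro m
    simp [MvPolynomial.psum]
  have hsum : ∑ x ∈ HasAntidiagonal.antidiagonal k with x.1 < k,
      (-1 : R) ^ x.1 * (MvPolynomial.aeval y) (MvPolynomial.esymm (Fin 7) R x.1) *
      (MvPolynomial.aeval y) (MvPolynomial.psum (Fin 7) R x.2) =
      ∑ i ∈ range k, a (7 - i) * (∑ j, y j ^ (k - i)) := by
    rw [Finset.sum_filter, Finset.Nat.sum_antidiagonal_eq_sum_range_succ_mk,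
      Finset.sum_range_succ]
    simp only [lt_self_iff_false, if_false, add_zero]
    refine Finset.sum_congr rfl fun i hi => ?_
    rw [Finset.mem_range] at hi
    rw [if_pos hi, hE i (by omega), hS, ← mul_assoc, ← pow_add, ← two_mul, pow_mul]
    simp
  rw [hsum, pow_succ] at hN
  have hu : ((-1 : R) ^ k) * ((-1 : R) ^ k) = 1 := by
    rw [← pow_add, ← two_mul, pow_mul]; simp
  linear_combination (-1 : R) ^ k * hN - (∑ i ∈ range k, a (7 - i) * (∑ j, y j ^ (k - i)) + k * a (7 - k)) * (hu)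

end Pool.Agent.Lib.MP_fad775_nt

namespace Pool.Agent.Lib.MP_fad775_nt

open PowerSeries Finset

noncomputable section

/-- `q ↦ q⁷` -/
def Vq (f : ℚ⟦X⟧) : ℚ⟦X⟧ := PowerSeries.expand 7 (by norm_num) f

/-- `∑ aₙ qⁿ ↦ ∑ a₇ₙ qⁿ` -/
def Uq (f : ℚ⟦X⟧) : ℚ⟦X⟧ := PowerSeries.mk fun n => coeff (7 * n) f

lemma Vq_injective : Function.Injective Vq := by
  intro f g h
  ext n
  have := congrArg (coeff (7 * n)) h
  simpa [Vq] using this

theorem U_newton (F : ℚ⟦X⟧) (b : ℕ → ℚ⟦X⟧) (b7 : b 7 = 1)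
    (hF : ∑ i ∈ range 8, Vq (b i) * F ^ i = 0) (m : ℕ) (hm : coeff m F ≠ 0)
    (h7m : ¬ 7 ∣ m) (k : ℕ) (hk : k ≤ 7) (hk1 : 1 ≤ k) :
    ∑ i ∈ range k, b (7 - i) * (7 * Uq (F ^ (k - i))) + k * b (7 - k) = 0 := by
  obtain ⟨ζ, hζ⟩ : ∃ ζ : ℂ, IsPrimitiveRoot ζ 7 := ⟨_, Complex.isPrimitiveRoot_exp 7 (by norm_num)⟩
  let c : ℚ⟦X⟧ →+* ℂ⟦X⟧ := PowerSeries.map (algebraMap ℚ ℂ)
  have hc : Function.Injective c := PowerSeries.map_injective _ (algebraMap ℚ ℂ).injective
  let y : Fin 7 → ℂ⟦X⟧ := fun j => rescale (ζ ^ (j : ℕ)) (c F)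
  let a : ℕ → ℂ⟦X⟧ := fun i => c (Vq (b i))
  have hfix : ∀ (j : Fin 7) (i : ℕ), rescale (ζ ^ (j : ℕ)) (a i) = a i := by
    intro j i
    ext n
    rw [coeff_rescale]
    simp only [a, c, coeff_map, Vq, coeff_expand]
    split_ifs with h
    · obtain ⟨l, rfl⟩ := h
      rw [← pow_mul, show (j : ℕ) * (7 * l) = 7 * (j * l) by ring, pow_mul, hζ.pow_eq_one, one_pow,
        one_mul]
    · simp
  have hinj : Function.Injective y := by
    intro j j' h
    have h1 := congrArg (coeff m) h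
    simp only [y, coeff_rescale, c, coeff_map] at h1
    have h2 : (algebraMap ℚ ℂ) (coeff m F) ≠ 0 := by
      simpa using hm
    have h3 := mul_right_cancel₀ h2 h1
    rw [← pow_mul, ← pow_mul] at h3
    have h4 : ((j : ℕ) * m) % 7 = ((j' : ℕ) * m) % 7 := by
      have := (IsOfFinOrder.pow_inj_mod (x := ζ)
        (isOfFinOrder_iff_pow_eq_one.mpr ⟨7, by norm_num, hζ.pow_eq_one⟩)).mp h3
      rwa [← hζ.eq_orderOf] at this
    have h5 : (j : ℕ) * m ≡ (j' : ℕ) * m [MOD 7] := h4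
    have h6 : Nat.gcd 7 m = 1 := (Nat.Prime.coprime_iff_not_dvd (by norm_num)).mpr h7m
    have h7 := Nat.ModEq.cancel_right_of_coprime h6 h5
    have h8 : (j : ℕ) % 7 = (j' : ℕ) % 7 := h7
    rw [Nat.mod_eq_of_lt j.2, Nat.mod_eq_of_lt j'.2] at h8
    exact Fin.ext h8
  have hroot : ∀ j, ∑ i ∈ range 8, a i * y j ^ i = 0 := by
    intro j
    have h1 := congrArg (fun f => rescale (ζ ^ (j : ℕ)) (c f)) hF
    simp only [map_sum, map_mul, map_pow, map_zero] at h1
    rw [← h1]
    refine Finset.sum_congr rfl fun i _ => ?_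
    rw [show rescale (ζ ^ (j : ℕ)) (c (Vq (b i))) = a i from hfix j i]
  have ha7 : a 7 = 1 := by simp [a, b7, Vq]
  have hN := newton_gen y hinj a ha7 hroot k hk hk1
  have hS : ∀ l, ∑ j, y j ^ l = c (7 * Vq (Uq (F ^ l))) := by
    intro l
    have h1 : ∀ j, y j ^ l = rescale (ζ ^ (j : ℕ)) (c (F ^ l)) := by
      intro j; simp [y, map_pow]
    rw [Finset.sum_congr rfl fun j _ => h1 j]
    ext n
    rw [map_sum]
    simp only [coeff_rescale, c, coeff_map]
    have h7' : coeff n (7 * Vq (Uq (F ^ l))) = 7 * coeff n (Vq (Uq (F ^ l))) := by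
      rw [show (7 : ℚ⟦X⟧) = C (7 : ℚ) from (map_ofNat C 7).symm, coeff_C_mul]
    rw [h7', ← Finset.sum_mul]
    simp only [Vq, coeff_expand, Uq, coeff_mk]
    split_ifs with h
    · obtain ⟨r, rfl⟩ := h
      rw [Nat.mul_div_cancel_left _ (by norm_num)]
      have : ∀ j : Fin 7, (ζ ^ (j : ℕ)) ^ (7 * r) = 1 := by
        intro j
        rw [← pow_mul, show (j : ℕ) * (7 * r) = 7 * (j * r) by ring, pow_mul, hζ.pow_eq_one,
          one_pow]
      simp [this]
    · have : ∑ j : Fin 7, (ζ ^ (j : ℕ)) ^ n = 0 := by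
        have h2 : ∀ j : Fin 7, (ζ ^ (j : ℕ)) ^ n = (ζ ^ n) ^ (j : ℕ) := by
          intro j; rw [← pow_mul, ← pow_mul, mul_comm]
        rw [Finset.sum_congr rfl fun j _ => h2 j, Fin.sum_univ_eq_sum_range (fun j => (ζ ^ n) ^ j) 7]
        have h3 : IsPrimitiveRoot (ζ ^ n) 7 := hζ.pow_of_coprime n
          ((Nat.Prime.coprime_iff_not_dvd (by norm_num)).mpr h).symm
        exact h3.geom_sum_eq_zero (by norm_num)
      rw [this]; simp
  have h9 : c (Vq (∑ i ∈ range k, b (7 - i) * (7 * Uq (F ^ (k - i))) + k * b (7 - k))) = 0 := by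
    rw [← hN]
    have hV : ∀ f g, Vq (f * g) = Vq f * Vq g := fun f g => map_mul _ f g
    have hVa : ∀ f g, Vq (f + g) = Vq f + Vq g := fun f g => map_add _ f g
    have hVs : Vq (∑ i ∈ range k, b (7 - i) * (7 * Uq (F ^ (k - i)))) =
      ∑ i ∈ range k, Vq (b (7 - i) * (7 * Uq (F ^ (k - i)))) := map_sum (PowerSeries.expand 7 _) _ _
    have hVn : ∀ n : ℕ, Vq (n : ℚ⟦X⟧) = n := fun n => map_natCast (PowerSeries.expand 7 _) n
    have hV7 : Vq (7 : ℚ⟦X⟧) = 7 := map_ofNat (PowerSeries.expand 7 _) 7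
    rw [hVa, hVs, hV, hVn, map_add, map_mul, map_sum, map_natCast]
    congr 1
    refine Finset.sum_congr rfl fun i _ => ?_
    rw [hS, hV, hV, hV7, map_mul]
  have h10 := hc (h9.trans (map_zero c).symm)
  exact Vq_injective (h10.trans (map_zero (PowerSeries.expand 7 _)).symm)

end

end Pool.Agent.Lib.MP_fad775_nt
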