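import Mathlib
import Pool.Agent.Lib.MP_fad775_nt.ModEq
import Pool.Agent.Lib.MP_fad775_nt.Newton

/-!
# MP_fad775_nt: the functions `G(n) = U(φ^n g)`: recurrence and the window for `g = 1`
-/

namespace Pool.Agent.Lib.MP_fad775_nt

open HahnSeries

noncomputable section

lemma U_ι (F : PowerSeries ℚ) : U (ι F) = ι (Uq F) := by
  ext n
  rw [U_coeff]
  by_cases h : (24 : ℤ) ∣ n
  · obtain ⟨k, rfl⟩ := h
    rcases lt_or_ge k 0 with hk | hk
    · rw [ι_coeff_neg _ _ (by omega), ι_coeff_neg _ _ (by omega)]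
    · obtain ⟨m, rfl⟩ := Int.eq_ofNat_of_zero_le hk
      rw [ι_coeff_mul, Uq, PowerSeries.coeff_mk,
        show (7 * (24 * (m : ℤ))) = 24 * ((7 * m : ℕ) : ℤ) by push_cast; ring, ι_coeff_mul]
  · rw [ι_coeff_of_not_dvd _ _ h, ι_coeff_of_not_dvd _ _ (by omega)]

lemma s_ne : s ≠ 0 := by
  rw [s]; intro h; exact t_ne (Vm_injective 7 (by norm_num) (by rw [map_zero]; exact h))

lemma Vx_ne : V x ≠ 0 := by
  intro h; exact x_ne (Vm_injective 7 (by norm_num) (by rw [map_zero]; exact h))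

lemma φ_ne : φ ≠ 0 := mul_ne_zero x_ne Vx_ne

lemma V_pow_mul_U (k : ℕ) (f g : K) : U (V f ^ k * g) = f ^ k * U g := by
  rw [← map_pow, U_V_mul]

/-- the power series for `η(7τ)/η(τ)` divided by `q^{1/4}` -/
def Xs : PowerSeries ℚ := PowerSeries.expand 7 (by norm_num) Eu * Eu⁻¹

lemma Eu_mul_inv : Eu * Eu⁻¹ = 1 := PowerSeries.mul_inv_cancel Eu (by rw [Eu_ct]; norm_num)

lemma ι_Xs : ι Xs = V eu / eu := by
  rw [Xs, map_mul, eu, V_ι, div_eq_mul_inv]
  congr 1
  symm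
  apply inv_eq_of_mul_eq_one_right
  rw [← map_mul, Eu_mul_inv, map_one]

lemma Xs_ct : PowerSeries.constantCoeff Xs = 1 := by
  have := Veu_eu.2
  rw [← ι_Xs, ct_ι] at this
  exact this

/-- `t` as a power series in `q` -/
def Ts : PowerSeries ℚ := PowerSeries.X * Xs ^ 4

lemma ι_Ts : ι Ts = t := by
  rw [Ts, map_mul, map_pow, ι_Xs, ← wp24_eq, t_eq]

/-- `χ = s/φ` as a power series in `q` -/
def Cs : PowerSeries ℚ := PowerSeries.X ^ 5 * (Vq Xs ^ 3 * Xs⁻¹)

lemma ι_Vq (F : PowerSeries ℚ) : ι (Vq F) = V (ι F) := by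
  rw [Vq, V_ι]

lemma ι_Cs : ι Cs = s / φ := by
  have h1 : ι (Xs⁻¹) = (V eu / eu)⁻¹ := by
    symm
    apply inv_eq_of_mul_eq_one_right
    rw [← ι_Xs, ← map_mul, PowerSeries.mul_inv_cancel Xs (by rw [Xs_ct]; norm_num), map_one]
  have h2 : s / φ = (V x) ^ 3 / x := by
    rw [s, φ, t, map_pow]
    field_simp [x_ne, Vx_ne]
  rw [Cs, map_mul, map_mul, map_pow, map_pow, ι_Vq, ι_Xs, h1, h2, x_eq, ← wp24_eq, map_mul, V_wp,
    mul_pow, wp_pow, wp_pow]
  have h3 : wp ((3 : ℕ) * (7 * 6)) = wp ((5 : ℕ) * 24) * wp 6 := by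
    rw [← wp_add]; norm_num
  have hne : V eu / eu ≠ 0 := by
    intro h
    have := Veu_eu.2
    rw [h, ct_zero] at this
    norm_num at this
  rw [h3]
  generalize V eu / eu = y at *
  field_simp [wp_ne_zero 6, hne]

lemma χ_eq : (s / φ) ^ 7 + 7 * s * (s / φ) ^ 6 + 21 * s ^ 2 * (s / φ) ^ 5 + 49 * s ^ 3 * (s / φ) ^ 4 +
    (147 * s ^ 4 + 7 * s ^ 3) * (s / φ) ^ 3 + (343 * s ^ 5 + 35 * s ^ 4) * (s / φ) ^ 2 +
    (343 * s ^ 6 + 49 * s ^ 5) * (s / φ) - s ^ 5 = 0 := by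
  have h := modeq
  have h1 := φ_ne
  have h2 := s_ne
  field_simp
  linear_combination (-s ^ 5) * h

/-- coefficients of the polynomial for `χ` -/
def bs : ℕ → PowerSeries ℚ
  | 0 => - Ts ^ 5
  | 1 => 343 * Ts ^ 6 + 49 * Ts ^ 5
  | 2 => 343 * Ts ^ 5 + 35 * Ts ^ 4
  | 3 => 147 * Ts ^ 4 + 7 * Ts ^ 3
  | 4 => 49 * Ts ^ 3
  | 5 => 21 * Ts ^ 2
  | 6 => 7 * Ts
  | _ => 1

lemma bs_eq : ∑ i ∈ Finset.range 8, Vq (bs i) * Cs ^ i = 0 := by
  apply ι_injective
  rw [map_zero, map_sum]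
  simp only [Finset.sum_range_succ, Finset.sum_range_zero, map_mul, map_pow, ι_Vq, ι_Cs, bs, map_neg,
    map_add, ι_Ts, map_ofNat, map_one]
  have h := χ_eq
  have e : V t = s := rfl
  rw [e]
  linear_combination h

/-- `U (χ^k)` -/
def uc (k : ℕ) : K := U ((s / φ) ^ k)

lemma uc_newton (k : ℕ) (hk : k ≤ 7) (hk1 : 1 ≤ k) :
    ∑ i ∈ Finset.range k, ι (bs (7 - i)) * (7 * uc (k - i)) + k * ι (bs (7 - k)) = 0 := by
  have h := U_newton Cs bs rfl bs_eq 5 (by
    rw [Cs, PowerSeries.coeff_X_pow_mul' _ 5 5]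
    simp only [le_refl, if_true, Nat.sub_self]
    rw [PowerSeries.coeff_zero_eq_constantCoeff_apply, map_mul, map_pow]
    have h1 : PowerSeries.constantCoeff (Vq Xs) = 1 := by
      rw [Vq]
      have := PowerSeries.coeff_expand (n := 0) 7 (by norm_num) Xs
      simp only [dvd_zero, if_true, Nat.zero_div] at this
      rw [← PowerSeries.coeff_zero_eq_constantCoeff_apply, this,
        PowerSeries.coeff_zero_eq_constantCoeff_apply, Xs_ct]
    rw [h1, PowerSeries.constantCoeff_inv, Xs_ct]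
    norm_num) (by norm_num) k hk hk1
  have h2 := congrArg ι h
  rw [map_zero, map_add, map_sum, map_mul, map_natCast] at h2
  rw [← h2]
  congr 1
  refine Finset.sum_congr rfl fun i _ => ?_
  rw [map_mul, map_mul, map_ofNat, uc, ← ι_Cs, ← map_pow, U_ι]

lemma uc1 : uc 1 = - t := by
  have h := uc_newton 1 (by norm_num) (by norm_num)
  simp only [Finset.sum_range_succ, Finset.sum_range_zero, Nat.sub_zero, Nat.reduceSub, bs, map_mul,
    map_ofNat, map_one, ι_Ts] at h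
  push_cast at h
  linear_combination (1 / 7) * h

lemma uc2 : uc 2 = t ^ 2 := by
  have h := uc_newton 2 (by norm_num) (by norm_num)
  simp only [Finset.sum_range_succ, Finset.sum_range_zero, Nat.sub_zero, Nat.reduceSub, bs, map_mul,
    map_ofNat, map_one, ι_Ts, map_pow, uc1] at h
  push_cast at h
  linear_combination (1 / 7) * h

lemma uc3 : uc 3 = -7 * t ^ 3 := by
  have h := uc_newton 3 (by norm_num) (by norm_num)
  simp only [Finset.sum_range_succ, Finset.sum_range_zero, Nat.sub_zero, Nat.reduceSub, bs, map_mul,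
    map_ofNat, map_one, ι_Ts, map_pow, uc1, uc2] at h
  push_cast at h
  linear_combination (1 / 7) * h

lemma uc4 : uc 4 = -4 * t ^ 3 - 7 * t ^ 4 := by
  have h := uc_newton 4 (by norm_num) (by norm_num)
  simp only [Finset.sum_range_succ, Finset.sum_range_zero, Nat.sub_zero, Nat.reduceSub, bs, map_mul,
    map_ofNat, map_one, ι_Ts, map_pow, uc1, uc2, uc3, map_add] at h
  push_cast at h
  linear_combination (1 / 7) * h

lemma uc5 : uc 5 = 10 * t ^ 4 + 49 * t ^ 5 := by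
  have h := uc_newton 5 (by norm_num) (by norm_num)
  simp only [Finset.sum_range_succ, Finset.sum_range_zero, Nat.sub_zero, Nat.reduceSub, bs, map_mul,
    map_ofNat, map_one, ι_Ts, map_pow, uc1, uc2, uc3, uc4, map_add] at h
  push_cast at h
  linear_combination (1 / 7) * h

lemma uc6 : uc 6 = 49 * t ^ 6 := by
  have h := uc_newton 6 (by norm_num) (by norm_num)
  simp only [Finset.sum_range_succ, Finset.sum_range_zero, Nat.sub_zero, Nat.reduceSub, bs, map_mul,
    map_ofNat, map_one, ι_Ts, map_pow, uc1, uc2, uc3, uc4, uc5, map_add] at h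
  push_cast at h
  linear_combination (1 / 7) * h

/-- `G g n = U (φ^n g)` -/
def G (g : K) (n : ℤ) : K := U (φ ^ n * g)

lemma G_neg (k : ℕ) : G 1 (-(k : ℤ)) * t ^ k = uc k := by
  rw [G, uc, mul_one, zpow_neg, zpow_natCast]
  have : (s / φ) ^ k = V (t ^ k) * (φ ^ k)⁻¹ := by
    rw [map_pow, div_pow, div_eq_mul_inv]; rfl
  rw [this, U_V_mul, mul_comm]

theorem G_rec (g : K) (n : ℤ) : G g (n + 7) = t ^ 2 * (G g n + 7 * G g (n + 1) + 21 * G g (n + 2) +
    49 * G g (n + 3) + 147 * G g (n + 4) + 343 * G g (n + 5) + 343 * G g (n + 6)) +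
    7 * t * (G g (n + 4) + 5 * G g (n + 5) + 7 * G g (n + 6)) := by
  have h := φ_ne
  have hz : ∀ k : ℕ, φ ^ (n + k) = φ ^ n * φ ^ k := fun k => by
    rw [zpow_add₀ h, zpow_natCast]
  have e1 := hz 1
  have e2 := hz 2
  have e3 := hz 3
  have e4' := hz 4
  have e5 := hz 5
  have e6' := hz 6
  have e7 := hz 7
  push_cast at e1 e2 e3 e4' e5 e6' e7
  have key : φ ^ (n + 7) * g = V (t ^ 2) * (φ ^ n * g) + V (7 * t ^ 2) * (φ ^ (n + 1) * g) +
      V (21 * t ^ 2) * (φ ^ (n + 2) * g) + V (49 * t ^ 2) * (φ ^ (n + 3) * g) +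
      V (147 * t ^ 2 + 7 * t) * (φ ^ (n + 4) * g) + V (343 * t ^ 2 + 35 * t) * (φ ^ (n + 5) * g) +
      V (343 * t ^ 2 + 49 * t) * (φ ^ (n + 6) * g) := by
    rw [e1, e2, e3, e4', e5, e6', e7]
    simp only [map_mul, map_pow, map_add, map_ofNat]
    have e : V t = s := rfl
    rw [e]
    linear_combination φ ^ n * g * modeq
  rw [G, key, map_add, map_add, map_add, map_add, map_add, map_add, U_V_mul, U_V_mul, U_V_mul,
    U_V_mul, U_V_mul, U_V_mul, U_V_mul]
  simp only [G]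
  ring

lemma G0_0 : G 1 0 = 1 := by
  have := U_V 1
  rw [map_one] at this
  simpa [G] using this

lemma G0_m1 : G 1 (-1) = -1 := by
  have h := G_neg 1
  rw [uc1] at h
  push_cast at h
  apply mul_right_cancel₀ (pow_ne_zero 1 t_ne)
  linear_combination h

lemma G0_m2 : G 1 (-2) = 1 := by
  have h := G_neg 2
  rw [uc2] at h
  push_cast at h
  apply mul_right_cancel₀ (pow_ne_zero 2 t_ne)
  linear_combination h

lemma G0_m3 : G 1 (-3) = -7 := by
  have h := G_neg 3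
  rw [uc3] at h
  push_cast at h
  apply mul_right_cancel₀ (pow_ne_zero 3 t_ne)
  linear_combination h

lemma G0_m4 : G 1 (-4) = -4 * t⁻¹ - 7 := by
  have h := G_neg 4
  rw [uc4] at h
  push_cast at h
  apply mul_right_cancel₀ (pow_ne_zero 4 t_ne)
  rw [h]
  field_simp [t_ne]

lemma G0_m5 : G 1 (-5) = 10 * t⁻¹ + 49 := by
  have h := G_neg 5
  rw [uc5] at h
  push_cast at h
  apply mul_right_cancel₀ (pow_ne_zero 5 t_ne)
  rw [h]
  field_simp [t_ne]

lemma G0_m6 : G 1 (-6) = 49 := by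
  have h := G_neg 6
  rw [uc6] at h
  push_cast at h
  apply mul_right_cancel₀ (pow_ne_zero 6 t_ne)
  linear_combination h

end

end Pool.Agent.Lib.MP_fad775_nt
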