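import Mathlib
import Pool.Agent.Lib.MP_fad775_nt.WinA

/-!
# MP_fad775_nt: the windows of `G g n`, `g = 1, z, w4, A2`
-/

namespace Pool.Agent.Lib.MP_fad775_nt

open HahnSeries

noncomputable section

lemma G_back (g : K) (n : ℤ) : G g n = t⁻¹ ^ 2 * G g (n + 7) - (7 * G g (n + 1) +
    21 * G g (n + 2) + 49 * G g (n + 3) + 147 * G g (n + 4) + 343 * G g (n + 5) +
    343 * G g (n + 6)) - 7 * t⁻¹ * (G g (n + 4) + 5 * G g (n + 5) + 7 * G g (n + 6)) := by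
  have h := G_rec g n
  have ht := t_ne
  rw [h]
  field_simp
  ring

lemma G0_m7 : G 1 (-7) = (1) * t⁻¹ ^ 2 + (49) * t⁻¹ ^ 1 := by
  have h := G_back 1 (-7)
  norm_num only at h
  rw [G0_m6, G0_m5, G0_m4, G0_m3, G0_m2, G0_m1, G0_0] at h
  rw [h]
  have ht := t_ne
  field_simp
  ring

lemma G0_m8 : G 1 (-8) = (20) * t⁻¹ ^ 2 + (-343) := by
  have h := G_back 1 (-8)
  norm_num only at h
  rw [G0_m7, G0_m6, G0_m5, G0_m4, G0_m3, G0_m2, G0_m1] at h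
  rw [h]
  have ht := t_ne
  field_simp
  ring

lemma G0_m9 : G 1 (-9) = (-90) * t⁻¹ ^ 2 + (-882) * t⁻¹ ^ 1 + (-2401) := by
  have h := G_back 1 (-9)
  norm_num only at h
  rw [G0_m8, G0_m7, G0_m6, G0_m5, G0_m4, G0_m3, G0_m2] at h
  rw [h]
  have ht := t_ne
  field_simp
  ring

lemma G0_m10 : G 1 (-10) = (2401) := by
  have h := G_back 1 (-10)
  norm_num only at h
  rw [G0_m9, G0_m8, G0_m7, G0_m6, G0_m5, G0_m4, G0_m3] at h
  rw [h]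
  have ht := t_ne
  field_simp
  ring

lemma G0_m11 : G 1 (-11) = (-11) * t⁻¹ ^ 3 + (-77) * t⁻¹ ^ 2 + (3773) * t⁻¹ ^ 1 + (16807) := by
  have h := G_back 1 (-11)
  norm_num only at h
  rw [G0_m10, G0_m9, G0_m8, G0_m7, G0_m6, G0_m5, G0_m4] at h
  rw [h]
  have ht := t_ne
  field_simp
  ring

lemma G0_m12 : G 1 (-12) = (-88) * t⁻¹ ^ 3 + (-16807) := by
  have h := G_back 1 (-12)
  norm_num only at h
  rw [G0_m11, G0_m10, G0_m9, G0_m8, G0_m7, G0_m6, G0_m5] at h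
  rw [h]
  have ht := t_ne
  field_simp
  ring

lemma G0_m13 : G 1 (-13) = (728) * t⁻¹ ^ 3 + (11466) * t⁻¹ ^ 2 + (62426) * t⁻¹ ^ 1 + (117649) := by
  have h := G_back 1 (-13)
  norm_num only at h
  rw [G0_m12, G0_m11, G0_m10, G0_m9, G0_m8, G0_m7, G0_m6] at h
  rw [h]
  have ht := t_ne
  field_simp
  ring

lemma G0_m14 : G 1 (-14) = (1) * t⁻¹ ^ 4 + (-490) * t⁻¹ ^ 3 + (-21609) * t⁻¹ ^ 2 + (-235298) * t⁻¹ ^ 1 + (-705894) := by
  have h := G_back 1 (-14)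
  norm_num only at h
  rw [G0_m13, G0_m12, G0_m11, G0_m10, G0_m9, G0_m8, G0_m7] at h
  rw [h]
  have ht := t_ne
  field_simp
  ring

lemma G0_m15 : G 1 (-15) = (90) * t⁻¹ ^ 4 + (-980) * t⁻¹ ^ 3 + (-30870) * t⁻¹ ^ 2 + (823543) := by
  have h := G_back 1 (-15)
  norm_num only at h
  rw [G0_m14, G0_m13, G0_m12, G0_m11, G0_m10, G0_m9, G0_m8] at h
  rw [h]
  have ht := t_ne
  field_simp
  ring

lemma G0_m16 : G 1 (-16) = (260) * t⁻¹ ^ 4 + (-823543) := by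
  have h := G_back 1 (-16)
  norm_num only at h
  rw [G0_m15, G0_m14, G0_m13, G0_m12, G0_m11, G0_m10, G0_m9] at h
  rw [h]
  have ht := t_ne
  field_simp
  ring

lemma G0_m17 : G 1 (-17) = (-5236) * t⁻¹ ^ 4 + (-104958) * t⁻¹ ^ 3 + (-571438) * t⁻¹ ^ 2 + (5764801) := by
  have h := G_back 1 (-17)
  norm_num only at h
  rw [G0_m16, G0_m15, G0_m14, G0_m13, G0_m12, G0_m11, G0_m10] at h
  rw [h]
  have ht := t_ne
  field_simp
  ring

lemma G0_m18 : G 1 (-18) = (-18) * t⁻¹ ^ 5 + (8820) * t⁻¹ ^ 4 + (388962) * t⁻¹ ^ 3 + (4235364) * t⁻¹ ^ 2 + (14823774) * t⁻¹ ^ 1 + (5764801) := by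
  have h := G_back 1 (-18)
  norm_num only at h
  rw [G0_m17, G0_m16, G0_m15, G0_m14, G0_m13, G0_m12, G0_m11] at h
  rw [h]
  have ht := t_ne
  field_simp
  ring

lemma G0_m19 : G 1 (-19) = (-627) * t⁻¹ ^ 5 + (10241) * t⁻¹ ^ 4 + (-45619) * t⁻¹ ^ 3 + (-4470662) * t⁻¹ ^ 2 + (-31294634) * t⁻¹ ^ 1 + (-40353607) := by
  have h := G_back 1 (-19)
  norm_num only at h
  rw [G0_m18, G0_m17, G0_m16, G0_m15, G0_m14, G0_m13, G0_m12] at h
  rw [h]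
  have ht := t_ne
  field_simp
  ring

lemma G0_m20 : G 1 (-20) = (476) * t⁻¹ ^ 5 + (-40353607) := by
  have h := G_back 1 (-20)
  norm_num only at h
  rw [G0_m19, G0_m18, G0_m17, G0_m16, G0_m15, G0_m14, G0_m13] at h
  rw [h]
  have ht := t_ne
  field_simp
  ring

end

end Pool.Agent.Lib.MP_fad775_nt
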