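import Mathlib
import Pool.Agent.Lib.MP_fad775_nt.WinB

/-!
# MP_fad775_nt: the windows of `G g n`, `g = z`
-/

namespace Pool.Agent.Lib.MP_fad775_nt

open HahnSeries

noncomputable section

lemma θφ : θ φ = φ * (z + 7 * V z) / 4 := by
  rw [φ, θ_mul, θ_V, θx, map_mul, map_div₀, map_ofNat]
  ring

lemma θφz (n : ℤ) : θ (φ ^ n) = n / 4 * (φ ^ n * z + V (7 * z) * φ ^ n) := by
  have h := φ_ne
  rw [θ_zpow, θφ, map_mul, map_ofNat]
  have : φ ^ n = φ ^ (n - 1) * φ := by
    rw [← zpow_add_one₀ h]; congr 1; ring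
  rw [this]
  ring

lemma U_ratCast_mul (c : ℚ) (f : K) : U ((c : K) * f) = (c : K) * U f := by
  ext n
  rw [U_coeff, coeff_ratCast_mul, coeff_ratCast_mul, U_coeff]

lemma G1_rel (n : ℤ) : n * (G z n + 7 * z * G 1 n) = 28 * θ (G 1 n) := by
  have h1 := U_θ (φ ^ n)
  have h2 : θ (φ ^ n) = ((n / 4 : ℚ) : K) * (φ ^ n * z + V (7 * z) * (φ ^ n * 1)) := by
    rw [θφz]; push_cast; ring
  rw [h2, U_ratCast_mul, map_add, U_V_mul] at h1
  simp only [mul_one] at h1
  push_cast at h1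
  simp only [G, mul_one]
  linear_combination 4 * h1

lemma θti : θ t⁻¹ = - z * t⁻¹ := by
  have ht := t_ne
  rw [θ_inv, θt]
  field_simp

lemma θ_const (c : ℚ) : θ (c : K) = 0 := θ_ratCast c

lemma G1_m7 : G z (-7) = z * ((1) * t⁻¹ ^ 2 + (-147) * t⁻¹ ^ 1) := by
  have h := G1_rel (-7)
  rw [G0_m7] at h
  simp only [map_add, map_neg, map_sub, map_mul, θ_mul, θ_pow, θti, θt, θ_ofNat, θ_one] at h
  push_cast at h
  linear_combination (-1 / 7) * h

lemma G1_m6 : G z (-6) = z * ((-343)) := by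
  have h := G1_rel (-6)
  rw [G0_m6] at h
  simp only [map_add, map_neg, map_sub, map_mul, θ_mul, θ_pow, θti, θt, θ_ofNat, θ_one] at h
  push_cast at h
  linear_combination (-1 / 6) * h

lemma G1_m5 : G z (-5) = z * ((-14) * t⁻¹ ^ 1 + (-343)) := by
  have h := G1_rel (-5)
  rw [G0_m5] at h
  simp only [map_add, map_neg, map_sub, map_mul, θ_mul, θ_pow, θti, θt, θ_ofNat, θ_one] at h
  push_cast at h
  linear_combination (-1 / 5) * h

lemma G1_m4 : G z (-4) = z * ((49)) := by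
  have h := G1_rel (-4)
  rw [G0_m4] at h
  simp only [map_add, map_neg, map_sub, map_mul, θ_mul, θ_pow, θti, θt, θ_ofNat, θ_one] at h
  push_cast at h
  linear_combination (-1 / 4) * h

lemma G1_m3 : G z (-3) = z * ((49)) := by
  have h := G1_rel (-3)
  rw [G0_m3] at h
  simp only [map_add, map_neg, map_sub, map_mul, θ_mul, θ_pow, θti, θt, θ_ofNat, θ_one] at h
  push_cast at h
  linear_combination (-1 / 3) * h

lemma G1_m2 : G z (-2) = z * ((-7)) := by
  have h := G1_rel (-2)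
  rw [G0_m2] at h
  simp only [map_add, map_neg, map_sub, map_mul, θ_mul, θ_pow, θti, θt, θ_ofNat, θ_one] at h
  push_cast at h
  linear_combination (-1 / 2) * h

lemma G1_m1 : G z (-1) = z * ((7)) := by
  have h := G1_rel (-1)
  rw [G0_m1] at h
  simp only [map_add, map_neg, map_sub, map_mul, θ_mul, θ_pow, θti, θt, θ_ofNat, θ_one] at h
  push_cast at h
  linear_combination (-1 / 1) * h

lemma G1_0 : G z 0 = z * ((1)) := by
  have h := G_rec z (-7)
  norm_num only at h
  rw [G1_m7, G1_m6, G1_m5, G1_m4, G1_m3, G1_m2, G1_m1] at h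
  rw [h]
  have ht := t_ne
  field_simp
  ring

end

end Pool.Agent.Lib.MP_fad775_nt
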