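import Mathlib
import Pool.Agent.Lib.MP_fad775_nt.WinC

/-!
# MP_fad775_nt: the windows of `G g n`, `g = w4`
-/

namespace Pool.Agent.Lib.MP_fad775_nt

open HahnSeries

noncomputable section

/-- `z² / Q` -/
def w4 : K := z ^ 2 / Qp

lemma z2_eq : z ^ 2 = Qp * w4 := by
  have := Qp_ne
  rw [w4]; field_simp

lemma e4_eq : e4 = ap * w4 := by rw [rel_e4, w4]; ring
lemma Ve4_eq : V e4 = bp * w4 := by rw [rel_Ve4, w4]; ring

lemma θz_w : θ z = p * z / 6 - z ^ 2 / 6 + 2 / 3 * (13 * t + 98 * t ^ 2) * w4 := by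
  rw [θz, w4]; ring

lemma φ_t (n : ℤ) (g : K) : φ ^ n * (t * g) = V t⁻¹ * (φ ^ (n + 4) * g) := by
  have h := φ_ne
  have hs := s_ne
  have h4 : φ ^ (n + 4) = φ ^ n * φ ^ 4 := by
    rw [zpow_add₀ h]; norm_cast
  rw [h4, φ4, map_inv₀, show V t = s from rfl]
  field_simp

lemma φ_t2 (n : ℤ) (g : K) : φ ^ n * (t ^ 2 * g) = V (t⁻¹ ^ 2) * (φ ^ (n + 8) * g) := by
  have : φ ^ n * (t ^ 2 * g) = φ ^ n * (t * (t * g)) := by ring
  rw [this, φ_t]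
  have : V t⁻¹ * (φ ^ (n + 4) * (t * g)) = V t⁻¹ * (φ ^ (n + 4) * (t * g)) := rfl
  rw [φ_t, map_pow, show n + 4 + 4 = n + 8 by ring]
  ring

lemma G2_r1 (n : ℤ) : G w4 n + 5 * (t⁻¹ * G w4 (n + 4)) + t⁻¹ ^ 2 * G w4 (n + 8) =
    e4 * G 1 n := by
  have h : U (V e4 * (φ ^ n * 1)) = U (φ ^ n * w4 + V 5 * (φ ^ n * (t * w4)) +
      φ ^ n * (t ^ 2 * w4)) := by
    congr 1
    rw [Ve4_eq, bp, map_ofNat]
    ring
  rw [U_V_mul, map_add, map_add, U_V_mul, φ_t, φ_t2, U_V_mul, U_V_mul] at h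
  simp only [G]
  rw [h]

/-- right-hand side of the second relation -/
def R2 (n : ℤ) : K := 49 * θ (θ (G 1 n)) - (n / 4) ^ 2 * (14 * z * G z n + 49 * z ^ 2 * G 1 n) -
    (n / 4) * (7 / 6 * p * G z n + 49 * θ z * G 1 n)

lemma θVz : θ (V z) = 7 * V (θ z) := θ_V z

lemma G2_r2 (n : ℤ) : (n / 4 : K) * (n / 4 - 7 / 6) * (G w4 n + 13 * (t⁻¹ * G w4 (n + 4)) +
    49 * (t⁻¹ ^ 2 * G w4 (n + 8))) + (n / 4) * (2 / 3) * (13 * (t⁻¹ * G w4 (n + 4)) +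
    98 * (t⁻¹ ^ 2 * G w4 (n + 8))) = R2 n := by
  have h1 : U (θ (θ (φ ^ n))) = 49 * θ (θ (G 1 n)) := by
    rw [U_θ, U_θ, θ_mul, θ_ofNat, G, mul_one]; ring
  have hz : θ z = 7 / 6 * V p * z - 7 / 6 * z ^ 2 + 2 / 3 * (13 * t + 98 * t ^ 2) * w4 := by
    rw [θz_w, Vp_eq]; ring
  have h2 : θ (θ (φ ^ n)) =
      (((n / 4) * (n / 4 - 7 / 6) : ℚ) : K) * (φ ^ n * w4) +
      ((13 * ((n / 4) * (n / 4 - 7 / 6)) + 26 / 3 * (n / 4) : ℚ) : K) * (φ ^ n * (t * w4)) +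
      ((49 * ((n / 4) * (n / 4 - 7 / 6)) + 196 / 3 * (n / 4) : ℚ) : K) * (φ ^ n * (t ^ 2 * w4)) +
      (((n / 4) ^ 2 : ℚ) : K) * (V (14 * z) * (φ ^ n * z)) +
      (((n / 4) ^ 2 : ℚ) : K) * (V (49 * z ^ 2) * (φ ^ n * 1)) +
      (((n / 4) * (7 / 6) : ℚ) : K) * (V p * (φ ^ n * z)) +
      (((n / 4) * 49 : ℚ) : K) * (V (θ z) * (φ ^ n * 1)) := by
    rw [θφz]
    have e1 : (n / 4 * (φ ^ n * z + V (7 * z) * φ ^ n) : K) =
      ((n / 4 : ℚ) : K) * (φ ^ n * z + 7 * (V z * φ ^ n)) := by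
      rw [map_mul, map_ofNat]; push_cast; ring
    rw [e1, θ_mul, θ_ratCast, map_add, θ_mul, θ_mul, θ_ofNat, θ_mul, θVz, θφz, hz]
    have hQ : z ^ 2 = (1 + 13 * t + 49 * t ^ 2) * w4 := by rw [z2_eq, Qp]
    simp only [map_mul, map_pow, map_ofNat]
    push_cast
    linear_combination (n / 4 : K) * (n / 4 - 7 / 6) * φ ^ n * hQ
  rw [h2] at h1
  simp only [map_add, U_ratCast_mul, U_V_mul, φ_t, φ_t2] at h1
  rw [R2, ← h1]
  simp only [G]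
  push_cast
  ring

lemma G1_m8 : G z (-8) = z * ((2401)) := by
  have h := G1_rel (-8)
  rw [G0_m8] at h
  simp only [map_add, map_neg, map_sub, map_mul, θ_mul, θ_pow, θti, θt, θ_ofNat, θ_one] at h
  push_cast at h
  linear_combination (-1 / 8) * h

lemma θθG0_m8 : θ (θ (G 1 (-8))) = θ z * ((-40) * t⁻¹ ^ 2) + z ^ 2 * ((80) * t⁻¹ ^ 2) := by
  rw [G0_m8]
  simp only [map_add, map_neg, map_sub, map_mul, θ_mul, θ_pow, θti, θt, θ_ofNat, θ_one, θ_natCast, map_zero]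
  push_cast
  ring

lemma θθG0_m7 : θ (θ (G 1 (-7))) = θ z * ((-2) * t⁻¹ ^ 2 + (-49) * t⁻¹ ^ 1) + z ^ 2 * ((4) * t⁻¹ ^ 2 + (49) * t⁻¹ ^ 1) := by
  rw [G0_m7]
  simp only [map_add, map_neg, map_sub, map_mul, θ_mul, θ_pow, θti, θt, θ_ofNat, θ_one, θ_natCast, map_zero]
  push_cast
  ring

lemma θθG0_m6 : θ (θ (G 1 (-6))) = θ z * (0) + z ^ 2 * (0) := by
  rw [G0_m6]
  simp only [map_add, map_neg, map_sub, map_mul, θ_mul, θ_pow, θti, θt, θ_ofNat, θ_one, θ_natCast, map_zero]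
  push_cast
  ring

lemma θθG0_m5 : θ (θ (G 1 (-5))) = θ z * ((-10) * t⁻¹ ^ 1) + z ^ 2 * ((10) * t⁻¹ ^ 1) := by
  rw [G0_m5]
  simp only [map_add, map_neg, map_sub, map_mul, θ_mul, θ_pow, θti, θt, θ_ofNat, θ_one, θ_natCast, map_zero]
  push_cast
  ring

lemma θθG0_m4 : θ (θ (G 1 (-4))) = θ z * ((4) * t⁻¹ ^ 1) + z ^ 2 * ((-4) * t⁻¹ ^ 1) := by
  rw [G0_m4]
  simp only [map_add, map_neg, map_sub, map_mul, θ_mul, θ_pow, θti, θt, θ_ofNat, θ_one, θ_natCast, map_zero]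
  push_cast
  ring

lemma θθG0_m3 : θ (θ (G 1 (-3))) = θ z * (0) + z ^ 2 * (0) := by
  rw [G0_m3]
  simp only [map_add, map_neg, map_sub, map_mul, θ_mul, θ_pow, θti, θt, θ_ofNat, θ_one, θ_natCast, map_zero]
  push_cast
  ring

lemma θθG0_m2 : θ (θ (G 1 (-2))) = θ z * (0) + z ^ 2 * (0) := by
  rw [G0_m2]
  simp only [map_add, map_neg, map_sub, map_mul, θ_mul, θ_pow, θti, θt, θ_ofNat, θ_one, θ_natCast, map_zero]
  push_cast
  ring

lemma θθG0_m1 : θ (θ (G 1 (-1))) = θ z * (0) + z ^ 2 * (0) := by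
  rw [G0_m1]
  simp only [map_add, map_neg, map_sub, map_mul, θ_mul, θ_pow, θti, θt, θ_ofNat, θ_one, θ_natCast, map_zero]
  push_cast
  ring

lemma G2_m4 : G w4 (-4) = w4 * ((-9) * t⁻¹ ^ 1 + (-2205) + (-21609) * t ^ 1 + (-16807) * t ^ 2) := by
  have key : t⁻¹ * G w4 (-4) = (5263 / 2460) * (e4 * G 1 (-8)) + (-277 / 820) * R2 (-8) + (3185 / 246) * (t⁻¹ * (e4 * G 1 (-4))) + (-13 / 41) * (t⁻¹ * R2 (-4)) := by
    have h1 := G2_r1 (-8)
    have h2 := G2_r2 (-8)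
    have h3 := G2_r1 (-4)
    have h4 := G2_r2 (-4)
    norm_num only at h1 h3
    push_cast at h2 h4
    norm_num only at h2 h4
    linear_combination (5263 / 2460) * h1 + (-277 / 820) * h2 + (3185 / 246) * t⁻¹ * h3 + (-13 / 41) * t⁻¹ * h4
  have ht := t_ne
  have hQ : z ^ 2 = (1 + 13 * t + 49 * t ^ 2) * w4 := by rw [z2_eq, Qp]
  rw [R2, R2, θθG0_m8, θθG0_m4, G0_m8, G0_m4, G1_m8, G1_m4, θz_w, e4_eq, ap] at key
  push_cast at key
  have key2 : t * (t⁻¹ * G w4 (-4)) = w4 * ((-9) * t⁻¹ ^ 1 + (-2205) + (-21609) * t ^ 1 + (-16807) * t ^ 2) := by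
    rw [key]
    have hz3 : z * z = (1 + 13 * t + 49 * t ^ 2) * w4 := by rw [← hQ]; ring
    field_simp
    ring_nf
    simp only [hQ]
    ring
  rw [← key2]; field_simp

lemma G2_0 : G w4 (0) = w4 * ((1) + (245) * t ^ 1 + (2058) * t ^ 2) := by
  have key : t⁻¹ ^ 2 * G w4 (0) = (-551 / 1230) * (e4 * G 1 (-8)) + (29 / 410) * R2 (-8) + (-1225 / 492) * (t⁻¹ * (e4 * G 1 (-4))) + (5 / 82) * (t⁻¹ * R2 (-4)) := by
    have h1 := G2_r1 (-8)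
    have h2 := G2_r2 (-8)
    have h3 := G2_r1 (-4)
    have h4 := G2_r2 (-4)
    norm_num only at h1 h3
    push_cast at h2 h4
    norm_num only at h2 h4
    linear_combination (-551 / 1230) * h1 + (29 / 410) * h2 + (-1225 / 492) * t⁻¹ * h3 + (5 / 82) * t⁻¹ * h4
  have ht := t_ne
  have hQ : z ^ 2 = (1 + 13 * t + 49 * t ^ 2) * w4 := by rw [z2_eq, Qp]
  rw [R2, R2, θθG0_m8, θθG0_m4, G0_m8, G0_m4, G1_m8, G1_m4, θz_w, e4_eq, ap] at key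
  push_cast at key
  have key2 : t ^ 2 * (t⁻¹ ^ 2 * G w4 (0)) = w4 * ((1) + (245) * t ^ 1 + (2058) * t ^ 2) := by
    rw [key]
    have hz3 : z * z = (1 + 13 * t + 49 * t ^ 2) * w4 := by rw [← hQ]; ring
    field_simp
    ring_nf
    simp only [hQ]
    ring
  rw [← key2]; field_simp

lemma G2_m3 : G w4 (-3) = w4 * ((266) + (-16807) * t ^ 2) := by
  have key : t⁻¹ * G w4 (-3) = (133 / 48) * (e4 * G 1 (-7)) + (-19 / 35) * R2 (-7) + (2401 / 150) * (t⁻¹ * (e4 * G 1 (-3))) + (-56 / 75) * (t⁻¹ * R2 (-3)) := by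
    have h1 := G2_r1 (-7)
    have h2 := G2_r2 (-7)
    have h3 := G2_r1 (-3)
    have h4 := G2_r2 (-3)
    norm_num only at h1 h3
    push_cast at h2 h4
    norm_num only at h2 h4
    linear_combination (133 / 48) * h1 + (-19 / 35) * h2 + (2401 / 150) * t⁻¹ * h3 + (-56 / 75) * t⁻¹ * h4
  have ht := t_ne
  have hQ : z ^ 2 = (1 + 13 * t + 49 * t ^ 2) * w4 := by rw [z2_eq, Qp]
  rw [R2, R2, θθG0_m7, θθG0_m3, G0_m7, G0_m3, G1_m7, G1_m3, θz_w, e4_eq, ap] at key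
  push_cast at key
  have key2 : t * (t⁻¹ * G w4 (-3)) = w4 * ((266) + (-16807) * t ^ 2) := by
    rw [key]
    have hz3 : z * z = (1 + 13 * t + 49 * t ^ 2) * w4 := by rw [← hQ]; ring
    field_simp
    ring_nf
    simp only [hQ]
    ring
  rw [← key2]; field_simp

lemma G2_m6 : G w4 (-6) = w4 * ((117649) * t ^ 2) := by
  have key : G w4 (-6) = (-1861 / 111) * (e4 * G 1 (-6)) + (493 / 111) * R2 (-6) + (-22099 / 222) * (t⁻¹ * (e4 * G 1 (-2))) + (451 / 37) * (t⁻¹ * R2 (-2)) := by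
    have h1 := G2_r1 (-6)
    have h2 := G2_r2 (-6)
    have h3 := G2_r1 (-2)
    have h4 := G2_r2 (-2)
    norm_num only at h1 h3
    push_cast at h2 h4
    norm_num only at h2 h4
    linear_combination (-1861 / 111) * h1 + (493 / 111) * h2 + (-22099 / 222) * t⁻¹ * h3 + (451 / 37) * t⁻¹ * h4
  have ht := t_ne
  have hQ : z ^ 2 = (1 + 13 * t + 49 * t ^ 2) * w4 := by rw [z2_eq, Qp]
  rw [R2, R2, θθG0_m6, θθG0_m2, G0_m6, G0_m2, G1_m6, G1_m2, θz_w, e4_eq, ap] at key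
  push_cast at key
  have key2 : (G w4 (-6)) = w4 * ((117649) * t ^ 2) := by
    rw [key]
    have hz3 : z * z = (1 + 13 * t + 49 * t ^ 2) * w4 := by rw [← hQ]; ring
    field_simp
    ring_nf
    simp only [hQ]
    ring
  rw [← key2]

lemma G2_m2 : G w4 (-2) = w4 * ((2401) * t ^ 2) := by
  have key : t⁻¹ * G w4 (-2) = (412 / 111) * (e4 * G 1 (-6)) + (-103 / 111) * R2 (-6) + (2303 / 111) * (t⁻¹ * (e4 * G 1 (-2))) + (-94 / 37) * (t⁻¹ * R2 (-2)) := by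
    have h1 := G2_r1 (-6)
    have h2 := G2_r2 (-6)
    have h3 := G2_r1 (-2)
    have h4 := G2_r2 (-2)
    norm_num only at h1 h3
    push_cast at h2 h4
    norm_num only at h2 h4
    linear_combination (412 / 111) * h1 + (-103 / 111) * h2 + (2303 / 111) * t⁻¹ * h3 + (-94 / 37) * t⁻¹ * h4
  have ht := t_ne
  have hQ : z ^ 2 = (1 + 13 * t + 49 * t ^ 2) * w4 := by rw [z2_eq, Qp]
  rw [R2, R2, θθG0_m6, θθG0_m2, G0_m6, G0_m2, G1_m6, G1_m2, θz_w, e4_eq, ap] at key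
  push_cast at key
  have key2 : t * (t⁻¹ * G w4 (-2)) = w4 * ((2401) * t ^ 2) := by
    rw [key]
    have hz3 : z * z = (1 + 13 * t + 49 * t ^ 2) * w4 := by rw [← hQ]; ring
    field_simp
    ring_nf
    simp only [hQ]
    ring
  rw [← key2]; field_simp

lemma G2_m5 : G w4 (-5) = w4 * ((-28) * t⁻¹ ^ 1 + (2548) + (48020) * t ^ 1 + (117649) * t ^ 2) := by
  have key : G w4 (-5) = (-455 / 96) * (e4 * G 1 (-5)) + (19 / 10) * R2 (-5) + (-4459 / 96) * (t⁻¹ * (e4 * G 1 (-1))) + (91 / 2) * (t⁻¹ * R2 (-1)) := by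
    have h1 := G2_r1 (-5)
    have h2 := G2_r2 (-5)
    have h3 := G2_r1 (-1)
    have h4 := G2_r2 (-1)
    norm_num only at h1 h3
    push_cast at h2 h4
    norm_num only at h2 h4
    linear_combination (-455 / 96) * h1 + (19 / 10) * h2 + (-4459 / 96) * t⁻¹ * h3 + (91 / 2) * t⁻¹ * h4
  have ht := t_ne
  have hQ : z ^ 2 = (1 + 13 * t + 49 * t ^ 2) * w4 := by rw [z2_eq, Qp]
  rw [R2, R2, θθG0_m5, θθG0_m1, G0_m5, G0_m1, G1_m5, G1_m1, θz_w, e4_eq, ap] at key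
  push_cast at key
  have key2 : (G w4 (-5)) = w4 * ((-28) * t⁻¹ ^ 1 + (2548) + (48020) * t ^ 1 + (117649) * t ^ 2) := by
    rw [key]
    have hz3 : z * z = (1 + 13 * t + 49 * t ^ 2) * w4 := by rw [← hQ]; ring
    field_simp
    ring_nf
    simp only [hQ]
    ring
  rw [← key2]

lemma G2_m1 : G w4 (-1) = w4 * ((8) + (-2401) * t ^ 2) := by
  have key : t⁻¹ * G w4 (-1) = (29 / 24) * (e4 * G 1 (-5)) + (-2 / 5) * R2 (-5) + (931 / 96) * (t⁻¹ * (e4 * G 1 (-1))) + (-19 / 2) * (t⁻¹ * R2 (-1)) := by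
    have h1 := G2_r1 (-5)
    have h2 := G2_r2 (-5)
    have h3 := G2_r1 (-1)
    have h4 := G2_r2 (-1)
    norm_num only at h1 h3
    push_cast at h2 h4
    norm_num only at h2 h4
    linear_combination (29 / 24) * h1 + (-2 / 5) * h2 + (931 / 96) * t⁻¹ * h3 + (-19 / 2) * t⁻¹ * h4
  have ht := t_ne
  have hQ : z ^ 2 = (1 + 13 * t + 49 * t ^ 2) * w4 := by rw [z2_eq, Qp]
  rw [R2, R2, θθG0_m5, θθG0_m1, G0_m5, G0_m1, G1_m5, G1_m1, θz_w, e4_eq, ap] at key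
  push_cast at key
  have key2 : t * (t⁻¹ * G w4 (-1)) = w4 * ((8) + (-2401) * t ^ 2) := by
    rw [key]
    have hz3 : z * z = (1 + 13 * t + 49 * t ^ 2) * w4 := by rw [← hQ]; ring
    field_simp
    ring_nf
    simp only [hQ]
    ring
  rw [← key2]; field_simp

end

end Pool.Agent.Lib.MP_fad775_nt
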