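import Mathlib
import Pool.Agent.Lib.MP_fad775_nt.WinD

/-!
# MP_fad775_nt: the windows of `G g n`, `g = A2`, and the polynomials `P l N`
-/

namespace Pool.Agent.Lib.MP_fad775_nt

open HahnSeries

noncomputable section

lemma φ14 : φ ^ 14 * A2 = V (A2 * t ^ 4) := by
  have h1 := η_ne
  have h2 := Vη_ne
  have h3 : V (V η) ≠ 0 := by
    intro h; exact Vη_ne (Vm_injective 7 (by norm_num) (by rw [map_zero]; exact h))
  rw [φ, A2, t, x]
  simp only [map_mul, map_pow, map_div₀]
  field_simp

lemma G3_eq (n : ℤ) : G A2 n = A2 * t ^ 4 * G 1 (n - 14) := by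
  have h := φ_ne
  have h1 : φ ^ n * A2 = V (A2 * t ^ 4) * (φ ^ (n - 14) * 1) := by
    rw [← φ14]
    have : φ ^ n = φ ^ (n - 14) * φ ^ 14 := by
      rw [← zpow_natCast φ 14, ← zpow_add₀ h]; congr 1; norm_num
    rw [this]; ring
  rw [G, h1, U_V_mul]; rfl

/-- the generators `1, z, w4, A2` -/
def gen : Fin 4 → K := ![1, z, w4, A2]

/-- the initial polynomials -/
def win : Fin 4 → ℕ → Polynomial ℤ
  | 0, 0 => (49) * Polynomial.X ^ 1
  | 0, 1 => (10) + (49) * Polynomial.X ^ 1
  | 0, 2 => (-4) + (-7) * Polynomial.X ^ 1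
  | 0, 3 => (-7) * Polynomial.X ^ 1
  | 0, 4 => (1) * Polynomial.X ^ 1
  | 0, 5 => (-1) * Polynomial.X ^ 1
  | 0, 6 => (1) * Polynomial.X ^ 1
  | 1, 0 => (-343) * Polynomial.X ^ 1
  | 1, 1 => (-14) + (-343) * Polynomial.X ^ 1
  | 1, 2 => (49) * Polynomial.X ^ 1
  | 1, 3 => (49) * Polynomial.X ^ 1
  | 1, 4 => (-7) * Polynomial.X ^ 1
  | 1, 5 => (7) * Polynomial.X ^ 1
  | 1, 6 => (1) * Polynomial.X ^ 1
  | 2, 0 => (117649) * Polynomial.X ^ 3
  | 2, 1 => (-28) + (2548) * Polynomial.X ^ 1 + (48020) * Polynomial.X ^ 2 + (117649) * Polynomial.X ^ 3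
  | 2, 2 => (-9) + (-2205) * Polynomial.X ^ 1 + (-21609) * Polynomial.X ^ 2 + (-16807) * Polynomial.X ^ 3
  | 2, 3 => (266) * Polynomial.X ^ 1 + (-16807) * Polynomial.X ^ 3
  | 2, 4 => (2401) * Polynomial.X ^ 3
  | 2, 5 => (8) * Polynomial.X ^ 1 + (-2401) * Polynomial.X ^ 3
  | 2, 6 => (1) * Polynomial.X ^ 1 + (245) * Polynomial.X ^ 2 + (2058) * Polynomial.X ^ 3
  | 3, 0 => (476) + (-40353607) * Polynomial.X ^ 5
  | 3, 1 => (-627) + (10241) * Polynomial.X ^ 1 + (-45619) * Polynomial.X ^ 2 + (-4470662) * Polynomial.X ^ 3 + (-31294634) * Polynomial.X ^ 4 + (-40353607) * Polynomial.X ^ 5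
  | 3, 2 => (-18) + (8820) * Polynomial.X ^ 1 + (388962) * Polynomial.X ^ 2 + (4235364) * Polynomial.X ^ 3 + (14823774) * Polynomial.X ^ 4 + (5764801) * Polynomial.X ^ 5
  | 3, 3 => (-5236) * Polynomial.X ^ 1 + (-104958) * Polynomial.X ^ 2 + (-571438) * Polynomial.X ^ 3 + (5764801) * Polynomial.X ^ 5
  | 3, 4 => (260) * Polynomial.X ^ 1 + (-823543) * Polynomial.X ^ 5
  | 3, 5 => (90) * Polynomial.X ^ 1 + (-980) * Polynomial.X ^ 2 + (-30870) * Polynomial.X ^ 3 + (823543) * Polynomial.X ^ 5
  | 3, 6 => (1) * Polynomial.X ^ 1 + (-490) * Polynomial.X ^ 2 + (-21609) * Polynomial.X ^ 3 + (-235298) * Polynomial.X ^ 4 + (-705894) * Polynomial.X ^ 5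
  | _, _ => 0

/-- the polynomials `P l N` with `G (gen l) (N - 6) = gen l * t⁻¹ * P l N (t)` -/
def P (l : Fin 4) : ℕ → Polynomial ℤ
  | 0 => win l 0
  | 1 => win l 1
  | 2 => win l 2
  | 3 => win l 3
  | 4 => win l 4
  | 5 => win l 5
  | 6 => win l 6
  | n + 7 => Polynomial.X ^ 2 * (P l n + 7 * P l (n + 1) + 21 * P l (n + 2) + 49 * P l (n + 3) +
      147 * P l (n + 4) + 343 * P l (n + 5) + 343 * P l (n + 6)) +
      7 * Polynomial.X * (P l (n + 4) + 5 * P l (n + 5) + 7 * P l (n + 6))

/-- evaluation at `t` -/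
def ev : Polynomial ℤ →+* K := Polynomial.eval₂RingHom (Int.castRingHom K) t

lemma ev_X : ev Polynomial.X = t := by simp [ev]

lemma P_rec (l : Fin 4) (n : ℕ) : P l (n + 7) = Polynomial.X ^ 2 * (P l n + 7 * P l (n + 1) +
    21 * P l (n + 2) + 49 * P l (n + 3) + 147 * P l (n + 4) + 343 * P l (n + 5) +
    343 * P l (n + 6)) + 7 * Polynomial.X * (P l (n + 4) + 5 * P l (n + 5) + 7 * P l (n + 6)) := by
  rw [P]

theorem G_eq (l : Fin 4) (N : ℕ) : G (gen l) ((N : ℤ) - 6) = gen l * t⁻¹ * ev (P l N) := by
  have ht := t_ne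
  induction N using Nat.strong_induction_on with
  | _ N ih =>
    rcases Nat.lt_or_ge N 7 with h | h
    · fin_cases l
      · change G 1 _ = 1 * t⁻¹ * _
        interval_cases N
        · change G 1 ((0 : ℕ) - 6) = 1 * t⁻¹ * ev (win 0 0)
          rw [show ((((0 : ℕ) : ℤ)) - 6) = (-6) by norm_num, G0_m6, win]
          simp only [map_add, map_mul, map_pow, ev_X, map_neg, map_ofNat, map_one]
          field_simp
          try ring
        · change G 1 ((1 : ℕ) - 6) = 1 * t⁻¹ * ev (win 0 1)
          rw [show ((((1 : ℕ) : ℤ)) - 6) = (-5) by norm_num, G0_m5, win]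
          simp only [map_add, map_mul, map_pow, ev_X, map_neg, map_ofNat, map_one]
          field_simp
          try ring
        · change G 1 ((2 : ℕ) - 6) = 1 * t⁻¹ * ev (win 0 2)
          rw [show ((((2 : ℕ) : ℤ)) - 6) = (-4) by norm_num, G0_m4, win]
          simp only [map_add, map_mul, map_pow, ev_X, map_neg, map_ofNat, map_one]
          field_simp
          try ring
        · change G 1 ((3 : ℕ) - 6) = 1 * t⁻¹ * ev (win 0 3)
          rw [show ((((3 : ℕ) : ℤ)) - 6) = (-3) by norm_num, G0_m3, win]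
          simp only [map_add, map_mul, map_pow, ev_X, map_neg, map_ofNat, map_one]
          field_simp
          try ring
        · change G 1 ((4 : ℕ) - 6) = 1 * t⁻¹ * ev (win 0 4)
          rw [show ((((4 : ℕ) : ℤ)) - 6) = (-2) by norm_num, G0_m2, win]
          simp only [map_add, map_mul, map_pow, ev_X, map_neg, map_ofNat, map_one]
          field_simp
          try ring
        · change G 1 ((5 : ℕ) - 6) = 1 * t⁻¹ * ev (win 0 5)
          rw [show ((((5 : ℕ) : ℤ)) - 6) = (-1) by norm_num, G0_m1, win]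
          simp only [map_add, map_mul, map_pow, ev_X, map_neg, map_ofNat, map_one]
          field_simp
          try ring
        · change G 1 ((6 : ℕ) - 6) = 1 * t⁻¹ * ev (win 0 6)
          rw [show ((((6 : ℕ) : ℤ)) - 6) = (0) by norm_num, G0_0, win]
          simp only [map_add, map_mul, map_pow, ev_X, map_neg, map_ofNat, map_one]
          field_simp
          try ring
      · change G z _ = z * t⁻¹ * _
        interval_cases N
        · change G z ((0 : ℕ) - 6) = z * t⁻¹ * ev (win 1 0)
          rw [show ((((0 : ℕ) : ℤ)) - 6) = (-6) by norm_num, G1_m6, win]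
          simp only [map_add, map_mul, map_pow, ev_X, map_neg, map_ofNat, map_one]
          field_simp
          try ring
        · change G z ((1 : ℕ) - 6) = z * t⁻¹ * ev (win 1 1)
          rw [show ((((1 : ℕ) : ℤ)) - 6) = (-5) by norm_num, G1_m5, win]
          simp only [map_add, map_mul, map_pow, ev_X, map_neg, map_ofNat, map_one]
          field_simp
          try ring
        · change G z ((2 : ℕ) - 6) = z * t⁻¹ * ev (win 1 2)
          rw [show ((((2 : ℕ) : ℤ)) - 6) = (-4) by norm_num, G1_m4, win]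
          simp only [map_add, map_mul, map_pow, ev_X, map_neg, map_ofNat, map_one]
          field_simp
          try ring
        · change G z ((3 : ℕ) - 6) = z * t⁻¹ * ev (win 1 3)
          rw [show ((((3 : ℕ) : ℤ)) - 6) = (-3) by norm_num, G1_m3, win]
          simp only [map_add, map_mul, map_pow, ev_X, map_neg, map_ofNat, map_one]
          field_simp
          try ring
        · change G z ((4 : ℕ) - 6) = z * t⁻¹ * ev (win 1 4)
          rw [show ((((4 : ℕ) : ℤ)) - 6) = (-2) by norm_num, G1_m2, win]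
          simp only [map_add, map_mul, map_pow, ev_X, map_neg, map_ofNat, map_one]
          field_simp
          try ring
        · change G z ((5 : ℕ) - 6) = z * t⁻¹ * ev (win 1 5)
          rw [show ((((5 : ℕ) : ℤ)) - 6) = (-1) by norm_num, G1_m1, win]
          simp only [map_add, map_mul, map_pow, ev_X, map_neg, map_ofNat, map_one]
          field_simp
          try ring
        · change G z ((6 : ℕ) - 6) = z * t⁻¹ * ev (win 1 6)
          rw [show ((((6 : ℕ) : ℤ)) - 6) = (0) by norm_num, G1_0, win]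
          simp only [map_add, map_mul, map_pow, ev_X, map_neg, map_ofNat, map_one]
          field_simp
          try ring
      · change G w4 _ = w4 * t⁻¹ * _
        interval_cases N
        · change G w4 ((0 : ℕ) - 6) = w4 * t⁻¹ * ev (win 2 0)
          rw [show ((((0 : ℕ) : ℤ)) - 6) = (-6) by norm_num, G2_m6, win]
          simp only [map_add, map_mul, map_pow, ev_X, map_neg, map_ofNat, map_one]
          field_simp
          try ring
        · change G w4 ((1 : ℕ) - 6) = w4 * t⁻¹ * ev (win 2 1)
          rw [show ((((1 : ℕ) : ℤ)) - 6) = (-5) by norm_num, G2_m5, win]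
          simp only [map_add, map_mul, map_pow, ev_X, map_neg, map_ofNat, map_one]
          field_simp
          try ring
        · change G w4 ((2 : ℕ) - 6) = w4 * t⁻¹ * ev (win 2 2)
          rw [show ((((2 : ℕ) : ℤ)) - 6) = (-4) by norm_num, G2_m4, win]
          simp only [map_add, map_mul, map_pow, ev_X, map_neg, map_ofNat, map_one]
          field_simp
          try ring
        · change G w4 ((3 : ℕ) - 6) = w4 * t⁻¹ * ev (win 2 3)
          rw [show ((((3 : ℕ) : ℤ)) - 6) = (-3) by norm_num, G2_m3, win]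
          simp only [map_add, map_mul, map_pow, ev_X, map_neg, map_ofNat, map_one]
          field_simp
          try ring
        · change G w4 ((4 : ℕ) - 6) = w4 * t⁻¹ * ev (win 2 4)
          rw [show ((((4 : ℕ) : ℤ)) - 6) = (-2) by norm_num, G2_m2, win]
          simp only [map_add, map_mul, map_pow, ev_X, map_neg, map_ofNat, map_one]
          field_simp
          try ring
        · change G w4 ((5 : ℕ) - 6) = w4 * t⁻¹ * ev (win 2 5)
          rw [show ((((5 : ℕ) : ℤ)) - 6) = (-1) by norm_num, G2_m1, win]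
          simp only [map_add, map_mul, map_pow, ev_X, map_neg, map_ofNat, map_one]
          field_simp
          try ring
        · change G w4 ((6 : ℕ) - 6) = w4 * t⁻¹ * ev (win 2 6)
          rw [show ((((6 : ℕ) : ℤ)) - 6) = (0) by norm_num, G2_0, win]
          simp only [map_add, map_mul, map_pow, ev_X, map_neg, map_ofNat, map_one]
          field_simp
          try ring
      · change G A2 _ = A2 * t⁻¹ * _
        interval_cases N
        · change G A2 ((0 : ℕ) - 6) = A2 * t⁻¹ * ev (win 3 0)
          rw [G3_eq, show (((((0 : ℕ) : ℤ)) - 6) - 14) = (-20) by norm_num, G0_m20, win]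
          simp only [map_add, map_mul, map_pow, ev_X, map_neg, map_ofNat, map_one]
          field_simp
          try ring
        · change G A2 ((1 : ℕ) - 6) = A2 * t⁻¹ * ev (win 3 1)
          rw [G3_eq, show (((((1 : ℕ) : ℤ)) - 6) - 14) = (-19) by norm_num, G0_m19, win]
          simp only [map_add, map_mul, map_pow, ev_X, map_neg, map_ofNat, map_one]
          field_simp
          try ring
        · change G A2 ((2 : ℕ) - 6) = A2 * t⁻¹ * ev (win 3 2)
          rw [G3_eq, show (((((2 : ℕ) : ℤ)) - 6) - 14) = (-18) by norm_num, G0_m18, win]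
          simp only [map_add, map_mul, map_pow, ev_X, map_neg, map_ofNat, map_one]
          field_simp
          try ring
        · change G A2 ((3 : ℕ) - 6) = A2 * t⁻¹ * ev (win 3 3)
          rw [G3_eq, show (((((3 : ℕ) : ℤ)) - 6) - 14) = (-17) by norm_num, G0_m17, win]
          simp only [map_add, map_mul, map_pow, ev_X, map_neg, map_ofNat, map_one]
          field_simp
          try ring
        · change G A2 ((4 : ℕ) - 6) = A2 * t⁻¹ * ev (win 3 4)
          rw [G3_eq, show (((((4 : ℕ) : ℤ)) - 6) - 14) = (-16) by norm_num, G0_m16, win]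
          simp only [map_add, map_mul, map_pow, ev_X, map_neg, map_ofNat, map_one]
          field_simp
          try ring
        · change G A2 ((5 : ℕ) - 6) = A2 * t⁻¹ * ev (win 3 5)
          rw [G3_eq, show (((((5 : ℕ) : ℤ)) - 6) - 14) = (-15) by norm_num, G0_m15, win]
          simp only [map_add, map_mul, map_pow, ev_X, map_neg, map_ofNat, map_one]
          field_simp
          try ring
        · change G A2 ((6 : ℕ) - 6) = A2 * t⁻¹ * ev (win 3 6)
          rw [G3_eq, show (((((6 : ℕ) : ℤ)) - 6) - 14) = (-14) by norm_num, G0_m14, win]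
          simp only [map_add, map_mul, map_pow, ev_X, map_neg, map_ofNat, map_one]
          field_simp
          try ring
    · obtain ⟨n, rfl⟩ := Nat.exists_eq_add_of_le' h
      have hr := G_rec (gen l) ((n : ℤ) - 6)
      have e0 := ih n (by omega)
      have e1 := ih (n + 1) (by omega)
      have e2 := ih (n + 2) (by omega)
      have e3 := ih (n + 3) (by omega)
      have e4' := ih (n + 4) (by omega)
      have e5 := ih (n + 5) (by omega)
      have e6' := ih (n + 6) (by omega)
      rw [show (((n + 1 : ℕ) : ℤ) - 6) = (n : ℤ) - 6 + 1 by push_cast; ring] at e1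
      rw [show (((n + 2 : ℕ) : ℤ) - 6) = (n : ℤ) - 6 + 2 by push_cast; ring] at e2
      rw [show (((n + 3 : ℕ) : ℤ) - 6) = (n : ℤ) - 6 + 3 by push_cast; ring] at e3
      rw [show (((n + 4 : ℕ) : ℤ) - 6) = (n : ℤ) - 6 + 4 by push_cast; ring] at e4'
      rw [show (((n + 5 : ℕ) : ℤ) - 6) = (n : ℤ) - 6 + 5 by push_cast; ring] at e5
      rw [show (((n + 6 : ℕ) : ℤ) - 6) = (n : ℤ) - 6 + 6 by push_cast; ring] at e6'
      rw [show (((n + 7 : ℕ) : ℤ) - 6) = (n : ℤ) - 6 + 7 by push_cast; ring, hr, e0, e1, e2, e3,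
        e4', e5, e6', P_rec]
      simp only [map_add, map_mul, map_pow, ev_X, map_ofNat]
      ring

end

end Pool.Agent.Lib.MP_fad775_nt
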