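import Mathlib
import Pool.Agent.Lib.MP_fad775_nt.WinE

/-!
# MP_fad775_nt: 7-adic bounds for the coefficients of `P l N`
-/

namespace Pool.Agent.Lib.MP_fad775_nt

/-- `7^a` divides `q` in the local ring at `7` -/
def D7 (a : ℕ) (q : ℚ) : Prop := ¬ 7 ∣ (q / 7 ^ a).den

instance (a : ℕ) (q : ℚ) : Decidable (D7 a q) := by unfold D7; infer_instance

lemma D7_zero (a : ℕ) : D7 a 0 := by
  rw [D7, zero_div]; norm_num

lemma not7_mul {a b : ℕ} (ha : ¬ 7 ∣ a) (hb : ¬ 7 ∣ b) : ¬ 7 ∣ a * b := by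
  intro h
  rcases (Nat.Prime.dvd_mul (by norm_num)).mp h with h | h
  · exact ha h
  · exact hb h

lemma D7.add {a : ℕ} {q r : ℚ} (hq : D7 a q) (hr : D7 a r) : D7 a (q + r) := by
  unfold D7 at *
  rw [add_div]
  exact fun h => not7_mul hq hr (h.trans (Rat.add_den_dvd _ _))

lemma D7.mul {a b : ℕ} {q r : ℚ} (hq : D7 a q) (hr : D7 b r) : D7 (a + b) (q * r) := by
  unfold D7 at *
  rw [pow_add, mul_div_mul_comm]
  exact fun h => not7_mul hq hr (h.trans (Rat.mul_den_dvd _ _))

lemma D7_int {a : ℕ} {n : ℤ} (h : (7 : ℤ) ^ a ∣ n) : D7 a (n : ℚ) := by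
  obtain ⟨m, rfl⟩ := h
  unfold D7
  push_cast
  rw [mul_div_cancel_left₀ _ (by positivity)]
  norm_num

lemma D7.neg {a : ℕ} {q : ℚ} (hq : D7 a q) : D7 a (-q) := by
  unfold D7 at *
  rw [neg_div, Rat.neg_den]
  exact hq

lemma D7.sub {a : ℕ} {q r : ℚ} (hq : D7 a q) (hr : D7 a r) : D7 a (q - r) := by
  rw [sub_eq_add_neg]; exact hq.add hr.neg

lemma D7.mono {a b : ℕ} {q : ℚ} (hq : D7 a q) (h : b ≤ a) : D7 b q := by
  obtain ⟨c, rfl⟩ := Nat.exists_eq_add_of_le h
  unfold D7 at *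
  have h1 : q / 7 ^ b = q / 7 ^ (b + c) * ((7 ^ c : ℤ) : ℚ) := by
    push_cast
    rw [pow_add]
    field_simp
  rw [h1]
  refine fun h => not7_mul hq (b := ((7 ^ c : ℤ) : ℚ).den) ?_ (h.trans (Rat.mul_den_dvd _ _))
  rw [Rat.den_intCast]; norm_num

lemma D7.sum {ι' : Type*} {s : Finset ι'} {a : ℕ} {f : ι' → ℚ} (h : ∀ i ∈ s, D7 a (f i)) :
    D7 a (∑ i ∈ s, f i) := by
  classical
  induction s using Finset.induction_on with
  | empty => simpa using D7_zero a
  | insert i s hi ih =>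
    rw [Finset.sum_insert hi]
    exact (h i (Finset.mem_insert_self _ _)).add (ih fun j hj => h j (Finset.mem_insert_of_mem hj))

lemma D7_pow (a : ℕ) : D7 a ((7 : ℚ) ^ a) := by
  have := D7_int (a := a) (n := 7 ^ a) dvd_rfl
  push_cast at this
  exact this

lemma D7.div {a b : ℕ} {q : ℚ} (hq : D7 (a + b) q) : D7 b (q / 7 ^ a) := by
  unfold D7 at *
  rwa [div_div, ← pow_add]

/-- units of the local ring at `7` -/
def U7 (x : ℚ) : Prop := ∃ n : ℤ, ¬ (7 : ℤ) ∣ n ∧ D7 1 (x - n)

lemma U7.d0 {x : ℚ} (h : U7 x) : D7 0 x := by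
  obtain ⟨n, -, h⟩ := h
  have h1 : D7 0 (n : ℚ) := D7_int (by simp)
  have := (h.mono (Nat.zero_le 1)).add h1
  simpa using this

lemma U7.add {x y : ℚ} (h : U7 x) (hy : D7 1 y) : U7 (x + y) := by
  obtain ⟨n, hn, h⟩ := h
  refine ⟨n, hn, ?_⟩
  have := h.add hy
  rwa [show x - n + y = x + y - n by ring] at this

lemma U7.inv {x : ℚ} (h : U7 x) : D7 0 x⁻¹ ∧ x ≠ 0 := by
  obtain ⟨n, hn, h⟩ := h
  set y := (x - n) / 7 ^ 1 with hy
  have hy0 : ¬ 7 ∣ y.den := h
  have hx : x = ((n * y.den + 7 * y.num : ℤ) : ℚ) / y.den := by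
    have h1 : (y.den : ℚ) ≠ 0 := by exact_mod_cast y.den_ne_zero
    have h2 : x = n + 7 * y := by rw [hy]; ring
    have h3 : y = y.num / y.den := (Rat.num_div_den y).symm
    push_cast
    field_simp
    rw [h2]
    have h4 : y * y.den = y.num := Rat.mul_den_eq_num y
    linear_combination 7 * h4
  have h7 : ¬ (7 : ℤ) ∣ (n * y.den + 7 * y.num) := by
    intro h'
    have h1 : (7 : ℤ) ∣ n * y.den := (Int.dvd_iff_dvd_of_dvd_add h').mpr (dvd_mul_right 7 _)
    rcases (Int.Prime.dvd_mul' (p := 7) (by norm_num) h1) with h2 | h2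
    · exact hn h2
    · exact hy0 (by exact_mod_cast h2)
  generalize (n * y.den + 7 * y.num) = e at *
  have he : e ≠ 0 := by rintro rfl; exact h7 (dvd_zero 7)
  refine ⟨?_, ?_⟩
  · unfold D7
    rw [hx, inv_div, pow_zero, div_one]
    have h8 : (((y.den : ℤ) : ℚ) / e).den ∣ e.natAbs := by
      have := Rat.den_dvd (y.den : ℤ) e
      rw [Rat.divInt_eq_div] at this
      exact Int.natCast_dvd_natCast.mp (by simpa using this)
    intro h9
    apply h7
    have := h9.trans (by exact_mod_cast h8)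
    exact Int.natCast_dvd.mpr this
  · rw [hx]
    have h1 : (y.den : ℚ) ≠ 0 := by exact_mod_cast y.den_ne_zero
    have h2 : (e : ℚ) ≠ 0 := by exact_mod_cast he
    exact div_ne_zero h2 h1

open Polynomial

/-- polynomial from a list -/
noncomputable def ofL (L : List ℤ) : ℤ[X] := ∑ i ∈ Finset.range L.length, C (L.getD i 0) * X ^ i

lemma ofL_coeff (L : List ℤ) (i : ℕ) : (ofL L).coeff i = L.getD i 0 := by
  rw [ofL, finset_sum_coeff]
  simp only [coeff_C_mul, coeff_X_pow, mul_ite, mul_one, mul_zero]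
  rw [Finset.sum_ite_eq]
  split_ifs with h
  · rfl
  · rw [Finset.mem_range, not_lt] at h
    rw [List.getD_eq_default _ _ h]

/-- the initial lists -/
def winL : Fin 4 → ℕ → List ℤ
  | 0, 0 => [0, 49]
  | 0, 1 => [10, 49]
  | 0, 2 => [-4, -7]
  | 0, 3 => [0, -7]
  | 0, 4 => [0, 1]
  | 0, 5 => [0, -1]
  | 0, 6 => [0, 1]
  | 1, 0 => [0, -343]
  | 1, 1 => [-14, -343]
  | 1, 2 => [0, 49]
  | 1, 3 => [0, 49]
  | 1, 4 => [0, -7]
  | 1, 5 => [0, 7]
  | 1, 6 => [0, 1]
  | 2, 0 => [0, 0, 0, 117649]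
  | 2, 1 => [-28, 2548, 48020, 117649]
  | 2, 2 => [-9, -2205, -21609, -16807]
  | 2, 3 => [0, 266, 0, -16807]
  | 2, 4 => [0, 0, 0, 2401]
  | 2, 5 => [0, 8, 0, -2401]
  | 2, 6 => [0, 1, 245, 2058]
  | 3, 0 => [476, 0, 0, 0, 0, -40353607]
  | 3, 1 => [-627, 10241, -45619, -4470662, -31294634, -40353607]
  | 3, 2 => [-18, 8820, 388962, 4235364, 14823774, 5764801]
  | 3, 3 => [0, -5236, -104958, -571438, 0, 5764801]
  | 3, 4 => [0, 260, 0, 0, 0, -823543]
  | 3, 5 => [0, 90, -980, -30870, 0, 823543]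
  | 3, 6 => [0, 1, -490, -21609, -235298, -705894]
  | _, _ => []

lemma win_eq (l : Fin 4) (n : ℕ) (hn : n < 7) : win l n = ofL (winL l n) := by
  fin_cases l <;> interval_cases n <;>
  simp [win, winL, ofL, Finset.sum_range_succ] <;> try ring

/-- the constants `κ_l` -/
def κl : Fin 4 → ℕ := ![4, 0, 2, 4]

/-- the bound -/
def Bd (κ N i : ℕ) (c : ℤ) : Prop :=
  (7 * i + 5 < 2 * N → c = 0) ∧ (7 : ℤ) ^ ((7 * i + 8 - (2 * N + κ)) / 4) ∣ c

lemma win_bound (l : Fin 4) (n : ℕ) (hn : n < 7) (i : ℕ) : Bd (κl l) n i ((win l n).coeff i) := by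
  rw [win_eq l n hn, ofL_coeff]
  have h6 : i < 6 ∨ (winL l n).getD i 0 = 0 := by
    rcases Nat.lt_or_ge i 6 with h | h
    · exact Or.inl h
    · right
      apply List.getD_eq_default
      refine le_trans ?_ h
      fin_cases l <;> interval_cases n <;> decide
  rcases h6 with h | h
  · unfold Bd
    fin_cases l <;> interval_cases n <;> interval_cases i <;> decide +kernel
  · rw [h]
    exact ⟨fun _ => rfl, dvd_zero _⟩

theorem P_bound (l : Fin 4) (N : ℕ) (i : ℕ) : Bd (κl l) N i ((P l N).coeff i) := by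
  induction N using Nat.strong_induction_on generalizing i with
  | _ N ih =>
    rcases Nat.lt_or_ge N 7 with h | h
    · have : P l N = win l N := by interval_cases N <;> rw [P]
      rw [this]
      exact win_bound l N h i
    · obtain ⟨n, rfl⟩ := Nat.exists_eq_add_of_le' h
      generalize κl l = κ at *
      have e0 := ih n (by omega) (i - 2)
      have e1 := ih (n + 1) (by omega) (i - 2)
      have e2 := ih (n + 2) (by omega) (i - 2)
      have e3 := ih (n + 3) (by omega) (i - 2)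
      have e4 := ih (n + 4) (by omega) (i - 2)
      have e5 := ih (n + 5) (by omega) (i - 2)
      have e6 := ih (n + 6) (by omega) (i - 2)
      have f4 := ih (n + 4) (by omega) (i - 1)
      have f5 := ih (n + 5) (by omega) (i - 1)
      have f6 := ih (n + 6) (by omega) (i - 1)
      have hc : (P l (n + 7)).coeff i = (if 2 ≤ i then ((P l n).coeff (i - 2) +
          7 * (P l (n + 1)).coeff (i - 2) + 21 * (P l (n + 2)).coeff (i - 2) +
          49 * (P l (n + 3)).coeff (i - 2) + 147 * (P l (n + 4)).coeff (i - 2) +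
          343 * (P l (n + 5)).coeff (i - 2) + 343 * (P l (n + 6)).coeff (i - 2)) else 0) +
          (if 1 ≤ i then (7 * (P l (n + 4)).coeff (i - 1) + 35 * (P l (n + 5)).coeff (i - 1) +
            49 * (P l (n + 6)).coeff (i - 1)) else 0) := by
        have e : P l (n + 7) = X ^ 2 * (P l n + C 7 * P l (n + 1) + C 21 * P l (n + 2) +
            C 49 * P l (n + 3) + C 147 * P l (n + 4) + C 343 * P l (n + 5) +
            C 343 * P l (n + 6)) + X ^ 1 * (C 7 * P l (n + 4) + C 35 * P l (n + 5) +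
            C 49 * P l (n + 6)) := by
          rw [P_rec]
          simp only [map_ofNat]
          ring
        rw [e]
        simp only [coeff_add, coeff_X_pow_mul', coeff_C_mul]
      rw [hc]
      generalize (P l n).coeff (i - 2) = c0 at *
      generalize (P l (n + 1)).coeff (i - 2) = c1 at *
      generalize (P l (n + 2)).coeff (i - 2) = c2 at *
      generalize (P l (n + 3)).coeff (i - 2) = c3 at *
      generalize (P l (n + 4)).coeff (i - 2) = c4 at *
      generalize (P l (n + 5)).coeff (i - 2) = c5 at *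
      generalize (P l (n + 6)).coeff (i - 2) = c6 at *
      generalize (P l (n + 4)).coeff (i - 1) = d4 at *
      generalize (P l (n + 5)).coeff (i - 1) = d5 at *
      generalize (P l (n + 6)).coeff (i - 1) = d6 at *
      have aux : ∀ (b m j v : ℕ) (c w : ℤ), Bd κ m j c → 
          (7 * i + 8 - (2 * (n + 7) + κ)) / 4 ≤ b + (7 * j + 8 - (2 * m + κ)) / 4 → w = 7 ^ b * v →
          (7 : ℤ) ^ ((7 * i + 8 - (2 * (n + 7) + κ)) / 4) ∣ w * c := by
        intro b m j v c w hB hle hw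
        rw [hw]
        have h1 : (7 : ℤ) ^ (b + (7 * j + 8 - (2 * m + κ)) / 4) ∣ 7 ^ b * v * c := by
          rw [pow_add, mul_assoc]
          exact mul_dvd_mul_left _ (Dvd.dvd.mul_left hB.2 _)
        exact (pow_dvd_pow 7 hle).trans h1
      refine ⟨fun hlt => ?_, ?_⟩
      · have g0 : 2 ≤ i → c0 = 0 := fun _ => e0.1 (by omega)
        have g1 : 2 ≤ i → c1 = 0 := fun _ => e1.1 (by omega)
        have g2 : 2 ≤ i → c2 = 0 := fun _ => e2.1 (by omega)
        have g3 : 2 ≤ i → c3 = 0 := fun _ => e3.1 (by omega)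
        have g4 : 2 ≤ i → c4 = 0 := fun _ => e4.1 (by omega)
        have g5 : 2 ≤ i → c5 = 0 := fun _ => e5.1 (by omega)
        have g6 : 2 ≤ i → c6 = 0 := fun _ => e6.1 (by omega)
        have k4 : 1 ≤ i → d4 = 0 := fun _ => f4.1 (by omega)
        have k5 : 1 ≤ i → d5 = 0 := fun _ => f5.1 (by omega)
        have k6 : 1 ≤ i → d6 = 0 := fun _ => f6.1 (by omega)
        split_ifs with p1 p2 p2
        · rw [g0 p1, g1 p1, g2 p1, g3 p1, g4 p1, g5 p1, g6 p1, k4 p2, k5 p2, k6 p2]; norm_num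
        · omega
        · rw [k4 p2, k5 p2, k6 p2]; norm_num
        · norm_num
      · refine dvd_add ?_ ?_
        · split_ifs with p1
          · have q0 := aux 0 n (i - 2) 1 c0 1 e0 (by omega) (by norm_num)
            have q1 := aux 1 (n + 1) (i - 2) 1 c1 7 e1 (by omega) (by norm_num)
            have q2 := aux 1 (n + 2) (i - 2) 3 c2 21 e2 (by omega) (by norm_num)
            have q3 := aux 2 (n + 3) (i - 2) 1 c3 49 e3 (by omega) (by norm_num)
            have q4 := aux 2 (n + 4) (i - 2) 3 c4 147 e4 (by omega) (by norm_num)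
            have q5 := aux 3 (n + 5) (i - 2) 1 c5 343 e5 (by omega) (by norm_num)
            have q6 := aux 3 (n + 6) (i - 2) 1 c6 343 e6 (by omega) (by norm_num)
            rw [one_mul] at q0
            exact dvd_add (dvd_add (dvd_add (dvd_add (dvd_add (dvd_add q0 q1) q2) q3) q4) q5) q6
          · exact dvd_zero _
        · split_ifs with p1
          · have q4 := aux 1 (n + 4) (i - 1) 1 d4 7 f4 (by omega) (by norm_num)
            have q5 := aux 1 (n + 5) (i - 1) 5 d5 35 f5 (by omega) (by norm_num)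
            have q6 := aux 2 (n + 6) (i - 1) 1 d6 49 f6 (by omega) (by norm_num)
            exact dvd_add (dvd_add q4 q5) q6
          · exact dvd_zero _

theorem P_mod (l : Fin 4) (n i : ℕ) :
    (7 : ℤ) ∣ (P l (n + 7)).coeff (i + 2) - (P l n).coeff i := by
  have e : P l (n + 7) = X ^ 2 * P l n + C 7 * (X ^ 2 * (P l (n + 1) + 3 * P l (n + 2) +
      7 * P l (n + 3) + 21 * P l (n + 4) + 49 * P l (n + 5) + 49 * P l (n + 6)) +
      X * (P l (n + 4) + 5 * P l (n + 5) + 7 * P l (n + 6))) := by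
    rw [P_rec]
    simp only [map_ofNat]
    ring
  rw [e, coeff_add, coeff_X_pow_mul, coeff_C_mul]
  exact ⟨_, by rw [add_sub_cancel_left]⟩

end Pool.Agent.Lib.MP_fad775_nt
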