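import Mathlib

/-!
# MP_fad775_nt: the numbers `cψ_{k,β}(n)`
-/

namespace Pool.Agent.Lib.MP_fad775_nt

open PowerSeries LaurentPolynomial

noncomputable section

/-- The series `∑_{m ∈ ℤ} q^{m(m+1)/2} ζ^{m+1/2}`, as a power series in `q` (the variable `X`) whose
coefficients are Laurent polynomials in `T = ζ^{1/2}` (so that `ζ^{m+1/2} = T^{2m+1}`): the
coefficient of `q^n` is the sum of `T^{2m+1}` over the integers `m` with `m(m+1)/2 = n`, all of
which lie in the interval `[-n-1, n]`. -/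
def thetaSeries : (LaurentPolynomial ℤ)⟦X⟧ :=
  PowerSeries.mk fun n => ∑ m ∈ (Finset.Icc (-(n : ℤ) - 1) (n : ℤ)).filter
    (fun m : ℤ => m * (m + 1) = 2 * (n : ℤ)), (T (2 * m + 1) : LaurentPolynomial ℤ)

/-- The inverse of `∏_{j=1}^{N} (1 - q^j)` as a power series with integer coefficients. -/
def eulerInv (N : ℕ) : ℤ⟦X⟧ := PowerSeries.invOfUnit (∏ j ∈ Finset.range N, (1 - X ^ (j + 1))) 1

/-- The coefficient of `q^n` in
`F_k = (∑_{m ∈ ℤ} q^{m(m+1)/2} ζ^{m+1/2})^k / ∏_{j ≥ 1} (1 - q^j)^k`, a Laurent polynomial in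
`T = ζ^{1/2}`. (The factors of the product with `j > n` do not influence this coefficient, hence
the product is taken over `1 ≤ j ≤ n`.) -/
def coeffF (k n : ℕ) : LaurentPolynomial ℤ :=
  PowerSeries.coeff n (thetaSeries ^ k * PowerSeries.map (LaurentPolynomial.C) (eulerInv n) ^ k)

/-- `cψ_{k,β}(n)`: the coefficient of `q^n ζ^β = q^n T^{2β}` in `F_k`; it is `0` for `n < 0`. -/
def cpsi (k : ℕ) (β n : ℤ) : ℤ := if n < 0 then 0 else (coeffF k n.toNat).coeff (2 * β)

end

end Pool.Agent.Lib.MP_fad775_nt
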