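import Mathlib
import Pool.Agent.Lib.MP_fad775_nt.Scal

/-!
# MP_fad775_nt: theta vectors
-/

namespace Pool.Agent.Lib.MP_fad775_nt

open HahnSeries

noncomputable section

/-- the theta series `∑_{m ∈ ℤ} f(m) w^(c m²)` -/
def Th (f : ℤ → ℚ) (c : ℕ) : K :=
  ofSuppBddBelow (fun n : ℤ =>
      ∑ m ∈ (Finset.Icc (-n) n).filter (fun m : ℤ => (c : ℤ) * m ^ 2 = n), f m)
    ⟨0, fun n hn => by
      by_contra h
      apply hn
      simp only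
      rw [Finset.Icc_eq_empty (by omega)]
      simp⟩

/-- the character `(12/·)` -/
def chi12 (a : ℤ) : ℚ :=
  if a % 12 = 1 ∨ a % 12 = 11 then 1 else if a % 12 = 5 ∨ a % 12 = 7 then -1 else 0

/-- `ϑ_r = ∑_{m ≡ r (mod 6)} w^(2 m²)`, `r = 0, 1, 2, 3` -/
def th (r : Fin 4) : K := Th (fun m => if m % 6 = (r : ℕ) then 1 else 0) 2

/-- the bilinear form -/
def J (f g : Fin 4 → K) : K := f 0 * g 1 + f 1 * g 0 - f 2 * g 3 - f 3 * g 2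

/-- the vectors `Φ_j` -/
def Φ0 (r : Fin 4) : K := th r
/-- the vectors `Φ_j` -/
def Φ1 (r : Fin 4) : K := θ (Φ0 r) - p / 24 * Φ0 r
/-- the vectors `Φ_j` -/
def Φ2 (r : Fin 4) : K := θ (Φ1 r) - 5 * p / 24 * Φ1 r - e4 / 576 * Φ0 r
/-- the vectors `Φ_j` -/
def Φ3 (r : Fin 4) : K := θ (Φ2 r) - 9 * p / 24 * Φ2 r - e4 / 18 * Φ1 r + e6 / 3456 * Φ0 r

end

end Pool.Agent.Lib.MP_fad775_nt
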