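import Mathlib
import Pool.Agent.Lib.MP_fad775_nt.VecDefs

/-!
# MP_fad775_nt: products of theta series, the rotation `(m, n) ↦ (m + n, m - n)`
-/

namespace Pool.Agent.Lib.MP_fad775_nt
open HahnSeries
noncomputable section

namespace Rot

/-- the box -/
def box (N : ℤ) : Finset (ℤ × ℤ) := Finset.Icc (-N) N ×ˢ Finset.Icc (-N) N

lemma Th_coeff (f : ℤ → ℚ) (c : ℕ) (n : ℤ) : (Th f c).coeff n =
    ∑ m ∈ (Finset.Icc (-n) n).filter (fun m : ℤ => (c : ℤ) * m ^ 2 = n), f m := rfl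

lemma abs_le_of_sq {c : ℕ} (hc : 1 ≤ c) {m n : ℤ} (h : (c : ℤ) * m ^ 2 ≤ n) : -n ≤ m ∧ m ≤ n := by
  have h1 : (1 : ℤ) ≤ c := by exact_mod_cast hc
  have h2 : m ^ 2 ≤ n := by nlinarith [sq_nonneg m]
  constructor <;> nlinarith [sq_nonneg (m + 1), sq_nonneg (m - 1), sq_nonneg m]

lemma Th_coeff_box (f : ℤ → ℚ) {c : ℕ} (hc : 1 ≤ c) {i N : ℤ} (hi : i ≤ N) :
    (Th f c).coeff i = ∑ m ∈ Finset.Icc (-N) N, if (c : ℤ) * m ^ 2 = i then f m else 0 := by
  rw [Th_coeff, ← Finset.sum_filter]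
  congr 1
  ext m
  simp only [Finset.mem_filter, Finset.mem_Icc]
  constructor
  · rintro ⟨⟨h1, h2⟩, h3⟩
    exact ⟨⟨by linarith, by linarith⟩, h3⟩
  · rintro ⟨_, h3⟩
    exact ⟨abs_le_of_sq hc h3.le, h3⟩

lemma coeff_Th_mul (f g : ℤ → ℚ) {c : ℕ} (hc : 1 ≤ c) (N : ℤ) : (Th f c * Th g c).coeff N =
    ∑ x ∈ box N, if (c : ℤ) * x.1 ^ 2 + c * x.2 ^ 2 = N then f x.1 * g x.2 else 0 := by
  have hneg : ∀ (f : ℤ → ℚ), ∀ n < (0 : ℤ), (Th f c).coeff n = 0 := by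
    intro f n hn
    rw [Th_coeff, Finset.Icc_eq_empty (by omega)]
    simp
  rw [coeff_mul_Icc (hneg f) (hneg g), sub_zero]
  have h1 : ∀ i ∈ Finset.Icc 0 N, (Th f c).coeff i * (Th g c).coeff (N - i) =
      ∑ x ∈ box N, if (c : ℤ) * x.1 ^ 2 = i then (if (c : ℤ) * x.2 ^ 2 = N - i then
        f x.1 * g x.2 else 0) else 0 := by
    intro i hi
    rw [Finset.mem_Icc] at hi
    rw [Th_coeff_box f hc hi.2, Th_coeff_box g hc (show N - i ≤ N by omega),
      Finset.sum_mul_sum, box, Finset.sum_product]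
    refine Finset.sum_congr rfl fun m _ => Finset.sum_congr rfl fun n _ => ?_
    split_ifs <;> simp
  rw [Finset.sum_congr rfl h1, Finset.sum_comm]
  refine Finset.sum_congr rfl fun x _ => ?_
  by_cases hx : (c : ℤ) * x.1 ^ 2 + c * x.2 ^ 2 = N
  · rw [if_pos hx, Finset.sum_eq_single ((c : ℤ) * x.1 ^ 2)]
    · rw [if_pos rfl, if_pos (by linarith)]
    · intro b _ hb
      rw [if_neg (Ne.symm hb)]
    · intro h
      exfalso
      apply h
      rw [Finset.mem_Icc]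
      constructor
      · positivity
      · have : 0 ≤ (c : ℤ) * x.2 ^ 2 := by positivity
        linarith
  · rw [if_neg hx]
    refine Finset.sum_eq_zero fun i _ => ?_
    split_ifs with h2 h3
    · exfalso; exact hx (by linarith)
    · rfl
    · rfl

lemma θ_Th (f : ℤ → ℚ) (c : ℕ) : θ (Th f c) = Th (fun m => (c : ℚ) * (m : ℚ) ^ 2 / 24 * f m) c := by
  ext n
  rw [θ_coeff, Th_coeff, Th_coeff, Finset.mul_sum]
  refine Finset.sum_congr rfl fun m hm => ?_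
  have h := (Finset.mem_filter.1 hm).2
  have h2 : (n : ℚ) = (c : ℚ) * (m : ℚ) ^ 2 := by rw [← h]; push_cast; ring
  rw [h2]

lemma Th_add (f g : ℤ → ℚ) (c : ℕ) : Th f c + Th g c = Th (fun m => f m + g m) c := by
  ext n
  rw [coeff_add, Th_coeff, Th_coeff, Th_coeff, Finset.sum_add_distrib]

/-! ### the characters -/

/-- integral version -/
def cz (a : ℤ) : ℤ :=
  if a % 12 = 1 ∨ a % 12 = 11 then 1 else if a % 12 = 5 ∨ a % 12 = 7 then -1 else 0

/-- indicator -/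
def ic (r a : ℤ) : ℤ := if a % 6 = r then 1 else 0

/-- the coefficient of `J` -/
def ez (m n : ℤ) : ℤ := ic 0 m * ic 1 n + ic 1 m * ic 0 n - ic 2 m * ic 3 n - ic 3 m * ic 2 n

lemma cz_period (a k : ℤ) : cz (a + 12 * k) = cz a := by
  unfold cz; rw [Int.add_mul_emod_self_left]

lemma ic_period (r a k : ℤ) : ic r (a + 6 * k) = ic r a := by
  unfold ic; rw [Int.add_mul_emod_self_left]

lemma key_fin : ∀ r ∈ Finset.range 12, ∀ s ∈ Finset.range 12,
    cz ((r : ℤ) + s) * cz ((r : ℤ) - s) = ez r s + ez (-r) (-s) := by decide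

lemma key (m n : ℤ) : cz (m + n) * cz (m - n) = ez m n + ez (-m) (-n) := by
  obtain ⟨r, hr⟩ := Int.eq_ofNat_of_zero_le (Int.emod_nonneg m (show (12 : ℤ) ≠ 0 by norm_num))
  obtain ⟨s, hs⟩ := Int.eq_ofNat_of_zero_le (Int.emod_nonneg n (show (12 : ℤ) ≠ 0 by norm_num))
  have hr2 : r < 12 := by
    have := Int.emod_lt_of_pos m (show (0 : ℤ) < 12 by norm_num); omega
  have hs2 : s < 12 := by
    have := Int.emod_lt_of_pos n (show (0 : ℤ) < 12 by norm_num); omega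
  have hm : m = r + 12 * (m / 12) := by have := Int.emod_add_mul_ediv m 12; omega
  have hn : n = s + 12 * (n / 12) := by have := Int.emod_add_mul_ediv n 12; omega
  set u := m / 12
  set v := n / 12
  have h := key_fin r (Finset.mem_range.2 hr2) s (Finset.mem_range.2 hs2)
  rw [hm, hn, show (r : ℤ) + 12 * u + (s + 12 * v) = (r + s) + 12 * (u + v) by ring,
    show (r : ℤ) + 12 * u - (s + 12 * v) = (r - s) + 12 * (u - v) by ring, cz_period, cz_period, h]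
  unfold ez
  rw [show (r : ℤ) + 12 * u = r + 6 * (2 * u) by ring, show (s : ℤ) + 12 * v = s + 6 * (2 * v) by ring,
    show -((r : ℤ) + 6 * (2 * u)) = -r + 6 * (-2 * u) by ring,
    show -((s : ℤ) + 6 * (2 * v)) = -s + 6 * (-2 * v) by ring]
  simp only [ic_period]

lemma chi12_eq (a : ℤ) : chi12 a = (cz a : ℚ) := by
  unfold chi12 cz
  split_ifs <;> simp

lemma cz_even {a : ℤ} (h : a % 2 = 0) : cz a = 0 := by
  unfold cz
  rw [if_neg (by omega), if_neg (by omega)]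

/-- the rotation -/
lemma rot (G : ℚ → ℚ) (N : ℤ) :
    2 * ∑ x ∈ box N, (if (2 : ℤ) * x.1 ^ 2 + 2 * x.2 ^ 2 = N then
      G ((x.1 : ℚ) * x.2 / 12) * (ez x.1 x.2 : ℚ) else 0) =
    ∑ x ∈ box N, (if (1 : ℤ) * x.1 ^ 2 + 1 * x.2 ^ 2 = N then
      G (((x.1 : ℚ) ^ 2 - (x.2 : ℚ) ^ 2) / 48) * (chi12 x.1 * chi12 x.2) else 0) := by
  have h1 : ∑ x ∈ box N, (if (2 : ℤ) * x.1 ^ 2 + 2 * x.2 ^ 2 = N then
      G ((x.1 : ℚ) * x.2 / 12) * (ez x.1 x.2 : ℚ) else 0) =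
      ∑ x ∈ box N, (if (2 : ℤ) * x.1 ^ 2 + 2 * x.2 ^ 2 = N then
      G ((x.1 : ℚ) * x.2 / 12) * (ez (-x.1) (-x.2) : ℚ) else 0) := by
    refine Finset.sum_bij' (fun x _ => (-x.1, -x.2)) (fun x _ => (-x.1, -x.2)) ?_ ?_ ?_ ?_ ?_
    · intro x hx
      simp only [box, Finset.mem_product, Finset.mem_Icc] at hx ⊢
      omega
    · intro x hx
      simp only [box, Finset.mem_product, Finset.mem_Icc] at hx ⊢
      omega
    · intro x _; simp
    · intro x _; simp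
    · intro x _
      simp only [neg_neg, neg_sq]
      push_cast
      rw [show -(x.1 : ℚ) * -(x.2 : ℚ) = x.1 * x.2 by ring]
  have h2 : 2 * ∑ x ∈ box N, (if (2 : ℤ) * x.1 ^ 2 + 2 * x.2 ^ 2 = N then
      G ((x.1 : ℚ) * x.2 / 12) * (ez x.1 x.2 : ℚ) else 0) =
      ∑ x ∈ box N, (if (2 : ℤ) * x.1 ^ 2 + 2 * x.2 ^ 2 = N then
      G ((x.1 : ℚ) * x.2 / 12) * (chi12 (x.1 + x.2) * chi12 (x.1 - x.2)) else 0) := by
    rw [two_mul]
    nth_rewrite 2 [h1]
    rw [← Finset.sum_add_distrib]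
    refine Finset.sum_congr rfl fun x _ => ?_
    split_ifs
    · rw [← mul_add]
      congr 1
      rw [chi12_eq, chi12_eq]
      have := key x.1 x.2
      exact_mod_cast this.symm
    · simp
  rw [h2, ← Finset.sum_filter, ← Finset.sum_filter]
  symm
  -- restrict to pairs of equal parity
  rw [← Finset.sum_filter_add_sum_filter_not ((box N).filter
    (fun x => (1 : ℤ) * x.1 ^ 2 + 1 * x.2 ^ 2 = N)) (fun x => (x.1 - x.2) % 2 = 0)]
  have h3 : ∑ x ∈ ((box N).filter (fun x => (1 : ℤ) * x.1 ^ 2 + 1 * x.2 ^ 2 = N)).filter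
      (fun x => ¬ (x.1 - x.2) % 2 = 0),
      G (((x.1 : ℚ) ^ 2 - (x.2 : ℚ) ^ 2) / 48) * (chi12 x.1 * chi12 x.2) = 0 := by
    refine Finset.sum_eq_zero fun x hx => ?_
    have h4 := (Finset.mem_filter.1 hx).2
    rw [chi12_eq, chi12_eq]
    rcases Int.emod_two_eq_zero_or_one x.1 with h5 | h5
    · rw [cz_even h5]; simp
    · rw [cz_even (a := x.2) (by omega)]; simp
  rw [h3, add_zero]
  refine Finset.sum_bij' (fun x _ => ((x.1 + x.2) / 2, (x.1 - x.2) / 2))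
    (fun x _ => (x.1 + x.2, x.1 - x.2)) ?_ ?_ ?_ ?_ ?_
  · intro x hx
    simp only [Finset.mem_filter, box, Finset.mem_product, Finset.mem_Icc] at hx ⊢
    obtain ⟨⟨⟨⟨a1, a2⟩, a3, a4⟩, a5⟩, a6⟩ := hx
    refine ⟨by omega, ?_⟩
    obtain ⟨u, hu⟩ : ∃ u, x.1 - x.2 = 2 * u := ⟨(x.1 - x.2) / 2, by omega⟩
    have e1 : (x.1 + x.2) / 2 = x.2 + u := by omega
    have e2 : (x.1 - x.2) / 2 = u := by omega
    rw [e1, e2, ← a5, show x.1 = x.2 + 2 * u by linarith]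
    ring
  · intro x hx
    simp only [Finset.mem_filter, box, Finset.mem_product, Finset.mem_Icc] at hx ⊢
    obtain ⟨_, a5⟩ := hx
    have b1 : (1 : ℤ) * (x.1 + x.2) ^ 2 + 1 * (x.1 - x.2) ^ 2 = N := by rw [← a5]; ring
    have b2 := abs_le_of_sq (c := 1) le_rfl (m := x.1 + x.2) (n := N) (by
      push_cast; nlinarith [sq_nonneg (x.1 - x.2)])
    have b3 := abs_le_of_sq (c := 1) le_rfl (m := x.1 - x.2) (n := N) (by
      push_cast; nlinarith [sq_nonneg (x.1 + x.2)])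
    exact ⟨⟨⟨b2, b3⟩, b1⟩, by omega⟩
  · intro x hx
    simp only [Finset.mem_filter] at hx
    ext <;> simp only <;> omega
  · intro x _
    ext <;> simp only <;> omega
  · intro x hx
    simp only [Finset.mem_filter] at hx
    obtain ⟨_, a6⟩ := hx
    obtain ⟨u, hu⟩ : ∃ u, x.1 - x.2 = 2 * u := ⟨(x.1 - x.2) / 2, by omega⟩
    have e1 : (x.1 + x.2) / 2 = x.2 + u := by omega
    have e2 : (x.1 - x.2) / 2 = u := by omega
    simp only [e1, e2]
    have e3 : x.1 = x.2 + 2 * u := by linarith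
    have e4 : x.2 + u + u = x.1 := by linarith
    have e5 : x.2 + u - u = x.2 := by ring
    rw [e4, e5]
    congr 2
    rw [e3]; push_cast; ring

end Rot

end
end Pool.Agent.Lib.MP_fad775_nt
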