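import Mathlib
import Pool.Agent.Lib.MP_fad775_nt.Rot

/-!
# MP_fad775_nt: `2η` as a theta series and the norms of `θ^j ϑ`
-/

namespace Pool.Agent.Lib.MP_fad775_nt
open HahnSeries
noncomputable section

namespace Rot

lemma chi12_six (j : ℤ) : chi12 (6 * j - 1) = ((Int.negOnePow j : ℤ) : ℚ) := by
  rw [chi12_eq]
  congr 1
  unfold cz
  rcases Int.even_or_odd j with h | h
  · rw [Int.negOnePow_even j h]
    obtain ⟨r, hr⟩ := h
    rw [if_pos (by omega)]; rfl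
  · rw [Int.negOnePow_odd j h]
    obtain ⟨r, hr⟩ := h
    rw [if_neg (by omega), if_pos (by omega)]; rfl

lemma chi12_neg (a : ℤ) : chi12 (-a) = chi12 a := by
  rw [chi12_eq, chi12_eq]
  congr 1
  unfold cz
  have h1 : (-a % 12 = 1 ∨ -a % 12 = 11) ↔ (a % 12 = 1 ∨ a % 12 = 11) := by omega
  have h2 : (-a % 12 = 5 ∨ -a % 12 = 7) ↔ (a % 12 = 5 ∨ a % 12 = 7) := by omega
  simp only [h1, h2]

lemma six_of_chi {m : ℤ} (h : chi12 m ≠ 0) : ∃ j : ℤ, m = 6 * j - 1 ∨ m = -(6 * j - 1) := by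
  rw [chi12_eq] at h
  have h2 : cz m ≠ 0 := by exact_mod_cast h
  unfold cz at h2
  have h3 : m % 6 = 1 ∨ m % 6 = 5 := by
    by_contra hc
    apply h2
    rw [if_neg (by omega), if_neg (by omega)]
  rcases h3 with h3 | h3
  · exact ⟨-(m / 6), Or.inr (by omega)⟩
  · exact ⟨m / 6 + 1, Or.inl (by omega)⟩

lemma pent_iff (j k : ℤ) : (6 * j - 1) ^ 2 = 24 * k + 1 ↔ (pentagonal j : ℤ) = k := by
  have h : (2 : ℤ) * (pentagonal j : ℤ) = j * (3 * j - 1) := by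
    exact two_mul_natCast_pentagonal j
  constructor
  · intro h1; nlinarith
  · intro h1; rw [← h1]; nlinarith

end Rot
open Rot

theorem two_eta : 2 * η = Th chi12 1 := by
  ext n
  have h2 : (2 * η).coeff n = 2 * (ι Eu).coeff (n - 1) := by
    rw [η, eu, show (2 : K) = ((2 : ℚ) : K) by push_cast; rfl, coeff_ratCast_mul, wp_mul_coeff]
  rw [h2, Th_coeff]
  by_cases hex : ∃ j : ℤ, (6 * j - 1) ^ 2 = n
  · obtain ⟨j, hj⟩ := hex
    have hn : n = 24 * (pentagonal j : ℤ) + 1 := by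
      rw [← hj]; exact (pent_iff j _).2 rfl
    have h3 : (ι Eu).coeff (n - 1) = ((Int.negOnePow j : ℤ) : ℚ) := by
      rw [hn, add_sub_cancel_right, ι_coeff_mul, Eu, PowerSeries.coeff_pentagonalSeries_pentagonal]
    rw [h3]
    have h4 : (Finset.Icc (-n) n).filter (fun m : ℤ => ((1 : ℕ) : ℤ) * m ^ 2 = n) =
        {6 * j - 1, -(6 * j - 1)} := by
      ext m
      simp only [Finset.mem_filter, Finset.mem_Icc, Finset.mem_insert, Finset.mem_singleton]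
      constructor
      · rintro ⟨_, h5⟩
        have h6 : m ^ 2 = (6 * j - 1) ^ 2 := by rw [hj, ← h5]; push_cast; ring
        exact sq_eq_sq_iff_eq_or_eq_neg.1 h6
      · intro h5
        have h6 : m ^ 2 = n := by
          rcases h5 with rfl | rfl
          · exact hj
          · rw [neg_sq]; exact hj
        have h7 : ((1 : ℕ) : ℤ) * m ^ 2 = n := by rw [h6]; push_cast; ring
        exact ⟨abs_le_of_sq le_rfl h7.le, h7⟩
    rw [h4, Finset.sum_pair (by omega), chi12_neg, chi12_six]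
    ring
  · push Not at hex
    have h3 : (ι Eu).coeff (n - 1) = 0 := by
      by_cases hd : (24 : ℤ) ∣ n - 1
      · obtain ⟨k, hk⟩ := hd
        rcases lt_or_ge k 0 with h | h
        · exact ι_coeff_neg _ _ (by omega)
        · obtain ⟨k', rfl⟩ := Int.eq_ofNat_of_zero_le h
          rw [hk, ι_coeff_mul, Eu]
          apply PowerSeries.coeff_pentagonalSeries_eq_zero
          rintro ⟨j, hj⟩
          apply hex j
          rw [(pent_iff j k').2 (by exact_mod_cast hj)]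
          linarith
      · exact ι_coeff_of_not_dvd _ _ hd
    rw [h3, mul_zero]
    symm
    refine Finset.sum_eq_zero fun m hm => ?_
    by_contra hc
    obtain ⟨j, hj⟩ := six_of_chi hc
    have h5 := (Finset.mem_filter.1 hm).2
    apply hex j
    rcases hj with hj | hj
    · rw [← hj, ← h5]; push_cast; ring
    · rw [← h5, hj]; push_cast; ring


namespace Rot

/-- `θ^j ϑ_r` -/
def vj (j : ℕ) (r : Fin 4) : K := Th (fun m => ((m : ℚ) ^ 2 / 12) ^ j * (ic ((r : ℕ) : ℤ) m : ℚ)) 2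

/-- `2 θ^k η` -/
def Hk (k : ℕ) : K := Th (fun m => ((m : ℚ) ^ 2 / 24) ^ k * chi12 m) 1

lemma Th_congr {f g : ℤ → ℚ} (c : ℕ) (h : ∀ m, f m = g m) : Th f c = Th g c := by
  rw [funext h]

lemma vj_zero (r : Fin 4) : vj 0 r = th r := by
  unfold vj th
  refine Th_congr 2 fun m => ?_
  unfold ic
  rw [pow_zero, one_mul]
  split_ifs <;> simp

lemma θ_vj (j : ℕ) (r : Fin 4) : θ (vj j r) = vj (j + 1) r := by
  unfold vj
  rw [θ_Th]
  refine Th_congr 2 fun m => ?_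
  push_cast
  ring

lemma θ_Hk (k : ℕ) : θ (Hk k) = Hk (k + 1) := by
  unfold Hk
  rw [θ_Th]
  refine Th_congr 1 fun m => ?_
  push_cast
  ring

lemma Hk_zero : Hk 0 = 2 * η := by
  rw [two_eta]
  unfold Hk
  exact Th_congr 1 fun m => by simp

lemma coeff_J_vj (j : ℕ) (N : ℤ) : (J (vj j) (vj j)).coeff N =
    ∑ x ∈ box N, (if (2 : ℤ) * x.1 ^ 2 + 2 * x.2 ^ 2 = N then
      (fun t : ℚ => t ^ (2 * j)) ((x.1 : ℚ) * x.2 / 12) * (ez x.1 x.2 : ℚ) else 0) := by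
  unfold J
  rw [coeff_sub, coeff_sub, coeff_add]
  unfold vj
  simp only [coeff_Th_mul _ _ (show 1 ≤ 2 by norm_num)]
  rw [← Finset.sum_add_distrib, ← Finset.sum_sub_distrib, ← Finset.sum_sub_distrib]
  refine Finset.sum_congr rfl fun x _ => ?_
  have h2 : (((2 : ℕ) : ℤ) * x.1 ^ 2 + ((2 : ℕ) : ℤ) * x.2 ^ 2 = N) ↔
      ((2 : ℤ) * x.1 ^ 2 + 2 * x.2 ^ 2 = N) := by push_cast; rfl
  simp only [h2]
  split_ifs
  · unfold ez
    have e0 : (((0 : Fin 4) : ℕ) : ℤ) = 0 := rfl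
    have e1 : (((1 : Fin 4) : ℕ) : ℤ) = 1 := rfl
    have e2 : (((2 : Fin 4) : ℕ) : ℤ) = 2 := rfl
    have e3 : (((3 : Fin 4) : ℕ) : ℤ) = 3 := rfl
    rw [e0, e1, e2, e3]
    push_cast
    have h3 : ((x.1 : ℚ) * x.2 / 12) ^ (2 * j) = ((x.1 : ℚ) ^ 2 / 12) ^ j * ((x.2 : ℚ) ^ 2 / 12) ^ j := by
      rw [pow_mul, ← mul_pow]
      congr 1
      ring
    rw [h3]
    ring
  · simp

lemma coeff_Hk_mul (a b : ℕ) (N : ℤ) : (Hk a * Hk b).coeff N =
    ∑ x ∈ box N, (if (1 : ℤ) * x.1 ^ 2 + 1 * x.2 ^ 2 = N then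
      ((x.1 : ℚ) ^ 2 / 24) ^ a * ((x.2 : ℚ) ^ 2 / 24) ^ b * (chi12 x.1 * chi12 x.2) else 0) := by
  unfold Hk
  rw [coeff_Th_mul _ _ (show 1 ≤ 1 by norm_num)]
  refine Finset.sum_congr rfl fun x _ => ?_
  have h2 : (((1 : ℕ) : ℤ) * x.1 ^ 2 + ((1 : ℕ) : ℤ) * x.2 ^ 2 = N) ↔
      ((1 : ℤ) * x.1 ^ 2 + 1 * x.2 ^ 2 = N) := by push_cast; rfl
  simp only [h2]
  split_ifs
  · ring
  · rfl

lemma coeff_two_mul (f : K) (N : ℤ) : (2 * f).coeff N = 2 * f.coeff N := by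
  rw [show (2 : K) = ((2 : ℚ) : K) by push_cast; rfl, coeff_ratCast_mul]

/-- the norms of `θ^j ϑ` -/
lemma J_rot (j : ℕ) : 2 * J (vj j) (vj j) = (((1 / 4) ^ j : ℚ) : K) *
    ∑ k ∈ Finset.range (2 * j + 1), (((-1) ^ k * ((2 * j).choose k : ℚ) : ℚ) : K) *
      (Hk (2 * j - k) * Hk k) := by
  ext N
  rw [coeff_two_mul, coeff_J_vj, rot (fun t : ℚ => t ^ (2 * j)) N, coeff_ratCast_mul]
  have hsum : (∑ k ∈ Finset.range (2 * j + 1), (((-1) ^ k * ((2 * j).choose k : ℚ) : ℚ) : K) *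
      (Hk (2 * j - k) * Hk k)).coeff N = ∑ k ∈ Finset.range (2 * j + 1),
      ((-1) ^ k * ((2 * j).choose k : ℚ)) * (Hk (2 * j - k) * Hk k).coeff N := by
    rw [HahnSeries.coeff_sum]
    exact Finset.sum_congr rfl fun k _ => coeff_ratCast_mul _ _ _
  rw [hsum]
  simp only [coeff_Hk_mul, Finset.mul_sum]
  rw [Finset.sum_comm]
  refine Finset.sum_congr rfl fun x _ => ?_
  split_ifs
  · have h1 : (((x.1 : ℚ) ^ 2 - (x.2 : ℚ) ^ 2) / 48) ^ (2 * j) =
        (1 / 4) ^ j * ((x.1 : ℚ) ^ 2 / 24 - (x.2 : ℚ) ^ 2 / 24) ^ (2 * j) := by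
      rw [pow_mul, pow_mul, ← mul_pow]
      congr 1
      ring
    rw [h1, sub_eq_add_neg, add_comm ((x.1 : ℚ) ^ 2 / 24), add_pow, Finset.mul_sum, Finset.sum_mul]
    refine Finset.sum_congr rfl fun k _ => ?_
    rw [neg_pow]
    ring
  · simp

end Rot

theorem J_rot0 : J th th = 2 * η ^ 2 := by
  have h := J_rot 0
  have h0 : vj 0 = th := funext vj_zero
  rw [h0] at h
  norm_num [Hk_zero] at h
  linear_combination (1 / 2) * h

end
end Pool.Agent.Lib.MP_fad775_nt
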