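import Mathlib
import Pool.Agent.Lib.MP_fad775_nt.Rot2
import Pool.Agent.Lib.MP_fad775_nt.ModEq

/-!
# MP_fad775_nt: the Gram matrix of the theta vectors and the differential equation
-/

namespace Pool.Agent.Lib.MP_fad775_nt
open HahnSeries
noncomputable section

namespace Rot

/-! ### derivatives of `η` -/

lemma θ_div_ofNat (f : K) (n : ℕ) [n.AtLeastTwo] : θ (f / (ofNat(n) : K)) = θ f / (ofNat(n) : K) := by
  have hn : (ofNat(n) : K) ≠ 0 := by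
    have : ((n : ℕ) : K) ≠ 0 := Nat.cast_ne_zero.2 (by have := Nat.AtLeastTwo.prop (n := n); omega)
    exact this
  rw [θ_div, θ_ofNat]
  field_simp
  ring

lemma e1 : θ η = p / 24 * η := θη

lemma e2 : θ (θ η) = (p ^ 2 / 192 - e4 / 288) * η := by
  rw [e1, θ_mul, θ_div_ofNat, θp, e1]; ring

lemma e3 : θ (θ (θ η)) = (5 * p ^ 3 / 4608 - 5 * p * e4 / 2304 + e6 / 864) * η := by
  rw [e2]
  simp only [θ_mul, map_sub, θ_div_ofNat, θ_pow, θp, θe4, e1]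
  push_cast; ring

lemma e4' : θ (θ (θ (θ η))) = (35 * p ^ 4 / 110592 - 35 * p ^ 2 * e4 / 27648 + 7 * p * e6 / 5184
    - 11 * e4 ^ 2 / 27648) * η := by
  rw [e3]
  simp only [θ_mul, map_sub, map_add, θ_div_ofNat, θ_pow, θp, θe4, θe6, e1, θ_ofNat]
  push_cast; ring

lemma e5 : θ (θ (θ (θ (θ η)))) = (35 * p ^ 5 / 294912 - 175 * p ^ 3 * e4 / 221184
    + 35 * p ^ 2 * e6 / 27648 - 55 * p * e4 ^ 2 / 73728 + 19 * e4 * e6 / 124416) * η := by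
  rw [e4']
  simp only [θ_mul, map_sub, map_add, θ_div_ofNat, θ_pow, θp, θe4, θe6, e1, θ_ofNat]
  push_cast; ring

lemma e6' : θ (θ (θ (θ (θ (θ η))))) = (385 * p ^ 6 / 7077888 - 1925 * p ^ 4 * e4 / 3538944
    + 385 * p ^ 3 * e6 / 331776 - 605 * p ^ 2 * e4 ^ 2 / 589824 + 209 * p * e4 * e6 / 497664
    - 113 * e4 ^ 3 / 7962624 - 19 * e6 ^ 2 / 373248) * η := by
  rw [e5]
  simp only [θ_mul, map_sub, map_add, θ_div_ofNat, θ_pow, θp, θe4, θe6, e1, θ_ofNat]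
  push_cast; ring

lemma θ_two_mul (f : K) : θ (2 * f) = 2 * θ f := by
  rw [θ_mul, θ_ofNat]; ring

lemma Hk1' : Hk 1 = 2 * θ η := by rw [← θ_Hk 0, Hk_zero, θ_two_mul]
lemma Hk2' : Hk 2 = 2 * θ (θ η) := by rw [← θ_Hk 1, Hk1', θ_two_mul]
lemma Hk3' : Hk 3 = 2 * θ (θ (θ η)) := by rw [← θ_Hk 2, Hk2', θ_two_mul]
lemma Hk4' : Hk 4 = 2 * θ (θ (θ (θ η))) := by rw [← θ_Hk 3, Hk3', θ_two_mul]
lemma Hk5' : Hk 5 = 2 * θ (θ (θ (θ (θ η)))) := by rw [← θ_Hk 4, Hk4', θ_two_mul]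
lemma Hk6' : Hk 6 = 2 * θ (θ (θ (θ (θ (θ η))))) := by rw [← θ_Hk 5, Hk5', θ_two_mul]

lemma Hk1 : Hk 1 = 2 * (p / 24 * η) := by rw [Hk1', e1]
lemma Hk2 : Hk 2 = 2 * ((p ^ 2 / 192 - e4 / 288) * η) := by rw [Hk2', e2]
lemma Hk3 : Hk 3 = 2 * ((5 * p ^ 3 / 4608 - 5 * p * e4 / 2304 + e6 / 864) * η) := by
  rw [Hk3', e3]
lemma Hk4 : Hk 4 = 2 * ((35 * p ^ 4 / 110592 - 35 * p ^ 2 * e4 / 27648 + 7 * p * e6 / 5184
    - 11 * e4 ^ 2 / 27648) * η) := by rw [Hk4', e4']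
lemma Hk5 : Hk 5 = 2 * ((35 * p ^ 5 / 294912 - 175 * p ^ 3 * e4 / 221184
    + 35 * p ^ 2 * e6 / 27648 - 55 * p * e4 ^ 2 / 73728 + 19 * e4 * e6 / 124416) * η) := by
  rw [Hk5', e5]
lemma Hk6 : Hk 6 = 2 * ((385 * p ^ 6 / 7077888 - 1925 * p ^ 4 * e4 / 3538944
    + 385 * p ^ 3 * e6 / 331776 - 605 * p ^ 2 * e4 ^ 2 / 589824 + 209 * p * e4 * e6 / 497664
    - 113 * e4 ^ 3 / 7962624 - 19 * e6 ^ 2 / 373248) * η) := by rw [Hk6', e6']

/-! ### the form `J` -/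

lemma J_comm (f g : Fin 4 → K) : J f g = J g f := by unfold J; ring

lemma θ_J (f g : Fin 4 → K) : θ (J f g) = J (fun r => θ (f r)) g + J f (fun r => θ (g r)) := by
  unfold J
  simp only [map_sub, map_add, θ_mul]
  ring

lemma θ_vj' (j : ℕ) : (fun r => θ (vj j r)) = vj (j + 1) := funext (θ_vj j)

lemma θ_η2 (c : K) : θ (c * η ^ 2) = (θ c + p / 12 * c) * η ^ 2 := by
  rw [θ_mul, θ_pow, e1]; push_cast; ring

/-! ### the Gram matrix of `θ^j ϑ` -/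

lemma G00 : J (vj 0) (vj 0) = 2 * η ^ 2 := by
  have h := J_rot 0
  norm_num [Hk_zero] at h
  linear_combination (1 / 2) * h

lemma G11 : J (vj 1) (vj 1) = (p ^ 2 / 288 - e4 / 288) * η ^ 2 := by
  have h := J_rot 1
  simp only [Finset.sum_range_succ, Finset.sum_range_zero, Nat.sub_self, Nat.sub_zero] at h
  norm_num [Nat.choose, Hk_zero, Hk1, Hk2] at h
  linear_combination (1 / 2) * h

lemma G22 : J (vj 2) (vj 2) = (p ^ 4 / 18432 - 7 * p ^ 2 * e4 / 27648 + p * e6 / 3456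
    - 5 * e4 ^ 2 / 55296) * η ^ 2 := by
  have h := J_rot 2
  simp only [Finset.sum_range_succ, Finset.sum_range_zero, Nat.sub_self, Nat.sub_zero] at h
  norm_num [Nat.choose, Hk_zero, Hk1, Hk2, Hk3, Hk4] at h
  linear_combination (1 / 2) * h

lemma G33 : J (vj 3) (vj 3) = (25 * p ^ 6 / 10616832 - 275 * p ^ 4 * e4 / 10616832
    + 115 * p ^ 3 * e6 / 1990656 - 565 * p ^ 2 * e4 ^ 2 / 10616832 + 5 * p * e4 * e6 / 221184
    + 13 * e4 ^ 3 / 31850496 - e6 ^ 2 / 248832) * η ^ 2 := by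
  have h := J_rot 3
  simp only [Finset.sum_range_succ, Finset.sum_range_zero, Nat.sub_self, Nat.sub_zero] at h
  norm_num [Nat.choose, Hk_zero, Hk1, Hk2, Hk3, Hk4, Hk5, Hk6] at h
  linear_combination (1 / 2) * h

lemma G01 : J (vj 0) (vj 1) = p / 12 * η ^ 2 := by
  have h := θ_J (vj 0) (vj 0)
  rw [θ_vj', G00, θ_η2, J_comm (vj (0 + 1)) (vj 0), θ_ofNat] at h
  linear_combination (-1 / 2) * h

lemma G12 : J (vj 1) (vj 2) = (p ^ 3 / 2304 - 7 * p * e4 / 6912 + e6 / 1728) * η ^ 2 := by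
  have h := θ_J (vj 1) (vj 1)
  rw [θ_vj', G11, θ_η2, J_comm (vj (1 + 1)) (vj 1)] at h
  simp only [map_sub, θ_div_ofNat, θ_pow, θp, θe4] at h
  push_cast at h
  linear_combination (-1 / 2) * h

lemma G23 : J (vj 2) (vj 3) = (5 * p ^ 5 / 442368 - 55 * p ^ 3 * e4 / 663552
    + 23 * p ^ 2 * e6 / 165888 - 113 * p * e4 ^ 2 / 1327104 + e4 * e6 / 55296) * η ^ 2 := by
  have h := θ_J (vj 2) (vj 2)
  rw [θ_vj', G22, θ_η2, J_comm (vj (2 + 1)) (vj 2)] at h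
  simp only [map_sub, map_add, θ_mul, θ_div_ofNat, θ_pow, θp, θe4, θe6, θ_ofNat] at h
  push_cast at h
  linear_combination (-1 / 2) * h

lemma G02 : J (vj 0) (vj 2) = (p ^ 2 / 96 - e4 / 288) * η ^ 2 := by
  have h := θ_J (vj 0) (vj 1)
  rw [θ_vj', θ_vj', G01, θ_η2, show (0 + 1 : ℕ) = 1 from rfl, G11, θ_div_ofNat, θp] at h
  linear_combination -h

lemma G13 : J (vj 1) (vj 3) = (5 * p ^ 4 / 55296 - 5 * p ^ 2 * e4 / 13824 + p * e6 / 2592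
    - 19 * e4 ^ 2 / 165888) * η ^ 2 := by
  have h := θ_J (vj 1) (vj 2)
  rw [θ_vj', θ_vj', G12, θ_η2, show (1 + 1 : ℕ) = 2 from rfl, G22] at h
  simp only [map_sub, map_add, θ_mul, θ_div_ofNat, θ_pow, θp, θe4, θe6, θ_ofNat] at h
  push_cast at h
  linear_combination -h

lemma G03 : J (vj 0) (vj 3) = (5 * p ^ 3 / 2304 - 5 * p * e4 / 2304 + e6 / 1728) * η ^ 2 := by
  have h := θ_J (vj 0) (vj 2)
  rw [θ_vj', θ_vj', G02, θ_η2, show (0 + 1 : ℕ) = 1 from rfl, G12] at h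
  simp only [map_sub, θ_div_ofNat, θ_pow, θp, θe4] at h
  push_cast at h
  linear_combination -h

/-! ### the vectors `Φ_j` -/

lemma Phi0_eq (r : Fin 4) : Φ0 r = vj 0 r := (vj_zero r).symm

lemma Phi1_eq (r : Fin 4) : Φ1 r = vj 1 r - p / 24 * vj 0 r := by
  rw [Φ1, Phi0_eq, θ_vj]

lemma Phi2_eq (r : Fin 4) : Φ2 r = vj 2 r - p / 4 * vj 1 r + (p ^ 2 / 192 + e4 / 576) * vj 0 r := by
  rw [Φ2, Phi1_eq, Phi0_eq, map_sub, θ_mul, θ_vj, θ_vj, θ_div_ofNat, θp]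
  ring

lemma Phi3_eq (r : Fin 4) : Φ3 r = vj 3 r - 5 * p / 8 * vj 2 r + (5 * p ^ 2 / 64 - 19 * e4 / 576) * vj 1 r
    + (-5 * p ^ 3 / 4608 + 19 * p * e4 / 13824 - e6 / 3456) * vj 0 r := by
  rw [Φ3, Phi2_eq, Phi1_eq, Phi0_eq]
  simp only [map_sub, map_add, θ_mul, θ_vj, θ_div_ofNat, θ_pow, θp, θe4]
  push_cast
  ring

/-- bilinear expansion -/
lemma J_expand (f g : Fin 4 → K) (a b : Fin 4 → K)
    (hf : ∀ r, f r = a 0 * vj 0 r + a 1 * vj 1 r + a 2 * vj 2 r + a 3 * vj 3 r)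
    (hg : ∀ r, g r = b 0 * vj 0 r + b 1 * vj 1 r + b 2 * vj 2 r + b 3 * vj 3 r) :
    J f g = (a 0 * b 0 * (2 * η ^ 2)) + (a 0 * b 1 + a 1 * b 0) * (p / 12 * η ^ 2)
      + (a 0 * b 2 + a 2 * b 0) * ((p ^ 2 / 96 - e4 / 288) * η ^ 2)
      + (a 0 * b 3 + a 3 * b 0) * ((5 * p ^ 3 / 2304 - 5 * p * e4 / 2304 + e6 / 1728) * η ^ 2)
      + a 1 * b 1 * ((p ^ 2 / 288 - e4 / 288) * η ^ 2)
      + (a 1 * b 2 + a 2 * b 1) * ((p ^ 3 / 2304 - 7 * p * e4 / 6912 + e6 / 1728) * η ^ 2)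
      + (a 1 * b 3 + a 3 * b 1) * ((5 * p ^ 4 / 55296 - 5 * p ^ 2 * e4 / 13824 + p * e6 / 2592
        - 19 * e4 ^ 2 / 165888) * η ^ 2)
      + a 2 * b 2 * ((p ^ 4 / 18432 - 7 * p ^ 2 * e4 / 27648 + p * e6 / 3456
        - 5 * e4 ^ 2 / 55296) * η ^ 2)
      + (a 2 * b 3 + a 3 * b 2) * ((5 * p ^ 5 / 442368 - 55 * p ^ 3 * e4 / 663552
        + 23 * p ^ 2 * e6 / 165888 - 113 * p * e4 ^ 2 / 1327104 + e4 * e6 / 55296) * η ^ 2)
      + a 3 * b 3 * ((25 * p ^ 6 / 10616832 - 275 * p ^ 4 * e4 / 10616832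
        + 115 * p ^ 3 * e6 / 1990656 - 565 * p ^ 2 * e4 ^ 2 / 10616832 + 5 * p * e4 * e6 / 221184
        + 13 * e4 ^ 3 / 31850496 - e6 ^ 2 / 248832) * η ^ 2) := by
  have h00 := G00; have h01 := G01; have h02 := G02; have h03 := G03; have h11 := G11
  have h12 := G12; have h13 := G13; have h22 := G22; have h23 := G23; have h33 := G33
  unfold J at *
  rw [hf 0, hf 1, hf 2, hf 3, hg 0, hg 1, hg 2, hg 3]
  linear_combination (a 0 * b 0) * h00 + (a 0 * b 1 + a 1 * b 0) * h01 + (a 0 * b 2 + a 2 * b 0) * h02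
    + (a 0 * b 3 + a 3 * b 0) * h03 + (a 1 * b 1) * h11 + (a 1 * b 2 + a 2 * b 1) * h12
    + (a 1 * b 3 + a 3 * b 1) * h13 + (a 2 * b 2) * h22 + (a 2 * b 3 + a 3 * b 2) * h23
    + (a 3 * b 3) * h33

/-- coefficients -/
def c0 : Fin 4 → K := ![1, 0, 0, 0]
/-- coefficients -/
def c1 : Fin 4 → K := ![-(p / 24), 1, 0, 0]
/-- coefficients -/
def c2 : Fin 4 → K := ![p ^ 2 / 192 + e4 / 576, -(p / 4), 1, 0]
/-- coefficients -/
def c3 : Fin 4 → K := ![-5 * p ^ 3 / 4608 + 19 * p * e4 / 13824 - e6 / 3456,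
  5 * p ^ 2 / 64 - 19 * e4 / 576, -(5 * p / 8), 1]

lemma hc0 (r : Fin 4) : Φ0 r = c0 0 * vj 0 r + c0 1 * vj 1 r + c0 2 * vj 2 r + c0 3 * vj 3 r := by
  rw [Phi0_eq]; simp [c0]

lemma hc1 (r : Fin 4) : Φ1 r = c1 0 * vj 0 r + c1 1 * vj 1 r + c1 2 * vj 2 r + c1 3 * vj 3 r := by
  rw [Phi1_eq]; simp [c1]; ring

lemma hc2 (r : Fin 4) : Φ2 r = c2 0 * vj 0 r + c2 1 * vj 1 r + c2 2 * vj 2 r + c2 3 * vj 3 r := by
  rw [Phi2_eq]; simp [c2]; ring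

lemma hc3 (r : Fin 4) : Φ3 r = c3 0 * vj 0 r + c3 1 * vj 1 r + c3 2 * vj 2 r + c3 3 * vj 3 r := by
  rw [Phi3_eq]; simp [c3]; ring

end Rot
open Rot

theorem gram00 : J Φ0 Φ0 = 2 * η ^ 2 := by
  rw [J_expand _ _ c0 c0 hc0 hc0]; simp [c0]

theorem gram01 : J Φ0 Φ1 = 0 := by
  rw [J_expand _ _ c0 c1 hc0 hc1]; simp [c0, c1]; ring

theorem gram02 : J Φ0 Φ2 = 0 := by
  rw [J_expand _ _ c0 c2 hc0 hc2]; simp [c0, c2]; ring

theorem gram03 : J Φ0 Φ3 = 0 := by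
  rw [J_expand _ _ c0 c3 hc0 hc3]; simp [c0, c3]; ring

theorem gram11 : J Φ1 Φ1 = -e4 / 288 * η ^ 2 := by
  rw [J_expand _ _ c1 c1 hc1 hc1]; simp [c1]; ring

theorem gram12 : J Φ1 Φ2 = e6 / 1728 * η ^ 2 := by
  rw [J_expand _ _ c1 c2 hc1 hc2]; simp [c1, c2]; ring

theorem gram13 : J Φ1 Φ3 = 0 := by
  rw [J_expand _ _ c1 c3 hc1 hc3]; simp [c1, c3]; ring

theorem gram22 : J Φ2 Φ2 = -e4 ^ 2 / 10368 * η ^ 2 := by
  rw [J_expand _ _ c2 c2 hc2 hc2]; simp [c2]; ring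

theorem gram23 : J Φ2 Φ3 = 0 := by
  rw [J_expand _ _ c2 c3 hc2 hc3]; simp [c2, c3]; ring

theorem gram33 : J Φ3 Φ3 = 25 / 3456 * η ^ 26 := by
  rw [J_expand _ _ c3 c3 hc3 hc3]; simp [c3]
  linear_combination (25 / 5971968 * η ^ 2) * disc_eq

/-- non-degeneracy -/
theorem J_nondeg (f : Fin 4 → K) (h0 : J f Φ0 = 0) (h1 : J f Φ1 = 0) (h2 : J f Φ2 = 0)
    (h3 : J f Φ3 = 0) : f = 0 := by
  -- matrices
  set M : Matrix (Fin 4) (Fin 4) K := Matrix.of ![Φ0, Φ1, Φ2, Φ3] with hM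
  set B : Matrix (Fin 4) (Fin 4) K := !![0, 1, 0, 0; 1, 0, 0, 0; 0, 0, 0, -1; 0, 0, -1, 0] with hB
  have hJ : ∀ g k : Fin 4 → K, J g k = dotProduct g (B.mulVec k) := by
    intro g k
    simp [J, hB, dotProduct, Matrix.mulVec, Fin.sum_univ_four]
    ring
  have hG : M * B * M.transpose = !![2 * η ^ 2, 0, 0, 0;
      0, -e4 / 288 * η ^ 2, e6 / 1728 * η ^ 2, 0;
      0, e6 / 1728 * η ^ 2, -e4 ^ 2 / 10368 * η ^ 2, 0; 0, 0, 0, 25 / 3456 * η ^ 26] := by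
    have hij : ∀ i j, (M * B * M.transpose) i j = J (M i) (M j) := by
      intro i j
      rw [hJ, Matrix.mul_assoc, Matrix.mul_apply]
      rfl
    have r0 : M 0 = Φ0 := rfl
    have r1 : M 1 = Φ1 := rfl
    have r2 : M 2 = Φ2 := rfl
    have r3 : M 3 = Φ3 := rfl
    refine Matrix.ext fun i j => ?_
    rw [hij]
    fin_cases i <;> fin_cases j
    · exact gram00
    · exact gram01
    · exact gram02
    · exact gram03
    · exact (J_comm Φ1 Φ0).trans gram01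
    · exact gram11
    · exact gram12
    · exact gram13
    · exact (J_comm Φ2 Φ0).trans gram02
    · exact (J_comm Φ2 Φ1).trans gram12
    · exact gram22
    · exact gram23
    · exact (J_comm Φ3 Φ0).trans gram03
    · exact (J_comm Φ3 Φ1).trans gram13
    · exact (J_comm Φ3 Φ2).trans gram23
    · exact gram33
  have hdet : (M * B * M.transpose).det ≠ 0 := by
    rw [hG]
    have : (!![2 * η ^ 2, 0, 0, 0;
      0, -e4 / 288 * η ^ 2, e6 / 1728 * η ^ 2, 0;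
      0, e6 / 1728 * η ^ 2, -e4 ^ 2 / 10368 * η ^ 2, 0; 0, 0, 0, 25 / 3456 * η ^ 26] :
        Matrix (Fin 4) (Fin 4) K).det = 25 / 2985984 * η ^ 56 := by
      simp [Matrix.det_succ_row_zero, Fin.sum_univ_succ, Fin.succAbove]
      linear_combination (25 / 5159780352 * η ^ 32) * disc_eq
    rw [this]
    exact mul_ne_zero (by norm_num) (pow_ne_zero _ η_ne)
  have hMdet : M.det ≠ 0 := by
    intro hc
    apply hdet
    rw [Matrix.det_mul, Matrix.det_mul, hc]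
    ring
  have hv : M.mulVec (B.mulVec f) = 0 := by
    have h : ∀ g, J f g = dotProduct g (B.mulVec f) := fun g => by rw [J_comm, hJ]
    rw [h] at h0 h1 h2 h3
    funext i
    fin_cases i
    · exact h0
    · exact h1
    · exact h2
    · exact h3
  have hBf := Matrix.eq_zero_of_mulVec_eq_zero hMdet hv
  funext i
  have k0 := congrFun hBf 0
  have k1 := congrFun hBf 1
  have k2 := congrFun hBf 2
  have k3 := congrFun hBf 3
  simp [hB, Matrix.mulVec, dotProduct, Fin.sum_univ_four] at k0 k1 k2 k3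
  fin_cases i
  · exact k1
  · exact k0
  · exact k3
  · exact k2

lemma J_sub_left (f g k : Fin 4 → K) : J (fun r => f r - g r) k = J f k - J g k := by
  unfold J; ring

lemma J_add_right (k f g : Fin 4 → K) : J k (fun r => f r + g r) = J k f + J k g := by
  unfold J; ring

lemma J_smul_left (c : K) (f k : Fin 4 → K) : J (fun r => c * f r) k = c * J f k := by
  unfold J; ring

lemma θΦ0 (r : Fin 4) : θ (Φ0 r) = Φ1 r + p / 24 * Φ0 r := by rw [Φ1]; ring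
lemma θΦ1 (r : Fin 4) : θ (Φ1 r) = Φ2 r + 5 * p / 24 * Φ1 r + e4 / 576 * Φ0 r := by rw [Φ2]; ring
lemma θΦ2 (r : Fin 4) : θ (Φ2 r) = Φ3 r + 9 * p / 24 * Φ2 r + e4 / 18 * Φ1 r - e6 / 3456 * Φ0 r := by
  rw [Φ3]; ring

theorem ode_Φ3 (r : Fin 4) : θ (Φ3 r) = 13 * p / 24 * Φ3 r + 25 * e4 / 576 * Φ2 r
    + 25 * e6 / 3456 * Φ1 r := by
  have key : (fun r => θ (Φ3 r) - (13 * p / 24 * Φ3 r + 25 * e4 / 576 * Φ2 r
      + 25 * e6 / 3456 * Φ1 r)) = 0 := by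
    have g00 := gram00; have g01 := gram01; have g02 := gram02; have g03 := gram03
    have g11 := gram11; have g12 := gram12; have g13 := gram13; have g22 := gram22
    have g23 := gram23; have g33 := gram33
    have hd := disc_eq
    apply J_nondeg
    · have h := θ_J Φ3 Φ0
      rw [J_comm Φ3 Φ0, gram03, map_zero] at h
      have h2 : J Φ3 (fun r => θ (Φ0 r)) = J Φ1 Φ3 + p / 24 * J Φ0 Φ3 := by
        simp only [θΦ0]; unfold J; ring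
      rw [h2, gram13, gram03] at h
      unfold J at h g01 g02 g03 ⊢
      linear_combination -h - 13 * p / 24 * g03 - 25 * e4 / 576 * g02 - 25 * e6 / 3456 * g01
    · have h := θ_J Φ3 Φ1
      rw [J_comm Φ3 Φ1, gram13, map_zero] at h
      have h2 : J Φ3 (fun r => θ (Φ1 r)) = J Φ2 Φ3 + 5 * p / 24 * J Φ1 Φ3 + e4 / 576 * J Φ0 Φ3 := by
        simp only [θΦ1]; unfold J; ring
      rw [h2, gram23, gram13, gram03] at h
      unfold J at h g11 g12 g13 ⊢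
      linear_combination -h - 13 * p / 24 * g13 - 25 * e4 / 576 * g12 - 25 * e6 / 3456 * g11
    · have h := θ_J Φ3 Φ2
      rw [J_comm Φ3 Φ2, gram23, map_zero] at h
      have h2 : J Φ3 (fun r => θ (Φ2 r)) = J Φ3 Φ3 + 9 * p / 24 * J Φ2 Φ3 + e4 / 18 * J Φ1 Φ3
          - e6 / 3456 * J Φ0 Φ3 := by
        simp only [θΦ2]; unfold J; ring
      rw [h2, gram33, gram23, gram13, gram03] at h
      unfold J at h g12 g22 g23 ⊢
      linear_combination -h - 13 * p / 24 * g23 - 25 * e4 / 576 * g22 - 25 * e6 / 3456 * g12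
        + (25 / 5971968 * η ^ 2) * hd
    · have h := θ_J Φ3 Φ3
      rw [gram33, J_comm Φ3 (fun r => θ (Φ3 r)), θ_mul, θ_pow, θη, θ_div_ofNat, θ_ofNat] at h
      push_cast at h
      unfold J at h g13 g23 g33 ⊢
      linear_combination (-1 / 2) * h - 13 * p / 24 * g33 - 25 * e4 / 576 * g23 - 25 * e6 / 3456 * g13
  have := congrFun key r
  simp only [Pi.zero_apply] at this
  exact sub_eq_zero.1 this

end
end Pool.Agent.Lib.MP_fad775_nt
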