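import Mathlib
import Pool.Agent.Lib.MP_fad775_nt.Bound

/-!
# MP_fad775_nt: the matrix `K_{jl}` and the operator `U(f K_{jl})` on the lattices
-/

namespace Pool.Agent.Lib.MP_fad775_nt

open HahnSeries

/-- coefficients of `t κ_{jl}(t)` -/
def kapL : Fin 4 → Fin 4 → List ℚ
  | 0, 0 => [0, 1 / 2]
  | 0, 1 => [0, -1 / 48]
  | 0, 2 => [0, 1 / 288, 1 / 32, 5 / 288]
  | 0, 3 => [0, 0, 0, 5 / 576, 35 / 576, 35 / 576]
  | 1, 0 => [-1 / 12, -139 / 12, -4109 / 3, -399595 / 12, -1042034 / 3, -20588575 / 12, -40353607 / 12]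
  | 1, 1 => [1 / 288, 53 / 96, 851 / 24, 16415 / 32, 31213 / 12, 117649 / 96, -5764801 / 288]
  | 1, 2 => [-1 / 1728, -7 / 72, -2915 / 432, -40543 / 288, -783713 / 576, -1971907 / 288, -15647317 / 864, -823543 / 32, -40353607 / 1728]
  | 1, 3 => [0, 0, 0, 65 / 576, 7705 / 576, 117845 / 288, 1101275 / 192, 12161065 / 288, 92354465 / 576, 144120025 / 576]
  | 2, 0 => [-1 / 2, 67, 4263 / 2, 19208, 117649 / 2]
  | 2, 1 => [1 / 48, -19 / 8, -1547 / 48, -343 / 4, 16807 / 48]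
  | 2, 2 => [-1 / 288, 35 / 96, 71 / 8, 6931 / 96, 245, 12005 / 32, 117649 / 288]
  | 2, 3 => [0, 0, 0, -55 / 96, -295 / 12, -10885 / 32, -12005 / 6, -420175 / 96]
  | 3, 0 => [-12 / 5, -588 / 5, -4116 / 5]
  | 3, 1 => [1 / 10, 21 / 10, -49 / 10]
  | 3, 2 => [-1 / 60, -1 / 2, -157 / 60, -21 / 5, -343 / 60]
  | 3, 3 => [0, 0, 0, 5 / 4, 67 / 4, 245 / 4]

/-- coefficients of `t κ_{jl}(t)` -/
def kap (j l : Fin 4) (m : ℕ) : ℚ := (kapL j l).getD m 0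

/-- valuations of `kap` -/
def kv : Fin 4 → Fin 4 → List ℕ
  | 0, 0 => [99, 0, 99, 99, 99, 99, 99, 99, 99, 99]
  | 0, 1 => [99, 0, 99, 99, 99, 99, 99, 99, 99, 99]
  | 0, 2 => [99, 0, 0, 0, 99, 99, 99, 99, 99, 99]
  | 0, 3 => [99, 99, 99, 0, 1, 1, 99, 99, 99, 99]
  | 1, 0 => [0, 0, 1, 3, 5, 7, 9, 99, 99, 99]
  | 1, 1 => [0, 0, 0, 2, 4, 6, 8, 99, 99, 99]
  | 1, 2 => [0, 1, 0, 0, 1, 3, 7, 7, 9, 99]
  | 1, 3 => [99, 99, 99, 0, 0, 2, 2, 4, 6, 8]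
  | 2, 0 => [0, 0, 2, 4, 6, 99, 99, 99, 99, 99]
  | 2, 1 => [0, 0, 1, 3, 5, 99, 99, 99, 99, 99]
  | 2, 2 => [0, 1, 0, 0, 2, 4, 6, 99, 99, 99]
  | 2, 3 => [99, 99, 99, 0, 0, 1, 4, 5, 99, 99]
  | 3, 0 => [0, 2, 3, 99, 99, 99, 99, 99, 99, 99]
  | 3, 1 => [0, 1, 2, 99, 99, 99, 99, 99, 99, 99]
  | 3, 2 => [0, 0, 0, 1, 3, 99, 99, 99, 99, 99]
  | 3, 3 => [99, 99, 99, 0, 0, 2, 99, 99, 99, 99]

lemma kap_val : ∀ (j l : Fin 4), ∀ m < 10, D7 ((kv j l).getD m 0) (kap j l m) := by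
  decide +kernel

/-- exponents of the lattice `M_σ` -/
def eσ (k : ℕ) : ℕ := k - 1
/-- exponents of the lattice `M_ρ` -/
def eρ (j : Fin 4) (k : ℕ) : ℕ := if k = 0 then (if j = 1 then 1 else 0) else k
/-- exponents of the lattice `Z v + 7 M_σ` -/
def eτ (l : Fin 4) (k : ℕ) : ℕ := if k = 0 then (if l = 0 then 0 else 1) else k

lemma bound_sr (j l : Fin 4) (m : ℕ) (hm : m < 10) (k i : ℕ) :
    7 * (i + (k + m) + 1) + 5 < 2 * (4 * (k + m) + 4) ∨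
    eρ l i ≤ (kv j l).getD m 0 + eσ k +
      (7 * (i + (k + m) + 1) + 8 - (2 * (4 * (k + m) + 4) + κl l)) / 4 := by
  fin_cases j <;> fin_cases l <;> interval_cases m <;>
    simp [kv, eρ, eσ, κl] <;> (try split_ifs) <;> omega

lemma bound_rs (j l : Fin 4) (m : ℕ) (hm : m < 10) (k i : ℕ)
    (h : k ≠ 0 ∨ i ≠ 0 ∨ j = 1 ∨ l ≠ 2) :
    7 * (i + (k + m) + 1) + 5 < 2 * (4 * (k + m) + 5) ∨
    eτ l i ≤ (kv j l).getD m 0 + eρ j k +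
      (7 * (i + (k + m) + 1) + 8 - (2 * (4 * (k + m) + 5) + κl l)) / 4 := by
  revert h
  fin_cases j <;> fin_cases l <;> interval_cases m <;>
    simp [kv, eρ, eτ, κl] <;> (try split_ifs) <;> omega

end Pool.Agent.Lib.MP_fad775_nt
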