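import Mathlib
import Pool.Agent.Lib.MP_fad775_nt.KTab

/-!
# MP_fad775_nt: the operator `U(f K_{jl})` on the lattices
-/

namespace Pool.Agent.Lib.MP_fad775_nt

open HahnSeries Polynomial

noncomputable section

/-- evaluation of rational polynomials at `t` -/
def evQ : ℚ[X] →+* K := Polynomial.eval₂RingHom (Rat.castHom K) t

lemma evQ_X : evQ X = t := by simp [evQ]
lemma evQ_C (c : ℚ) : evQ (C c) = (c : K) := by simp [evQ]

lemma ev_eq (p : ℤ[X]) : ev p = evQ (p.map (Int.castRingHom ℚ)) := by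
  simp only [ev, evQ, coe_eval₂RingHom, eval₂_map]
  congr 1

lemma evQ_sum (p : ℚ[X]) : evQ p = ∑ i ∈ p.support, ((p.coeff i : ℚ) : K) * t ^ i := by
  simp only [evQ, coe_eval₂RingHom, eval₂_def, Polynomial.sum]
  rfl

lemma U_x (n : ℤ) (g : K) : U (x ^ n * g) = x ^ (-n) * G g n := by
  have h : x ^ n * g = V (x ^ (-n)) * (φ ^ n * g) := by
    rw [φ, mul_zpow, map_zpow₀, zpow_neg]
    have := zpow_ne_zero n Vx_ne
    field_simp
  rw [h, U_V_mul, G]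

lemma exQ3 (l : Fin 4) (μ : ℕ) : ∃ Q : ℤ[X], P l (4 * μ + 5) = X ^ (μ + 1) * Q := by
  have : X ^ (μ + 1) ∣ P l (4 * μ + 5) := by
    rw [X_pow_dvd_iff]
    intro d hd
    exact (P_bound l (4 * μ + 5) d).1 (by omega)
  exact this

lemma exQ2 (l : Fin 4) (μ : ℕ) : ∃ Q : ℤ[X], P l (4 * μ + 4) = X ^ (μ + 1) * Q := by
  have : X ^ (μ + 1) ∣ P l (4 * μ + 4) := by
    rw [X_pow_dvd_iff]
    intro d hd
    exact (P_bound l (4 * μ + 4) d).1 (by omega)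
  exact this

/-- quotient polynomials -/
def Q3 (l : Fin 4) (μ : ℕ) : ℤ[X] := Classical.choose (exQ3 l μ)
/-- quotient polynomials -/
def Q2 (l : Fin 4) (μ : ℕ) : ℤ[X] := Classical.choose (exQ2 l μ)

lemma Q3_spec (l : Fin 4) (μ : ℕ) : P l (4 * μ + 5) = X ^ (μ + 1) * Q3 l μ :=
  Classical.choose_spec (exQ3 l μ)
lemma Q2_spec (l : Fin 4) (μ : ℕ) : P l (4 * μ + 4) = X ^ (μ + 1) * Q2 l μ :=
  Classical.choose_spec (exQ2 l μ)

lemma Q3_coeff (l : Fin 4) (μ i : ℕ) : (Q3 l μ).coeff i = (P l (4 * μ + 5)).coeff (i + μ + 1) := by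
  rw [Q3_spec, add_assoc i μ 1, coeff_X_pow_mul]
lemma Q2_coeff (l : Fin 4) (μ i : ℕ) : (Q2 l μ).coeff i = (P l (4 * μ + 4)).coeff (i + μ + 1) := by
  rw [Q2_spec, add_assoc i μ 1, coeff_X_pow_mul]

lemma U_x3 (l : Fin 4) (μ : ℕ) : U (x ^ 3 * gen l * t ^ μ * t⁻¹) = x * gen l * ev (Q3 l μ) := by
  have hx := x_ne
  have h1 : x ^ 3 * gen l * t ^ μ * t⁻¹ = x ^ (4 * (μ : ℤ) - 1) * gen l := by
    have : x ^ (4 * (μ : ℤ) - 1) = x ^ 3 * t ^ μ * t⁻¹ := by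
      rw [t, ← pow_mul, ← zpow_natCast x (4 * μ), ← zpow_natCast x 3, ← zpow_natCast x 4,
        ← zpow_neg, ← zpow_add₀ hx, ← zpow_add₀ hx]
      congr 1; push_cast; ring
    rw [this]; ring
  have h2 := G_eq l (4 * μ + 5)
  rw [h1, U_x]
  rw [show ((4 * μ + 5 : ℕ) : ℤ) - 6 = 4 * (μ : ℤ) - 1 by push_cast; ring] at h2
  rw [h2, Q3_spec, map_mul, map_pow, ev_X]
  have : x ^ (-(4 * (μ : ℤ) - 1)) * t⁻¹ * t ^ (μ + 1) = x := by
    rw [t, ← pow_mul, ← zpow_natCast x (4 * (μ + 1)), ← zpow_natCast x 4,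
        ← zpow_neg, ← zpow_add₀ hx, ← zpow_add₀ hx]
    conv_rhs => rw [← zpow_one x]
    congr 1; push_cast; ring
  linear_combination gen l * ev (Q3 l μ) * this

lemma U_x2 (l : Fin 4) (μ : ℕ) : U (x ^ 2 * gen l * t ^ μ * t⁻¹) = x ^ 2 * gen l * ev (Q2 l μ) := by
  have hx := x_ne
  have h1 : x ^ 2 * gen l * t ^ μ * t⁻¹ = x ^ (4 * (μ : ℤ) - 2) * gen l := by
    have : x ^ (4 * (μ : ℤ) - 2) = x ^ 2 * t ^ μ * t⁻¹ := by
      rw [t, ← pow_mul, ← zpow_natCast x (4 * μ), ← zpow_natCast x 2, ← zpow_natCast x 4,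
        ← zpow_neg, ← zpow_add₀ hx, ← zpow_add₀ hx]
      congr 1; push_cast; ring
    rw [this]; ring
  have h2 := G_eq l (4 * μ + 4)
  rw [h1, U_x]
  rw [show ((4 * μ + 4 : ℕ) : ℤ) - 6 = 4 * (μ : ℤ) - 2 by push_cast; ring] at h2
  rw [h2, Q2_spec, map_mul, map_pow, ev_X]
  have : x ^ (-(4 * (μ : ℤ) - 2)) * t⁻¹ * t ^ (μ + 1) = x ^ 2 := by
    rw [t, ← pow_mul, ← zpow_natCast x (4 * (μ + 1)), ← zpow_natCast x 4,
        ← zpow_neg, ← zpow_add₀ hx, ← zpow_add₀ hx, ← zpow_natCast x 2]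
    congr 1; push_cast; ring
  linear_combination gen l * ev (Q2 l μ) * this

/-- the polynomial `t κ_{jl}(t)` -/
def Kp (j l : Fin 4) : ℚ[X] := ∑ m ∈ Finset.range 10, C (kap j l m) * X ^ m

/-- the matrix `K` -/
def Km (j l : Fin 4) : K := x * gen l * t⁻¹ * evQ (Kp j l) / gen j

lemma z_ne : z ≠ 0 := by
  intro h
  have := ct_z
  rw [h, ct_zero] at this
  norm_num at this

lemma w4_ne : w4 ≠ 0 := div_ne_zero (pow_ne_zero 2 z_ne) Qp_ne
lemma A2_ne : A2 ≠ 0 := div_ne_zero (pow_ne_zero 14 η_ne) (pow_ne_zero 2 Vη_ne)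

lemma gen_ne (l : Fin 4) : gen l ≠ 0 := by
  fin_cases l
  · exact one_ne_zero
  · exact z_ne
  · exact w4_ne
  · exact A2_ne

/-- the polynomials `H3` -/
def H3 (j l : Fin 4) (k : ℕ) : ℚ[X] :=
  ∑ m ∈ Finset.range 10, C (kap j l m) * (Q3 l (k + m)).map (Int.castRingHom ℚ)
/-- the polynomials `H2` -/
def H2 (j l : Fin 4) (k : ℕ) : ℚ[X] :=
  ∑ m ∈ Finset.range 10, C (kap j l m) * (Q2 l (k + m)).map (Int.castRingHom ℚ)

lemma U_K3 (j l : Fin 4) (k : ℕ) :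
    U (x ^ 2 * gen j * t ^ k * Km j l) = x * gen l * evQ (H3 j l k) := by
  have hg := gen_ne j
  have h1 : x ^ 2 * gen j * t ^ k * Km j l =
      ∑ m ∈ Finset.range 10, ((kap j l m : ℚ) : K) * (x ^ 3 * gen l * t ^ (k + m) * t⁻¹) := by
    rw [Km, Kp, map_sum]
    simp only [map_mul, map_pow, evQ_C, evQ_X]
    rw [Finset.mul_sum, Finset.sum_div, Finset.mul_sum]
    refine Finset.sum_congr rfl fun m _ => ?_
    rw [_root_.pow_add]
    field_simp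
  rw [h1, map_sum, H3, map_sum, Finset.mul_sum]
  refine Finset.sum_congr rfl fun m _ => ?_
  rw [U_ratCast_mul, U_x3, map_mul, evQ_C, ev_eq]
  ring

lemma U_K2 (j l : Fin 4) (k : ℕ) :
    U (x * gen j * t ^ k * Km j l) = x ^ 2 * gen l * evQ (H2 j l k) := by
  have hg := gen_ne j
  have h1 : x * gen j * t ^ k * Km j l =
      ∑ m ∈ Finset.range 10, ((kap j l m : ℚ) : K) * (x ^ 2 * gen l * t ^ (k + m) * t⁻¹) := by
    rw [Km, Kp, map_sum]
    simp only [map_mul, map_pow, evQ_C, evQ_X]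
    rw [Finset.mul_sum, Finset.sum_div, Finset.mul_sum]
    refine Finset.sum_congr rfl fun m _ => ?_
    rw [_root_.pow_add]
    field_simp
  rw [h1, map_sum, H2, map_sum, Finset.mul_sum]
  refine Finset.sum_congr rfl fun m _ => ?_
  rw [U_ratCast_mul, U_x2, map_mul, evQ_C, ev_eq]
  ring

lemma H3_coeff (j l : Fin 4) (k i : ℕ) : (H3 j l k).coeff i =
    ∑ m ∈ Finset.range 10, kap j l m * ((P l (4 * (k + m) + 5)).coeff (i + (k + m) + 1) : ℤ) := by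
  rw [H3, finset_sum_coeff]
  refine Finset.sum_congr rfl fun m _ => ?_
  rw [coeff_C_mul, coeff_map, Q3_coeff]
  rfl

lemma H2_coeff (j l : Fin 4) (k i : ℕ) : (H2 j l k).coeff i =
    ∑ m ∈ Finset.range 10, kap j l m * ((P l (4 * (k + m) + 4)).coeff (i + (k + m) + 1) : ℤ) := by
  rw [H2, finset_sum_coeff]
  refine Finset.sum_congr rfl fun m _ => ?_
  rw [coeff_C_mul, coeff_map, Q2_coeff]
  rfl

lemma H2_bound (j l : Fin 4) (k i : ℕ) (c : ℚ) (hc : D7 (eσ k) c) :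
    D7 (eρ l i) (c * (H2 j l k).coeff i) := by
  rw [H2_coeff, Finset.mul_sum]
  refine D7.sum fun m hm => ?_
  rw [Finset.mem_range] at hm
  have hP := P_bound l (4 * (k + m) + 4) (i + (k + m) + 1)
  rcases bound_sr j l m hm k i with h | h
  · rw [hP.1 h]
    simpa using D7_zero _
  · have h1 := (hc.mul ((kap_val j l m hm).mul (D7_int hP.2)))
    exact h1.mono (by omega)

lemma H3_bound (j l : Fin 4) (k i : ℕ) (c : ℚ) (hc : D7 (eρ j k) c)
    (h : k ≠ 0 ∨ i ≠ 0 ∨ j = 1 ∨ l ≠ 2) :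
    D7 (eτ l i) (c * (H3 j l k).coeff i) := by
  rw [H3_coeff, Finset.mul_sum]
  refine D7.sum fun m hm => ?_
  rw [Finset.mem_range] at hm
  have hP := P_bound l (4 * (k + m) + 5) (i + (k + m) + 1)
  rcases bound_rs j l m hm k i h with h | h
  · rw [hP.1 h]
    simpa using D7_zero _
  · have h1 := (hc.mul ((kap_val j l m hm).mul (D7_int hP.2)))
    exact h1.mono (by omega)

/-- integers congruent modulo 7 -/
lemma P_coeff_mod (l : Fin 4) (n i : ℕ) :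
    ((P l (n + 7)).coeff (i + 2) : ℤ) ≡ (P l n).coeff i [ZMOD 7] :=
  (Int.modEq_iff_dvd.mpr (P_mod l n i)).symm

lemma P_lt (l : Fin 4) (n : ℕ) (hn : n < 7) (i : ℕ) :
    (P l n).coeff i = (winL l n).getD i 0 := by
  have : P l n = win l n := by interval_cases n <;> rw [P]
  rw [this, win_eq l n hn, ofL_coeff]

/-- the values needed: `P l 5 [1], P l 9 [2], P l 13 [3]` -/
lemma P_val3 (l : Fin 4) : (P l 5).coeff 1 = (winL l 5).getD 1 0 ∧
    (P l 9).coeff 2 ≡ (winL l 2).getD 0 0 [ZMOD 7] ∧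
    (P l 13).coeff 3 ≡ (winL l 6).getD 1 0 [ZMOD 7] := by
  refine ⟨P_lt l 5 (by norm_num) 1, ?_, ?_⟩
  · have := P_coeff_mod l 2 0
    rwa [P_lt l 2 (by norm_num)] at this
  · have := P_coeff_mod l 6 1
    rwa [P_lt l 6 (by norm_num)] at this

/-- the values needed: `P l 4 [1], P l 8 [2], P l 12 [3], P l 16 [4], P l 20 [5]` -/
lemma P_val2 (l : Fin 4) : (P l 4).coeff 1 = (winL l 4).getD 1 0 ∧
    (P l 8).coeff 2 ≡ (winL l 1).getD 0 0 [ZMOD 7] ∧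
    (P l 12).coeff 3 ≡ (winL l 5).getD 1 0 [ZMOD 7] ∧
    (P l 16).coeff 4 ≡ (winL l 2).getD 0 0 [ZMOD 7] ∧
    (P l 20).coeff 5 ≡ (winL l 6).getD 1 0 [ZMOD 7] := by
  refine ⟨P_lt l 4 (by norm_num) 1, ?_, ?_, ?_, ?_⟩
  · have := P_coeff_mod l 1 0
    rwa [P_lt l 1 (by norm_num)] at this
  · have := P_coeff_mod l 5 1
    rwa [P_lt l 5 (by norm_num)] at this
  · have := P_coeff_mod l 2 0
    rw [P_lt l 2 (by norm_num)] at this
    exact (P_coeff_mod l 9 2).trans this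
  · have := P_coeff_mod l 6 1
    rw [P_lt l 6 (by norm_num)] at this
    exact (P_coeff_mod l 13 3).trans this

end

end Pool.Agent.Lib.MP_fad775_nt
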