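import Mathlib
import Pool.Agent.Lib.MP_fad775_nt.VecDefs
import Pool.Agent.Lib.MP_fad775_nt.Lat

/-!
# MP_fad775_nt: the vectors `Φ_j` and the sums `∑_j K_{jl} Φ_j`
-/

namespace Pool.Agent.Lib.MP_fad775_nt

noncomputable section

/-- the vectors `Φ_j` -/
def Φv : Fin 4 → Fin 4 → K := ![Φ0, Φ1, Φ2, Φ3]

/-- the sums `∑_j K_{jl} Φ_j(r)` -/
def Sv (l r : Fin 4) : K := ∑ j, Km j l * Φv j r

/-- All coefficients are integral at `7`, and divisible by `7^a`. -/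
def Int7 (a : ℕ) (f : K) : Prop := ∀ n, D7 a (f.coeff n)

end

end Pool.Agent.Lib.MP_fad775_nt
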