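import Mathlib
import Pool.Agent.Lib.MP_fad775_nt.VecK

/-!
# MP_fad775_nt: the differential equations of the matrix `K`
-/

namespace Pool.Agent.Lib.MP_fad775_nt

open HahnSeries Polynomial

noncomputable section

lemma θ_evQ (p : ℚ[X]) : θ (evQ p) = z * evQ (X * derivative p) := by
  induction p using Polynomial.induction_on' with
  | add p q hp hq => rw [map_add, map_add, hp, hq, map_add, mul_add, map_add, mul_add]
  | monomial n a =>
    rw [derivative_monomial, ← C_mul_X_pow_eq_monomial, ← C_mul_X_pow_eq_monomial]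
    simp only [map_mul, map_pow, evQ_C, evQ_X, θ_mul, θ_pow, θ_ratCast, θt]
    rcases Nat.eq_zero_or_pos n with h | h
    · subst h; simp
    · obtain ⟨m, rfl⟩ : ∃ m, n = m + 1 := ⟨n - 1, by omega⟩
      simp only [Nat.add_sub_cancel]
      push_cast
      ring

lemma A2_z : A2 = z ^ 3 / Qp ^ 2 := by
  have := Qp_ne
  rw [rel_z3]; field_simp

lemma θQp' : θ Qp = z * (13 * t + 98 * t ^ 2) := θQp

/-- the connection matrix: `θ Φ_l = ∑_i A i l Φ_i + wt l p Φ_l` -/
def Am : Fin 4 → Fin 4 → K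
  | 1, 0 => 1
  | 0, 1 => e4 / 576
  | 2, 1 => 1
  | 0, 2 => -e6 / 3456
  | 1, 2 => e4 / 18
  | 3, 2 => 1
  | 1, 3 => 25 * e6 / 3456
  | 2, 3 => 25 * e4 / 576
  | _, _ => 0

/-- the weights divided by 12 -/
def wt : Fin 4 → ℚ := ![1 / 24, 5 / 24, 9 / 24, 13 / 24]

lemma km00 : Km 0 0 = x * 1 * t⁻¹ * ((1 / 2) * t ^ 1) / 1 := by
  have hg : gen 0 = 1 := rfl
  have hg' : gen 0 = 1 := rfl
  rw [Km]
  simp only [hg, hg']
  congr 2
  rw [Kp]
  simp only [Finset.sum_range_succ, Finset.sum_range_zero, map_add, map_mul, map_pow, evQ_C, evQ_X,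
    kap, kapL, List.getD_cons_zero, List.getD_cons_succ, List.getD_nil, zero_add]
  push_cast
  ring

lemma km01 : Km 0 1 = x * z * t⁻¹ * ((-1 / 48) * t ^ 1) / 1 := by
  have hg : gen 1 = z := rfl
  have hg' : gen 0 = 1 := rfl
  rw [Km]
  simp only [hg, hg']
  congr 2
  rw [Kp]
  simp only [Finset.sum_range_succ, Finset.sum_range_zero, map_add, map_mul, map_pow, evQ_C, evQ_X,
    kap, kapL, List.getD_cons_zero, List.getD_cons_succ, List.getD_nil, zero_add]
  push_cast
  ring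

lemma km02 : Km 0 2 = x * (z ^ 2 / Qp) * t⁻¹ * ((1 / 288) * t ^ 1 + (1 / 32) * t ^ 2 + (5 / 288) * t ^ 3) / 1 := by
  have hg : gen 2 = (z ^ 2 / Qp) := rfl
  have hg' : gen 0 = 1 := rfl
  rw [Km]
  simp only [hg, hg']
  congr 2
  rw [Kp]
  simp only [Finset.sum_range_succ, Finset.sum_range_zero, map_add, map_mul, map_pow, evQ_C, evQ_X,
    kap, kapL, List.getD_cons_zero, List.getD_cons_succ, List.getD_nil, zero_add]
  push_cast
  ring

lemma km03 : Km 0 3 = x * (z ^ 3 / Qp ^ 2) * t⁻¹ * ((5 / 576) * t ^ 3 + (35 / 576) * t ^ 4 + (35 / 576) * t ^ 5) / 1 := by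
  have hg : gen 3 = (z ^ 3 / Qp ^ 2) := A2_z
  have hg' : gen 0 = 1 := rfl
  rw [Km]
  simp only [hg, hg']
  congr 2
  rw [Kp]
  simp only [Finset.sum_range_succ, Finset.sum_range_zero, map_add, map_mul, map_pow, evQ_C, evQ_X,
    kap, kapL, List.getD_cons_zero, List.getD_cons_succ, List.getD_nil, zero_add]
  push_cast
  ring

lemma km10 : Km 1 0 = x * 1 * t⁻¹ * ((-1 / 12) * t ^ 0 + (-139 / 12) * t ^ 1 + (-4109 / 3) * t ^ 2 + (-399595 / 12) * t ^ 3 + (-1042034 / 3) * t ^ 4 + (-20588575 / 12) * t ^ 5 + (-40353607 / 12) * t ^ 6) / z := by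
  have hg : gen 0 = 1 := rfl
  have hg' : gen 1 = z := rfl
  rw [Km]
  simp only [hg, hg']
  congr 2
  rw [Kp]
  simp only [Finset.sum_range_succ, Finset.sum_range_zero, map_add, map_mul, map_pow, evQ_C, evQ_X,
    kap, kapL, List.getD_cons_zero, List.getD_cons_succ, List.getD_nil, zero_add]
  push_cast
  ring

lemma km11 : Km 1 1 = x * z * t⁻¹ * ((1 / 288) * t ^ 0 + (53 / 96) * t ^ 1 + (851 / 24) * t ^ 2 + (16415 / 32) * t ^ 3 + (31213 / 12) * t ^ 4 + (117649 / 96) * t ^ 5 + (-5764801 / 288) * t ^ 6) / z := by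
  have hg : gen 1 = z := rfl
  have hg' : gen 1 = z := rfl
  rw [Km]
  simp only [hg, hg']
  congr 2
  rw [Kp]
  simp only [Finset.sum_range_succ, Finset.sum_range_zero, map_add, map_mul, map_pow, evQ_C, evQ_X,
    kap, kapL, List.getD_cons_zero, List.getD_cons_succ, List.getD_nil, zero_add]
  push_cast
  ring

lemma km12 : Km 1 2 = x * (z ^ 2 / Qp) * t⁻¹ * ((-1 / 1728) * t ^ 0 + (-7 / 72) * t ^ 1 + (-2915 / 432) * t ^ 2 + (-40543 / 288) * t ^ 3 + (-783713 / 576) * t ^ 4 + (-1971907 / 288) * t ^ 5 + (-15647317 / 864) * t ^ 6 + (-823543 / 32) * t ^ 7 + (-40353607 / 1728) * t ^ 8) / z := by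
  have hg : gen 2 = (z ^ 2 / Qp) := rfl
  have hg' : gen 1 = z := rfl
  rw [Km]
  simp only [hg, hg']
  congr 2
  rw [Kp]
  simp only [Finset.sum_range_succ, Finset.sum_range_zero, map_add, map_mul, map_pow, evQ_C, evQ_X,
    kap, kapL, List.getD_cons_zero, List.getD_cons_succ, List.getD_nil, zero_add]
  push_cast
  ring

lemma km13 : Km 1 3 = x * (z ^ 3 / Qp ^ 2) * t⁻¹ * ((65 / 576) * t ^ 3 + (7705 / 576) * t ^ 4 + (117845 / 288) * t ^ 5 + (1101275 / 192) * t ^ 6 + (12161065 / 288) * t ^ 7 + (92354465 / 576) * t ^ 8 + (144120025 / 576) * t ^ 9) / z := by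
  have hg : gen 3 = (z ^ 3 / Qp ^ 2) := A2_z
  have hg' : gen 1 = z := rfl
  rw [Km]
  simp only [hg, hg']
  congr 2
  rw [Kp]
  simp only [Finset.sum_range_succ, Finset.sum_range_zero, map_add, map_mul, map_pow, evQ_C, evQ_X,
    kap, kapL, List.getD_cons_zero, List.getD_cons_succ, List.getD_nil, zero_add]
  push_cast
  ring

lemma km20 : Km 2 0 = x * 1 * t⁻¹ * ((-1 / 2) * t ^ 0 + (67) * t ^ 1 + (4263 / 2) * t ^ 2 + (19208) * t ^ 3 + (117649 / 2) * t ^ 4) / (z ^ 2 / Qp) := by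
  have hg : gen 0 = 1 := rfl
  have hg' : gen 2 = (z ^ 2 / Qp) := rfl
  rw [Km]
  simp only [hg, hg']
  congr 2
  rw [Kp]
  simp only [Finset.sum_range_succ, Finset.sum_range_zero, map_add, map_mul, map_pow, evQ_C, evQ_X,
    kap, kapL, List.getD_cons_zero, List.getD_cons_succ, List.getD_nil, zero_add]
  push_cast
  ring

lemma km21 : Km 2 1 = x * z * t⁻¹ * ((1 / 48) * t ^ 0 + (-19 / 8) * t ^ 1 + (-1547 / 48) * t ^ 2 + (-343 / 4) * t ^ 3 + (16807 / 48) * t ^ 4) / (z ^ 2 / Qp) := by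
  have hg : gen 1 = z := rfl
  have hg' : gen 2 = (z ^ 2 / Qp) := rfl
  rw [Km]
  simp only [hg, hg']
  congr 2
  rw [Kp]
  simp only [Finset.sum_range_succ, Finset.sum_range_zero, map_add, map_mul, map_pow, evQ_C, evQ_X,
    kap, kapL, List.getD_cons_zero, List.getD_cons_succ, List.getD_nil, zero_add]
  push_cast
  ring

lemma km22 : Km 2 2 = x * (z ^ 2 / Qp) * t⁻¹ * ((-1 / 288) * t ^ 0 + (35 / 96) * t ^ 1 + (71 / 8) * t ^ 2 + (6931 / 96) * t ^ 3 + (245) * t ^ 4 + (12005 / 32) * t ^ 5 + (117649 / 288) * t ^ 6) / (z ^ 2 / Qp) := by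
  have hg : gen 2 = (z ^ 2 / Qp) := rfl
  have hg' : gen 2 = (z ^ 2 / Qp) := rfl
  rw [Km]
  simp only [hg, hg']
  congr 2
  rw [Kp]
  simp only [Finset.sum_range_succ, Finset.sum_range_zero, map_add, map_mul, map_pow, evQ_C, evQ_X,
    kap, kapL, List.getD_cons_zero, List.getD_cons_succ, List.getD_nil, zero_add]
  push_cast
  ring

lemma km23 : Km 2 3 = x * (z ^ 3 / Qp ^ 2) * t⁻¹ * ((-55 / 96) * t ^ 3 + (-295 / 12) * t ^ 4 + (-10885 / 32) * t ^ 5 + (-12005 / 6) * t ^ 6 + (-420175 / 96) * t ^ 7) / (z ^ 2 / Qp) := by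
  have hg : gen 3 = (z ^ 3 / Qp ^ 2) := A2_z
  have hg' : gen 2 = (z ^ 2 / Qp) := rfl
  rw [Km]
  simp only [hg, hg']
  congr 2
  rw [Kp]
  simp only [Finset.sum_range_succ, Finset.sum_range_zero, map_add, map_mul, map_pow, evQ_C, evQ_X,
    kap, kapL, List.getD_cons_zero, List.getD_cons_succ, List.getD_nil, zero_add]
  push_cast
  ring

lemma km30 : Km 3 0 = x * 1 * t⁻¹ * ((-12 / 5) * t ^ 0 + (-588 / 5) * t ^ 1 + (-4116 / 5) * t ^ 2) / (z ^ 3 / Qp ^ 2) := by
  have hg : gen 0 = 1 := rfl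
  have hg' : gen 3 = (z ^ 3 / Qp ^ 2) := A2_z
  rw [Km]
  simp only [hg, hg']
  congr 2
  rw [Kp]
  simp only [Finset.sum_range_succ, Finset.sum_range_zero, map_add, map_mul, map_pow, evQ_C, evQ_X,
    kap, kapL, List.getD_cons_zero, List.getD_cons_succ, List.getD_nil, zero_add]
  push_cast
  ring

lemma km31 : Km 3 1 = x * z * t⁻¹ * ((1 / 10) * t ^ 0 + (21 / 10) * t ^ 1 + (-49 / 10) * t ^ 2) / (z ^ 3 / Qp ^ 2) := by
  have hg : gen 1 = z := rfl
  have hg' : gen 3 = (z ^ 3 / Qp ^ 2) := A2_z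
  rw [Km]
  simp only [hg, hg']
  congr 2
  rw [Kp]
  simp only [Finset.sum_range_succ, Finset.sum_range_zero, map_add, map_mul, map_pow, evQ_C, evQ_X,
    kap, kapL, List.getD_cons_zero, List.getD_cons_succ, List.getD_nil, zero_add]
  push_cast
  ring

lemma km32 : Km 3 2 = x * (z ^ 2 / Qp) * t⁻¹ * ((-1 / 60) * t ^ 0 + (-1 / 2) * t ^ 1 + (-157 / 60) * t ^ 2 + (-21 / 5) * t ^ 3 + (-343 / 60) * t ^ 4) / (z ^ 3 / Qp ^ 2) := by
  have hg : gen 2 = (z ^ 2 / Qp) := rfl
  have hg' : gen 3 = (z ^ 3 / Qp ^ 2) := A2_z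
  rw [Km]
  simp only [hg, hg']
  congr 2
  rw [Kp]
  simp only [Finset.sum_range_succ, Finset.sum_range_zero, map_add, map_mul, map_pow, evQ_C, evQ_X,
    kap, kapL, List.getD_cons_zero, List.getD_cons_succ, List.getD_nil, zero_add]
  push_cast
  ring

lemma km33 : Km 3 3 = x * (z ^ 3 / Qp ^ 2) * t⁻¹ * ((5 / 4) * t ^ 3 + (67 / 4) * t ^ 4 + (245 / 4) * t ^ 5) / (z ^ 3 / Qp ^ 2) := by
  have hg : gen 3 = (z ^ 3 / Qp ^ 2) := A2_z
  have hg' : gen 3 = (z ^ 3 / Qp ^ 2) := A2_z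
  rw [Km]
  simp only [hg, hg']
  congr 2
  rw [Kp]
  simp only [Finset.sum_range_succ, Finset.sum_range_zero, map_add, map_mul, map_pow, evQ_C, evQ_X,
    kap, kapL, List.getD_cons_zero, List.getD_cons_succ, List.getD_nil, zero_add]
  push_cast
  ring

lemma kode00 : θ (Km 0 0) + ((e4 / 576 * Km 1 0) + (-e6 / 3456 * Km 2 0)) + (1 / 24) * p * Km 0 0 =
    7 * (V (1) * Km 0 1) + 7 * (1 / 24) * V p * Km 0 0 := by
  have hQ := Qp_ne
  have hz := z_ne
  have ht := t_ne
  rw [km00, km01, km10, km20]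
  simp only [map_div₀, map_mul, map_neg, map_ofNat, map_one, map_pow, map_add]
  rw [Vp_eq]
  try simp only [rel_Ve4, rel_Ve6]
  simp only [rel_e4, rel_e6, θ_div, θ_mul, map_add, θ_pow, θ_inv, θ_ofNat, θ_one, θx, θt, θz, θQp, map_neg, map_sub]
  push_cast
  try simp only [ap, bp, cp, dp]
  field_simp
  rw [Qp]
  ring

lemma kode01 : θ (Km 0 1) + ((e4 / 576 * Km 1 1) + (-e6 / 3456 * Km 2 1)) + (1 / 24) * p * Km 0 1 =
    7 * (V (e4 / 576) * Km 0 0 + V (1) * Km 0 2) + 7 * (5 / 24) * V p * Km 0 1 := by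
  have hQ := Qp_ne
  have hz := z_ne
  have ht := t_ne
  rw [km00, km01, km02, km11, km21]
  simp only [map_div₀, map_mul, map_neg, map_ofNat, map_one, map_pow, map_add]
  rw [Vp_eq]
  try simp only [rel_Ve4, rel_Ve6]
  simp only [rel_e4, rel_e6, θ_div, θ_mul, map_add, θ_pow, θ_inv, θ_ofNat, θ_one, θx, θt, θz, θQp, map_neg, map_sub]
  push_cast
  try simp only [ap, bp, cp, dp]
  field_simp
  rw [Qp]
  ring

lemma kode02 : θ (Km 0 2) + ((e4 / 576 * Km 1 2) + (-e6 / 3456 * Km 2 2)) + (1 / 24) * p * Km 0 2 =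
    7 * (V (-e6 / 3456) * Km 0 0 + V (e4 / 18) * Km 0 1 + V (1) * Km 0 3) + 7 * (9 / 24) * V p * Km 0 2 := by
  have hQ := Qp_ne
  have hz := z_ne
  have ht := t_ne
  rw [km00, km01, km02, km03, km12, km22]
  simp only [map_div₀, map_mul, map_neg, map_ofNat, map_one, map_pow, map_add]
  rw [Vp_eq]
  try simp only [rel_Ve4, rel_Ve6]
  simp only [rel_e4, rel_e6, θ_div, θ_mul, map_add, θ_pow, θ_inv, θ_ofNat, θ_one, θx, θt, θz, θQp, map_neg, map_sub]
  push_cast
  try simp only [ap, bp, cp, dp]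
  field_simp
  rw [Qp]
  ring

lemma kode03 : θ (Km 0 3) + ((e4 / 576 * Km 1 3) + (-e6 / 3456 * Km 2 3)) + (1 / 24) * p * Km 0 3 =
    7 * (V (25 * e6 / 3456) * Km 0 1 + V (25 * e4 / 576) * Km 0 2) + 7 * (13 / 24) * V p * Km 0 3 := by
  have hQ := Qp_ne
  have hz := z_ne
  have ht := t_ne
  rw [km01, km02, km03, km13, km23]
  simp only [map_div₀, map_mul, map_neg, map_ofNat, map_one, map_pow, map_add]
  rw [Vp_eq]
  try simp only [rel_Ve4, rel_Ve6]
  simp only [rel_e4, rel_e6, θ_div, θ_mul, map_add, θ_pow, θ_inv, θ_ofNat, θ_one, θx, θt, θz, θQp, map_neg, map_sub]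
  push_cast
  try simp only [ap, bp, cp, dp]
  field_simp
  rw [Qp]
  ring

lemma kode10 : θ (Km 1 0) + ((1 * Km 0 0) + (e4 / 18 * Km 2 0) + (25 * e6 / 3456 * Km 3 0)) + (5 / 24) * p * Km 1 0 =
    7 * (V (1) * Km 1 1) + 7 * (1 / 24) * V p * Km 1 0 := by
  have hQ := Qp_ne
  have hz := z_ne
  have ht := t_ne
  rw [km00, km10, km11, km20, km30]
  simp only [map_div₀, map_mul, map_neg, map_ofNat, map_one, map_pow, map_add]
  rw [Vp_eq]
  try simp only [rel_Ve4, rel_Ve6]
  simp only [rel_e4, rel_e6, θ_div, θ_mul, map_add, θ_pow, θ_inv, θ_ofNat, θ_one, θx, θt, θz, θQp, map_neg, map_sub]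
  push_cast
  try simp only [ap, bp, cp, dp]
  field_simp
  rw [Qp]
  ring

lemma kode11 : θ (Km 1 1) + ((1 * Km 0 1) + (e4 / 18 * Km 2 1) + (25 * e6 / 3456 * Km 3 1)) + (5 / 24) * p * Km 1 1 =
    7 * (V (e4 / 576) * Km 1 0 + V (1) * Km 1 2) + 7 * (5 / 24) * V p * Km 1 1 := by
  have hQ := Qp_ne
  have hz := z_ne
  have ht := t_ne
  rw [km01, km10, km11, km12, km21, km31]
  simp only [map_div₀, map_mul, map_neg, map_ofNat, map_one, map_pow, map_add]
  rw [Vp_eq]
  try simp only [rel_Ve4, rel_Ve6]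
  simp only [rel_e4, rel_e6, θ_div, θ_mul, map_add, θ_pow, θ_inv, θ_ofNat, θ_one, θx, θt, θz, θQp, map_neg, map_sub]
  push_cast
  try simp only [ap, bp, cp, dp]
  field_simp
  rw [Qp]
  ring

lemma kode12 : θ (Km 1 2) + ((1 * Km 0 2) + (e4 / 18 * Km 2 2) + (25 * e6 / 3456 * Km 3 2)) + (5 / 24) * p * Km 1 2 =
    7 * (V (-e6 / 3456) * Km 1 0 + V (e4 / 18) * Km 1 1 + V (1) * Km 1 3) + 7 * (9 / 24) * V p * Km 1 2 := by
  have hQ := Qp_ne
  have hz := z_ne
  have ht := t_ne
  rw [km02, km10, km11, km12, km13, km22, km32]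
  simp only [map_div₀, map_mul, map_neg, map_ofNat, map_one, map_pow, map_add]
  rw [Vp_eq]
  try simp only [rel_Ve4, rel_Ve6]
  simp only [rel_e4, rel_e6, θ_div, θ_mul, map_add, θ_pow, θ_inv, θ_ofNat, θ_one, θx, θt, θz, θQp, map_neg, map_sub]
  push_cast
  try simp only [ap, bp, cp, dp]
  field_simp
  rw [Qp]
  ring

lemma kode13 : θ (Km 1 3) + ((1 * Km 0 3) + (e4 / 18 * Km 2 3) + (25 * e6 / 3456 * Km 3 3)) + (5 / 24) * p * Km 1 3 =
    7 * (V (25 * e6 / 3456) * Km 1 1 + V (25 * e4 / 576) * Km 1 2) + 7 * (13 / 24) * V p * Km 1 3 := by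
  have hQ := Qp_ne
  have hz := z_ne
  have ht := t_ne
  rw [km03, km11, km12, km13, km23, km33]
  simp only [map_div₀, map_mul, map_neg, map_ofNat, map_one, map_pow, map_add]
  rw [Vp_eq]
  try simp only [rel_Ve4, rel_Ve6]
  simp only [rel_e4, rel_e6, θ_div, θ_mul, map_add, θ_pow, θ_inv, θ_ofNat, θ_one, θx, θt, θz, θQp, map_neg, map_sub]
  push_cast
  try simp only [ap, bp, cp, dp]
  field_simp
  rw [Qp]
  ring

lemma kode20 : θ (Km 2 0) + ((1 * Km 1 0) + (25 * e4 / 576 * Km 3 0)) + (9 / 24) * p * Km 2 0 =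
    7 * (V (1) * Km 2 1) + 7 * (1 / 24) * V p * Km 2 0 := by
  have hQ := Qp_ne
  have hz := z_ne
  have ht := t_ne
  rw [km10, km20, km21, km30]
  simp only [map_div₀, map_mul, map_neg, map_ofNat, map_one, map_pow, map_add]
  rw [Vp_eq]
  try simp only [rel_Ve4, rel_Ve6]
  simp only [rel_e4, rel_e6, θ_div, θ_mul, map_add, θ_pow, θ_inv, θ_ofNat, θ_one, θx, θt, θz, θQp, map_neg, map_sub]
  push_cast
  try simp only [ap, bp, cp, dp]
  field_simp
  rw [Qp]
  ring

lemma kode21 : θ (Km 2 1) + ((1 * Km 1 1) + (25 * e4 / 576 * Km 3 1)) + (9 / 24) * p * Km 2 1 =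
    7 * (V (e4 / 576) * Km 2 0 + V (1) * Km 2 2) + 7 * (5 / 24) * V p * Km 2 1 := by
  have hQ := Qp_ne
  have hz := z_ne
  have ht := t_ne
  rw [km11, km20, km21, km22, km31]
  simp only [map_div₀, map_mul, map_neg, map_ofNat, map_one, map_pow, map_add]
  rw [Vp_eq]
  try simp only [rel_Ve4, rel_Ve6]
  simp only [rel_e4, rel_e6, θ_div, θ_mul, map_add, θ_pow, θ_inv, θ_ofNat, θ_one, θx, θt, θz, θQp, map_neg, map_sub]
  push_cast
  try simp only [ap, bp, cp, dp]
  field_simp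
  rw [Qp]
  ring

lemma kode22 : θ (Km 2 2) + ((1 * Km 1 2) + (25 * e4 / 576 * Km 3 2)) + (9 / 24) * p * Km 2 2 =
    7 * (V (-e6 / 3456) * Km 2 0 + V (e4 / 18) * Km 2 1 + V (1) * Km 2 3) + 7 * (9 / 24) * V p * Km 2 2 := by
  have hQ := Qp_ne
  have hz := z_ne
  have ht := t_ne
  rw [km12, km20, km21, km22, km23, km32]
  simp only [map_div₀, map_mul, map_neg, map_ofNat, map_one, map_pow, map_add]
  rw [Vp_eq]
  try simp only [rel_Ve4, rel_Ve6]
  simp only [rel_e4, rel_e6, θ_div, θ_mul, map_add, θ_pow, θ_inv, θ_ofNat, θ_one, θx, θt, θz, θQp, map_neg, map_sub]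
  push_cast
  try simp only [ap, bp, cp, dp]
  field_simp
  rw [Qp]
  ring

lemma kode23 : θ (Km 2 3) + ((1 * Km 1 3) + (25 * e4 / 576 * Km 3 3)) + (9 / 24) * p * Km 2 3 =
    7 * (V (25 * e6 / 3456) * Km 2 1 + V (25 * e4 / 576) * Km 2 2) + 7 * (13 / 24) * V p * Km 2 3 := by
  have hQ := Qp_ne
  have hz := z_ne
  have ht := t_ne
  rw [km13, km21, km22, km23, km33]
  simp only [map_div₀, map_mul, map_neg, map_ofNat, map_one, map_pow, map_add]
  rw [Vp_eq]
  try simp only [rel_Ve4, rel_Ve6]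
  simp only [rel_e4, rel_e6, θ_div, θ_mul, map_add, θ_pow, θ_inv, θ_ofNat, θ_one, θx, θt, θz, θQp, map_neg, map_sub]
  push_cast
  try simp only [ap, bp, cp, dp]
  field_simp
  rw [Qp]
  ring

lemma kode30 : θ (Km 3 0) + ((1 * Km 2 0)) + (13 / 24) * p * Km 3 0 =
    7 * (V (1) * Km 3 1) + 7 * (1 / 24) * V p * Km 3 0 := by
  have hQ := Qp_ne
  have hz := z_ne
  have ht := t_ne
  rw [km20, km30, km31]
  simp only [map_div₀, map_mul, map_neg, map_ofNat, map_one, map_pow, map_add]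
  rw [Vp_eq]
  try simp only [rel_Ve4, rel_Ve6]
  simp only [rel_e4, rel_e6, θ_div, θ_mul, map_add, θ_pow, θ_inv, θ_ofNat, θ_one, θx, θt, θz, θQp, map_neg, map_sub]
  push_cast
  try simp only [ap, bp, cp, dp]
  field_simp
  rw [Qp]
  ring

lemma kode31 : θ (Km 3 1) + ((1 * Km 2 1)) + (13 / 24) * p * Km 3 1 =
    7 * (V (e4 / 576) * Km 3 0 + V (1) * Km 3 2) + 7 * (5 / 24) * V p * Km 3 1 := by
  have hQ := Qp_ne
  have hz := z_ne
  have ht := t_ne
  rw [km21, km30, km31, km32]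
  simp only [map_div₀, map_mul, map_neg, map_ofNat, map_one, map_pow, map_add]
  rw [Vp_eq]
  try simp only [rel_Ve4, rel_Ve6]
  simp only [rel_e4, rel_e6, θ_div, θ_mul, map_add, θ_pow, θ_inv, θ_ofNat, θ_one, θx, θt, θz, θQp, map_neg, map_sub]
  push_cast
  try simp only [ap, bp, cp, dp]
  field_simp
  rw [Qp]
  ring

lemma kode32 : θ (Km 3 2) + ((1 * Km 2 2)) + (13 / 24) * p * Km 3 2 =
    7 * (V (-e6 / 3456) * Km 3 0 + V (e4 / 18) * Km 3 1 + V (1) * Km 3 3) + 7 * (9 / 24) * V p * Km 3 2 := by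
  have hQ := Qp_ne
  have hz := z_ne
  have ht := t_ne
  rw [km22, km30, km31, km32, km33]
  simp only [map_div₀, map_mul, map_neg, map_ofNat, map_one, map_pow, map_add]
  rw [Vp_eq]
  try simp only [rel_Ve4, rel_Ve6]
  simp only [rel_e4, rel_e6, θ_div, θ_mul, map_add, θ_pow, θ_inv, θ_ofNat, θ_one, θx, θt, θz, θQp, map_neg, map_sub]
  push_cast
  try simp only [ap, bp, cp, dp]
  field_simp
  rw [Qp]
  ring

lemma kode33 : θ (Km 3 3) + ((1 * Km 2 3)) + (13 / 24) * p * Km 3 3 =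
    7 * (V (25 * e6 / 3456) * Km 3 1 + V (25 * e4 / 576) * Km 3 2) + 7 * (13 / 24) * V p * Km 3 3 := by
  have hQ := Qp_ne
  have hz := z_ne
  have ht := t_ne
  rw [km23, km31, km32, km33]
  simp only [map_div₀, map_mul, map_neg, map_ofNat, map_one, map_pow, map_add]
  rw [Vp_eq]
  try simp only [rel_Ve4, rel_Ve6]
  simp only [rel_e4, rel_e6, θ_div, θ_mul, map_add, θ_pow, θ_inv, θ_ofNat, θ_one, θx, θt, θz, θQp, map_neg, map_sub]
  push_cast
  try simp only [ap, bp, cp, dp]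
  field_simp
  rw [Qp]
  ring

/-- the differential equation of the matrix `K` -/
theorem kode (j l : Fin 4) : θ (Km j l) + (∑ i, Am j i * Km i l) + ((wt j : ℚ) : K) * p * Km j l =
    7 * (∑ i, V (Am i l) * Km j i) + 7 * ((wt l : ℚ) : K) * V p * Km j l := by
  fin_cases j <;> fin_cases l
  · have h := kode00
    simp only [Fin.sum_univ_four, Am, wt, Fin.zero_eta, Fin.mk_one, Fin.reduceFinMk, Matrix.cons_val,
      map_zero, zero_mul, zero_add, add_zero]
    push_cast
    push_cast at h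
    try simp only [map_one, one_mul] at h ⊢
    linear_combination h
  · have h := kode01
    simp only [Fin.sum_univ_four, Am, wt, Fin.zero_eta, Fin.mk_one, Fin.reduceFinMk, Matrix.cons_val,
      map_zero, zero_mul, zero_add, add_zero]
    push_cast
    push_cast at h
    try simp only [map_one, one_mul] at h ⊢
    linear_combination h
  · have h := kode02
    simp only [Fin.sum_univ_four, Am, wt, Fin.zero_eta, Fin.mk_one, Fin.reduceFinMk, Matrix.cons_val,
      map_zero, zero_mul, zero_add, add_zero]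
    push_cast
    push_cast at h
    try simp only [map_one, one_mul] at h ⊢
    linear_combination h
  · have h := kode03
    simp only [Fin.sum_univ_four, Am, wt, Fin.zero_eta, Fin.mk_one, Fin.reduceFinMk, Matrix.cons_val,
      map_zero, zero_mul, zero_add, add_zero]
    push_cast
    push_cast at h
    try simp only [map_one, one_mul] at h ⊢
    linear_combination h
  · have h := kode10
    simp only [Fin.sum_univ_four, Am, wt, Fin.zero_eta, Fin.mk_one, Fin.reduceFinMk, Matrix.cons_val,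
      map_zero, zero_mul, zero_add, add_zero]
    push_cast
    push_cast at h
    try simp only [map_one, one_mul] at h ⊢
    linear_combination h
  · have h := kode11
    simp only [Fin.sum_univ_four, Am, wt, Fin.zero_eta, Fin.mk_one, Fin.reduceFinMk, Matrix.cons_val,
      map_zero, zero_mul, zero_add, add_zero]
    push_cast
    push_cast at h
    try simp only [map_one, one_mul] at h ⊢
    linear_combination h
  · have h := kode12
    simp only [Fin.sum_univ_four, Am, wt, Fin.zero_eta, Fin.mk_one, Fin.reduceFinMk, Matrix.cons_val,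
      map_zero, zero_mul, zero_add, add_zero]
    push_cast
    push_cast at h
    try simp only [map_one, one_mul] at h ⊢
    linear_combination h
  · have h := kode13
    simp only [Fin.sum_univ_four, Am, wt, Fin.zero_eta, Fin.mk_one, Fin.reduceFinMk, Matrix.cons_val,
      map_zero, zero_mul, zero_add, add_zero]
    push_cast
    push_cast at h
    try simp only [map_one, one_mul] at h ⊢
    linear_combination h
  · have h := kode20
    simp only [Fin.sum_univ_four, Am, wt, Fin.zero_eta, Fin.mk_one, Fin.reduceFinMk, Matrix.cons_val,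
      map_zero, zero_mul, zero_add, add_zero]
    push_cast
    push_cast at h
    try simp only [map_one, one_mul] at h ⊢
    linear_combination h
  · have h := kode21
    simp only [Fin.sum_univ_four, Am, wt, Fin.zero_eta, Fin.mk_one, Fin.reduceFinMk, Matrix.cons_val,
      map_zero, zero_mul, zero_add, add_zero]
    push_cast
    push_cast at h
    try simp only [map_one, one_mul] at h ⊢
    linear_combination h
  · have h := kode22
    simp only [Fin.sum_univ_four, Am, wt, Fin.zero_eta, Fin.mk_one, Fin.reduceFinMk, Matrix.cons_val,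
      map_zero, zero_mul, zero_add, add_zero]
    push_cast
    push_cast at h
    try simp only [map_one, one_mul] at h ⊢
    linear_combination h
  · have h := kode23
    simp only [Fin.sum_univ_four, Am, wt, Fin.zero_eta, Fin.mk_one, Fin.reduceFinMk, Matrix.cons_val,
      map_zero, zero_mul, zero_add, add_zero]
    push_cast
    push_cast at h
    try simp only [map_one, one_mul] at h ⊢
    linear_combination h
  · have h := kode30
    simp only [Fin.sum_univ_four, Am, wt, Fin.zero_eta, Fin.mk_one, Fin.reduceFinMk, Matrix.cons_val,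
      map_zero, zero_mul, zero_add, add_zero]
    push_cast
    push_cast at h
    try simp only [map_one, one_mul] at h ⊢
    linear_combination h
  · have h := kode31
    simp only [Fin.sum_univ_four, Am, wt, Fin.zero_eta, Fin.mk_one, Fin.reduceFinMk, Matrix.cons_val,
      map_zero, zero_mul, zero_add, add_zero]
    push_cast
    push_cast at h
    try simp only [map_one, one_mul] at h ⊢
    linear_combination h
  · have h := kode32
    simp only [Fin.sum_univ_four, Am, wt, Fin.zero_eta, Fin.mk_one, Fin.reduceFinMk, Matrix.cons_val,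
      map_zero, zero_mul, zero_add, add_zero]
    push_cast
    push_cast at h
    try simp only [map_one, one_mul] at h ⊢
    linear_combination h
  · have h := kode33
    simp only [Fin.sum_univ_four, Am, wt, Fin.zero_eta, Fin.mk_one, Fin.reduceFinMk, Matrix.cons_val,
      map_zero, zero_mul, zero_add, add_zero]
    push_cast
    push_cast at h
    try simp only [map_one, one_mul] at h ⊢
    linear_combination h

end

end Pool.Agent.Lib.MP_fad775_nt
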