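import Mathlib
import Pool.Agent.Lib.MP_fad775_nt.VecK
import Pool.Agent.Lib.MP_fad775_nt.Trunc

/-!
# MP_fad775_nt: the resonance coefficients of `Sv 0 r = ∑_j K_{j0} Φ_j(r)`
-/

namespace Pool.Agent.Lib.MP_fad775_nt

open HahnSeries

/-- `q d/dq` on lists -/
def thL (L : List ℚ) : List ℚ := (List.range L.length).map fun (n : ℕ) => ((n : ℕ) : ℚ) * L.getD n 0

/-- polynomial in the series with list `T` -/
def polL (T : List ℚ) : List ℚ → List ℚ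
  | [] => [0, 0, 0, 0, 0, 0, 0, 0]
  | c :: cs => addL (smulL c [1, 0, 0, 0, 0, 0, 0, 0]) (mulL T (polL T cs))

noncomputable section

lemma thL_length (L : List ℚ) : (thL L).length = L.length := by simp [thL]

lemma Tr.theta {f : K} {L : List ℚ} (hf : Tr f L) : Tr (θ f) (thL L) := by
  obtain ⟨F, rfl, hF⟩ := hf
  refine ⟨Dq F, θ_ι F, fun n hn => ?_⟩
  have hn' : n < L.length := by simpa [thL] using hn
  rw [Dq, PowerSeries.coeff_mk, thL, List.getD_eq_getElem _ _ (by simpa using hn'), hF n hn']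
  simp

lemma Tr.zero8 : Tr 0 [0, 0, 0, 0, 0, 0, 0, 0] := by
  refine ⟨0, (map_zero _).symm, fun n hn => ?_⟩
  simp only [List.length_cons, List.length_nil] at hn
  interval_cases n <;> simp

/-- inverse of a power series, by its truncation -/
lemma Tr.inv {f : K} {L M : List ℚ} (hf : Tr f L) (h0 : L.getD 0 0 ≠ 0) (hl : 0 < L.length)
    (hM : M.length = L.length)
    (h : ∀ n < L.length, (mulL L M).getD n 0 = if n = 0 then 1 else 0) : Tr f⁻¹ M := by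
  obtain ⟨F, rfl, hF⟩ := hf
  have hc : PowerSeries.constantCoeff F = L.getD 0 0 := by
    rw [← PowerSeries.coeff_zero_eq_constantCoeff_apply]; exact hF 0 hl
  have hmul : F * F⁻¹ = 1 := PowerSeries.mul_inv_cancel F (by rw [hc]; exact h0)
  refine ⟨F⁻¹, ?_, ?_⟩
  · apply inv_eq_of_mul_eq_one_right
    rw [← map_mul, hmul, map_one]
  · intro n hn
    rw [hM] at hn
    induction n using Nat.strong_induction_on with
    | _ n ih =>
      have h1 := congrArg (PowerSeries.coeff n) hmul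
      rw [PowerSeries.coeff_mul, Finset.Nat.sum_antidiagonal_eq_sum_range_succ_mk,
        PowerSeries.coeff_one, Finset.sum_range_succ'] at h1
      have h2 := h n hn
      rw [mulL, List.getD_eq_getElem _ _ (by simpa using hn)] at h2
      simp only [List.getElem_map, List.getElem_range] at h2
      rw [list_sum_eq, Finset.sum_range_succ'] at h2
      simp only [Nat.sub_zero] at h1 h2
      have h3 : ∑ k ∈ Finset.range n, PowerSeries.coeff (k + 1) F *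
          PowerSeries.coeff (n - (k + 1)) F⁻¹ =
          ∑ k ∈ Finset.range n, L.getD (k + 1) 0 * M.getD (n - (k + 1)) 0 := by
        refine Finset.sum_congr rfl fun k hk => ?_
        rw [Finset.mem_range] at hk
        rw [hF (k + 1) (by omega), ih (n - (k + 1)) (by omega) (by omega)]
      rw [h3, hF 0 hl] at h1
      have h4 : L.getD 0 0 * PowerSeries.coeff n F⁻¹ = L.getD 0 0 * M.getD n 0 := by
        linear_combination h1 - h2
      exact mul_left_cancel₀ h0 h4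

/-- evaluation at `t` of a coefficient list -/
def evLt : List ℚ → K
  | [] => 0
  | c :: cs => (c : K) * 1 + t * evLt cs

lemma polL_length (cs : List ℚ) (T : List ℚ) : (polL T cs).length = 8 := by
  cases cs with
  | nil => rfl
  | cons c cs => simp [polL, addL_length, smulL_length]

lemma tr_evLt (cs : List ℚ) : Tr (evLt cs) (polL [0, 1, 4, 14, 40, 105, 252, 574] cs) := by
  induction cs with
  | nil => exact Tr.zero8
  | cons c cs ih =>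
    exact (one_tr.smul c).add (tr_t.mul ih (by rw [polL_length]; rfl))
      (by rw [mulL_length, smulL_length]; rfl)

lemma evQ_Kp (j : Fin 4) : evQ (Kp j 0) = evLt (kapL j 0) := by
  fin_cases j <;>
  simp only [Kp, Finset.sum_range_succ, Finset.sum_range_zero, map_add, map_mul, map_pow, evQ_C,
    evQ_X, kap, kapL, List.getD_cons_zero, List.getD_cons_succ, List.getD_nil, zero_add, evLt,
    Fin.zero_eta, Fin.mk_one, Fin.reduceFinMk] <;>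
  push_cast <;> ring

lemma pent_coeff (n : ℕ) (hn : n < 8) : PowerSeries.coeff n Eu =
    ([1, -1, -1, 0, 0, 1, 0, 1] : List ℚ).getD n 0 := by
  have h0 := PowerSeries.coeff_pentagonalSeries_pentagonal ℚ 0
  have h1 := PowerSeries.coeff_pentagonalSeries_pentagonal ℚ 1
  have h2 := PowerSeries.coeff_pentagonalSeries_pentagonal ℚ (-1)
  have h3 := PowerSeries.coeff_pentagonalSeries_pentagonal ℚ 2
  have h4 := PowerSeries.coeff_pentagonalSeries_pentagonal ℚ (-2)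
  rw [show pentagonal 0 = 0 by decide] at h0
  rw [show pentagonal 1 = 1 by decide] at h1
  rw [show pentagonal (-1) = 2 by decide] at h2
  rw [show pentagonal 2 = 5 by decide] at h3
  rw [show pentagonal (-2) = 7 by decide] at h4
  have hz : ∀ m : ℕ, (m = 3 ∨ m = 4 ∨ m = 6) → PowerSeries.coeff m (PowerSeries.pentagonalSeries ℚ) = 0 := by
    intro m hm
    apply PowerSeries.coeff_pentagonalSeries_eq_zero
    rintro ⟨k, hk⟩
    have h6 := two_mul_natCast_pentagonal k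
    rw [hk] at h6
    have hm6 : (m : ℤ) ≤ 6 := by omega
    have h8 : k ≤ 3 := by
      by_contra hc
      have h10 : 0 ≤ (k - 4) * (3 * k - 1) := mul_nonneg (by omega) (by omega)
      nlinarith
    have h9 : -3 ≤ k := by
      by_contra hc
      have h10 : 0 ≤ (-4 - k) * (1 - 3 * k) := mul_nonneg (by omega) (by omega)
      nlinarith
    rcases hm with rfl | rfl | rfl <;> interval_cases k <;> norm_num at h6
  unfold Eu
  interval_cases n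
  · rw [h0]; rfl
  · rw [h1]; rfl
  · rw [h2]; rfl
  · rw [hz 3 (by norm_num)]; rfl
  · rw [hz 4 (by norm_num)]; rfl
  · rw [h3]; rfl
  · rw [hz 6 (by norm_num)]; rfl
  · rw [h4]; rfl

lemma th_coeff_def (r : Fin 4) (k : ℤ) : (th r).coeff k =
    ∑ m ∈ (Finset.Icc (-k) k).filter (fun m : ℤ => ((2 : ℕ) : ℤ) * m ^ 2 = k),
      (if m % 6 = ((r : ℕ) : ℤ) then (1 : ℚ) else 0) := rfl

lemma th_supp (r : Fin 4) (k : ℤ) (h : (th r).coeff k ≠ 0) :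
    ∃ a : ℕ, k = 2 * ((r : ℕ) : ℤ) ^ 2 + 24 * (a : ℤ) := by
  rw [th_coeff_def] at h
  obtain ⟨m, hm, hm'⟩ := Finset.exists_ne_zero_of_sum_ne_zero h
  rw [Finset.mem_filter] at hm
  have h6 : m % 6 = ((r : ℕ) : ℤ) := by
    by_contra hc
    exact hm' (if_neg hc)
  obtain ⟨b, hb⟩ : ∃ b, b = m / 6 := ⟨_, rfl⟩
  have h7 : m = 6 * b + ((r : ℕ) : ℤ) := by omega
  have hk : k = 2 * ((r : ℕ) : ℤ) ^ 2 + 24 * (3 * b ^ 2 + b * ((r : ℕ) : ℤ)) := by
    rw [← hm.2, h7]; push_cast; ring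
  have hr : (0 : ℤ) ≤ ((r : ℕ) : ℤ) ∧ ((r : ℕ) : ℤ) ≤ 3 := ⟨by omega, by omega⟩
  have h8 : 0 ≤ 3 * b ^ 2 + b * ((r : ℕ) : ℤ) := by
    generalize ((r : ℕ) : ℤ) = ρ at hr
    rcases le_or_gt 0 b with h | h
    · have := mul_nonneg h hr.1
      positivity
    · have h9 : 0 ≤ (-b) * (3 * (-b) - ρ) := mul_nonneg (by omega) (by omega)
      nlinarith
  obtain ⟨a, ha⟩ := Int.eq_ofNat_of_zero_le h8
  exact ⟨a, by rw [hk, ha]⟩

/-- lists of the theta series -/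
def tL : Fin 4 → List ℚ
  | 0 => [1, 0, 0, 2, 0, 0, 0, 0]
  | 1 => [1, 0, 1, 0, 1, 0, 0, 0]
  | 2 => [1, 1, 0, 0, 0, 1, 0, 0]
  | 3 => [2, 0, 0, 0, 0, 0, 2, 0]

/-- coefficients of `th r` computed by a sum over a short interval -/
lemma th_coeff_short (r : Fin 4) (n : ℕ) (hn : n < 8) :
    (th r).coeff (2 * ((r : ℕ) : ℤ) ^ 2 + 24 * (n : ℤ)) =
    ∑ m ∈ (Finset.Icc (-9 : ℤ) 9).filter
      (fun m : ℤ => 2 * m ^ 2 = 2 * ((r : ℕ) : ℤ) ^ 2 + 24 * (n : ℤ)),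
      (if m % 6 = ((r : ℕ) : ℤ) then (1 : ℚ) else 0) := by
  rw [th_coeff_def]
  have hr : (0 : ℤ) ≤ ((r : ℕ) : ℤ) ∧ ((r : ℕ) : ℤ) ≤ 3 := ⟨by omega, by omega⟩
  generalize ((r : ℕ) : ℤ) = ρ at hr
  have hs : (Finset.Icc (-(2 * ρ ^ 2 + 24 * (n : ℤ))) (2 * ρ ^ 2 + 24 * (n : ℤ))).filter
      (fun m : ℤ => ((2 : ℕ) : ℤ) * m ^ 2 = 2 * ρ ^ 2 + 24 * (n : ℤ)) =
      (Finset.Icc (-9 : ℤ) 9).filter (fun m : ℤ => 2 * m ^ 2 = 2 * ρ ^ 2 + 24 * (n : ℤ)) := by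
    ext m
    simp only [Finset.mem_filter, Finset.mem_Icc, Nat.cast_ofNat]
    constructor
    · rintro ⟨-, h⟩
      refine ⟨?_, h⟩
      have h1 : m ^ 2 ≤ 93 := by
        have : (n : ℤ) ≤ 7 := by omega
        nlinarith
      constructor <;> nlinarith
    · rintro ⟨-, h⟩
      refine ⟨?_, h⟩
      rw [← h]
      constructor
      · nlinarith [sq_nonneg m, sq_nonneg (m + 1)]
      · nlinarith [sq_nonneg m, sq_nonneg (m - 1)]
  rw [hs]

lemma th_list (r : Fin 4) (n : ℕ) (hn : n < 8) :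
    (th r).coeff (2 * ((r : ℕ) : ℤ) ^ 2 + 24 * (n : ℤ)) = (tL r).getD n 0 := by
  rw [th_coeff_short r n hn]
  fin_cases r <;> interval_cases n <;> decide +kernel

lemma tr_th (r : Fin 4) : ∃ f, th r = wp (2 * ((r : ℕ) : ℤ) ^ 2) * f ∧ Tr f (tL r) := by
  refine ⟨ι (PowerSeries.mk fun n => (th r).coeff (2 * ((r : ℕ) : ℤ) ^ 2 + 24 * (n : ℤ))), ?_,
    _, rfl, fun n hn => ?_⟩
  · ext k
    rw [wp_mul_coeff]
    by_cases h : (24 : ℤ) ∣ k - 2 * ((r : ℕ) : ℤ) ^ 2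
    · obtain ⟨a, ha⟩ := h
      rw [ha]
      rcases lt_or_ge a 0 with h | h
      · rw [ι_coeff_neg _ _ (by omega)]
        by_contra hc
        obtain ⟨b, hb⟩ := th_supp r k hc
        omega
      · obtain ⟨b, rfl⟩ := Int.eq_ofNat_of_zero_le h
        rw [ι_coeff_mul, PowerSeries.coeff_mk, ← ha]
        congr 1; ring
    · rw [ι_coeff_of_not_dvd _ _ h]
      by_contra hc
      obtain ⟨b, hb⟩ := th_supp r k hc
      exact h ⟨b, by omega⟩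
  · rw [PowerSeries.coeff_mk]
    refine th_list r n ?_
    have : (tL r).length = 8 := by fin_cases r <;> rfl
    omega

lemma tr_e6 : Tr e6 [1, -504, -16632, -122976, -532728, -1575504, -4058208, -8471232] := by
  refine ⟨E6, rfl, fun n hn => ?_⟩
  obtain ⟨h1, h2, h3, h4, h5, h6, h7⟩ := sig_vals 5
  simp only [List.length_cons, List.length_nil] at hn
  interval_cases n <;> simp [E6, h2, h3, h4, h5, h6, h7] <;> try norm_num

/-- list of `p` -/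
def Lp : List ℚ := [1, -24, -72, -96, -168, -144, -288, -192]
/-- list of `e4` -/
def Le4 : List ℚ := [1, 240, 2160, 6720, 17520, 30240, 60480, 82560]
/-- list of `e6` -/
def Le6 : List ℚ := [1, -504, -16632, -122976, -532728, -1575504, -4058208, -8471232]

/-- lists of `Φ_1` -/
def f1L (a : ℚ) (f : List ℚ) : List ℚ :=
  addL (addL (smulL (a / 24) f) (thL f)) (smulL (-1 / 24) (mulL Lp f))
/-- lists of `Φ_2` -/
def f2L (a : ℚ) (f g : List ℚ) : List ℚ :=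
  addL (addL (addL (smulL (a / 24) g) (thL g)) (smulL (-5 / 24) (mulL Lp g)))
    (smulL (-1 / 576) (mulL Le4 f))
/-- lists of `Φ_3` -/
def f3L (a : ℚ) (f g h : List ℚ) : List ℚ :=
  addL (addL (addL (addL (smulL (a / 24) h) (thL h)) (smulL (-9 / 24) (mulL Lp h)))
    (smulL (-1 / 18) (mulL Le4 g))) (smulL (1 / 3456) (mulL Le6 f))

lemma θ_wp_mul (a : ℤ) (f : K) : θ (wp a * f) = wp a * (((a / 24 : ℚ) : K) * f + θ f) := by
  rw [θ_mul, θ_wp]; ring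

lemma tr_Φ (r : Fin 4) : ∃ f0 f1 f2 f3 : K,
    Φ0 r = wp (2 * ((r : ℕ) : ℤ) ^ 2) * f0 ∧ Φ1 r = wp (2 * ((r : ℕ) : ℤ) ^ 2) * f1 ∧
    Φ2 r = wp (2 * ((r : ℕ) : ℤ) ^ 2) * f2 ∧ Φ3 r = wp (2 * ((r : ℕ) : ℤ) ^ 2) * f3 ∧
    Tr f0 (tL r) ∧ Tr f1 (f1L ((2 * ((r : ℕ) : ℤ) ^ 2 : ℤ) : ℚ) (tL r)) ∧
    Tr f2 (f2L ((2 * ((r : ℕ) : ℤ) ^ 2 : ℤ) : ℚ) (tL r) (f1L ((2 * ((r : ℕ) : ℤ) ^ 2 : ℤ) : ℚ) (tL r))) ∧
    Tr f3 (f3L ((2 * ((r : ℕ) : ℤ) ^ 2 : ℤ) : ℚ) (tL r) (f1L ((2 * ((r : ℕ) : ℤ) ^ 2 : ℤ) : ℚ) (tL r))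
      (f2L ((2 * ((r : ℕ) : ℤ) ^ 2 : ℤ) : ℚ) (tL r) (f1L ((2 * ((r : ℕ) : ℤ) ^ 2 : ℤ) : ℚ) (tL r)))) := by
  obtain ⟨f0, h0, T0⟩ := tr_th r
  have hlen : (tL r).length = 8 := by fin_cases r <;> rfl
  generalize 2 * ((r : ℕ) : ℤ) ^ 2 = a at *
  generalize tL r = L at *
  have T1 : Tr (((a / 24 : ℚ) : K) * f0 + θ f0 + ((-1 / 24 : ℚ) : K) * (p * f0)) (f1L (a : ℚ) L) :=
    ((T0.smul _).add T0.theta (by rw [thL_length, smulL_length])).add
      ((tr_p.mul T0 hlen).smul _) (by simp [smulL_length, mulL_length, addL_length, hlen, Lp, Le4, Le6])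
  have e1 : Φ1 r = wp a * (((a / 24 : ℚ) : K) * f0 + θ f0 + ((-1 / 24 : ℚ) : K) * (p * f0)) := by
    rw [Φ1, Φ0, h0, θ_wp_mul]; push_cast; ring
  have hlen1 : (f1L (a : ℚ) L).length = 8 := by
    simp [f1L, smulL_length, addL_length, hlen]
  generalize (((a / 24 : ℚ) : K) * f0 + θ f0 + ((-1 / 24 : ℚ) : K) * (p * f0)) = f1 at T1 e1
  generalize f1L (a : ℚ) L = L1 at *
  have T2 : Tr (((a / 24 : ℚ) : K) * f1 + θ f1 + ((-5 / 24 : ℚ) : K) * (p * f1) +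
      ((-1 / 576 : ℚ) : K) * (e4 * f0)) (f2L (a : ℚ) L L1) :=
    (((T1.smul _).add T1.theta (by rw [thL_length, smulL_length])).add
      ((tr_p.mul T1 hlen1).smul _) (by simp [smulL_length, mulL_length, addL_length, hlen1, Lp, Le4, Le6])).add
      ((tr_e4.mul T0 hlen).smul _) (by simp [smulL_length, mulL_length, addL_length, hlen1, Lp, Le4, Le6])
  have e2 : Φ2 r = wp a * (((a / 24 : ℚ) : K) * f1 + θ f1 + ((-5 / 24 : ℚ) : K) * (p * f1) +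
      ((-1 / 576 : ℚ) : K) * (e4 * f0)) := by
    rw [Φ2, e1, Φ0, h0, θ_wp_mul]; push_cast; ring
  have hlen2 : (f2L (a : ℚ) L L1).length = 8 := by
    simp [f2L, smulL_length, addL_length, hlen1]
  generalize (((a / 24 : ℚ) : K) * f1 + θ f1 + ((-5 / 24 : ℚ) : K) * (p * f1) +
      ((-1 / 576 : ℚ) : K) * (e4 * f0)) = f2 at T2 e2
  generalize f2L (a : ℚ) L L1 = L2 at *
  have T3 : Tr (((a / 24 : ℚ) : K) * f2 + θ f2 + ((-9 / 24 : ℚ) : K) * (p * f2) +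
      ((-1 / 18 : ℚ) : K) * (e4 * f1) + ((1 / 3456 : ℚ) : K) * (e6 * f0)) (f3L (a : ℚ) L L1 L2) :=
    ((((T2.smul _).add T2.theta (by rw [thL_length, smulL_length])).add
      ((tr_p.mul T2 hlen2).smul _) (by simp [smulL_length, mulL_length, addL_length, hlen2, Lp, Le4, Le6])).add
      ((tr_e4.mul T1 hlen1).smul _) (by simp [smulL_length, mulL_length, addL_length, hlen2, Lp, Le4, Le6])).add
      ((tr_e6.mul T0 hlen).smul _) (by simp [smulL_length, mulL_length, addL_length, hlen2, Lp, Le4, Le6])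
  have e3 : Φ3 r = wp a * (((a / 24 : ℚ) : K) * f2 + θ f2 + ((-9 / 24 : ℚ) : K) * (p * f2) +
      ((-1 / 18 : ℚ) : K) * (e4 * f1) + ((1 / 3456 : ℚ) : K) * (e6 * f0)) := by
    rw [Φ3, e2, e1, Φ0, h0, θ_wp_mul]; push_cast; ring
  exact ⟨f0, f1, f2, _, h0, e1, e2, e3, T0, T1, T2, T3⟩

/-- list of `η(τ)/η(7τ)` without the power of `w` -/
def Lxi : List ℚ := mulL [1, -1, -1, 0, 0, 1, 0, 1] [1, 0, 0, 0, 0, 0, 0, 1]
/-- list of `z⁻¹` -/
def Lzi : List ℚ := [1, -4, 4, 16, -76, 136, 48, -964]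
/-- list of `Qp` -/
def LQ : List ℚ := addL (addL [1, 0, 0, 0, 0, 0, 0, 0]
  (smulL 13 [0, 1, 4, 14, 40, 105, 252, 574]))
  (smulL 49 (mulL [0, 1, 4, 14, 40, 105, 252, 574] [0, 1, 4, 14, 40, 105, 252, 574]))

lemma tr_eu : Tr eu [1, -1, -1, 0, 0, 1, 0, 1] :=
  ⟨Eu, rfl, fun n hn => pent_coeff n (by simpa using hn)⟩

lemma tr_Veu : Tr (V eu) [1, 0, 0, 0, 0, 0, 0, -1] := by
  refine ⟨PowerSeries.expand 7 (by norm_num) Eu, V_ι _, fun n hn => ?_⟩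
  simp only [List.length_cons, List.length_nil] at hn
  rw [PowerSeries.coeff_expand]
  have h0 := pent_coeff 0 (by norm_num)
  have h1 := pent_coeff 1 (by norm_num)
  interval_cases n
  · rw [if_pos (by norm_num), h0]; rfl
  · rw [if_neg (by norm_num)]; rfl
  · rw [if_neg (by norm_num)]; rfl
  · rw [if_neg (by norm_num)]; rfl
  · rw [if_neg (by norm_num)]; rfl
  · rw [if_neg (by norm_num)]; rfl
  · rw [if_neg (by norm_num)]; rfl
  · rw [if_pos (by norm_num), show 7 / 7 = 1 by norm_num, h1]; rfl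

lemma tr_Veui : Tr (V eu)⁻¹ [1, 0, 0, 0, 0, 0, 0, 1] :=
  tr_Veu.inv (by decide +kernel) (by decide) rfl (by decide +kernel)

lemma tr_xi : Tr (eu * (V eu)⁻¹) Lxi := tr_eu.mul tr_Veui rfl

lemma tr_zi : Tr z⁻¹ Lzi :=
  tr_z.inv (by decide +kernel) (by decide) rfl (by decide +kernel)

lemma tr_Q : Tr Qp LQ := by
  have h := (one_tr.add (tr_t.smul 13) rfl).add ((tr_t.mul tr_t rfl).smul 49) rfl
  have h2 : Qp = 1 + ((13 : ℚ) : K) * t + ((49 : ℚ) : K) * (t * t) := by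
    rw [Qp]; push_cast; ring
  rw [h2]; exact h

/-- lists of `gen j⁻¹` -/
def gL : Fin 4 → List ℚ
  | 0 => [1, 0, 0, 0, 0, 0, 0, 0]
  | 1 => Lzi
  | 2 => mulL LQ (mulL Lzi Lzi)
  | 3 => mulL (mulL LQ LQ) (mulL Lzi (mulL Lzi Lzi))

lemma tr_g (j : Fin 4) : Tr (gen j)⁻¹ (gL j) := by
  have hQ := Qp_ne
  have hz := z_ne
  fin_cases j
  · change Tr (1 : K)⁻¹ _
    rw [inv_one]
    exact one_tr
  · exact tr_zi
  · have h : Tr (Qp * (z⁻¹ * z⁻¹)) (gL 2) := tr_Q.mul (tr_zi.mul tr_zi rfl) rfl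
    have e : (gen 2)⁻¹ = Qp * (z⁻¹ * z⁻¹) := by
      change (z ^ 2 / Qp)⁻¹ = _
      field_simp
    change Tr (gen 2)⁻¹ _
    rw [e]; exact h
  · have h : Tr ((Qp * Qp) * (z⁻¹ * (z⁻¹ * z⁻¹))) (gL 3) :=
      (tr_Q.mul tr_Q rfl).mul (tr_zi.mul (tr_zi.mul tr_zi rfl) rfl) rfl
    have e : (gen 3)⁻¹ = (Qp * Qp) * (z⁻¹ * (z⁻¹ * z⁻¹)) := by
      have h3 : A2 = z ^ 3 / Qp ^ 2 := by rw [rel_z3]; field_simp
      change (A2)⁻¹ = _
      rw [h3]
      field_simp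
    change Tr (gen 3)⁻¹ _
    rw [e]; exact h

/-- lists of `K_{j0}` -/
def kL (j : Fin 4) : List ℚ :=
  mulL (mulL (mulL Lxi (mulL Lxi Lxi)) (polL [0, 1, 4, 14, 40, 105, 252, 574] (kapL j 0))) (gL j)

lemma gL_length (j : Fin 4) : (gL j).length = 8 := by
  fin_cases j <;> rfl

lemma tr_K (j : Fin 4) : ∃ k, Km j 0 = wp (-18) * k ∧ Tr k (kL j) := by
  refine ⟨((eu * (V eu)⁻¹) * ((eu * (V eu)⁻¹) * (eu * (V eu)⁻¹))) * evLt (kapL j 0) * (gen j)⁻¹,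
    ?_, ?_⟩
  · have h1 := eu_ne
    have h2 : V eu ≠ 0 := by
      intro h; exact eu_ne (Vm_injective 7 (by norm_num) (by rw [map_zero]; exact h))
    have h3 := gen_ne j
    have h4 := wp_ne_zero 24
    have h5 := wp_ne_zero 6
    rw [Km, evQ_Kp, x_eq, t_eq]
    have h6 : wp (-18) = wp 6 / wp 24 := by
      rw [div_eq_mul_inv, ← wp_neg, ← wp_add]; norm_num
    rw [h6]
    change wp 6 * (V eu / eu) * 1 * (wp 24 * (V eu / eu) ^ 4)⁻¹ * _ / _ = _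
    field_simp
  · refine ((tr_xi.mul (tr_xi.mul tr_xi rfl) rfl).mul (tr_evLt _) ?_).mul (tr_g j) ?_
    · rw [polL_length]; rfl
    · rw [gL_length]; rfl

/-- list of `Sv 0 r` -/
def sL (r : Fin 4) : List ℚ :=
  addL (addL (addL (mulL (kL 0) (tL r)) (mulL (kL 1) (f1L ((2 * ((r : ℕ) : ℤ) ^ 2 : ℤ) : ℚ) (tL r))))
    (mulL (kL 2) (f2L ((2 * ((r : ℕ) : ℤ) ^ 2 : ℤ) : ℚ) (tL r) (f1L ((2 * ((r : ℕ) : ℤ) ^ 2 : ℤ) : ℚ) (tL r)))))
    (mulL (kL 3) (f3L ((2 * ((r : ℕ) : ℤ) ^ 2 : ℤ) : ℚ) (tL r) (f1L ((2 * ((r : ℕ) : ℤ) ^ 2 : ℤ) : ℚ) (tL r))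
      (f2L ((2 * ((r : ℕ) : ℤ) ^ 2 : ℤ) : ℚ) (tL r) (f1L ((2 * ((r : ℕ) : ℤ) ^ 2 : ℤ) : ℚ) (tL r)))))

lemma tr_S (r : Fin 4) : ∃ f, Sv 0 r = wp (2 * ((r : ℕ) : ℤ) ^ 2 - 18) * f ∧ Tr f (sL r) := by
  obtain ⟨f0, f1, f2, f3, e0, e1, e2, e3, T0, T1, T2, T3⟩ := tr_Φ r
  obtain ⟨k0, a0, S0⟩ := tr_K 0
  obtain ⟨k1, a1, S1⟩ := tr_K 1
  obtain ⟨k2, a2, S2⟩ := tr_K 2
  obtain ⟨k3, a3, S3⟩ := tr_K 3
  have hlen : (tL r).length = 8 := by fin_cases r <;> rfl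
  have hk : ∀ j, (kL j).length = 8 := fun j => by simp [kL, mulL_length, Lxi]
  refine ⟨k0 * f0 + k1 * f1 + k2 * f2 + k3 * f3, ?_, ?_⟩
  · rw [Sv, Fin.sum_univ_four, a0, a1, a2, a3]
    change _ * _ * Φ0 r + _ * _ * Φ1 r + _ * _ * Φ2 r + _ * _ * Φ3 r = _
    rw [e0, e1, e2, e3, sub_eq_add_neg, wp_add]
    ring
  · refine (((S0.mul T0 ?_).add (S1.mul T1 ?_) ?_).add (S2.mul T2 ?_) ?_).add (S3.mul T3 ?_) ?_ <;>
      simp [mulL_length, addL_length, smulL_length, f1L, f2L, f3L, hlen, hk]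

theorem Sv_class (r : Fin 4) (e : ℤ) (h : ¬ (24 : ℤ) ∣ e - 6 - 2 * ((r : ℕ) : ℤ) ^ 2) :
    (Sv 0 r).coeff e = 0 := by
  obtain ⟨f, hf, F, rfl, -⟩ := tr_S r
  rw [hf, wp_mul_coeff, ι_coeff_of_not_dvd]
  intro h'
  apply h
  obtain ⟨c, hc⟩ := h'
  exact ⟨c - 1, by omega⟩

lemma Sv_coeff (r : Fin 4) (n : ℕ) (hn : n < 8) (e : ℤ)
    (he : e = 2 * ((r : ℕ) : ℤ) ^ 2 - 18 + 24 * (n : ℤ)) : (Sv 0 r).coeff e = (sL r).getD n 0 := by
  obtain ⟨f, hf, hT⟩ := tr_S r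
  rw [hf, wp_mul_coeff, he, add_sub_cancel_left]
  exact hT.coeff n (by simpa [sL, addL_length, mulL_length, kL, Lxi] using hn)

theorem Sv0_126 : (Sv 0 0).coeff 126 = 2 := by
  rw [Sv_coeff 0 6 (by norm_num) 126 (by norm_num)]
  decide +kernel
theorem Sv1_56 : (Sv 0 1).coeff 56 = -1 := by
  rw [Sv_coeff 1 3 (by norm_num) 56 (by norm_num)]
  decide +kernel
theorem Sv2_14 : (Sv 0 2).coeff 14 = 1 := by
  rw [Sv_coeff 2 1 (by norm_num) 14 (by norm_num)]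
  decide +kernel
theorem Sv3_0 : (Sv 0 3).coeff 0 = -1 := by
  rw [Sv_coeff 3 0 (by norm_num) 0 (by norm_num)]
  decide +kernel

end

end Pool.Agent.Lib.MP_fad775_nt
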