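import Mathlib
import Pool.Agent.Lib.MP_fad775_nt.KODE
import Pool.Agent.Lib.MP_fad775_nt.Gram
import Pool.Agent.Lib.MP_fad775_nt.Res

/-!
# MP_fad775_nt: the connection formula `(-1)^r V(Φ_l(3-r)) = ∑_j K_{jl} Φ_j(r)`
-/

namespace Pool.Agent.Lib.MP_fad775_nt

open HahnSeries

noncomputable section

lemma θΦv (l r : Fin 4) : θ (Φv l r) = ∑ i, Am i l * Φv i r + ((wt l : ℚ) : K) * p * Φv l r := by
  fin_cases l
  · simp only [Fin.sum_univ_four, Am, wt, Fin.zero_eta, Matrix.cons_val, Φv,
      zero_mul, zero_add, add_zero]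
    rw [θΦ0]; push_cast; ring
  · simp only [Fin.sum_univ_four, Am, wt, Fin.mk_one, Matrix.cons_val, Φv,
      zero_mul, zero_add, add_zero]
    rw [θΦ1]; push_cast; ring
  · simp only [Fin.sum_univ_four, Am, wt, Fin.reduceFinMk, Matrix.cons_val, Φv,
      zero_mul, zero_add, add_zero]
    rw [θΦ2]; push_cast; ring
  · simp only [Fin.sum_univ_four, Am, wt, Fin.reduceFinMk, Matrix.cons_val, Φv,
      zero_mul, zero_add, add_zero]
    rw [ode_Φ3]; push_cast; ring

lemma θSv (l r : Fin 4) : θ (Sv l r) = 7 * ∑ i, V (Am i l) * Sv i r +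
    7 * ((wt l : ℚ) : K) * V p * Sv l r := by
  have h1 : θ (Sv l r) = ∑ j, (θ (Km j l) + (∑ i, Am j i * Km i l) +
      ((wt j : ℚ) : K) * p * Km j l) * Φv j r := by
    rw [Sv, map_sum]
    simp only [θ_mul, θΦv, add_mul, mul_add, Finset.sum_add_distrib, Finset.mul_sum, Finset.sum_mul]
    rw [add_assoc]
    congr 1
    congr 1
    · rw [Finset.sum_comm]
      refine Finset.sum_congr rfl fun i _ => Finset.sum_congr rfl fun j _ => ?_
      ring
    · refine Finset.sum_congr rfl fun i _ => ?_
      ring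
  rw [h1]
  simp only [kode]
  simp only [Sv, add_mul, Finset.sum_add_distrib, Finset.mul_sum, Finset.sum_mul]
  congr 1
  · rw [Finset.sum_comm]
    refine Finset.sum_congr rfl fun i _ => Finset.sum_congr rfl fun j _ => ?_
    ring
  · refine Finset.sum_congr rfl fun i _ => ?_
    ring

lemma θVΦ (l r : Fin 4) : θ (V (Φv l r)) = 7 * ∑ i, V (Am i l) * V (Φv i r) +
    7 * ((wt l : ℚ) : K) * V p * V (Φv l r) := by
  rw [θ_V, θΦv]
  simp only [map_add, map_sum, map_mul, map_ratCast]
  ring

/-- sign -/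
def sgr (r : Fin 4) : K := ![1, -1, 1, -1] r

lemma θ_sg_mul (r : Fin 4) (f : K) : θ (sgr r * f) = sgr r * θ f := by
  fin_cases r
  · change θ (1 * f) = 1 * θ f
    rw [one_mul, one_mul]
  · change θ (-1 * f) = -1 * θ f
    rw [neg_one_mul, neg_one_mul, map_neg]
  · change θ (1 * f) = 1 * θ f
    rw [one_mul, one_mul]
  · change θ (-1 * f) = -1 * θ f
    rw [neg_one_mul, neg_one_mul, map_neg]

lemma coeff_sgr (r : Fin 4) (f : K) (n : ℤ) : (sgr r * f).coeff n =
    (if (r : ℕ) % 2 = 0 then 1 else -1) * f.coeff n := by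
  fin_cases r
  · change (1 * f).coeff n = _
    rw [one_mul]; norm_num
  · change (-1 * f).coeff n = _
    rw [neg_one_mul, coeff_neg]; norm_num
  · change (1 * f).coeff n = _
    rw [one_mul]; norm_num
  · change (-1 * f).coeff n = _
    rw [neg_one_mul, coeff_neg]; norm_num

/-- the difference -/
def df (r l : Fin 4) : K := sgr r * V (Φv l (Fin.rev r)) - Sv l r

lemma θdf (r l : Fin 4) : θ (df r l) = ∑ i, (7 * V (Am i l) +
    (if i = l then 7 * ((wt l : ℚ) : K) * V p else 0)) * df r i := by
  rw [df, map_sub, θ_sg_mul, θVΦ, θSv]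
  simp only [df, add_mul, Finset.sum_add_distrib, ite_mul, zero_mul, Finset.sum_ite_eq',
    Finset.mem_univ, if_true]
  simp only [mul_sub, Finset.sum_sub_distrib, Finset.mul_sum]
  simp only [mul_add, Finset.mul_sum]
  have h1 : ∀ i, sgr r * (7 * (V (Am i l) * V (Φv i (Fin.rev r)))) =
      7 * V (Am i l) * (sgr r * V (Φv i (Fin.rev r))) := fun i => by ring
  have h2 : ∀ i, 7 * (V (Am i l) * Sv i r) = 7 * V (Am i l) * Sv i r := fun i => by ring
  simp only [h1, h2]
  ring

/-- constant terms of the connection matrix -/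
def Ac : Fin 4 → Fin 4 → ℚ
  | 1, 0 => 1
  | 0, 1 => 1 / 576
  | 2, 1 => 1
  | 0, 2 => -1 / 3456
  | 1, 2 => 1 / 18
  | 3, 2 => 1
  | 1, 3 => 25 / 3456
  | 2, 3 => 25 / 576
  | _, _ => 0

lemma rc_mul_rat {f : K} {a : ℚ} (c : ℚ) (hf : RC f a) (g : K) (hg : g = (c : K) * f) :
    RC g (c * a) := by rw [hg]; exact (rc_rat c).mul hf

lemma rc_Am (i l : Fin 4) : RC (Am i l) (Ac i l) := by
  have z0 : RC (0 : K) 0 := ⟨reg_zero, ct_zero⟩
  have a01 : RC (e4 / 576) (1 / 576) :=
    (rc_mul_rat (1 / 576) rc_e4 _ (by push_cast; ring)).to (by norm_num)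
  have a02 : RC (-e6 / 3456) (-1 / 3456) :=
    (rc_mul_rat (-1 / 3456) rc_e6 _ (by push_cast; ring)).to (by norm_num)
  have a12 : RC (e4 / 18) (1 / 18) :=
    (rc_mul_rat (1 / 18) rc_e4 _ (by push_cast; ring)).to (by norm_num)
  have a13 : RC (25 * e6 / 3456) (25 / 3456) :=
    (rc_mul_rat (25 / 3456) rc_e6 _ (by push_cast; ring)).to (by norm_num)
  have a23 : RC (25 * e4 / 576) (25 / 576) :=
    (rc_mul_rat (25 / 576) rc_e4 _ (by push_cast; ring)).to (by norm_num)
  fin_cases i <;> fin_cases l
  · exact z0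
  · exact a01
  · exact a02
  · exact z0
  · exact rc_one
  · exact z0
  · exact a12
  · exact a13
  · exact z0
  · exact rc_one
  · exact z0
  · exact a23
  · exact z0
  · exact z0
  · exact rc_one
  · exact z0

lemma rc_VAm (i l : Fin 4) : RC (V (Am i l)) (Ac i l) :=
  ⟨(rc_Am i l).1.V, by rw [ct_V, (rc_Am i l).2]⟩

lemma rc_Vp : RC (V p) 1 := ⟨reg_Vp, ct_Vp⟩

lemma rc_M (i l : Fin 4) : RC (7 * V (Am i l) +
    (if i = l then 7 * ((wt l : ℚ) : K) * V p else 0))
    (7 * Ac i l + if i = l then 7 * wt l else 0) := by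
  refine ((rc_ofNat 7).mul (rc_VAm i l)).add ?_
  split_ifs
  · exact (((rc_ofNat 7).mul (rc_rat _)).mul rc_Vp).to (by norm_num)
  · exact ⟨reg_zero, ct_zero⟩

lemma th_coeff (r : Fin 4) : (th r).coeff 0 = (if r = 0 then 1 else 0) ∧
    (th r).coeff 2 = (if r = 1 then 1 else 0) ∧ (th r).coeff 8 = (if r = 2 then 1 else 0) ∧
    (th r).coeff 18 = (if r = 3 then 2 else 0) := by
  refine ⟨?_, ?_, ?_, ?_⟩ <;> unfold th Th <;>
    simp only [HahnSeries.ofSuppBddBelow_coeff] <;> revert r <;> decide +kernel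

/-- The connection formula. -/
theorem conn (r l : Fin 4) : sgr r * V (Φv l (Fin.rev r)) = Sv l r := by
  have h := ode_unique (df r) (fun l i => 7 * V (Am i l) +
    (if i = l then 7 * ((wt l : ℚ) : K) * V p else 0)) (fun l i => (rc_M i l).1) (θdf r) ?_ l
  · exact sub_eq_zero.mp h
  · intro e _ he
    simp only [(rc_M _ _).2] at he
    have h0 := he 0
    have h1 := he 1
    have h2 := he 2
    have h3 := he 3
    simp only [Fin.sum_univ_four, Ac, wt, Matrix.cons_val, mul_zero, zero_add] at h0 h1 h2 h3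
    simp only [if_true, show ((1 : Fin 4) = 0) = False by decide,
      show ((2 : Fin 4) = 0) = False by decide, show ((3 : Fin 4) = 0) = False by decide,
      show ((0 : Fin 4) = 1) = False by decide, show ((2 : Fin 4) = 1) = False by decide,
      show ((3 : Fin 4) = 1) = False by decide, show ((0 : Fin 4) = 2) = False by decide,
      show ((1 : Fin 4) = 2) = False by decide, show ((3 : Fin 4) = 2) = False by decide,
      show ((0 : Fin 4) = 3) = False by decide, show ((1 : Fin 4) = 3) = False by decide,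
      show ((2 : Fin 4) = 3) = False by decide, if_false, add_zero, zero_mul, zero_add] at h0 h1 h2 h3
    have hc0 : ((e : ℚ) = 0 ∨ (e : ℚ) = 14 ∨ (e : ℚ) = 56 ∨ (e : ℚ) = 126) → (df r 0).coeff e = 0 := by
      intro hcase
      have hcase' : e = 0 ∨ e = 14 ∨ e = 56 ∨ e = 126 := by
        rcases hcase with h | h | h | h
        · left; exact_mod_cast h
        · right; left; exact_mod_cast h
        · right; right; left; exact_mod_cast h
        · right; right; right; exact_mod_cast h
      have hth := th_coeff (Fin.rev r)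
      have hV : ∀ k : ℤ, (V (Φv 0 (Fin.rev r))).coeff (7 * k) = (th (Fin.rev r)).coeff k := by
        intro k
        rw [V_coeff_mul]; rfl
      rw [df, coeff_sub, coeff_sgr]
      rcases hcase' with rfl | rfl | rfl | rfl
      · rw [show (0 : ℤ) = 7 * 0 by norm_num, hV, hth.1]
        fin_cases r
        · have := Sv_class 0 0 (by norm_num)
          simp [this, Fin.rev]
        · have := Sv_class 1 0 (by norm_num)
          simp [this, Fin.rev]
        · have := Sv_class 2 0 (by norm_num)
          simp [this, Fin.rev]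
        · have := Sv3_0
          simp [this, Fin.rev]
      · rw [show (14 : ℤ) = 7 * 2 by norm_num, hV, hth.2.1]
        fin_cases r
        · have := Sv_class 0 14 (by norm_num)
          simp [this, Fin.rev]
        · have := Sv_class 1 14 (by norm_num)
          simp [this, Fin.rev]
        · have := Sv2_14
          simp [this, Fin.rev]
        · have := Sv_class 3 14 (by norm_num)
          simp [this, Fin.rev]
      · rw [show (56 : ℤ) = 7 * 8 by norm_num, hV, hth.2.2.1]
        fin_cases r
        · have := Sv_class 0 56 (by norm_num)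
          simp [this, Fin.rev]
        · have := Sv1_56
          simp [this, Fin.rev]
        · have := Sv_class 2 56 (by norm_num)
          simp [this, Fin.rev]
        · have := Sv_class 3 56 (by norm_num)
          simp [this, Fin.rev]
      · rw [show (126 : ℤ) = 7 * 18 by norm_num, hV, hth.2.2.2]
        fin_cases r
        · have := Sv0_126
          simp [this, Fin.rev]
        · have := Sv_class 1 126 (by norm_num)
          simp [this, Fin.rev]
        · have := Sv_class 2 126 (by norm_num)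
          simp [this, Fin.rev]
        · have := Sv_class 3 126 (by norm_num)
          simp [this, Fin.rev]
    obtain ⟨f0, g0⟩ : ∃ f0, (df r 0).coeff e = f0 := ⟨_, rfl⟩
    obtain ⟨f1, g1⟩ : ∃ f1, (df r 1).coeff e = f1 := ⟨_, rfl⟩
    obtain ⟨f2, g2⟩ : ∃ f2, (df r 2).coeff e = f2 := ⟨_, rfl⟩
    obtain ⟨f3, g3⟩ : ∃ f3, (df r 3).coeff e = f3 := ⟨_, rfl⟩
    rw [g0, g1] at h0
    rw [g0, g1, g2] at h1
    rw [g0, g1, g2, g3] at h2
    rw [g1, g2, g3] at h3
    rw [g0] at hc0
    generalize (e : ℚ) = E at *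
    have e1 : f1 = (E / 168 - 1 / 24) * f0 := by linear_combination (-1 / 7) * h0
    have e2 : f2 = (E / 168 - 5 / 24) * f1 - 1 / 576 * f0 := by linear_combination (-1 / 7) * h1
    have e3 : f3 = (E / 168 - 9 / 24) * f2 - 1 / 18 * f1 + 1 / 3456 * f0 := by
      linear_combination (-1 / 7) * h2
    have hp : (E * (E - 14) * (E - 56) * (E - 126)) * f0 = 0 := by
      rw [e3, e2, e1] at h3
      linear_combination (168 ^ 4 / 7) * h3
    have hf0 : f0 = 0 := by
      rcases mul_eq_zero.mp hp with h | h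
      · rcases mul_eq_zero.mp h with h | h
        · rcases mul_eq_zero.mp h with h | h
          · rcases mul_eq_zero.mp h with h | h
            · exact hc0 (Or.inl h)
            · exact hc0 (Or.inr (Or.inl (by linarith)))
          · exact hc0 (Or.inr (Or.inr (Or.inl (by linarith))))
        · exact hc0 (Or.inr (Or.inr (Or.inr (by linarith))))
      · exact h
    have hf1 : f1 = 0 := by rw [e1, hf0]; ring
    have hf2 : f2 = 0 := by rw [e2, hf0, hf1]; ring
    have hf3 : f3 = 0 := by rw [e3, hf0, hf1, hf2]; ring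
    intro k
    fin_cases k
    · exact g0.trans hf0
    · exact g1.trans hf1
    · exact g2.trans hf2
    · exact g3.trans hf3

end

end Pool.Agent.Lib.MP_fad775_nt
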