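import Mathlib
import Pool.Agent.Lib.MP_fad775_nt.Lat

/-!
# MP_fad775_nt: the iteration
-/

namespace Pool.Agent.Lib.MP_fad775_nt

open Polynomial

lemma U7.mul {x y : ℚ} (hx : U7 x) (hy : U7 y) : U7 (x * y) := by
  obtain ⟨m, hm, h1⟩ := hx
  obtain ⟨n, hn, h2⟩ := hy
  have hy0 : D7 0 y := U7.d0 ⟨n, hn, h2⟩
  have hm0 : D7 0 (m : ℚ) := D7_int (by simp)
  refine ⟨m * n, ?_, ?_⟩
  · intro h
    rcases (Int.Prime.dvd_mul' (p := 7) (by norm_num) h) with h | h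
    · exact hm h
    · exact hn h
  · have h3 := (h1.mul hy0).add ((hm0.mul h2).mono (show 1 ≤ 0 + 1 by norm_num))
    have e : (x - m) * y + m * (y - n) = x * y - ((m * n : ℤ) : ℚ) := by push_cast; ring
    rwa [e] at h3

lemma D7_one : D7 0 (1 : ℚ) := by
  have := D7_int (a := 0) (n := 1) (by simp)
  simpa using this

/-- The abstract iteration lemma. -/
theorem iter_lemma {E : Type*} [AddCommGroup E] [Module ℚ E] (u : E → E)
    (hadd : ∀ f g, u (f + g) = u f + u g) (hsmul : ∀ (c : ℚ) f, u (c • f) = c • u f)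
    (M N : E → Prop)
    (Nadd : ∀ f g, N f → N g → N (f + g)) (Nsmul : ∀ (c : ℚ) f, D7 0 c → N f → N (c • f))
    (hNM : ∀ f, N f → M (u f)) (v h : E) (hv : N v)
    (hMN : ∀ f, M f → ∃ c, D7 0 c ∧ ∃ s, N s ∧ u f = c • v + (7 : ℚ) • s)
    (huv : ∃ c, U7 c ∧ ∃ s, N s ∧ u (u v) = c • v + (7 : ℚ) • s)
    (hh : ∃ c, U7 c ∧ ∃ s, N s ∧ u h = c • v + (7 : ℚ) • s) (n : ℕ) :
    (∃ y, U7 y ∧ ∃ s, N s ∧ (u^[2 * n + 1]) h = y • v + (7 : ℚ) • s) ∧
    ∃ x, U7 x ∧ ∃ s, N s ∧ (u^[2 * n + 3]) h = x • (u^[2 * n + 1]) h + ((7 : ℚ) ^ (n + 1)) • s := by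
  have h70 : D7 0 (7 : ℚ) := by
    have := D7_int (a := 0) (n := 7) (by simp)
    simpa using this
  have hMN' : ∀ f, M f → N (u f) := by
    intro f hf
    obtain ⟨c, hc, s, hs, e⟩ := hMN f hf
    rw [e]
    exact Nadd _ _ (Nsmul _ _ hc hv) (Nsmul _ _ h70 hs)
  obtain ⟨x1, hx1, s1, hs1, e1⟩ := huv
  obtain ⟨ch, hch, s0, hs0, e0⟩ := hh
  have hneg : ∀ c : ℚ, D7 0 c → D7 0 (-c) := fun c hc => hc.neg
  have two_step : ∀ m, (u^[m + 2]) h = u (u ((u^[m]) h)) := by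
    intro m
    rw [Function.iterate_succ_apply', Function.iterate_succ_apply']
  induction n with
  | zero =>
    refine ⟨⟨ch, hch, s0, hs0, e0⟩, x1, hx1, (-x1) • s0 + ch • s1 + u (u s0), ?_, ?_⟩
    · exact Nadd _ _ (Nadd _ _ (Nsmul _ _ (hneg _ hx1.d0) hs0) (Nsmul _ _ hch.d0 hs1))
        (hMN' _ (hNM _ hs0))
    · have h1 : (u^[2 * 0 + 3]) h = u (u (u h)) := rfl
      have h2 : (u^[2 * 0 + 1]) h = u h := rfl
      rw [h1, h2, e0]
      simp only [hadd, hsmul, e1]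
      module
  | succ n ih =>
    obtain ⟨⟨y, hy, s', hs', ey⟩, x, hx, s, hs, ex⟩ := ih
    have hF : (u^[2 * (n + 1) + 1]) h = (y * x1) • v + (7 : ℚ) • (y • s1 + u (u s')) := by
      rw [show 2 * (n + 1) + 1 = (2 * n + 1) + 2 by ring, two_step, ey]
      simp only [hadd, hsmul, e1]
      module
    have hFN : N (y • s1 + u (u s')) := Nadd _ _ (Nsmul _ _ hy.d0 hs1) (hMN' _ (hNM _ hs'))
    have hyx := hy.mul hx1
    refine ⟨⟨y * x1, hyx, _, hFN, hF⟩, ?_⟩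
    obtain ⟨c, hc, s2, hs2, e2⟩ := hMN _ (hNM _ hs)
    have hinv := hyx.inv
    set w := (y * x1)⁻¹ with hw
    set s3 := y • s1 + u (u s') with hs3
    set a := (u^[2 * (n + 1) + 1]) h with ha
    have hv' : v = w • a + (-(7 * w)) • s3 := by
      rw [hF, smul_add, smul_smul, smul_smul, hw, inv_mul_cancel₀ hinv.2]
      module
    refine ⟨x + 7 ^ (n + 1) * (c * w), ?_, s2 + (-(c * w)) • s3, ?_, ?_⟩
    · refine hx.add ?_
      have := (D7_pow (n + 1)).mul (hc.mul hinv.1)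
      exact this.mono (by omega)
    · exact Nadd _ _ hs2 (Nsmul _ _ (hneg _ (by simpa using hc.mul hinv.1)) hFN)
    · have h1 : (u^[2 * (n + 1) + 3]) h = u (u ((u^[2 * n + 3]) h)) := by
        rw [show 2 * (n + 1) + 3 = (2 * n + 3) + 2 by ring, two_step]
      have h2 : a = u (u ((u^[2 * n + 1]) h)) := by
        rw [ha, show 2 * (n + 1) + 1 = (2 * n + 1) + 2 by ring, two_step]
      rw [h1, ex]
      simp only [hadd, hsmul]
      rw [← h2, e2, hv']
      module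

noncomputable section

/-- The operator -/
def 𝒰 (f : Fin 4 → K) (l : Fin 4) : K := ∑ j, U (f j * Km j l)

/-- the lattice `M_σ` -/
def MemN (f : Fin 4 → K) : Prop :=
  ∃ F : Fin 4 → ℚ[X], (∀ l k, D7 (eσ k) ((F l).coeff k)) ∧ ∀ l, f l = x * gen l * evQ (F l)

/-- the lattice `M_ρ` -/
def MemM (f : Fin 4 → K) : Prop :=
  ∃ F : Fin 4 → ℚ[X], (∀ l k, D7 (eρ l k) ((F l).coeff k)) ∧
    ∀ l, f l = x ^ 2 * gen l * evQ (F l)

/-- the vector `v` -/
def vv (l : Fin 4) : K := if l = 0 then x else 0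

lemma 𝒰_add (f g : Fin 4 → K) : 𝒰 (f + g) = 𝒰 f + 𝒰 g := by
  funext l
  simp only [𝒰, Pi.add_apply, add_mul, map_add, Finset.sum_add_distrib]

lemma 𝒰_smul (c : ℚ) (f : Fin 4 → K) : 𝒰 (c • f) = c • 𝒰 f := by
  funext l
  simp only [𝒰, Pi.smul_apply, Rat.smul_def, Finset.mul_sum]
  refine Finset.sum_congr rfl fun j _ => ?_
  rw [mul_assoc, U_ratCast_mul]

lemma MemN.add {f g : Fin 4 → K} (hf : MemN f) (hg : MemN g) : MemN (f + g) := by
  obtain ⟨F, hF, eF⟩ := hf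
  obtain ⟨G, hG, eG⟩ := hg
  refine ⟨F + G, fun l k => ?_, fun l => ?_⟩
  · rw [Pi.add_apply, coeff_add]; exact (hF l k).add (hG l k)
  · rw [Pi.add_apply, Pi.add_apply, eF, eG, map_add]; ring

lemma MemN.smul {f : Fin 4 → K} (c : ℚ) (hc : D7 0 c) (hf : MemN f) : MemN (c • f) := by
  obtain ⟨F, hF, eF⟩ := hf
  refine ⟨fun l => C c * F l, fun l k => ?_, fun l => ?_⟩
  · rw [coeff_C_mul]
    have := hc.mul (hF l k)
    rwa [zero_add] at this
  · rw [Pi.smul_apply, Rat.smul_def, eF, map_mul, evQ_C]; ring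

/-- the polynomials describing `𝒰` on `M_ρ` -/
def T3 (F : Fin 4 → ℚ[X]) (l : Fin 4) : ℚ[X] :=
  ∑ j, ∑ k ∈ (F j).support, C ((F j).coeff k) * H3 j l k
/-- the polynomials describing `𝒰` on `M_σ` -/
def T2 (F : Fin 4 → ℚ[X]) (l : Fin 4) : ℚ[X] :=
  ∑ j, ∑ k ∈ (F j).support, C ((F j).coeff k) * H2 j l k

lemma 𝒰_T3 (f : Fin 4 → K) (F : Fin 4 → ℚ[X]) (h : ∀ l, f l = x ^ 2 * gen l * evQ (F l))
    (l : Fin 4) : 𝒰 f l = x * gen l * evQ (T3 F l) := by
  rw [𝒰, T3, map_sum, Finset.mul_sum]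
  refine Finset.sum_congr rfl fun j _ => ?_
  rw [h j, evQ_sum, Finset.mul_sum, Finset.sum_mul, map_sum, map_sum, Finset.mul_sum]
  refine Finset.sum_congr rfl fun k _ => ?_
  rw [show x ^ 2 * gen j * (((F j).coeff k : ℚ) * t ^ k) * Km j l =
    (((F j).coeff k : ℚ) : K) * (x ^ 2 * gen j * t ^ k * Km j l) by ring, U_ratCast_mul, U_K3,
    map_mul, evQ_C]
  ring

lemma 𝒰_T2 (f : Fin 4 → K) (F : Fin 4 → ℚ[X]) (h : ∀ l, f l = x * gen l * evQ (F l))
    (l : Fin 4) : 𝒰 f l = x ^ 2 * gen l * evQ (T2 F l) := by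
  rw [𝒰, T2, map_sum, Finset.mul_sum]
  refine Finset.sum_congr rfl fun j _ => ?_
  rw [h j, evQ_sum, Finset.mul_sum, Finset.sum_mul, map_sum, map_sum, Finset.mul_sum]
  refine Finset.sum_congr rfl fun k _ => ?_
  rw [show x * gen j * (((F j).coeff k : ℚ) * t ^ k) * Km j l =
    (((F j).coeff k : ℚ) : K) * (x * gen j * t ^ k * Km j l) by ring, U_ratCast_mul, U_K2,
    map_mul, evQ_C]
  ring

lemma 𝒰_NM (f : Fin 4 → K) (hf : MemN f) : MemM (𝒰 f) := by
  obtain ⟨F, hF, eF⟩ := hf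
  refine ⟨T2 F, fun l i => ?_, 𝒰_T2 f F eF⟩
  rw [T2, finset_sum_coeff]
  refine D7.sum fun j _ => ?_
  rw [finset_sum_coeff]
  refine D7.sum fun k _ => ?_
  rw [coeff_C_mul]
  exact H2_bound j l k i _ (hF j k)

/-- residues -/
def r3 (j l : Fin 4) : ℚ := kap j l 0 * ((winL l 5).getD 1 0 : ℤ) +
  kap j l 1 * ((winL l 2).getD 0 0 : ℤ) + kap j l 2 * ((winL l 6).getD 1 0 : ℤ)

/-- residues -/
def r2 (j l : Fin 4) : ℚ := kap j l 0 * ((winL l 4).getD 1 0 : ℤ) +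
  kap j l 1 * ((winL l 1).getD 0 0 : ℤ) + kap j l 2 * ((winL l 5).getD 1 0 : ℤ) +
  kap j l 3 * ((winL l 2).getD 0 0 : ℤ) + kap j l 4 * ((winL l 6).getD 1 0 : ℤ)

lemma D7_mod {a b : ℤ} (h : a ≡ b [ZMOD 7]) (c : ℚ) (hc : D7 0 c) : D7 1 (c * a - c * b) := by
  have h1 : D7 1 ((a - b : ℤ) : ℚ) := D7_int (by
    rw [pow_one]; exact Int.modEq_iff_dvd.mp h.symm)
  have := hc.mul h1
  push_cast at this
  rwa [mul_sub] at this

lemma kap_d0 (j l : Fin 4) (m : ℕ) : D7 0 (kap j l m) := by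
  rcases Nat.lt_or_ge m 10 with h | h
  · exact (kap_val j l m h).mono (Nat.zero_le _)
  · have : kap j l m = 0 := by
      apply List.getD_eq_default
      refine le_trans ?_ h
      fin_cases j <;> fin_cases l <;> decide
    rw [this]; exact D7_zero 0

lemma H3_mod (j l : Fin 4) : D7 1 ((H3 j l 0).coeff 0 - r3 j l) := by
  have h := P_val3 l
  have h1 : (H3 j l 0).coeff 0 = kap j l 0 * ((P l 5).coeff 1 : ℤ) +
      kap j l 1 * ((P l 9).coeff 2 : ℤ) + kap j l 2 * ((P l 13).coeff 3 : ℤ) := by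
    rw [H3_coeff]
    simp only [Finset.sum_range_succ, Finset.sum_range_zero, zero_add, mul_zero]
    have e3 := (P_bound l (4 * 3 + 5) (3 + 1)).1 (by norm_num)
    have e4 := (P_bound l (4 * 4 + 5) (4 + 1)).1 (by norm_num)
    have e5 := (P_bound l (4 * 5 + 5) (5 + 1)).1 (by norm_num)
    have e6 := (P_bound l (4 * 6 + 5) (6 + 1)).1 (by norm_num)
    have e7 := (P_bound l (4 * 7 + 5) (7 + 1)).1 (by norm_num)
    have e8 := (P_bound l (4 * 8 + 5) (8 + 1)).1 (by norm_num)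
    have e9 := (P_bound l (4 * 9 + 5) (9 + 1)).1 (by norm_num)
    rw [e3, e4, e5, e6, e7, e8, e9]
    norm_num
  rw [h1, h.1]
  have a1 := D7_mod h.2.1 _ (kap_d0 j l 1)
  have a2 := D7_mod h.2.2 _ (kap_d0 j l 2)
  have := a1.add a2
  rw [r3]
  convert this using 1
  ring

lemma H2_mod (j l : Fin 4) : D7 1 ((H2 j l 0).coeff 0 - r2 j l) := by
  have h := P_val2 l
  have h1 : (H2 j l 0).coeff 0 = kap j l 0 * ((P l 4).coeff 1 : ℤ) +
      kap j l 1 * ((P l 8).coeff 2 : ℤ) + kap j l 2 * ((P l 12).coeff 3 : ℤ) +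
      kap j l 3 * ((P l 16).coeff 4 : ℤ) + kap j l 4 * ((P l 20).coeff 5 : ℤ) := by
    rw [H2_coeff]
    simp only [Finset.sum_range_succ, Finset.sum_range_zero, zero_add, mul_zero]
    have e5 := (P_bound l (4 * 5 + 4) (5 + 1)).1 (by norm_num)
    have e6 := (P_bound l (4 * 6 + 4) (6 + 1)).1 (by norm_num)
    have e7 := (P_bound l (4 * 7 + 4) (7 + 1)).1 (by norm_num)
    have e8 := (P_bound l (4 * 8 + 4) (8 + 1)).1 (by norm_num)
    have e9 := (P_bound l (4 * 9 + 4) (9 + 1)).1 (by norm_num)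
    rw [e5, e6, e7, e8, e9]
    norm_num
  rw [h1, h.1]
  have a1 := D7_mod h.2.1 _ (kap_d0 j l 1)
  have a2 := D7_mod h.2.2.1 _ (kap_d0 j l 2)
  have a3 := D7_mod h.2.2.2.1 _ (kap_d0 j l 3)
  have a4 := D7_mod h.2.2.2.2 _ (kap_d0 j l 4)
  have := ((a1.add a2).add a3).add a4
  rw [r2]
  convert this using 1
  ring

lemma r3_2 : ∀ j : Fin 4, j ≠ 1 → D7 1 (r3 j 2) := by decide +kernel

lemma T3_bound (F : Fin 4 → ℚ[X]) (hF : ∀ l k, D7 (eρ l k) ((F l).coeff k)) (l : Fin 4) (i : ℕ) :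
    D7 (eτ l i) ((T3 F l).coeff i) := by
  rw [T3, finset_sum_coeff]
  refine D7.sum fun j _ => ?_
  rw [finset_sum_coeff]
  refine D7.sum fun k _ => ?_
  rw [coeff_C_mul]
  by_cases h : k ≠ 0 ∨ i ≠ 0 ∨ j = 1 ∨ l ≠ 2
  · exact H3_bound j l k i _ (hF j k) h
  · push Not at h
    obtain ⟨rfl, rfl, hj, rfl⟩ := h
    have h1 : D7 1 ((H3 j 2 0).coeff 0) := by
      have := (H3_mod j 2).add (r3_2 j hj)
      rwa [sub_add_cancel] at this
    have := ((hF j 0).mul h1)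
    exact this.mono (by simp [eτ])

/-- Claim: `𝒰 M_ρ ⊂ Z v + 7 M_σ`, with explicit coefficient. -/
lemma 𝒰_MN' (f : Fin 4 → K) (F : Fin 4 → ℚ[X]) (hF : ∀ l k, D7 (eρ l k) ((F l).coeff k))
    (h : ∀ l, f l = x ^ 2 * gen l * evQ (F l)) :
    ∃ s, MemN s ∧ 𝒰 f = ((T3 F 0).coeff 0) • vv + (7 : ℚ) • s := by
  set c := (T3 F 0).coeff 0 with hc
  let S : Fin 4 → ℚ[X] := fun l => C (1 / 7) * (T3 F l - C (if l = 0 then c else 0))
  refine ⟨fun l => x * gen l * evQ (S l), ⟨S, fun l k => ?_, fun l => rfl⟩, ?_⟩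
  · simp only [S]
    rw [coeff_C_mul, coeff_sub, coeff_C]
    have hb := T3_bound F hF l k
    rcases Nat.eq_zero_or_pos k with h0 | h0
    · subst h0
      simp only [if_true]
      by_cases hl : l = 0
      · subst hl
        simp only [if_true]
        rw [← hc, sub_self, mul_zero]
        exact D7_zero _
      · rw [if_neg hl, sub_zero]
        have : eτ l 0 = 1 + 0 := by simp [eτ, hl]
        rw [this] at hb
        have := hb.div
        rw [pow_one] at this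
        rw [one_div, inv_mul_eq_div]
        exact this
    · rw [if_neg (by omega), sub_zero]
      have : eτ l k = 1 + eσ k := by
        rw [eτ, eσ, if_neg (by omega)]; omega
      rw [this] at hb
      have := hb.div
      rw [pow_one] at this
      rw [one_div, inv_mul_eq_div]
      exact this
  · funext l
    rw [𝒰_T3 f F h l, Pi.add_apply, Pi.smul_apply, Pi.smul_apply, Rat.smul_def, Rat.smul_def]
    simp only [S]
    rw [map_mul, map_sub, evQ_C, evQ_C, vv]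
    by_cases hl : l = 0
    · subst hl
      rw [if_pos rfl, if_pos rfl]
      change x * 1 * _ = _ + _ * (x * 1 * _)
      push_cast
      ring
    · rw [if_neg hl, if_neg hl]
      push_cast
      ring

lemma 𝒰_MN (f : Fin 4 → K) (hf : MemM f) :
    ∃ c, D7 0 c ∧ ∃ s, MemN s ∧ 𝒰 f = c • vv + (7 : ℚ) • s := by
  obtain ⟨F, hF, eF⟩ := hf
  obtain ⟨s, hs, e⟩ := 𝒰_MN' f F hF eF
  exact ⟨_, (T3_bound F hF 0 0).mono (Nat.zero_le _), s, hs, e⟩

/-- polynomials of `v` -/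
def Fv (l : Fin 4) : ℚ[X] := if l = 0 then 1 else 0

lemma vv_eq (l : Fin 4) : vv l = x * gen l * evQ (Fv l) := by
  by_cases hl : l = 0
  · subst hl
    rw [vv, Fv, if_pos rfl, if_pos rfl, map_one]
    change x = x * 1 * 1
    ring
  · rw [vv, Fv, if_neg hl, if_neg hl, map_zero, mul_zero]

lemma memN_vv : MemN vv := by
  refine ⟨Fv, fun l k => ?_, vv_eq⟩
  rw [Fv]
  split_ifs
  · rw [coeff_one]
    split_ifs with h
    · subst h; exact D7_one
    · exact D7_zero _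
  · rw [coeff_zero]; exact D7_zero _

lemma T2_Fv (l : Fin 4) : T2 Fv l = H2 0 l 0 := by
  rw [T2, Fin.sum_univ_four]
  have h1 : Fv 1 = 0 := by simp [Fv]
  have h2 : Fv 2 = 0 := by simp [Fv]
  have h3 : Fv 3 = 0 := by simp [Fv]
  have h0 : Fv 0 = C 1 := by simp [Fv]
  rw [h1, h2, h3, h0]
  simp only [support_zero, Finset.sum_empty, add_zero]
  rw [support_C (by norm_num)]
  simp

/-- coefficient of `v` modulo 7 -/
lemma T3_mod (F : Fin 4 → ℚ[X]) (hF : ∀ l k, D7 (eρ l k) ((F l).coeff k)) :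
    D7 1 ((T3 F 0).coeff 0 - ((F 0).coeff 0 * r3 0 0 + (F 2).coeff 0 * r3 2 0 +
      (F 3).coeff 0 * r3 3 0)) := by
  have key : ∀ j : Fin 4, D7 1 ((∑ k ∈ (F j).support, C ((F j).coeff k) * H3 j 0 k).coeff 0 -
      (if j = 1 then 0 else (F j).coeff 0 * r3 j 0)) := by
    intro j
    have hH : ∀ k, D7 0 ((H3 j 0 k).coeff 0) := by
      intro k
      rw [H3_coeff]
      refine D7.sum fun m _ => ?_
      have := (kap_d0 j 0 m).mul (D7_int (a := 0)
        (n := (P 0 (4 * (k + m) + 5)).coeff (0 + (k + m) + 1)) (by simp))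
      exact this
    rw [finset_sum_coeff]
    have h1 : ∑ k ∈ (F j).support, (C ((F j).coeff k) * H3 j 0 k).coeff 0 =
        ∑ k ∈ insert 0 (F j).support, (C ((F j).coeff k) * H3 j 0 k).coeff 0 := by
      apply Finset.sum_subset (Finset.subset_insert _ _)
      intro k hk hk'
      rw [mem_support_iff, not_not] at hk'
      rw [hk']; simp
    rw [h1, ← Finset.add_sum_erase _ _ (Finset.mem_insert_self 0 _), add_sub_right_comm]
    refine D7.add ?_ (D7.sum fun k hk => ?_)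
    · rw [coeff_C_mul]
      split_ifs with hj
      · subst hj
        rw [sub_zero]
        have h2 := hF 1 0
        have h3 : eρ 1 0 = 1 := rfl
        rw [h3] at h2
        exact (h2.mul (hH 0))
      · rw [← mul_sub]
        have h2 := (hF j 0).mono (Nat.zero_le _)
        have := h2.mul (H3_mod j 0)
        rwa [zero_add] at this
    · rw [coeff_C_mul]
      have hk0 : k ≠ 0 := (Finset.mem_erase.mp hk).1
      have h2 := hF j k
      rw [eρ, if_neg hk0] at h2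
      exact ((h2.mono (show 1 ≤ k by omega)).mul (hH k))
  have := (((key 0).add (key 1)).add (key 2)).add (key 3)
  rw [T3, Fin.sum_univ_four, coeff_add, coeff_add, coeff_add]
  convert this using 1
  simp only [if_true, show ((0 : Fin 4) = 1) = False by decide, show ((2 : Fin 4) = 1) = False by decide,
    show ((3 : Fin 4) = 1) = False by decide, if_false]
  ring

lemma 𝒰𝒰v : ∃ c, U7 c ∧ ∃ s, MemN s ∧ 𝒰 (𝒰 vv) = c • vv + (7 : ℚ) • s := by
  obtain ⟨F, hF, eF⟩ : ∃ F : Fin 4 → ℚ[X], (∀ l k, D7 (eρ l k) ((F l).coeff k)) ∧ 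
      F = fun l => H2 0 l 0 := by
    refine ⟨fun l => H2 0 l 0, fun l k => ?_, rfl⟩
    have := H2_bound 0 l 0 k 1 D7_one
    rwa [one_mul] at this
  have h1 : ∀ l, 𝒰 vv l = x ^ 2 * gen l * evQ (F l) := by
    intro l
    rw [eF, 𝒰_T2 vv Fv vv_eq l, T2_Fv]
  obtain ⟨s, hs, e⟩ := 𝒰_MN' (𝒰 vv) F hF h1
  refine ⟨_, ?_, s, hs, e⟩
  have h2 := T3_mod F hF
  set c := (T3 F 0).coeff 0
  rw [eF] at h2
  simp only at h2
  have d0 : ∀ j, D7 0 (r3 j 0) := by decide +kernel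
  have a0 := (H2_mod 0 0).mul (d0 0)
  have a2 := (H2_mod 0 2).mul (d0 2)
  have a3 := (H2_mod 0 3).mul (d0 3)
  have h3 := ((h2.add a0).add a2).add a3
  have h4 : D7 1 ((r2 0 0 * r3 0 0 + r2 0 2 * r3 2 0 + r2 0 3 * r3 3 0) - ((6 : ℤ) : ℚ)) := by
    decide +kernel
  refine ⟨6, by norm_num, ?_⟩
  have h5 := h3.add h4
  convert h5 using 1
  ring

lemma 𝒰h (f : Fin 4 → K) (c : ℚ) (hc : U7 c)
    (hf : ∀ l, f l = if l = 3 then (c : K) * (x ^ 2 * A2) else 0) :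
    ∃ c', U7 c' ∧ ∃ s, MemN s ∧ 𝒰 f = c' • vv + (7 : ℚ) • s := by
  obtain ⟨F, eF⟩ : ∃ F : Fin 4 → ℚ[X], F = fun l => if l = 3 then C c else 0 := ⟨_, rfl⟩
  have hF : ∀ l k, D7 (eρ l k) ((F l).coeff k) := by
    intro l k
    rw [eF]
    by_cases hl : l = 3
    · subst hl
      simp only [if_true]
      rw [coeff_C]
      split_ifs with h
      · subst h; exact hc.d0
      · exact D7_zero _
    · simp only [hl, if_false, coeff_zero]; exact D7_zero _
  have h1 : ∀ l, f l = x ^ 2 * gen l * evQ (F l) := by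
    intro l
    rw [eF, hf l]
    by_cases hl : l = 3
    · subst hl
      simp only [if_true]
      rw [evQ_C]
      change _ = x ^ 2 * A2 * _
      ring
    · simp only [hl, if_false, map_zero, mul_zero]
  obtain ⟨s, hs, e⟩ := 𝒰_MN' f F hF h1
  refine ⟨_, ?_, s, hs, e⟩
  have h2 := T3_mod F hF
  set c' := (T3 F 0).coeff 0
  rw [eF] at h2
  simp only [show ((0 : Fin 4) = 3) = False by decide, show ((2 : Fin 4) = 3) = False by decide,
    if_false, if_true, coeff_zero, coeff_C_zero, zero_mul, zero_add] at h2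
  have h3 : U7 (r3 3 0) := ⟨1, by norm_num, by decide +kernel⟩
  have h4 := (hc.mul h3).add h2
  rwa [add_sub_cancel] at h4

end

end Pool.Agent.Lib.MP_fad775_nt
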