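import Mathlib
import Pool.Agent.Lib.MP_fad775_nt.VecK
import Pool.Agent.Lib.MP_fad775_nt.Iter
import Pool.Agent.Lib.MP_fad775_nt.Gram

/-!
# MP_fad775_nt: 7-adic extraction
-/

namespace Pool.Agent.Lib.MP_fad775_nt

open HahnSeries

section calculus

lemma Int7.mono {a b : ℕ} {f : K} (hf : Int7 a f) (h : b ≤ a) : Int7 b f :=
  fun n => (hf n).mono h

lemma Int7.add {a : ℕ} {f g : K} (hf : Int7 a f) (hg : Int7 a g) : Int7 a (f + g) := by
  intro n; rw [coeff_add]; exact (hf n).add (hg n)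

lemma Int7.neg {a : ℕ} {f : K} (hf : Int7 a f) : Int7 a (-f) := by
  intro n; rw [coeff_neg]; exact (hf n).neg

lemma Int7.sub {a : ℕ} {f g : K} (hf : Int7 a f) (hg : Int7 a g) : Int7 a (f - g) := by
  intro n; rw [coeff_sub]; exact (hf n).sub (hg n)

lemma Int7.mul {a b : ℕ} {f g : K} (hf : Int7 a f) (hg : Int7 b g) : Int7 (a + b) (f * g) := by
  intro n
  obtain ⟨c, hc⟩ := exists_low f
  obtain ⟨d, hd⟩ := exists_low g
  rw [coeff_mul_Icc hc hd]
  exact D7.sum fun i _ => (hf i).mul (hg _)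

lemma Int7.mul0 {a : ℕ} {f g : K} (hf : Int7 0 f) (hg : Int7 a g) : Int7 a (f * g) := by
  have := hf.mul hg
  rwa [zero_add] at this

lemma int7_zero (a : ℕ) : Int7 a 0 := by
  intro n; rw [coeff_zero]; exact D7_zero a

lemma int7_rat {a : ℕ} (c : ℚ) (hc : D7 a c) : Int7 a (c : K) := by
  intro n
  have := coeff_ratCast_mul c 1 n
  rw [mul_one] at this
  rw [this, coeff_one]
  split_ifs
  · rwa [mul_one]
  · rw [mul_zero]; exact D7_zero a

lemma int7_one : Int7 0 1 := by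
  have := int7_rat (a := 0) 1 D7_one
  simpa using this

lemma int7_ofNat (n : ℕ) [n.AtLeastTwo] : Int7 0 (ofNat(n) : K) := by
  have h : D7 0 ((n : ℤ) : ℚ) := D7_int (by simp)
  have h2 := int7_rat (a := 0) ((n : ℤ) : ℚ) h
  have h3 : Int7 0 ((n : ℕ) : K) := by simpa using h2
  exact h3

lemma Int7.pow {f : K} (hf : Int7 0 f) (n : ℕ) : Int7 0 (f ^ n) := by
  induction n with
  | zero => rw [pow_zero]; exact int7_one
  | succ n ih => rw [pow_succ]; exact ih.mul0 hf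

lemma Int7.sum {ι' : Type*} {s : Finset ι'} {a : ℕ} {f : ι' → K} (h : ∀ i ∈ s, Int7 a (f i)) :
    Int7 a (∑ i ∈ s, f i) := by
  intro n
  rw [HahnSeries.coeff_sum]
  exact D7.sum fun i hi => h i hi n

lemma Int7.V {a : ℕ} {f : K} (hf : Int7 a f) : Int7 a (V f) := by
  intro n
  by_cases h : (7 : ℤ) ∣ n
  · obtain ⟨m, rfl⟩ := h
    rw [V_coeff_mul]; exact hf m
  · rw [V_coeff_of_not_dvd _ _ h]; exact D7_zero a

lemma D7_24 : D7 0 ((1 : ℚ) / 24) := by decide +kernel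

lemma Int7.θ {a : ℕ} {f : K} (hf : Int7 a f) : Int7 a (θ f) := by
  intro n
  rw [θ_coeff]
  have h1 : D7 0 ((n : ℚ) / 24) := by
    have h : D7 0 (n : ℚ) := D7_int (by simp)
    have := h.mul D7_24
    rwa [mul_one_div] at this
  have := h1.mul (hf n)
  rwa [zero_add] at this

lemma int7_ι {a : ℕ} (F : PowerSeries ℚ) (h : ∀ n, D7 a (PowerSeries.coeff n F)) :
    Int7 a (ι F) := by
  intro n
  by_cases hd : (24 : ℤ) ∣ n
  · obtain ⟨k, rfl⟩ := hd
    rcases lt_or_ge k 0 with hk | hk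
    · rw [ι_coeff_neg _ _ (by omega)]; exact D7_zero a
    · obtain ⟨m, rfl⟩ := Int.eq_ofNat_of_zero_le hk
      rw [ι_coeff_mul]; exact h m
  · rw [ι_coeff_of_not_dvd _ _ hd]; exact D7_zero a

lemma int7_wp (k : ℤ) : Int7 0 (wp k) := by
  intro n
  rw [wp_coeff]
  split_ifs
  · exact D7_one
  · exact D7_zero 0

lemma Int7.inv {f : K} (hf : Int7 0 f) (hr : Reg f) (h1 : ct f = 1) : Int7 0 f⁻¹ := by
  obtain ⟨hr', hc'⟩ := reg_inv hr (by rw [h1]; norm_num)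
  rw [h1, inv_one] at hc'
  have hf0 : f ≠ 0 := by
    rintro rfl
    rw [ct_zero] at h1; norm_num at h1
  have hm : f * f⁻¹ = 1 := mul_inv_cancel₀ hf0
  set g := f⁻¹ with hg
  have key : ∀ n : ℕ, D7 0 (g.coeff n) := by
    intro n
    induction n using Nat.strong_induction_on with
    | _ n ih =>
      rcases Nat.eq_zero_or_pos n with h | h
      · subst h
        have : g.coeff ((0 : ℕ) : ℤ) = 1 := hc'
        rw [this]; exact D7_one
      · have h2 : (f * g).coeff (n : ℤ) = 0 := by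
          rw [hm, coeff_one, if_neg (by omega)]
        rw [coeff_mul_Icc hr hr', sub_zero] at h2
        have h3 : Finset.Icc (0 : ℤ) n = insert 0 (Finset.Icc 1 (n : ℤ)) := by
          ext i; simp only [Finset.mem_Icc, Finset.mem_insert]; omega
        rw [h3, Finset.sum_insert (by simp)] at h2
        have h4 : f.coeff 0 = 1 := h1
        rw [h4, one_mul, sub_zero] at h2
        have h5 : g.coeff (n : ℤ) = -∑ i ∈ Finset.Icc 1 (n : ℤ), f.coeff i * g.coeff (n - i) := by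
          linarith
        rw [h5]
        refine D7.neg (D7.sum fun i hi => ?_)
        rw [Finset.mem_Icc] at hi
        obtain ⟨m, hm'⟩ := Int.eq_ofNat_of_zero_le (show 0 ≤ (n : ℤ) - i by omega)
        rw [hm']
        have := (hf i).mul (ih m (by omega))
        rwa [zero_add] at this
  intro n
  rcases lt_or_ge n 0 with h | h
  · rw [hr' n h]; exact D7_zero 0
  · obtain ⟨m, rfl⟩ := Int.eq_ofNat_of_zero_le h
    exact key m

end calculus

section scalars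

lemma D7_intCast (n : ℤ) : D7 0 (n : ℚ) := D7_int (by simp)

lemma int7_p : Int7 0 p := by
  refine int7_ι _ fun n => ?_
  rw [E2, PowerSeries.coeff_mk]
  split_ifs
  · exact D7_one
  · have := D7_intCast (-24 * (ArithmeticFunction.sigma 1 n : ℤ))
    push_cast at this
    exact this

lemma int7_e4 : Int7 0 e4 := by
  refine int7_ι _ fun n => ?_
  rw [E4, PowerSeries.coeff_mk]
  split_ifs
  · exact D7_one
  · have := D7_intCast (240 * (ArithmeticFunction.sigma 3 n : ℤ))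
    push_cast at this
    exact this

lemma int7_e6 : Int7 0 e6 := by
  refine int7_ι _ fun n => ?_
  rw [E6, PowerSeries.coeff_mk]
  split_ifs
  · exact D7_one
  · have := D7_intCast (-504 * (ArithmeticFunction.sigma 5 n : ℤ))
    push_cast at this
    exact this

lemma int7_eu : Int7 0 eu := by
  refine int7_ι _ fun n => ?_
  by_cases h : n ∈ Set.range (fun j : ℤ => pentagonal j)
  · obtain ⟨j, rfl⟩ := h
    rw [Eu, PowerSeries.coeff_pentagonalSeries_pentagonal]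
    have := D7_intCast ((Int.negOnePow j : ℤˣ) : ℤ)
    simpa using this
  · rw [Eu, PowerSeries.coeff_pentagonalSeries_eq_zero]
    · exact D7_zero 0
    · exact h

lemma int7_eu_inv : Int7 0 eu⁻¹ := int7_eu.inv reg_eu ct_eu

lemma int7_η : Int7 0 η := (int7_wp 1).mul0 int7_eu

lemma int7_η_inv : Int7 0 η⁻¹ := by
  rw [η, mul_inv, ← wp_neg]
  exact (int7_wp _).mul0 int7_eu_inv

lemma int7_Veu_inv : Int7 0 (V eu)⁻¹ := int7_eu.V.inv reg_eu.V (by rw [ct_V, ct_eu])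

lemma int7_x : Int7 0 x := by
  rw [x, div_eq_mul_inv]
  exact int7_η.V.mul0 int7_η_inv

lemma int7_t : Int7 0 t := int7_x.pow 4

lemma int7_z : Int7 0 z := by
  rw [z_eq]
  exact (int7_rat _ (by decide +kernel)).mul0 (((int7_ofNat 7).mul0 int7_p.V).sub int7_p)

lemma int7_Qp : Int7 0 Qp :=
  (int7_one.add ((int7_ofNat 13).mul0 int7_t)).add ((int7_ofNat 49).mul0 (int7_t.pow 2))

lemma int7_w4 : Int7 0 w4 := by
  rw [w4, div_eq_mul_inv]
  exact (int7_z.pow 2).mul0 (int7_Qp.inv reg_Qp ct_Qp)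

lemma int7_A2 : Int7 0 A2 := by
  rw [A2_eq, div_eq_mul_inv, ← inv_pow]
  exact (int7_eu.pow 14).mul0 (int7_Veu_inv.pow 2)

lemma int7_gen (l : Fin 4) : Int7 0 (gen l) := by
  fin_cases l
  · exact int7_one
  · exact int7_z
  · exact int7_w4
  · exact int7_A2

lemma int7_evQ (F : Polynomial ℚ) (h : ∀ k, D7 0 (F.coeff k)) : Int7 0 (evQ F) := by
  rw [evQ_sum]
  exact Int7.sum fun i _ => (int7_rat _ (h i)).mul0 (int7_t.pow i)

theorem int7_memN (s : Fin 4 → K) (hs : MemN s) (l : Fin 4) : Int7 0 (s l) := by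
  obtain ⟨F, hF, e⟩ := hs
  rw [e]
  exact (int7_x.mul0 (int7_gen l)).mul0 (int7_evQ _ fun k => (hF l k).mono (Nat.zero_le _))

end scalars

section vectors

lemma int7_th (r : Fin 4) : Int7 0 (th r) := by
  intro n
  have : (th r).coeff n = ∑ m ∈ (Finset.Icc (-n) n).filter (fun m : ℤ => ((2 : ℕ) : ℤ) * m ^ 2 = n),
      (if m % 6 = (r : ℕ) then (1 : ℚ) else 0) := rfl
  rw [this]
  refine D7.sum fun m _ => ?_
  split_ifs
  · exact D7_one
  · exact D7_zero 0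

lemma int7_Φ0 (r : Fin 4) : Int7 0 (Φ0 r) := int7_th r

lemma Int7.divN {f : K} (hf : Int7 0 f) (c : ℚ) (hc : D7 0 c) : Int7 0 ((c : K) * f) :=
  (int7_rat _ hc).mul0 hf

lemma int7_Φ1 (r : Fin 4) : Int7 0 (Φ1 r) := by
  have e : Φ1 r = θ (Φ0 r) - ((1 / 24 : ℚ) : K) * p * Φ0 r := by
    rw [Φ1]; push_cast; ring
  rw [e]
  exact (int7_Φ0 r).θ.sub ((int7_p.divN _ (by decide +kernel)).mul0 (int7_Φ0 r))

lemma int7_Φ2 (r : Fin 4) : Int7 0 (Φ2 r) := by
  have e : Φ2 r = θ (Φ1 r) - ((5 / 24 : ℚ) : K) * p * Φ1 r - ((1 / 576 : ℚ) : K) * e4 * Φ0 r := by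
    rw [Φ2]; push_cast; ring
  rw [e]
  exact ((int7_Φ1 r).θ.sub ((int7_p.divN _ (by decide +kernel)).mul0 (int7_Φ1 r))).sub
    ((int7_e4.divN _ (by decide +kernel)).mul0 (int7_Φ0 r))

lemma int7_Φ3 (r : Fin 4) : Int7 0 (Φ3 r) := by
  have e : Φ3 r = θ (Φ2 r) - ((9 / 24 : ℚ) : K) * p * Φ2 r - ((1 / 18 : ℚ) : K) * e4 * Φ1 r
      + ((1 / 3456 : ℚ) : K) * e6 * Φ0 r := by
    rw [Φ3]; push_cast; ring
  rw [e]
  exact (((int7_Φ2 r).θ.sub ((int7_p.divN _ (by decide +kernel)).mul0 (int7_Φ2 r))).sub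
    ((int7_e4.divN _ (by decide +kernel)).mul0 (int7_Φ1 r))).add
    ((int7_e6.divN _ (by decide +kernel)).mul0 (int7_Φ0 r))

/-- the expansion of a vector in terms of the `Φ_j` -/
lemma expand (f : Fin 4 → K) (r : Fin 4) :
    f r = ((1 / 2 : ℚ) : K) * η⁻¹ ^ 2 * Φ0 r * J f Φ0
      + (((-1 / 6 : ℚ) : K) * η⁻¹ ^ 26 * e4 ^ 2 * Φ1 r + (-1 : K) * η⁻¹ ^ 26 * e6 * Φ2 r) * J f Φ1
      + ((-1 : K) * η⁻¹ ^ 26 * e6 * Φ1 r + (-6 : K) * η⁻¹ ^ 26 * e4 * Φ2 r) * J f Φ2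
      + ((3456 / 25 : ℚ) : K) * η⁻¹ ^ 26 * Φ3 r * J f Φ3 := by
  have hη := η_ne
  set k0 := ((1 / 2 : ℚ) : K) * η⁻¹ ^ 2 * J f Φ0 with hk0
  set k1 := ((-1 / 6 : ℚ) : K) * η⁻¹ ^ 26 * e4 ^ 2 * J f Φ1 + (-1 : K) * η⁻¹ ^ 26 * e6 * J f Φ2
    with hk1
  set k2 := (-1 : K) * η⁻¹ ^ 26 * e6 * J f Φ1 + (-6 : K) * η⁻¹ ^ 26 * e4 * J f Φ2 with hk2
  set k3 := ((3456 / 25 : ℚ) : K) * η⁻¹ ^ 26 * J f Φ3 with hk3
  have hJ : ∀ g : Fin 4 → K, J (fun r => f r - (k0 * Φ0 r + k1 * Φ1 r + k2 * Φ2 r + k3 * Φ3 r)) g =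
      J f g - (k0 * J Φ0 g + k1 * J Φ1 g + k2 * J Φ2 g + k3 * J Φ3 g) := by
    intro g; unfold J; ring
  have key : (fun r => f r - (k0 * Φ0 r + k1 * Φ1 r + k2 * Φ2 r + k3 * Φ3 r)) = 0 := by
    have hd := disc_eq
    apply J_nondeg
    · rw [hJ, gram00, Rot.J_comm Φ1 Φ0, gram01, Rot.J_comm Φ2 Φ0, gram02, Rot.J_comm Φ3 Φ0, gram03]
      rw [hk0]; push_cast; field_simp; ring
    · rw [hJ, gram01, gram11, Rot.J_comm Φ2 Φ1, gram12, Rot.J_comm Φ3 Φ1, gram13]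
      rw [hk1, hk2]; push_cast; field_simp
      linear_combination (-1728 * J f Φ1) * hd
    · rw [hJ, gram02, gram12, gram22, Rot.J_comm Φ3 Φ2, gram23]
      rw [hk1, hk2]; push_cast; field_simp
      linear_combination (-62208 * J f Φ2) * hd
    · rw [hJ, gram03, gram13, gram23, gram33]
      rw [hk3]; push_cast; field_simp; ring
  have := congrFun key r
  simp only [Pi.zero_apply] at this
  rw [hk0, hk1, hk2, hk3] at this
  linear_combination this

theorem extract (a : ℕ) (f : Fin 4 → K) (h : ∀ l, Int7 a (J f (Φv l))) (r : Fin 4) :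
    Int7 a (f r) := by
  have h0 : Int7 a (J f Φ0) := h 0
  have h1 : Int7 a (J f Φ1) := h 1
  have h2 : Int7 a (J f Φ2) := h 2
  have h3 : Int7 a (J f Φ3) := h 3
  have i2 := int7_η_inv.pow 2
  have i26 := int7_η_inv.pow 26
  have m1 : Int7 0 (-1 : K) := int7_one.neg
  have m6 : Int7 0 (-6 : K) := (int7_ofNat 6).neg
  rw [expand f r]
  refine (((Int7.mul0 ?_ h0).add (Int7.mul0 ?_ h1)).add (Int7.mul0 ?_ h2)).add (Int7.mul0 ?_ h3)
  · exact ((int7_rat _ (by decide +kernel)).mul0 i2).mul0 (int7_Φ0 r)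
  · exact ((((int7_rat _ (by decide +kernel)).mul0 i26).mul0 (int7_e4.pow 2)).mul0 (int7_Φ1 r)).add
      (((m1.mul0 i26).mul0 int7_e6).mul0 (int7_Φ2 r))
  · exact (((m1.mul0 i26).mul0 int7_e6).mul0 (int7_Φ1 r)).add
      (((m6.mul0 i26).mul0 int7_e4).mul0 (int7_Φ2 r))
  · exact ((int7_rat _ (by decide +kernel)).mul0 i26).mul0 (int7_Φ3 r)

end vectors

end Pool.Agent.Lib.MP_fad775_nt
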