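import Mathlib
import Pool.Agent.Lib.MP_fad775_nt.CPsi
import Pool.Agent.Lib.MP_fad775_nt.Jacobi

/-!
# MP_fad775_nt: Job D, part 1: the coefficients of the sixth power of the theta series
-/

namespace Pool.Agent.Lib.MP_fad775_nt

open PowerSeries Finset

noncomputable section

/-- six-tuples `m` with `Σ m_i (m_i + 1) = 2 n`, `Σ (2 m_i + 1) = s` -/
def S6 (n s : ℤ) : Set (Fin 6 → ℤ) :=
  {m | ∑ i, m i * (m i + 1) = 2 * n ∧ ∑ i, (2 * m i + 1) = s}

/-- the number of these tuples -/
def aa (n s : ℤ) : ℤ := ((S6 n s).ncard : ℤ)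

theorem mul_succ_nonneg (m : ℤ) : 0 ≤ m * (m + 1) := by
  rcases le_or_gt 0 m with h | h
  · positivity
  · nlinarith

theorem aa_neg (n s : ℤ) : aa n (-s) = aa n s := by
  unfold aa
  have h : S6 n (-s) = (fun m : Fin 6 → ℤ => fun i => -1 - m i) '' S6 n s := by
    ext m
    simp only [S6, Set.mem_ofPred_eq, Set.mem_image]
    constructor
    · rintro ⟨h1, h2⟩
      refine ⟨fun i => -1 - m i, ⟨?_, ?_⟩, ?_⟩
      · rw [← h1]; exact Finset.sum_congr rfl fun i _ => by ring
      · rw [← neg_neg s, ← h2, ← Finset.sum_neg_distrib]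
        exact Finset.sum_congr rfl fun i _ => by ring
      · funext i; ring
    · rintro ⟨m', ⟨h1, h2⟩, rfl⟩
      refine ⟨?_, ?_⟩
      · rw [← h1]; exact Finset.sum_congr rfl fun i _ => by ring
      · rw [← h2, ← Finset.sum_neg_distrib]
        exact Finset.sum_congr rfl fun i _ => by ring
  rw [h, Set.ncard_image_of_injective]
  intro a b hab
  funext i
  have := congrFun hab i
  simp only at this
  linarith

theorem aa_shift (n b : ℤ) : aa (n + b + 3) (2 * b + 12) = aa n (2 * b) := by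
  unfold aa
  have h : S6 (n + b + 3) (2 * b + 12) = (fun m : Fin 6 → ℤ => fun i => m i + 1) '' S6 n (2 * b) := by
    ext m
    simp only [S6, Set.mem_ofPred_eq, Set.mem_image]
    constructor
    · rintro ⟨h1, h2⟩
      refine ⟨fun i => m i - 1, ⟨?_, ?_⟩, ?_⟩
      · have e : ∀ i, (m i - 1) * (m i - 1 + 1) = m i * (m i + 1) - (2 * m i + 1) + 1 := by
          intro i; ring
        simp only [e]
        rw [Finset.sum_add_distrib, Finset.sum_sub_distrib, h1, h2]
        simp; ring
      · have e : ∀ i, 2 * (m i - 1) + 1 = (2 * m i + 1) - 2 := by intro i; ring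
        simp only [e]
        rw [Finset.sum_sub_distrib, h2]; simp
      · funext i; ring
    · rintro ⟨m', ⟨h1, h2⟩, rfl⟩
      refine ⟨?_, ?_⟩
      · have e : ∀ i, (m' i + 1) * (m' i + 1 + 1) = m' i * (m' i + 1) + (2 * m' i + 1) + 1 := by
          intro i; ring
        simp only [e]
        rw [Finset.sum_add_distrib, Finset.sum_add_distrib, h1, h2]
        simp; ring
      · have e : ∀ i, 2 * (m' i + 1) + 1 = (2 * m' i + 1) + 2 := by intro i; ring
        simp only [e]
        rw [Finset.sum_add_distrib, h2]; simp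
  rw [h, Set.ncard_image_of_injective]
  intro a b hab
  funext i
  have := congrFun hab i
  simp only at this
  linarith

/-- vanishing: `s² ≤ 48 n + 36` -/
theorem aa_zero {n s : ℤ} (h : 48 * n + 36 < s ^ 2) : aa n s = 0 := by
  unfold aa
  have : S6 n s = ∅ := by
    rw [Set.eq_empty_iff_forall_notMem]
    rintro m ⟨h1, h2⟩
    have h3 := sq_sum_le_card_mul_sum_sq (s := (Finset.univ : Finset (Fin 6)))
      (f := fun i => 2 * m i + 1)
    have e : ∀ i, (2 * m i + 1) ^ 2 = 4 * (m i * (m i + 1)) + 1 := by intro i; ring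
    simp only [e] at h3
    rw [h2, Finset.sum_add_distrib, ← Finset.mul_sum, h1] at h3
    simp at h3
    linarith
  rw [this]; simp

theorem aa_neg_left {n s : ℤ} (h : n < 0) : aa n s = 0 := by
  unfold aa
  have : S6 n s = ∅ := by
    rw [Set.eq_empty_iff_forall_notMem]
    rintro m ⟨h1, h2⟩
    have : 0 ≤ ∑ i, m i * (m i + 1) := Finset.sum_nonneg fun i _ => mul_succ_nonneg _
    linarith
  rw [this]; simp

theorem aa_odd {n s : ℤ} (h : ¬ 2 ∣ s) : aa n s = 0 := by
  unfold aa
  have : S6 n s = ∅ := by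
    rw [Set.eq_empty_iff_forall_notMem]
    rintro m ⟨h1, h2⟩
    apply h
    rw [← h2, Finset.sum_add_distrib, ← Finset.mul_sum]
    simp only [sum_const, card_univ, Fintype.card_fin, nsmul_eq_mul]
    exact dvd_add (dvd_mul_right _ _) (by norm_num)
  rw [this]; simp

/-- the truncated theta series -/
def thM (M : ℕ) : (LaurentPolynomial ℤ)⟦X⟧ :=
  ∑ m ∈ Icc (-(M : ℤ)) M, (X : (LaurentPolynomial ℤ)⟦X⟧) ^ tri m * C (LaurentPolynomial.T (2 * m + 1))

theorem coeff_thM (M n : ℕ) (h : n < M) : coeff n (thM M) = coeff n thetaSeries := by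
  unfold thM thetaSeries
  rw [map_sum, coeff_mk]
  have h1 : ∀ m : ℤ, coeff n ((X : (LaurentPolynomial ℤ)⟦X⟧) ^ tri m *
      C (LaurentPolynomial.T (2 * m + 1))) =
      if m * (m + 1) = 2 * (n : ℤ) then LaurentPolynomial.T (2 * m + 1) else 0 := by
    intro m
    rw [coeff_mul_C, coeff_X_pow]
    have h1 := tri_spec m
    by_cases h : n = tri m
    · rw [if_pos h, if_pos (by rw [← h1, h]), one_mul]
    · rw [if_neg h, if_neg (fun hc => h (by rw [← h1] at hc; omega)), zero_mul]
  rw [sum_congr rfl fun m _ => h1 m, ← sum_filter]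
  congr 1
  ext m
  simp only [mem_filter, mem_Icc]
  constructor
  · rintro ⟨_, h⟩
    refine ⟨⟨?_, ?_⟩, h⟩
    · by_contra hc; push Not at hc; nlinarith
    · by_contra hc; push Not at hc; nlinarith
  · rintro ⟨⟨h1, h2⟩, h⟩
    refine ⟨⟨?_, ?_⟩, h⟩
    · omega
    · omega

theorem coeff_thM_pow (M n : ℕ) (h : n < M) : coeff n (thM M ^ 6) = coeff n (thetaSeries ^ 6) := by
  have h1 : (X : (LaurentPolynomial ℤ)⟦X⟧) ^ (n + 1) ∣ thM M - thetaSeries := by
    rw [X_pow_dvd_iff]
    intro m hm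
    rw [map_sub, coeff_thM M m (by omega), sub_self]
  have h2 := h1.trans (sub_dvd_pow_sub_pow (thM M) thetaSeries 6)
  have h3 := (X_pow_dvd_iff.1 h2) n (by omega)
  rw [map_sub, sub_eq_zero] at h3
  exact h3

theorem thM_pow (M : ℕ) : thM M ^ 6 = ∑ p ∈ Fintype.piFinset (fun _ : Fin 6 => Icc (-(M : ℤ)) M),
    (X : (LaurentPolynomial ℤ)⟦X⟧) ^ (∑ i, tri (p i)) * C (LaurentPolynomial.T (∑ i, (2 * p i + 1))) := by
  have h : thM M ^ 6 = ∏ _i : Fin 6, thM M := by simp
  rw [h]
  unfold thM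
  rw [Finset.prod_univ_sum]
  refine Finset.sum_congr rfl fun p _ => ?_
  rw [Finset.prod_mul_distrib, Finset.prod_pow_eq_pow_sum, ← map_prod]
  congr 2
  have : ∀ s : Finset (Fin 6), ∏ i ∈ s, (LaurentPolynomial.T (2 * p i + 1) : LaurentPolynomial ℤ) =
      LaurentPolynomial.T (∑ i ∈ s, (2 * p i + 1)) := by
    intro s
    induction s using Finset.cons_induction with
    | empty => simp
    | cons a s ha ih => rw [prod_cons, sum_cons, ih, ← LaurentPolynomial.T_add]
  exact this _

theorem S6_sub (M n : ℕ) (h : n < M) (s : ℤ) :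
    S6 n s = ↑((Fintype.piFinset (fun _ : Fin 6 => Icc (-(M : ℤ)) M)).filter
      (fun p => n = ∑ i, tri (p i) ∧ ∑ i, (2 * p i + 1) = s)) := by
  ext m
  simp only [S6, Set.mem_ofPred_eq, coe_filter, Fintype.mem_piFinset, mem_Icc]
  have h0 : (2 : ℤ) * ((∑ i, tri (m i) : ℕ) : ℤ) = ∑ i, m i * (m i + 1) := by
    push_cast
    rw [Finset.mul_sum]
    exact Finset.sum_congr rfl fun i _ => tri_spec _
  constructor
  · rintro ⟨h1, h2⟩
    refine ⟨?_, ?_, h2⟩
    · intro i
      have h3 : m i * (m i + 1) ≤ ∑ i, m i * (m i + 1) :=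
        Finset.single_le_sum (f := fun i => m i * (m i + 1)) (fun i _ => mul_succ_nonneg (m i))
          (Finset.mem_univ i)
      rw [h1] at h3
      constructor
      · by_contra hc; push Not at hc
        have : m i + 1 ≤ -M := by omega
        nlinarith
      · by_contra hc; push Not at hc; nlinarith
    · rw [h1] at h0
      omega
  · rintro ⟨_, h1, h2⟩
    refine ⟨?_, h2⟩
    rw [← h0, ← h1]

theorem coeff_theta6 (n : ℕ) (s : ℤ) :
    (coeff n (thetaSeries ^ 6)).coeff s = aa n s := by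
  rw [← coeff_thM_pow (n + 1) n (Nat.lt_succ_self n), thM_pow, map_sum]
  unfold aa
  rw [S6_sub (n + 1) n (Nat.lt_succ_self n) s, Set.ncard_coe_finset, card_filter]
  push_cast
  have h1 : ∀ f : (Fin 6 → ℤ) → LaurentPolynomial ℤ, ∀ S : Finset (Fin 6 → ℤ),
      (∑ p ∈ S, f p).coeff s = ∑ p ∈ S, (f p).coeff s := by
    intro f S
    induction S using Finset.cons_induction with
    | empty => simp
    | cons a t ha ih => rw [sum_cons, sum_cons, AddMonoidAlgebra.coeff_add, Finsupp.add_apply, ih]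
  rw [h1]
  refine Finset.sum_congr rfl fun p _ => ?_
  rw [coeff_mul_C, coeff_X_pow]
  by_cases h2 : n = ∑ i, tri (p i)
  · rw [if_pos h2, one_mul, LaurentPolynomial.T_apply]
    simp [h2]
  · rw [if_neg h2, zero_mul]
    simp [h2]

end

end Pool.Agent.Lib.MP_fad775_nt
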