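import Mathlib
import Pool.Agent.Lib.MP_fad775_nt.PairComb

/-!
# MP_fad775_nt: Job D, part 2: the alternating moments of the sixth power of the theta series
-/

namespace Pool.Agent.Lib.MP_fad775_nt

open PowerSeries Finset

noncomputable section

/-- `T^k` at `T = i exp(ε)` -/
def Ek (k : ℤ) : ℂ⟦X⟧ := C (Complex.I ^ k) * rescale (k : ℂ) (PowerSeries.exp ℂ)

theorem Ek_add (a b : ℤ) : Ek (a + b) = Ek a * Ek b := by
  unfold Ek
  rw [zpow_add₀ Complex.I_ne_zero, map_mul]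
  push_cast
  rw [← PowerSeries.exp_mul_exp_eq_exp_add]
  ring

theorem coeff_Ek (k : ℤ) (l : ℕ) : coeff l (Ek k) = Complex.I ^ k * ((k : ℂ) ^ l / l.factorial) := by
  unfold Ek
  rw [coeff_C_mul, coeff_rescale, coeff_exp]
  simp [div_eq_mul_inv]

theorem Ek_zero : Ek 0 = 1 := by
  ext l
  rw [coeff_Ek, coeff_one]
  rcases l with _ | l
  · simp
  · simp

/-- `k ↦ Ek k` as a homomorphism -/
def Em : Multiplicative ℤ →* ℂ⟦X⟧ where
  toFun k := Ek k.toAdd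
  map_one' := Ek_zero
  map_mul' _ _ := Ek_add _ _

/-- the Taylor expansion at `T = i exp(ε)` -/
def eh : LaurentPolynomial ℤ →ₐ[ℤ] ℂ⟦X⟧ := AddMonoidAlgebra.lift ℤ ℂ⟦X⟧ ℤ Em

theorem eh_T (k : ℤ) : eh (LaurentPolynomial.T k) = Ek k := by
  unfold eh LaurentPolynomial.T
  rw [AddMonoidAlgebra.lift_single, Algebra.smul_def, map_one, one_mul]
  rfl

theorem coeff_eh (f : LaurentPolynomial ℤ) (l : ℕ) :
    coeff l (eh f) = f.coeff.sum fun k c => (c : ℂ) * (Complex.I ^ k * ((k : ℂ) ^ l / l.factorial)) := by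
  unfold eh
  rw [AddMonoidAlgebra.lift_apply, Finsupp.sum, Finsupp.sum, map_sum]
  refine Finset.sum_congr rfl fun k _ => ?_
  rw [Algebra.smul_def, eq_intCast, show ((f.coeff k : ℤ) : ℂ⟦X⟧) = C ((f.coeff k : ℤ) : ℂ) by simp,
    coeff_C_mul]
  congr 1
  exact coeff_Ek k l

theorem I_zpow_odd (m : ℤ) : Complex.I ^ (2 * m + 1) = Complex.I * (-1 : ℂ) ^ m.natAbs := by
  rw [zpow_add₀ Complex.I_ne_zero, zpow_mul, zpow_one, mul_comm]
  congr 1
  have : (Complex.I ^ (2 : ℤ)) = -1 := by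
    rw [show (2 : ℤ) = ((2 : ℕ) : ℤ) by rfl, zpow_natCast, Complex.I_sq]
  rw [this]
  rcases Int.even_or_odd m with h | h
  · rw [h.neg_one_zpow, (Int.natAbs_even.2 h).neg_one_pow]
  · rw [h.neg_one_zpow, (Int.natAbs_odd.2 h).neg_one_pow]

theorem I_zpow_even (m : ℤ) : Complex.I ^ (2 * m) = (-1 : ℂ) ^ m.natAbs := by
  have h := I_zpow_odd m
  rw [zpow_add₀ Complex.I_ne_zero, zpow_one, mul_comm] at h
  exact mul_left_cancel₀ Complex.I_ne_zero h

/-- the index set -/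
def Fn (n : ℕ) : Finset ℤ :=
  (Finset.Icc (-(n : ℤ) - 1) (n : ℤ)).filter (fun m : ℤ => m * (m + 1) = 2 * (n : ℤ))

/-- the image of the theta series -/
def tH : (ℂ⟦X⟧)⟦X⟧ := PowerSeries.map (eh : LaurentPolynomial ℤ →+* ℂ⟦X⟧) thetaSeries

theorem coeff_tH (n : ℕ) : coeff n tH = ∑ m ∈ Fn n, Ek (2 * m + 1) := by
  unfold tH thetaSeries Fn
  rw [coeff_map, coeff_mk]
  rw [map_sum]
  refine Finset.sum_congr rfl fun m _ => ?_
  exact eh_T _

theorem sum_sign_Fn (N : ℕ) : ∑ m ∈ Fn N, (-1 : ℂ) ^ m.natAbs = 0 := by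
  have h1 : ∑ m ∈ Fn N, (-1 : ℂ) ^ m.natAbs = ∑ m ∈ Fn N, -(-1 : ℂ) ^ m.natAbs := by
    refine sum_bij' (fun m _ => -1 - m) (fun m _ => -1 - m) ?_ ?_ ?_ ?_ ?_
    · intro m hm
      simp only [Fn, mem_filter, mem_Icc] at hm ⊢
      refine ⟨⟨by linarith [hm.1.2], by linarith [hm.1.1]⟩, ?_⟩
      linear_combination hm.2
    · intro m hm
      simp only [Fn, mem_filter, mem_Icc] at hm ⊢
      refine ⟨⟨by linarith [hm.1.2], by linarith [hm.1.1]⟩, ?_⟩
      linear_combination hm.2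
    · intro m _; ring
    · intro m _; ring
    · intro m _
      rcases Int.even_or_odd m with h | h
      · have h1 : Odd (-1 - m) := by
          obtain ⟨r, hr⟩ := h; exact ⟨-r - 1, by omega⟩
        rw [Odd.neg_one_pow (Int.natAbs_odd.2 h1), Even.neg_one_pow (Int.natAbs_even.2 h)]; ring
      · have h1 : Even (-1 - m) := by
          obtain ⟨r, hr⟩ := h; exact ⟨-r - 1, by omega⟩
        rw [Even.neg_one_pow (Int.natAbs_even.2 h1), Odd.neg_one_pow (Int.natAbs_odd.2 h)]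
  rw [sum_neg_distrib] at h1
  have : (2 : ℂ) * ∑ m ∈ Fn N, (-1 : ℂ) ^ m.natAbs = 0 := by linear_combination h1
  simpa using this

theorem const_tH (n : ℕ) : constantCoeff (coeff n tH) = 0 := by
  rw [coeff_tH, map_sum]
  have : ∀ m : ℤ, constantCoeff (Ek (2 * m + 1)) = Complex.I * (-1 : ℂ) ^ m.natAbs := by
    intro m
    rw [← coeff_zero_eq_constantCoeff_apply, coeff_Ek, I_zpow_odd]
    simp
  rw [Finset.sum_congr rfl fun m _ => this m, ← Finset.mul_sum, sum_sign_Fn, mul_zero]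

/-- `tH = ε tH1` -/
def tH1 : (ℂ⟦X⟧)⟦X⟧ := mk fun n => mk fun l => coeff (l + 1) (coeff n tH)

theorem tH_eq : tH = C (X : ℂ⟦X⟧) * tH1 := by
  ext n l
  rw [coeff_C_mul]
  rcases l with _ | l
  · rw [coeff_zero_eq_constantCoeff_apply, coeff_zero_eq_constantCoeff_apply, const_tH, map_mul]
    simp
  · rw [coeff_succ_X_mul, tH1, coeff_mk, coeff_mk]

theorem map_tH1 : PowerSeries.map (constantCoeff (R := ℂ)) tH1 =
    C Complex.I * PowerSeries.map (algebraMap ℚ ℂ) (2 * Eu ^ 3) := by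
  ext n
  rw [coeff_map, coeff_C_mul, jacobi_cube, coeff_map, coeff_mk, tH1, coeff_mk,
    ← coeff_zero_eq_constantCoeff_apply, coeff_mk, coeff_tH, map_sum, map_sum, Finset.mul_sum]
  refine Finset.sum_congr rfl fun m _ => ?_
  rw [coeff_Ek, I_zpow_odd]
  simp
  ring

theorem coeff_tH6_low (n l : ℕ) (hl : l < 6) : coeff l (coeff n (tH ^ 6)) = 0 := by
  rw [tH_eq, mul_pow, ← map_pow, coeff_C_mul, coeff_X_pow_mul', if_neg (by omega)]

theorem coeff_tH6 (n : ℕ) : coeff 6 (coeff n (tH ^ 6)) = -64 * ((coeff n (Eu ^ 18) : ℚ) : ℂ) := by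
  rw [tH_eq, mul_pow, ← map_pow, coeff_C_mul, coeff_X_pow_mul', if_pos le_rfl, Nat.sub_self,
    coeff_zero_eq_constantCoeff_apply, ← coeff_map, map_pow, map_tH1]
  have h : (C Complex.I * PowerSeries.map (algebraMap ℚ ℂ) (2 * Eu ^ 3)) ^ 6 =
      C (-64 : ℂ) * PowerSeries.map (algebraMap ℚ ℂ) (Eu ^ 18) := by
    have h1 : (C Complex.I : ℂ⟦X⟧) ^ 6 = -1 := by
      rw [← map_pow, show (6 : ℕ) = 2 * 3 by norm_num, pow_mul, Complex.I_sq]
      norm_num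
    have h2 : (C (-64 : ℂ) : ℂ⟦X⟧) = -64 := by
      rw [map_neg, map_ofNat]
    rw [mul_pow, h1, h2]
    simp only [map_mul, map_pow, map_ofNat]
    ring
  rw [h, coeff_C_mul, coeff_map]
  simp

theorem mom_aux (n M l : ℕ) (hM : 12 * n + 9 ≤ M) :
    ∑ m ∈ Icc (-(M : ℤ)) M, ((aa n (2 * m) : ℤ) : ℂ) * ((-1 : ℂ) ^ m.natAbs *
      ((2 * m : ℂ) ^ l / l.factorial)) = coeff l (coeff n (tH ^ 6)) := by
  have h1 : coeff n (tH ^ 6) = eh (coeff n (thetaSeries ^ 6)) := by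
    unfold tH
    rw [← map_pow, coeff_map]
    rfl
  rw [h1, coeff_eh]
  rw [Finsupp.sum_of_support_subset (s := (Icc (-(M : ℤ)) M).image (fun m => 2 * m))]
  · rw [Finset.sum_image (by intro a _ b _ h; simpa using h)]
    refine Finset.sum_congr rfl fun m _ => ?_
    rw [coeff_theta6, I_zpow_even]
    push_cast
    ring
  · intro k hk
    rw [Finsupp.mem_support_iff, coeff_theta6] at hk
    have h2 : (2 : ℤ) ∣ k := by
      by_contra h
      exact hk (aa_odd h)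
    obtain ⟨m, rfl⟩ := h2
    rw [Finset.mem_image]
    refine ⟨m, ?_, rfl⟩
    have h3 : ¬ (48 * (n : ℤ) + 36 < (2 * m) ^ 2) := fun h => hk (aa_zero h)
    push Not at h3
    rw [mem_Icc]
    have hM' : 12 * (n : ℤ) + 9 ≤ M := by exact_mod_cast hM
    constructor
    · by_contra hc; push Not at hc; nlinarith
    · by_contra hc; push Not at hc; nlinarith
  · intro k _; simp

theorem mom_low (n M l : ℕ) (hM : 12 * n + 9 ≤ M) (hl : l < 6) :
    ∑ m ∈ Icc (-(M : ℤ)) M, (-1 : ℚ) ^ m.natAbs * (m : ℚ) ^ l * (aa n (2 * m) : ℚ) = 0 := by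
  have h := mom_aux n M l hM
  rw [coeff_tH6_low n l hl] at h
  have h2 : ((∑ m ∈ Icc (-(M : ℤ)) M, (-1 : ℚ) ^ m.natAbs * (m : ℚ) ^ l * (aa n (2 * m) : ℚ) : ℚ) : ℂ)
      * (2 ^ l / l.factorial) = 0 := by
    rw [← h]
    push_cast
    rw [Finset.sum_mul]
    refine Finset.sum_congr rfl fun m _ => ?_
    rw [mul_pow]; ring
  have h3 : ((2 : ℂ) ^ l / l.factorial) ≠ 0 := by
    apply div_ne_zero
    · exact pow_ne_zero _ (by norm_num)
    · exact_mod_cast Nat.factorial_ne_zero l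
  have h4 := (mul_eq_zero.1 h2).resolve_right h3
  exact_mod_cast h4

theorem mom_six (n M : ℕ) (hM : 12 * n + 9 ≤ M) :
    ∑ m ∈ Icc (-(M : ℤ)) M, (-1 : ℚ) ^ m.natAbs * (m : ℚ) ^ 6 * (aa n (2 * m) : ℚ) =
      -720 * coeff n (Eu ^ 18) := by
  have h := mom_aux n M 6 hM
  rw [coeff_tH6 n] at h
  have h2 : ((∑ m ∈ Icc (-(M : ℤ)) M, (-1 : ℚ) ^ m.natAbs * (m : ℚ) ^ 6 * (aa n (2 * m) : ℚ) : ℚ) : ℂ)
      * (64 / 720) = -64 * ((coeff n (Eu ^ 18) : ℚ) : ℂ) := by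
    rw [← h]
    push_cast
    rw [Finset.sum_mul]
    refine Finset.sum_congr rfl fun m _ => ?_
    rw [mul_pow]
    norm_num [Nat.factorial]
    ring
  have h4 : ((∑ m ∈ Icc (-(M : ℤ)) M, (-1 : ℚ) ^ m.natAbs * (m : ℚ) ^ 6 * (aa n (2 * m) : ℚ) : ℚ) : ℂ)
      = ((-720 * coeff n (Eu ^ 18) : ℚ) : ℂ) := by
    rw [Rat.cast_mul (-720)]
    push_cast at h2 ⊢
    linear_combination (720 / 64) * h2
  exact_mod_cast h4

end

end Pool.Agent.Lib.MP_fad775_nt
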