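import Mathlib
import Pool.Agent.Lib.MP_fad775_nt.VecDefs
import Pool.Agent.Lib.MP_fad775_nt.CPsi
import Pool.Agent.Lib.MP_fad775_nt.Jacobi
import Pool.Agent.Lib.MP_fad775_nt.PairMom

/-!
# MP_fad775_nt: Job D, the generating series of `cψ_{6,β}` against the theta vector
-/

namespace Pool.Agent.Lib.MP_fad775_nt
open HahnSeries
noncomputable section

/-- the theta coefficients `h_β` -/
def Hb (b : Fin 4) : K :=
  wp (12 - 2 * ((b : ℕ) : ℤ) ^ 2) *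
    ι (PowerSeries.mk fun n => (cpsi 6 ((b : ℕ) : ℤ) (n : ℤ) : ℚ))

/-! ### the generating series of `cψ` and the sixth power of the theta series -/

section gen

open PowerSeries

/-- coefficient of `T^s` -/
def Lam (s : ℤ) (F : (LaurentPolynomial ℤ)⟦X⟧) : ℚ⟦X⟧ :=
  PowerSeries.mk fun n => (((PowerSeries.coeff n F).coeff s : ℤ) : ℚ)

theorem coeff_mul_C' (f : LaurentPolynomial ℤ) (c s : ℤ) :
    (f * LaurentPolynomial.C c).coeff s = f.coeff s * c := by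
  rw [mul_comm, ← LaurentPolynomial.smul_eq_C_mul, AddMonoidAlgebra.coeff_smul, Finsupp.smul_apply,
    smul_eq_mul, mul_comm]

theorem Lam_mul (s : ℤ) (F : (LaurentPolynomial ℤ)⟦X⟧) (g : ℤ⟦X⟧) :
    Lam s (F * PowerSeries.map LaurentPolynomial.C g) =
      Lam s F * PowerSeries.map (Int.castRingHom ℚ) g := by
  ext n
  unfold Lam
  rw [PowerSeries.coeff_mk, PowerSeries.coeff_mul, PowerSeries.coeff_mul]
  have h1 : ∀ (f : ℕ × ℕ → LaurentPolynomial ℤ) (S : Finset (ℕ × ℕ)),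
      (∑ p ∈ S, f p).coeff s = ∑ p ∈ S, (f p).coeff s := by
    intro f S
    induction S using Finset.cons_induction with
    | empty => simp
    | cons a t ha ih =>
      rw [Finset.sum_cons, Finset.sum_cons, AddMonoidAlgebra.coeff_add, Finsupp.add_apply, ih]
  rw [h1]
  push_cast
  refine Finset.sum_congr rfl fun p _ => ?_
  rw [PowerSeries.coeff_mk, PowerSeries.coeff_map, PowerSeries.coeff_map, coeff_mul_C']
  push_cast
  simp

theorem map_eulerInv (N : ℕ) : PowerSeries.map (Int.castRingHom ℚ) (eulerInv N) * eP N = 1 := by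
  have h1 : (∏ j ∈ Finset.range N, (1 - X ^ (j + 1)) : ℤ⟦X⟧) * eulerInv N = 1 := by
    unfold eulerInv
    apply PowerSeries.mul_invOfUnit
    rw [map_prod]
    simp
  have h2 := congrArg (PowerSeries.map (Int.castRingHom ℚ)) h1
  rw [map_mul, map_one, map_prod] at h2
  have h3 : ∏ j ∈ Finset.range N, (PowerSeries.map (Int.castRingHom ℚ)) (1 - X ^ (j + 1)) = eP N := by
    unfold eP
    refine Finset.prod_congr rfl fun j _ => ?_
    simp
  rw [h3, mul_comm] at h2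
  exact h2

theorem cpsi_gen (β : ℤ) : (PowerSeries.mk fun n => (cpsi 6 β (n : ℤ) : ℚ)) * Eu ^ 6 =
    PowerSeries.mk fun n => ((aa n (2 * β) : ℤ) : ℚ) := by
  have hE : Eu * Eu⁻¹ = 1 := PowerSeries.mul_inv_cancel _ (by
    have := Eu_ct
    rw [this]; exact one_ne_zero)
  have hA : Lam (2 * β) (thetaSeries ^ 6) = PowerSeries.mk fun n => ((aa n (2 * β) : ℤ) : ℚ) := by
    ext n
    unfold Lam
    rw [PowerSeries.coeff_mk, PowerSeries.coeff_mk, coeff_theta6]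
  have key : (PowerSeries.mk fun n => (cpsi 6 β (n : ℤ) : ℚ)) =
      Lam (2 * β) (thetaSeries ^ 6) * Eu⁻¹ ^ 6 := by
    ext n
    set R := PowerSeries.map (Int.castRingHom ℚ) (eulerInv n) with hR
    have hRe : R * eP n = 1 := map_eulerInv n
    have h1 : (PowerSeries.coeff n) (PowerSeries.mk fun n => (cpsi 6 β (n : ℤ) : ℚ)) =
        PowerSeries.coeff n (Lam (2 * β) (thetaSeries ^ 6) * R ^ 6) := by
      rw [hR, ← map_pow, ← Lam_mul]
      unfold Lam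
      rw [PowerSeries.coeff_mk, PowerSeries.coeff_mk]
      unfold cpsi coeffF
      rw [if_neg (by omega)]
      simp
    rw [h1]
    have h2 : (X : ℚ⟦X⟧) ^ (n + 1) ∣ R - Eu⁻¹ := by
      have : R - Eu⁻¹ = (Eu - eP n) * (R * Eu⁻¹) := by
        linear_combination (-R) * hE + Eu⁻¹ * hRe
      rw [this]
      exact (eP_Eu n).mul_right _
    have h3 : (X : ℚ⟦X⟧) ^ (n + 1) ∣ Lam (2 * β) (thetaSeries ^ 6) * R ^ 6 -
        Lam (2 * β) (thetaSeries ^ 6) * Eu⁻¹ ^ 6 := by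
      rw [← mul_sub]
      exact (h2.trans (sub_dvd_pow_sub_pow _ _ 6)).mul_left _
    have h4 := (PowerSeries.X_pow_dvd_iff.1 h3) n (by omega)
    rw [map_sub, sub_eq_zero] at h4
    exact h4
  rw [key, hA, mul_assoc, ← mul_pow, mul_comm Eu⁻¹, hE, one_pow, mul_one]

end gen

/-! ### the series `P m` -/

/-- the coefficient of `T^(2m)` in the sixth power of the theta series -/
def PP (m : ℤ) : K := wp 18 * ι (PowerSeries.mk fun n => ((aa n (2 * m) : ℤ) : ℚ))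

theorem PP_coeff (m n : ℤ) : (PP m).coeff (24 * n + 18) = (aa n (2 * m) : ℚ) := by
  unfold PP
  rw [wp_mul_coeff, add_sub_cancel_right]
  rcases lt_or_ge n 0 with h | h
  · rw [ι_coeff_neg _ _ (by omega), aa_neg_left h]; simp
  · obtain ⟨k, rfl⟩ := Int.eq_ofNat_of_zero_le h
    rw [ι_coeff_mul, PowerSeries.coeff_mk]

theorem PP_coeff_of_not_dvd {m N : ℤ} (h : ¬ (24 : ℤ) ∣ (N - 18)) : (PP m).coeff N = 0 := by
  unfold PP
  rw [wp_mul_coeff, ι_coeff_of_not_dvd _ _ h]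

theorem PP_low {m N : ℤ} (h : N < 18) : (PP m).coeff N = 0 := by
  unfold PP
  rw [wp_mul_coeff, ι_coeff_neg _ _ (by omega)]

theorem PP_neg (m N : ℤ) : (PP (-m)).coeff N = (PP m).coeff N := by
  by_cases h : (24 : ℤ) ∣ (N - 18)
  · obtain ⟨n, hn⟩ := h
    obtain rfl : N = 24 * n + 18 := by omega
    rw [PP_coeff, PP_coeff, mul_neg, aa_neg]
  · rw [PP_coeff_of_not_dvd h, PP_coeff_of_not_dvd h]

theorem PP_shift (m N : ℤ) : (PP (m + 6)).coeff (N + 24 * m + 72) = (PP m).coeff N := by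
  by_cases h : (24 : ℤ) ∣ (N - 18)
  · obtain ⟨n, hn⟩ := h
    obtain rfl : N = 24 * n + 18 := by omega
    rw [PP_coeff, show 24 * n + 18 + 24 * m + 72 = 24 * (n + m + 3) + 18 by ring, PP_coeff,
      show 2 * (m + 6) = 2 * m + 12 by ring, aa_shift]
  · rw [PP_coeff_of_not_dvd h, PP_coeff_of_not_dvd]
    intro h'
    apply h
    have : N + 24 * m + 72 - 18 = (N - 18) + 24 * (m + 3) := by ring
    rw [this] at h'
    exact (Int.dvd_add_left (dvd_mul_right _ _)).1 h'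

theorem PP_shift_t (m N t : ℤ) : (PP (m + 6 * t)).coeff (N + 2 * (m + 6 * t) ^ 2 - 2 * m ^ 2) =
    (PP m).coeff N := by
  induction t using Int.induction_on with
  | zero => simp
  | succ t ih =>
    have h := PP_shift (m + 6 * t) (N + 2 * (m + 6 * (t : ℤ)) ^ 2 - 2 * m ^ 2)
    rw [ih] at h
    rw [← h]
    rw [show m + 6 * ((t : ℤ) + 1) = m + 6 * t + 6 by ring]
    congr 1
    ring
  | pred t ih =>
    have h := PP_shift (m + 6 * (-(t : ℤ) - 1)) (N + 2 * (m + 6 * (-(t : ℤ) - 1)) ^ 2 - 2 * m ^ 2)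
    rw [← h, ← ih, show m + 6 * (-(t : ℤ) - 1) + 6 = m + 6 * -(t : ℤ) by ring]
    congr 1
    ring

/-! ### products with theta series -/

theorem Th_coeff (f : ℤ → ℚ) (c : ℕ) (n : ℤ) : (Th f c).coeff n =
    ∑ m ∈ (Finset.Icc (-n) n).filter (fun m : ℤ => (c : ℤ) * m ^ 2 = n), f m := rfl

theorem Th_mul_coeff (f : ℤ → ℚ) (g : K) (hg : ∀ n < 0, g.coeff n = 0) (N : ℤ) (M : ℕ)
    (hM : N ≤ M) :
    (Th f 2 * g).coeff N = ∑ m ∈ Finset.Icc (-(M : ℤ)) M, f m * g.coeff (N - 2 * m ^ 2) := by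
  have hf : ∀ n < 0, (Th f 2).coeff n = 0 := by
    intro n hn
    rw [Th_coeff, Finset.Icc_eq_empty (by omega)]
    simp
  rw [coeff_mul_Icc hf hg, sub_zero]
  have h1 : ∀ m ∈ Finset.Icc (-(M : ℤ)) M, f m * g.coeff (N - 2 * m ^ 2) =
      ∑ i ∈ Finset.Icc 0 N, if 2 * m ^ 2 = i then f m * g.coeff (N - i) else 0 := by
    intro m _
    rw [Finset.sum_ite_eq]
    split_ifs with h
    · rfl
    · rw [Finset.mem_Icc] at h
      rw [hg _ (by
        by_contra hc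
        apply h
        exact ⟨by positivity, by omega⟩), mul_zero]
  rw [Finset.sum_congr rfl h1, Finset.sum_comm]
  refine Finset.sum_congr rfl fun i hi => ?_
  rw [Finset.mem_Icc] at hi
  rw [← Finset.sum_filter, Th_coeff, Finset.sum_mul]
  apply Finset.sum_congr _ fun _ _ => rfl
  ext m
  simp only [Finset.mem_filter, Finset.mem_Icc, Nat.cast_ofNat]
  constructor
  · rintro ⟨⟨h2, h3⟩, h4⟩
    exact ⟨⟨by omega, by omega⟩, h4⟩
  · rintro ⟨_, h4⟩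
    refine ⟨⟨?_, ?_⟩, h4⟩
    · by_contra hc; push Not at hc; nlinarith
    · by_contra hc; push Not at hc; nlinarith

/-- the coefficient functions of `θ^j (th β)` -/
def thf (β j : ℕ) (m : ℤ) : ℚ := if m % 6 = (β : ℤ) then ((m : ℚ) ^ 2 / 12) ^ j else 0

theorem θ_Th (f : ℤ → ℚ) : θ (Th f 2) = Th (fun m => (m : ℚ) ^ 2 / 12 * f m) 2 := by
  ext n
  rw [θ_coeff, Th_coeff, Th_coeff, Finset.mul_sum]
  refine Finset.sum_congr rfl fun m hm => ?_
  rw [Finset.mem_filter] at hm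
  have : (n : ℚ) = 2 * (m : ℚ) ^ 2 := by rw [← hm.2]; push_cast; ring
  rw [this]; ring

theorem θ_Th_thf (β j : ℕ) : θ (Th (thf β j) 2) = Th (thf β (j + 1)) 2 := by
  rw [θ_Th]
  congr 1
  funext m
  unfold thf
  split_ifs
  · ring
  · ring

theorem th_eq (b : Fin 4) : th b = Th (thf b 0) 2 := by
  unfold th
  congr 1
  funext m
  unfold thf
  simp

theorem Hb_eta (b : Fin 4) : Hb b * η ^ 6 = wp (-2 * ((b : ℕ) : ℤ) ^ 2) * PP ((b : ℕ) : ℤ) := by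
  have h := congrArg ι (cpsi_gen ((b : ℕ) : ℤ))
  rw [map_mul, map_pow] at h
  unfold Hb PP η eu
  rw [mul_pow, wp_pow]
  have h1 : wp (-2 * ((b : ℕ) : ℤ) ^ 2) * wp 18 = wp (12 - 2 * ((b : ℕ) : ℤ) ^ 2) * wp ((6 : ℕ) * 1) := by
    rw [← wp_add, ← wp_add]; congr 1; push_cast; ring
  rw [← h]
  linear_combination (-(ι (PowerSeries.mk fun n => (cpsi 6 ((b : ℕ) : ℤ) (n : ℤ) : ℚ)) * ι Eu ^ 6)) * h1

/-- The coefficient of `w^N` of one term. -/
theorem term_coeff (b : Fin 4) (j : ℕ) (N : ℤ) (M : ℕ) (hM : N ≤ M) :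
    (Hb b * Th (thf b j) 2 * η ^ 6).coeff N =
      ∑ m ∈ Finset.Icc (-(M : ℤ)) M, thf b j m * (PP m).coeff N := by
  have h1 : Hb b * Th (thf b j) 2 * η ^ 6 =
      Th (thf b j) 2 * (wp (-2 * ((b : ℕ) : ℤ) ^ 2) * PP ((b : ℕ) : ℤ)) := by
    rw [← Hb_eta]; ring
  have hb := b.2
  have hb2 : (((b : ℕ) : ℤ)) ^ 2 ≤ 9 := by
    have : ((b : ℕ) : ℤ) ≤ 3 := by omega
    nlinarith [Int.natCast_nonneg (b : ℕ)]
  rw [h1, Th_mul_coeff _ _ (by
    intro n hn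
    rw [wp_mul_coeff, PP_low (by linarith)]) N M hM]
  refine Finset.sum_congr rfl fun m _ => ?_
  by_cases h : m % 6 = ((b : ℕ) : ℤ)
  · congr 1
    rw [wp_mul_coeff]
    have hm : m = ((b : ℕ) : ℤ) + 6 * (m / 6) := by
      have := Int.emod_add_mul_ediv m 6
      omega
    have h2 := PP_shift_t ((b : ℕ) : ℤ) (N - 2 * m ^ 2 - -2 * ((b : ℕ) : ℤ) ^ 2) (m / 6)
    rw [← hm] at h2
    rw [← h2]
    congr 1
    ring
  · unfold thf
    rw [if_neg h]; ring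

/-- the alternating sum -/
theorem pair_coeff (j : ℕ) (N : ℤ) (M : ℕ) (hM : N ≤ M) :
    ((Hb 0 * Th (thf 0 j) 2 - 2 * Hb 1 * Th (thf 1 j) 2 + 2 * Hb 2 * Th (thf 2 j) 2
      - Hb 3 * Th (thf 3 j) 2) * η ^ 6).coeff N =
    ∑ m ∈ Finset.Icc (-(M : ℤ)) M, (-1 : ℚ) ^ m.natAbs * ((m : ℚ) ^ 2 / 12) ^ j * (PP m).coeff N := by
  have h0 := term_coeff 0 j N M hM
  have h1 := term_coeff 1 j N M hM
  have h2 := term_coeff 2 j N M hM
  have h3 := term_coeff 3 j N M hM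
  have e2 : ∀ (f : K), ((2 : K) * f).coeff N = 2 * f.coeff N := by
    intro f
    have := coeff_ratCast_mul 2 f N
    simpa using this
  have e : (Hb 0 * Th (thf 0 j) 2 - 2 * Hb 1 * Th (thf 1 j) 2 + 2 * Hb 2 * Th (thf 2 j) 2
      - Hb 3 * Th (thf 3 j) 2) * η ^ 6 = Hb 0 * Th (thf 0 j) 2 * η ^ 6 -
      2 * (Hb 1 * Th (thf 1 j) 2 * η ^ 6) + 2 * (Hb 2 * Th (thf 2 j) 2 * η ^ 6) -
      Hb 3 * Th (thf 3 j) 2 * η ^ 6 := by ring
  rw [e, coeff_sub, coeff_add, coeff_sub, e2, e2]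
  simp only [Fin.val_zero, Fin.val_one] at h0 h1 h2 h3
  rw [h0, h1]
  rw [show (Hb 2 * Th (thf 2 j) 2 * η ^ 6).coeff N =
    ∑ m ∈ Finset.Icc (-(M : ℤ)) M, thf 2 j m * (PP m).coeff N from h2,
    show (Hb 3 * Th (thf 3 j) 2 * η ^ 6).coeff N =
    ∑ m ∈ Finset.Icc (-(M : ℤ)) M, thf 3 j m * (PP m).coeff N from h3]
  -- reflect
  have refl : ∀ f : ℤ → ℚ, ∑ m ∈ Finset.Icc (-(M : ℤ)) M, f m * (PP m).coeff N =
      ∑ m ∈ Finset.Icc (-(M : ℤ)) M, f (-m) * (PP m).coeff N := by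
    intro f
    refine Finset.sum_bij' (fun m _ => -m) (fun m _ => -m) ?_ ?_ ?_ ?_ ?_
    · intro m hm; rw [Finset.mem_Icc] at hm ⊢; omega
    · intro m hm; rw [Finset.mem_Icc] at hm ⊢; omega
    · intro m _; ring
    · intro m _; ring
    · intro m _; rw [neg_neg, PP_neg]
  have t1 : 2 * ∑ m ∈ Finset.Icc (-(M : ℤ)) M, thf 1 j m * (PP m).coeff N =
      ∑ m ∈ Finset.Icc (-(M : ℤ)) M, (thf 1 j m + thf 1 j (-m)) * (PP m).coeff N := by
    rw [two_mul]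
    nth_rewrite 2 [refl]
    rw [← Finset.sum_add_distrib]
    exact Finset.sum_congr rfl fun m _ => by ring
  have t2 : 2 * ∑ m ∈ Finset.Icc (-(M : ℤ)) M, thf 2 j m * (PP m).coeff N =
      ∑ m ∈ Finset.Icc (-(M : ℤ)) M, (thf 2 j m + thf 2 j (-m)) * (PP m).coeff N := by
    rw [two_mul]
    nth_rewrite 2 [refl]
    rw [← Finset.sum_add_distrib]
    exact Finset.sum_congr rfl fun m _ => by ring
  rw [t1, t2, ← Finset.sum_sub_distrib, ← Finset.sum_add_distrib, ← Finset.sum_sub_distrib]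
  refine Finset.sum_congr rfl fun m _ => ?_
  rw [← sub_mul, ← add_mul, ← sub_mul]
  congr 1
  unfold thf
  have hsq : ((-m : ℤ) : ℚ) ^ 2 = (m : ℚ) ^ 2 := by push_cast; ring
  rw [hsq]
  have hm6 : m % 6 = 0 ∨ m % 6 = 1 ∨ m % 6 = 2 ∨ m % 6 = 3 ∨ m % 6 = 4 ∨ m % 6 = 5 := by omega
  rcases hm6 with h | h | h | h | h | h
  · have hn : (-m) % 6 = 0 := by omega
    have hp : Even m := by rw [Int.even_iff]; omega
    rw [(Int.natAbs_even.2 hp).neg_one_pow, h, hn]; simp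
  · have hn : (-m) % 6 = 5 := by omega
    have hp : Odd m := by rw [Int.odd_iff]; omega
    rw [(Int.natAbs_odd.2 hp).neg_one_pow, h, hn]; simp
  · have hn : (-m) % 6 = 4 := by omega
    have hp : Even m := by rw [Int.even_iff]; omega
    rw [(Int.natAbs_even.2 hp).neg_one_pow, h, hn]; simp
  · have hn : (-m) % 6 = 3 := by omega
    have hp : Odd m := by rw [Int.odd_iff]; omega
    rw [(Int.natAbs_odd.2 hp).neg_one_pow, h, hn]; simp
  · have hn : (-m) % 6 = 2 := by omega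
    have hp : Even m := by rw [Int.even_iff]; omega
    rw [(Int.natAbs_even.2 hp).neg_one_pow, h, hn]; simp
  · have hn : (-m) % 6 = 1 := by omega
    have hp : Odd m := by rw [Int.odd_iff]; omega
    rw [(Int.natAbs_odd.2 hp).neg_one_pow, h, hn]; simp

theorem alt_low (j : ℕ) (hj : j < 3) (N : ℤ) :
    ∑ m ∈ Finset.Icc (-(N.toNat : ℤ)) N.toNat,
      (-1 : ℚ) ^ m.natAbs * ((m : ℚ) ^ 2 / 12) ^ j * (PP m).coeff N = 0 := by
  by_cases h : (24 : ℤ) ∣ (N - 18)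
  · obtain ⟨n, hn⟩ := h
    obtain rfl : N = 24 * n + 18 := by omega
    rcases lt_or_ge n 0 with h0 | h0
    · refine Finset.sum_eq_zero fun m _ => ?_
      rw [PP_low (by omega), mul_zero]
    · obtain ⟨k, rfl⟩ := Int.eq_ofNat_of_zero_le h0
      have h1 := mom_low k (24 * (k : ℤ) + 18).toNat (2 * j) (by omega) (by omega)
      have h2 : ∑ m ∈ Finset.Icc (-((24 * (k : ℤ) + 18).toNat : ℤ)) (24 * (k : ℤ) + 18).toNat,
          (-1 : ℚ) ^ m.natAbs * ((m : ℚ) ^ 2 / 12) ^ j * (PP m).coeff (24 * (k : ℤ) + 18) =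
          (1 / 12) ^ j * ∑ m ∈ Finset.Icc (-((24 * (k : ℤ) + 18).toNat : ℤ)) (24 * (k : ℤ) + 18).toNat,
          (-1 : ℚ) ^ m.natAbs * (m : ℚ) ^ (2 * j) * (aa k (2 * m) : ℚ) := by
        rw [Finset.mul_sum]
        refine Finset.sum_congr rfl fun m _ => ?_
        rw [PP_coeff, pow_mul, div_eq_mul_inv, mul_pow]
        ring
      rw [h2, h1, mul_zero]
  · refine Finset.sum_eq_zero fun m _ => ?_
    rw [PP_coeff_of_not_dvd h, mul_zero]

theorem alt_three (N : ℤ) :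
    ∑ m ∈ Finset.Icc (-(N.toNat : ℤ)) N.toNat,
      (-1 : ℚ) ^ m.natAbs * ((m : ℚ) ^ 2 / 12) ^ 3 * (PP m).coeff N =
      (-(5 / 12 : ℚ)) * (η ^ 18).coeff N := by
  have he : η ^ 18 = wp 18 * ι (Eu ^ 18) := by
    unfold η eu
    rw [mul_pow, wp_pow, map_pow]
    norm_num
  by_cases h : (24 : ℤ) ∣ (N - 18)
  · obtain ⟨n, hn⟩ := h
    obtain rfl : N = 24 * n + 18 := by omega
    rw [he, wp_mul_coeff, add_sub_cancel_right]
    rcases lt_or_ge n 0 with h0 | h0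
    · rw [ι_coeff_neg _ _ (by omega), mul_zero]
      refine Finset.sum_eq_zero fun m _ => ?_
      rw [PP_low (by omega), mul_zero]
    · obtain ⟨k, rfl⟩ := Int.eq_ofNat_of_zero_le h0
      have h1 := mom_six k (24 * (k : ℤ) + 18).toNat (by omega)
      have h2 : ∑ m ∈ Finset.Icc (-((24 * (k : ℤ) + 18).toNat : ℤ)) (24 * (k : ℤ) + 18).toNat,
          (-1 : ℚ) ^ m.natAbs * ((m : ℚ) ^ 2 / 12) ^ 3 * (PP m).coeff (24 * (k : ℤ) + 18) =
          (1 / 12) ^ 3 * ∑ m ∈ Finset.Icc (-((24 * (k : ℤ) + 18).toNat : ℤ)) (24 * (k : ℤ) + 18).toNat,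
          (-1 : ℚ) ^ m.natAbs * (m : ℚ) ^ 6 * (aa k (2 * m) : ℚ) := by
        rw [Finset.mul_sum]
        refine Finset.sum_congr rfl fun m _ => ?_
        rw [PP_coeff]
        ring
      rw [h2, h1, ι_coeff_mul]
      ring
  · rw [he, wp_mul_coeff, ι_coeff_of_not_dvd _ _ h, mul_zero]
    refine Finset.sum_eq_zero fun m _ => ?_
    rw [PP_coeff_of_not_dvd h, mul_zero]

theorem pair_low (j : ℕ) (hj : j < 3) :
    Hb 0 * Th (thf 0 j) 2 - 2 * Hb 1 * Th (thf 1 j) 2 + 2 * Hb 2 * Th (thf 2 j) 2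
      - Hb 3 * Th (thf 3 j) 2 = 0 := by
  have h : (Hb 0 * Th (thf 0 j) 2 - 2 * Hb 1 * Th (thf 1 j) 2 + 2 * Hb 2 * Th (thf 2 j) 2
      - Hb 3 * Th (thf 3 j) 2) * η ^ 6 = 0 := by
    ext N
    rw [pair_coeff j N N.toNat (Int.self_le_toNat N), alt_low j hj N]
    rfl
  exact (mul_eq_zero.1 h).resolve_right (pow_ne_zero _ η_ne)

theorem thb (b : Fin 4) (j : ℕ) : θ (Th (thf b j) 2) = Th (thf b (j + 1)) 2 := θ_Th_thf _ _

theorem pair0 : Hb 0 * th 0 - 2 * Hb 1 * th 1 + 2 * Hb 2 * th 2 - Hb 3 * th 3 = 0 := by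
  rw [th_eq 0, th_eq 1, th_eq 2, th_eq 3]
  exact pair_low 0 (by norm_num)

theorem pair1 : Hb 0 * θ (th 0) - 2 * Hb 1 * θ (th 1) + 2 * Hb 2 * θ (th 2) - Hb 3 * θ (th 3) = 0 := by
  rw [th_eq 0, th_eq 1, th_eq 2, th_eq 3, thb, thb, thb, thb]
  exact pair_low 1 (by norm_num)

theorem pair2 : Hb 0 * θ (θ (th 0)) - 2 * Hb 1 * θ (θ (th 1)) + 2 * Hb 2 * θ (θ (th 2))
    - Hb 3 * θ (θ (th 3)) = 0 := by
  rw [th_eq 0, th_eq 1, th_eq 2, th_eq 3, thb, thb, thb, thb, thb, thb, thb, thb]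
  exact pair_low 2 (by norm_num)

theorem pair3 : Hb 0 * θ (θ (θ (th 0))) - 2 * Hb 1 * θ (θ (θ (th 1))) + 2 * Hb 2 * θ (θ (θ (th 2)))
    - Hb 3 * θ (θ (θ (th 3))) = -(5 / 12) * η ^ 12 := by
  rw [th_eq 0, th_eq 1, th_eq 2, th_eq 3, thb, thb, thb, thb, thb, thb, thb, thb, thb, thb, thb, thb]
  have h : (Hb 0 * Th (thf 0 3) 2 - 2 * Hb 1 * Th (thf 1 3) 2 + 2 * Hb 2 * Th (thf 2 3) 2
      - Hb 3 * Th (thf 3 3) 2) * η ^ 6 = (-(5 / 12) * η ^ 12) * η ^ 6 := by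
    have e : (-(5 / 12 : K) * η ^ 12) * η ^ 6 = ((-(5 / 12) : ℚ) : K) * η ^ 18 := by
      push_cast; ring
    rw [e]
    ext N
    rw [pair_coeff 3 N N.toNat (Int.self_le_toNat N), alt_three N, coeff_ratCast_mul]
  exact mul_right_cancel₀ (pow_ne_zero _ η_ne) h

end
end Pool.Agent.Lib.MP_fad775_nt
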