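import Mathlib
import Pool.Agent.Lib.MP_fad775_nt.Conn
import Pool.Agent.Lib.MP_fad775_nt.Iter
import Pool.Agent.Lib.MP_fad775_nt.Pair
import Pool.Agent.Lib.MP_fad775_nt.Extract

/-!
# MP_fad775_nt: the congruences
-/

namespace Pool.Agent.Lib.MP_fad775_nt

open HahnSeries

noncomputable section

/-- the auxiliary vector with `J (fv v) g = 2 v₂ g₁ + v₃ g₀ + v₀ g₃ + 2 v₁ g₂` -/
def fv (v : Fin 4 → K) : Fin 4 → K := ![2 * v 2, v 3, -v 0, -(2 * v 1)]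

/-- `ω_l(v)` -/
def om (v : Fin 4 → K) (l : Fin 4) : K := J (fv v) (Φv l)

/-- `ψ_j(u)` -/
def ps (u : Fin 4 → K) (j : Fin 4) : K :=
  u 0 * Φv j 0 - 2 * u 1 * Φv j 1 + 2 * u 2 * Φv j 2 - u 3 * Φv j 3

/-- componentwise `U` -/
def UU (u : Fin 4 → K) (r : Fin 4) : K := U (u r)

lemma om_eq (v : Fin 4 → K) (l : Fin 4) : om v l =
    v 0 * Φv l 3 + 2 * v 1 * Φv l 2 + 2 * v 2 * Φv l 1 + v 3 * Φv l 0 := by
  simp only [om, J, fv, Matrix.cons_val]
  ring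

lemma U_two_mul (f : K) : U (2 * f) = 2 * U f := by
  rw [two_mul, two_mul, map_add]

lemma VΦ0 (l : Fin 4) : V (Φv l 3) = Sv l 0 := by
  have h := conn 0 l
  change 1 * V (Φv l 3) = _ at h
  rwa [one_mul] at h
lemma VΦ1 (l : Fin 4) : V (Φv l 2) = - Sv l 1 := by
  have h := conn 1 l
  change -1 * V (Φv l 2) = _ at h
  rw [← h]; ring
lemma VΦ2 (l : Fin 4) : V (Φv l 1) = Sv l 2 := by
  have h := conn 2 l
  change 1 * V (Φv l 1) = _ at h
  rwa [one_mul] at h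
lemma VΦ3 (l : Fin 4) : V (Φv l 0) = - Sv l 3 := by
  have h := conn 3 l
  change -1 * V (Φv l 0) = _ at h
  rw [← h]; ring

lemma om_UU (u : Fin 4 → K) : om (UU u) = 𝒰 (ps u) := by
  funext l
  rw [om_eq, 𝒰]
  simp only [UU]
  have h : ∑ j, ps u j * Km j l = V (Φv l 3) * u 0 + 2 * (V (Φv l 2) * u 1) +
      2 * (V (Φv l 1) * u 2) + V (Φv l 0) * u 3 := by
    rw [VΦ0, VΦ1, VΦ2, VΦ3]
    simp only [Sv, ps, Fin.sum_univ_four]
    ring
  rw [← map_sum, h, map_add, map_add, map_add, U_two_mul, U_two_mul, U_V_mul, U_V_mul, U_V_mul,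
    U_V_mul]
  ring

lemma ps_UU (v : Fin 4 → K) : ps (UU v) = - 𝒰 (om v) := by
  funext j
  rw [Pi.neg_apply, 𝒰, ps]
  simp only [UU]
  have h : ∑ i, om v i * Km i j = -(V (Φv j 0) * v 0) + 2 * (V (Φv j 1) * v 1) -
      2 * (V (Φv j 2) * v 2) + V (Φv j 3) * v 3 := by
    rw [VΦ0, VΦ1, VΦ2, VΦ3]
    simp only [Sv, om_eq, Fin.sum_univ_four]
    ring
  rw [← map_sum, h, map_add, map_sub, map_add, map_neg, U_two_mul, U_two_mul, U_V_mul, U_V_mul,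
    U_V_mul, U_V_mul]
  ring

/-- the vector of the theta coefficients -/
def hv : Fin 4 → K := Hb

lemma x2A2 : x ^ 2 * A2 = η ^ 12 := by
  have h1 := η_ne
  have h2 := Vη_ne
  rw [x, A2]
  field_simp

lemma ps_hv (l : Fin 4) : ps hv l = if l = 3 then ((-5 / 12 : ℚ) : K) * (x ^ 2 * A2) else 0 := by
  have p0 := pair0
  have p1 := pair1
  have p2 := pair2
  have p3 := pair3
  have q1 : ∀ r, Φ1 r = θ (th r) - p / 24 * th r := fun r => rfl
  have q2 : ∀ r, Φ2 r = θ (θ (th r)) - p / 4 * θ (th r) +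
      (-θ p / 24 + 5 * p ^ 2 / 576 - e4 / 576) * th r := by
    intro r
    rw [Φ2, q1, map_sub, θ_mul, Rot.θ_div_ofNat, Φ0]
    ring
  fin_cases l
  · change ps hv 0 = 0
    simp only [ps, hv]
    exact p0
  · change ps hv 1 = 0
    simp only [ps, hv]
    change Hb 0 * Φ1 0 - 2 * Hb 1 * Φ1 1 + 2 * Hb 2 * Φ1 2 - Hb 3 * Φ1 3 = 0
    rw [q1, q1, q1, q1]
    linear_combination p1 - p / 24 * p0
  · change ps hv 2 = 0
    simp only [ps, hv]
    change Hb 0 * Φ2 0 - 2 * Hb 1 * Φ2 1 + 2 * Hb 2 * Φ2 2 - Hb 3 * Φ2 3 = 0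
    rw [q2, q2, q2, q2]
    linear_combination p2 - p / 4 * p1 + (-θ p / 24 + 5 * p ^ 2 / 576 - e4 / 576) * p0
  · change ps hv 3 = ((-5 / 12 : ℚ) : K) * (x ^ 2 * A2)
    simp only [ps, hv]
    change Hb 0 * Φ3 0 - 2 * Hb 1 * Φ3 1 + 2 * Hb 2 * Φ3 2 - Hb 3 * Φ3 3 = _
    have q3 : ∀ r, Φ3 r = θ (θ (θ (th r))) + (-p / 4 - 9 * p / 24) * θ (θ (th r)) +
        (-θ p / 4 + (-θ p / 24 + 5 * p ^ 2 / 576 - e4 / 576) + 9 * p / 24 * (p / 4) - e4 / 18) * θ (th r) +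
        (θ (-θ p / 24 + 5 * p ^ 2 / 576 - e4 / 576) - 9 * p / 24 * (-θ p / 24 + 5 * p ^ 2 / 576 - e4 / 576)
          + e4 / 18 * (p / 24) + e6 / 3456) * th r := by
      intro r
      rw [Φ3, q2, q1, Φ0, map_add, map_sub, θ_mul, θ_mul, Rot.θ_div_ofNat]
      ring
    rw [q3, q3, q3, q3, x2A2]
    push_cast
    linear_combination p3 + (-p / 4 - 9 * p / 24) * p2 +
      (-θ p / 4 + (-θ p / 24 + 5 * p ^ 2 / 576 - e4 / 576) + 9 * p / 24 * (p / 4) - e4 / 18) * p1 +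
      (θ (-θ p / 24 + 5 * p ^ 2 / 576 - e4 / 576) - 9 * p / 24 * (-θ p / 24 + 5 * p ^ 2 / 576 - e4 / 576)
          + e4 / 18 * (p / 24) + e6 / 3456) * p0

lemma 𝒰_neg (f : Fin 4 → K) : 𝒰 (-f) = - 𝒰 f := by
  have := 𝒰_smul (-1) f
  rwa [neg_one_smul, neg_one_smul] at this

lemma om_iter (n : ℕ) : om (UU^[2 * n + 1] hv) = ((-1 : ℚ) ^ n) • (𝒰^[2 * n + 1] (ps hv)) := by
  induction n with
  | zero => simpa using om_UU hv
  | succ n ih =>
    have h1 : UU^[2 * (n + 1) + 1] hv = UU (UU (UU^[2 * n + 1] hv)) := by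
      rw [show 2 * (n + 1) + 1 = (2 * n + 1) + 1 + 1 by ring, Function.iterate_succ_apply',
        Function.iterate_succ_apply']
    have h2 : 𝒰^[2 * (n + 1) + 1] (ps hv) = 𝒰 (𝒰 (𝒰^[2 * n + 1] (ps hv))) := by
      rw [show 2 * (n + 1) + 1 = (2 * n + 1) + 1 + 1 by ring, Function.iterate_succ_apply',
        Function.iterate_succ_apply']
    rw [h1, om_UU, ps_UU, ih, 𝒰_smul, 𝒰_neg, 𝒰_smul, h2, pow_succ]
    module

lemma om_add (f g : Fin 4 → K) : om (f + g) = om f + om g := by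
  funext l
  rw [Pi.add_apply, om_eq, om_eq, om_eq]
  simp only [Pi.add_apply]
  ring

lemma om_smul (c : ℚ) (f : Fin 4 → K) : om (c • f) = c • om f := by
  funext l
  rw [Pi.smul_apply, Rat.smul_def, om_eq, om_eq]
  simp only [Pi.smul_apply, Rat.smul_def]
  ring

theorem main_K (n : ℕ) : ∃ y : ℚ, D7 0 y ∧ ∀ r,
    Int7 (n + 1) ((UU^[2 * n + 3] hv) r - (y : K) * (UU^[2 * n + 1] hv) r) := by
  have hU : U7 (-5 / 12 : ℚ) := ⟨-1, by norm_num, by decide +kernel⟩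
  obtain ⟨-, x0, hx0, s, hs, e⟩ := iter_lemma 𝒰 𝒰_add 𝒰_smul MemM MemN (fun f g => MemN.add)
    (fun c f hc hf => MemN.smul c hc hf) 𝒰_NM vv (ps hv) memN_vv 𝒰_MN 𝒰𝒰v
    (𝒰h (ps hv) (-5 / 12) hU ps_hv) n
  refine ⟨-x0, hx0.d0.neg, ?_⟩
  set g : Fin 4 → K := UU^[2 * n + 3] hv + x0 • UU^[2 * n + 1] hv with hg
  have h1 : om g = (((-1 : ℚ) ^ (n + 1)) * 7 ^ (n + 1)) • s := by
    have o1 := om_iter (n + 1)
    have o2 := om_iter n
    rw [show 2 * (n + 1) + 1 = 2 * n + 3 by ring] at o1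
    rw [hg, om_add, om_smul, o1, o2, e, pow_succ]
    module
  have h2 : ∀ l, Int7 (n + 1) (J (fv g) (Φv l)) := by
    intro l m
    have h3 : J (fv g) (Φv l) = ((((-1 : ℚ) ^ (n + 1)) * 7 ^ (n + 1) : ℚ) : K) * s l := by
      have := congrFun h1 l
      rw [Pi.smul_apply, Rat.smul_def] at this
      exact this
    rw [h3, coeff_ratCast_mul]
    have a1 : D7 0 ((-1 : ℚ) ^ (n + 1)) := by
      have := D7_int (a := 0) (n := (-1) ^ (n + 1)) (by simp)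
      push_cast at this
      exact this
    have := (a1.mul (D7_pow (n + 1))).mul (int7_memN s hs l m)
    exact this.mono (by omega)
  have h4 := extract (n + 1) (fv g) h2
  have half : D7 0 (1 / 2 : ℚ) := by decide +kernel
  have key : ∀ r, Int7 (n + 1) (g r) := by
    intro r m
    fin_cases r
    · have := h4 2 m
      change D7 _ ((-(g 0)).coeff m) at this
      rw [coeff_neg] at this
      have := this.neg
      rwa [neg_neg] at this
    · have := h4 3 m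
      change D7 _ ((-(2 * g 1)).coeff m) at this
      rw [coeff_neg, two_mul, coeff_add] at this
      have h5 := (half.mul this.neg)
      rw [zero_add, neg_neg] at h5
      convert h5 using 1
      change (g 1).coeff m = _
      ring
    · have := h4 0 m
      change D7 _ ((2 * g 2).coeff m) at this
      rw [two_mul, coeff_add] at this
      have h5 := (half.mul this)
      rw [zero_add] at h5
      convert h5 using 1
      change (g 2).coeff m = _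
      ring
    · exact h4 1 m
  intro r
  have h5 := key r
  rw [hg, Pi.add_apply, Pi.smul_apply, Rat.smul_def] at h5
  have h6 : (UU^[2 * n + 3] hv) r - ((-x0 : ℚ) : K) * (UU^[2 * n + 1] hv) r =
      (UU^[2 * n + 3] hv) r + (x0 : K) * (UU^[2 * n + 1] hv) r := by push_cast; ring
  rw [h6]
  exact h5

lemma UU_coeff (n : ℕ) (u : Fin 4 → K) (r : Fin 4) (m : ℤ) :
    ((UU^[n] u) r).coeff m = (u r).coeff (7 ^ n * m) := by
  induction n generalizing m with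
  | zero => simp
  | succ n ih =>
    rw [Function.iterate_succ_apply', UU, U_coeff, ih]
    congr 1
    ring

lemma Hb_coeff (b : Fin 4) (n : ℤ) :
    (Hb b).coeff (24 * n + 12 - 2 * ((b : ℕ) : ℤ) ^ 2) = (cpsi 6 ((b : ℕ) : ℤ) n : ℚ) := by
  rw [Hb, wp_mul_coeff]
  rw [show 24 * n + 12 - 2 * ((b : ℕ) : ℤ) ^ 2 - (12 - 2 * ((b : ℕ) : ℤ) ^ 2) = 24 * n by ring]
  rcases lt_or_ge n 0 with h | h
  · rw [ι_coeff_neg _ _ (by omega), cpsi, if_pos h]
    simp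
  · obtain ⟨m, rfl⟩ := Int.eq_ofNat_of_zero_le h
    rw [ι_coeff_mul, PowerSeries.coeff_mk]

lemma D7.approx {y : ℚ} (hy : D7 0 y) (a : ℕ) : ∃ X : ℤ, D7 a (y - X) := by
  have h7 : ¬ 7 ∣ y.den := by
    have := hy
    unfold D7 at this
    simpa using this
  have hcop : Nat.Coprime y.den (7 ^ a) :=
    Nat.Coprime.pow_right _ ((Nat.Prime.coprime_iff_not_dvd (by norm_num)).mpr h7).symm
  have hg := Nat.gcd_eq_gcd_ab y.den (7 ^ a)
  rw [hcop.gcd_eq_one] at hg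
  set b := Nat.gcdA y.den (7 ^ a)
  set c := Nat.gcdB y.den (7 ^ a)
  refine ⟨y.num * b, ?_⟩
  have h1 : y - ((y.num * b : ℤ) : ℚ) = ((7 ^ a * c : ℤ) : ℚ) * y := by
    have h2 : (1 : ℚ) = y.den * b + 7 ^ a * c := by exact_mod_cast hg
    have h3 : y * y.den = y.num := Rat.mul_den_eq_num y
    push_cast
    linear_combination y * h2 + b * h3
  rw [h1]
  have := (D7_int (a := a) (n := 7 ^ a * c) (dvd_mul_right _ _)).mul hy
  exact this

lemma D7_int_dvd {a : ℕ} {n : ℤ} (h : D7 a (n : ℚ)) : (7 : ℤ) ^ a ∣ n := by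
  unfold D7 at h
  set y : ℚ := (n : ℚ) / 7 ^ a with hy
  have h1 : y.den ∣ 7 ^ a := by
    have := Rat.den_dvd n (7 ^ a)
    rw [Rat.divInt_eq_div] at this
    push_cast at this
    rw [← hy] at this
    exact_mod_cast this
  have h2 : y.den = 1 := by
    obtain ⟨k, hk, e⟩ := (Nat.dvd_prime_pow (by norm_num)).mp h1
    rcases Nat.eq_zero_or_pos k with h0 | h0
    · rw [e, h0, pow_zero]
    · exfalso
      apply h
      rw [e]
      exact dvd_pow_self 7 (by omega)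
  have h3 : y = y.num := (Rat.den_eq_one_iff y).mp h2 ▸ rfl
  refine ⟨y.num, ?_⟩
  have h4 : (n : ℚ) = 7 ^ a * y := by rw [hy]; field_simp
  rw [h3] at h4
  exact_mod_cast h4

/-- The congruences modulo powers of 7. -/
theorem congruence (α : ℕ) (hα : 1 ≤ α) : ∃ X : ℤ, ∀ β : Fin 4, ∀ n : ℤ,
    12 * n ≡ ((β : ℕ) : ℤ) ^ 2 - 6 [ZMOD 7 ^ (2 * α - 1)] →
    cpsi 6 ((β : ℕ) : ℤ) (49 * n + 24 - 4 * ((β : ℕ) : ℤ) ^ 2) ≡
      X * cpsi 6 ((β : ℕ) : ℤ) n [ZMOD 7 ^ α] := by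
  obtain ⟨k, rfl⟩ : ∃ k, α = k + 1 := ⟨α - 1, by omega⟩
  obtain ⟨y, hy, hK⟩ := main_K k
  obtain ⟨X, hX⟩ := hy.approx (k + 1)
  refine ⟨X, fun β n hn => ?_⟩
  rw [show 2 * (k + 1) - 1 = 2 * k + 1 by omega] at hn
  obtain ⟨m, hm⟩ := Int.modEq_iff_dvd.mp hn
  have h1 := hK β (-(2 * m))
  have e1 : (7 : ℤ) ^ (2 * k + 1) * (-(2 * m)) = 24 * n + 12 - 2 * ((β : ℕ) : ℤ) ^ 2 := by
    linear_combination 2 * hm
  have e2 : (7 : ℤ) ^ (2 * k + 3) * (-(2 * m)) =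
      24 * (49 * n + 24 - 4 * ((β : ℕ) : ℤ) ^ 2) + 12 - 2 * ((β : ℕ) : ℤ) ^ 2 := by
    rw [show 2 * k + 3 = (2 * k + 1) + 2 by ring, _root_.pow_add]
    linear_combination 98 * hm
  rw [coeff_sub, coeff_ratCast_mul, UU_coeff, UU_coeff, e1, e2, hv, Hb_coeff, Hb_coeff] at h1
  have h2 : D7 0 ((cpsi 6 ((β : ℕ) : ℤ) n : ℤ) : ℚ) := D7_int (by simp)
  have h3 := h1.add (by simpa using hX.mul h2)
  have h4 : D7 (k + 1) (((cpsi 6 ((β : ℕ) : ℤ) (49 * n + 24 - 4 * ((β : ℕ) : ℤ) ^ 2) -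
      X * cpsi 6 ((β : ℕ) : ℤ) n : ℤ)) : ℚ) := by
    convert h3 using 1
    push_cast
    ring
  exact (Int.modEq_iff_dvd.mpr (D7_int_dvd h4)).symm

end

end Pool.Agent.Lib.MP_fad775_nt
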