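import Mathlib
import Pool.Agent.Lib.MP_fad775_nt.CPsi

/-!
# MP_fad775_nt: the generating function `F_k` and the numbers `cψ_{k,β}(n)`
-/

namespace Pool.Agent.Lib.MP_fad775_nt

open PowerSeries LaurentPolynomial
open scoped PowerSeries.WithPiTopology

noncomputable section

/-- Euler's infinite product `∏_{j ≥ 1} (1 - q^j)` in `ℤ[[q]]` (with `q = X`). -/
def eulerProduct : ℤ⟦X⟧ := ∏' j : ℕ, (1 - X ^ (j + 1))

/-- The series `F_k = (∑_{m ∈ ℤ} q^{m(m+1)/2} ζ^{m+1/2})^k / ∏_{j ≥ 1} (1 - q^j)^k`, a power series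
in `q = X` whose coefficients are Laurent polynomials in `T = ζ^{1/2}`. -/
def genF (k : ℕ) : (LaurentPolynomial ℤ)⟦X⟧ :=
  thetaSeries ^ k * PowerSeries.map LaurentPolynomial.C (PowerSeries.invOfUnit eulerProduct 1) ^ k

/-- `cψ_{k,β}(n)`, the coefficient of `q^n ζ^β = q^n T^{2β}` in `F_k` if `n ≥ 0`, and `0` if
`n < 0`. -/
def cψ (k : ℕ) (β n : ℤ) : ℤ :=
  if n < 0 then 0 else (PowerSeries.coeff n.toNat (genF k)).coeff (2 * β)

/-- finite products -/
def ePZ (n : ℕ) : ℤ⟦X⟧ := ∏ i ∈ Finset.range n, (1 - X ^ (i + 1))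

theorem ePZ_succ (n : ℕ) : ePZ (n + 1) = ePZ n * (1 - X ^ (n + 1)) := Finset.prod_range_succ ..

theorem ePZ_stable {N k : ℕ} (h : N ≤ k) : (X : ℤ⟦X⟧) ^ (N + 1) ∣ ePZ k - ePZ N := by
  induction k, h using Nat.le_induction with
  | base => simp
  | succ k hk ih =>
    rw [ePZ_succ]
    have h2 : ePZ k * (1 - X ^ (k + 1)) - ePZ N
        = (ePZ k - ePZ N) - X ^ (N + 1) * (X ^ (k - N) * ePZ k) := by
      have : (X : ℤ⟦X⟧) ^ (k + 1) = X ^ (N + 1) * X ^ (k - N) := by
        rw [← pow_add]; congr 1; omega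
      rw [this]; ring
    rw [h2]; exact dvd_sub ih (dvd_mul_right _ _)

theorem eulerProduct_eq : eulerProduct = pentagonalSeries ℤ :=
  PowerSeries.WithPiTopology.tprod_one_sub_X_pow ℤ

theorem ePZ_eulerProduct (N : ℕ) : (X : ℤ⟦X⟧) ^ (N + 1) ∣ eulerProduct - ePZ N := by
  rw [eulerProduct_eq, X_pow_dvd_iff]
  intro m hm
  have h := coeff_prod_one_sub_X_pow_eventually_eq ℤ m
  obtain ⟨s0, hs0⟩ := Filter.eventually_atTop.1 h
  set k := max N (s0.sup id + 1) with hk
  have hsub : s0 ≤ Finset.range k := by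
    intro x hx
    have : x ≤ s0.sup id := Finset.le_sup (f := id) hx
    simp only [Finset.mem_range, hk]; omega
  have h1 := hs0 _ hsub
  have h2 := (X_pow_dvd_iff.1 (ePZ_stable (N := N) (k := k) (le_max_left _ _))) m hm
  have h3 : coeff m (ePZ k) = coeff m (pentagonalSeries ℤ) := h1
  rw [map_sub] at h2 ⊢
  rw [← h3]; exact h2

lemma eulerProduct_ct : PowerSeries.constantCoeff eulerProduct = 1 := by
  rw [eulerProduct_eq]
  have := PowerSeries.coeff_pentagonalSeries_pentagonal ℤ 0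
  rw [pentagonal_def] at this
  simpa using this

lemma ePZ_ct (N : ℕ) : PowerSeries.constantCoeff (ePZ N) = 1 := by
  rw [ePZ, map_prod]
  refine Finset.prod_eq_one fun i _ => ?_
  simp

theorem coeff_genF (k n : ℕ) : PowerSeries.coeff n (genF k) = coeffF k n := by
  have h1 : eulerProduct * PowerSeries.invOfUnit eulerProduct 1 = 1 :=
    PowerSeries.mul_invOfUnit _ _ (by rw [eulerProduct_ct]; rfl)
  have h2 : ePZ n * eulerInv n = 1 := PowerSeries.mul_invOfUnit _ _ (by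
    change PowerSeries.constantCoeff (ePZ n) = _
    rw [ePZ_ct]; rfl)
  have h3 : (X : ℤ⟦X⟧) ^ (n + 1) ∣ PowerSeries.invOfUnit eulerProduct 1 - eulerInv n := by
    have e : PowerSeries.invOfUnit eulerProduct 1 - eulerInv n =
        (eulerProduct - ePZ n) * (-(PowerSeries.invOfUnit eulerProduct 1 * eulerInv n)) := by
      linear_combination (-(PowerSeries.invOfUnit eulerProduct 1)) * h2 + eulerInv n * h1
    rw [e]
    exact Dvd.dvd.mul_right (ePZ_eulerProduct n) _
  have h4 : (X : (LaurentPolynomial ℤ)⟦X⟧) ^ (n + 1) ∣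
      PowerSeries.map LaurentPolynomial.C (PowerSeries.invOfUnit eulerProduct 1) -
      PowerSeries.map LaurentPolynomial.C (eulerInv n) := by
    rw [← map_sub]
    obtain ⟨c, hc⟩ := h3
    rw [hc, map_mul, map_pow, PowerSeries.map_X]
    exact dvd_mul_right _ _
  have h5 : (X : (LaurentPolynomial ℤ)⟦X⟧) ^ (n + 1) ∣ genF k -
      thetaSeries ^ k * PowerSeries.map LaurentPolynomial.C (eulerInv n) ^ k := by
    rw [genF, ← mul_sub]
    exact Dvd.dvd.mul_left (h4.trans (sub_dvd_pow_sub_pow _ _ k)) _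
  have h6 := (X_pow_dvd_iff.1 h5) n (Nat.lt_succ_self n)
  rw [map_sub, sub_eq_zero] at h6
  exact h6

theorem cψ_eq (k : ℕ) (β n : ℤ) : cψ k β n = cpsi k β n := by
  unfold cψ cpsi
  rw [coeff_genF]

end

end Pool.Agent.Lib.MP_fad775_nt
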